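import Pool.Agent.Run7.h661.X.Curve2

/-!
# The sector condition for flows of angles
-/

open Set Filter Topology
open scoped Real ContDiff

namespace Run7.h661x

variable {T : ℝ} {a : AFd}

/-- drift -/
noncomputable def AFd.bd (a : AFd) (i : Fin 3) (t p : ℝ) : ℝ :=
  a.lm i t p * (a.ro i t p)⁻¹ - 2 * ((a.L i t - a.L 0 t) * (a.ro i t p)⁻¹ ^ 3)

section
variable (A : AF T a)
include A

lemma AF.V_eq (i : Fin 3) {t : ℝ} (ht : t ∈ Ioo 0 T) {p : ℝ} (hp : p ∈ Icc (0:ℝ) 1) :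
    a.V i t p = (a.ro i t p)⁻¹ ^ 2 * a.E i t p + a.bd i t p * a.D i t p := by
  have h0 := (A.pos i t ht p hp).ne'
  rw [AFd.E, AFd.bd]
  field_simp
  ring

lemma AF.cbd (i : Fin 3) : ContinuousOn (fun q : ℝ × ℝ => a.bd i q.1 q.2) (Ioo 0 T ×ˢ Icc 0 1) := by
  have hi := A.rroi i 0 0
  have h : RG T (Icc 0 1) 0 0 (a.bd i) :=
    (((A.reg 0 i 0).2.2.mul hi).sub ((RG.const 2 0 0).mul
        (((A.rL i 0 0).sub (A.rL 0 0 0)).mul ((hi.mul hi).mul hi)))).congr (fun t ht p hp => by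
          rw [AFd.bd]; ring)
  exact h.ct.cont

/-- extension with two-sided derivatives -/
lemma AF.ext_th (i : Fin 3) : ∃ E : ℝ → ℝ → ℝ,
    ContinuousOn (fun q : ℝ × ℝ => E q.1 q.2) (Ioo 0 T ×ˢ univ) ∧
    (∀ t ∈ Ioo 0 T, ∀ p ∈ Icc (0:ℝ) 1, E t p = a.th i t p) ∧
    (∀ t ∈ Ioo 0 T, ∀ p ∈ Icc (0:ℝ) 1, HasDerivAt (E t) (a.D i t p) p) := by
  have hx : RGA T (Icc 0 1) 1 (a.th i) := fun m => (A.reg 1 i m).1
  obtain ⟨E, h1, h2⟩ := hx.extend
  obtain ⟨F', f1, f2⟩ := h1.ex_dp dom_univ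
  refine ⟨E, (h1 0).ct.cont, fun t ht p hp => h2 t p hp ht, fun t ht p hp => ?_⟩
  have d1 : HasDerivAt (E t) (F' t p) p := (f2 t ht p (mem_univ p)).hasDerivAt univ_mem
  have d2 : HasDerivWithinAt (E t) (a.D i t p) (Icc 0 1) p :=
    (A.pth i t ht p hp).congr (fun q hq => h2 t q hq ht) (h2 t p hp ht)
  rwa [(uniqueDiffOn_Icc zero_lt_one p hp).eq_deriv _ d1.hasDerivWithinAt d2] at d1

lemma AF.bds {s t1 : ℝ} (hs : 0 < s) (ht1 : t1 < T) : ∃ C : ℝ, ∀ i, ∀ t ∈ Icc s t1,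
    ∀ p ∈ Icc (0:ℝ) 1, (a.ro i t p)⁻¹ ^ 2 ≤ C ∧ |a.bd i t p| ≤ C := by
  have hsub : Icc s t1 ×ˢ Icc (0:ℝ) 1 ⊆ Ioo 0 T ×ˢ Icc 0 1 := prod_mono
    (fun x hx => ⟨hs.trans_le hx.1, hx.2.trans_lt ht1⟩) (Subset.refl _)
  have hK : IsCompact (Icc s t1 ×ˢ Icc (0:ℝ) 1) := isCompact_Icc.prod isCompact_Icc
  have h : ∀ i, ∃ C, ∀ q ∈ Icc s t1 ×ˢ Icc (0:ℝ) 1, (a.ro i q.1 q.2)⁻¹ ^ 2 ≤ C ∧
      |a.bd i q.1 q.2| ≤ C := by
    intro i
    obtain ⟨C1, h1⟩ := hK.exists_bound_of_continuousOn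
      (((A.rroi i 0 0).ct.cont.pow 2).mono hsub)
    obtain ⟨C2, h2⟩ := hK.exists_bound_of_continuousOn ((A.cbd i).mono hsub)
    refine ⟨max C1 C2, fun q hq => ⟨?_, ?_⟩⟩
    · exact ((le_abs_self _).trans (h1 q hq)).trans (le_max_left _ _)
    · exact (h2 q hq).trans (le_max_right _ _)
  choose C hC using h
  refine ⟨max (max (C 0) (C 1)) (C 2), fun i t ht p hp => ?_⟩
  have h1 := hC i (t, p) ⟨ht, hp⟩
  have h2 : C i ≤ max (max (C 0) (C 1)) (C 2) := by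
    fin_cases i
    · exact (le_max_left _ _).trans (le_max_left _ _)
    · exact (le_max_right _ _).trans (le_max_left _ _)
    · exact le_max_right _ _
  exact ⟨h1.1.trans h2, h1.2.trans h2⟩

/-- maximum principle for an affine function of the angle -/
theorem AF.max_th (c d : ℝ) (h0 : d ≤ 0) (h1 : c * (π / 3) + d ≤ 0)
    (hinit : ∀ ε > 0, ∀ᶠ s in 𝓝[>] (0:ℝ), ∀ i, ∀ p ∈ Icc (0:ℝ) 1, c * a.th i s p + d ≤ ε) :
    ∀ i, ∀ t ∈ Ioo 0 T, ∀ p ∈ Icc (0:ℝ) 1, c * a.th i t p + d ≤ 0 := by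
  intro i0 t1 ht1 p1 hp1
  choose E hE1 hE2 hE3 using A.ext_th
  have hmem : ∀ τ ∈ Ioc 0 t1, τ ∈ Ioo 0 T := fun τ hτ => ⟨hτ.1, hτ.2.trans_lt ht1.2⟩
  have hoc : Ioo (0:ℝ) 1 ⊆ Icc 0 1 := Ioo_subset_Icc_self
  choose! C hC using fun s (hs : 0 < s) => A.bds hs ht1.2
  have key := Run7.h661y.star_max0 (t1 := t1) (u := fun i t p => c * E i t p + d)
    (up := fun i t p => c * a.D i t p) (upp := fun i t p => c * a.E i t p)
    (ut := fun i t p => c * a.V i t p) (a := fun i t p => (a.ro i t p)⁻¹ ^ 2)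
    (b := fun i t p => a.bd i t p) (K := 0) (A := C)
    (fun i => ((continuousOn_const.mul ((hE1 i).mono (prod_mono hmem (subset_univ _)))).add
      continuousOn_const))
    (fun i t ht p hp => ((hE3 i t (hmem t ht) p hp).const_mul c).add_const d)
    (fun i t ht p hp => (((A.pD i t (hmem t ht) p (hoc hp)).hasDerivAt
      (Icc_mem_nhds hp.1 hp.2)).const_mul c))
    (fun i t ht p hp => by
      have h2 : HasDerivAt (fun s => E i s p) (a.V i t p) t := by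
        refine (A.tth i t (hmem t ht) p (hoc hp)).congr_of_eventuallyEq ?_
        filter_upwards [Ioo_mem_nhds (hmem t ht).1 (hmem t ht).2] with s hs
        exact hE2 i s hs p (hoc hp)
      exact (h2.const_mul c).add_const d)
    (fun s hs i t ht p hp => ⟨⟨by positivity, (hC s hs i t ht p (hoc hp)).1⟩,
      (hC s hs i t ht p (hoc hp)).2⟩)
    (fun i t ht p hp _ => by
      rw [A.V_eq i (hmem t ht) (hoc hp)]
      apply le_of_eq; ring)
    (fun ε hε => by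
      have hT : ∀ᶠ s in 𝓝[>] (0:ℝ), s ∈ Ioo 0 T := Ioo_mem_nhdsGT (ht1.1.trans ht1.2)
      filter_upwards [hinit ε hε, hT] with s hs hsT i p hp
      rw [hE2 i s hsT p hp]; exact hs i p hp)
    (fun t ht => Or.inr ⟨fun i j => by
        rw [hE2 i t (hmem t ht) 0 ⟨le_refl _, zero_le_one⟩,
          hE2 j t (hmem t ht) 0 ⟨le_refl _, zero_le_one⟩, A.jth t (hmem t ht) i j],
      fun _ => 1, fun _ => one_pos, by
        rw [show ∑ i, (1:ℝ) * (c * a.D i t 0) = c * ∑ i, a.D i t 0 by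
          rw [Finset.mul_sum]; exact Finset.sum_congr rfl (fun i _ => by ring), A.jD t (hmem t ht)]
        simp⟩)
    (fun i t ht => by
      have e := hE2 i t (hmem t ht) 1 ⟨zero_le_one, le_refl _⟩
      fin_cases i
      · left
        simp only [Fin.zero_eta] at e ⊢
        rw [e, (A.e0 t (hmem t ht)).1]; linarith
      · left
        simp only [Fin.mk_one] at e ⊢
        rw [e, (A.e1 t (hmem t ht)).1]; linarith
      · right
        show c * a.D 2 t 1 ≤ 0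
        rw [(A.e2 t (hmem t ht)).1]; simp)
  have := key i0 t1 ⟨ht1.1, le_refl _⟩ p1 hp1
  rwa [hE2 i0 t1 ht1 p1 hp1] at this

/-- the sector condition -/
theorem AF.sector (hinit : ∀ ε > 0, ∀ᶠ s in 𝓝[>] (0:ℝ), ∀ i, ∀ p ∈ Icc (0:ℝ) 1,
    -ε ≤ a.th i s p ∧ a.th i s p ≤ π / 3 + ε) :
    ∀ i, ∀ t ∈ Ioo 0 T, ∀ p ∈ Icc (0:ℝ) 1, 0 ≤ a.th i t p ∧ a.th i t p ≤ π / 3 := by
  intro i t ht p hp
  have hpi := Real.pi_pos
  have h1 := A.max_th 1 (-(π / 3)) (by linarith) (by linarith) (fun ε hε => by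
    filter_upwards [hinit ε hε] with s hs i p hp
    have := (hs i p hp).2
    linarith) i t ht p hp
  have h2 := A.max_th (-1) 0 (le_refl _) (by linarith) (fun ε hε => by
    filter_upwards [hinit ε hε] with s hs i p hp
    have := (hs i p hp).1
    linarith) i t ht p hp
  constructor <;> linarith

end

end Run7.h661x
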