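import Pool.Agent.Run7.h661.X.Lim3

/-!
# Estimates near the initial time
-/

open Set Filter Topology Finset
open scoped Real

namespace Run7.h661x

lemma antitone_Icc {f f' : ℝ → ℝ} {a b : ℝ}
    (hf : ∀ x ∈ Set.Icc a b, HasDerivWithinAt f (f' x) (Set.Icc a b) x)
    (hn : ∀ x ∈ Set.Icc a b, f' x ≤ 0) (hab : a ≤ b) : f b ≤ f a := by
  have : AntitoneOn f (Set.Icc a b) := by
    apply antitoneOn_of_hasDerivWithinAt_nonpos (f' := f') (convex_Icc a b)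
    · exact fun x hx => (hf x hx).continuousWithinAt
    · intro x hx
      exact (hf x (interior_subset hx)).mono interior_subset
    · intro x hx
      exact hn x (interior_subset hx)
  exact this ⟨le_refl _, hab⟩ ⟨hab, le_refl _⟩ hab

/-- constant in the bound of the velocity -/
noncomputable def C3 (m Λ p : ℝ) : ℝ :=
  2 * m ^ 4 + 2 * p ^ 2 * (128 * m ^ 4 * (p ^ 2 + p) + 2 * (3 * m ^ 2 * p ^ 2 + 2 * Λ * m ^ 3) ^ 2)

lemma VV_sum {N : ℕ} {s : DS ℂ} {m Λ p : ℝ} (H : Bd N s m Λ p) :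
    ∑ i, ∑ j ∈ range (N - 1), (1 / (N : ℝ)) * ‖VV N s i j‖ ^ 2 ≤ C3 m Λ p * (1 + QQ N s) := by
  have hN0 := N_pos H.N2
  have hm := H.m0
  have hΛ := H.Λ0
  have hp := H.p0
  set q := √(QQ N s) with hq
  have hq2 : q ^ 2 = QQ N s := Real.sq_sqrt QQ_nonneg
  have hq0 : 0 ≤ q := Real.sqrt_nonneg _
  set g := gg N s p with hg
  have hgb := H.gg_bound
  have hg0 : 0 ≤ g := H.g_nonneg hgb
  have hg2 := H.gg_sq
  set β := (8 * (g * m) + 3 * (m * p ^ 2)) * m + 2 * (Λ * m ^ 3) with hβ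
  have hβ0 : 0 ≤ β := by positivity
  have hterm : ∀ i, ∀ j ∈ range (N - 1), (1 / (N : ℝ)) * ‖VV N s i j‖ ^ 2 ≤
      2 * m ^ 4 * ((1 / (N : ℝ)) * ‖dE N s i j‖ ^ 2) +
      2 * β ^ 2 * ((1 / (N : ℝ)) * ‖dD N s i j‖ ^ 2) := by
    intro i j hj
    have hj' := Finset.mem_range.1 hj
    have a1 : ‖VV N s i j‖ ≤ m ^ 2 * ‖dE N s i j‖ + β * ‖dD N s i j‖ := by
      rw [VV]
      refine (norm_add_le _ _).trans ?_
      rw [norm_mul, norm_mul, norm_mul]
      have b1 := H.R i (j + 1) (by omega)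
      have b2 := H.bb_le hgb i (j := j) (by omega)
      have b3 : ‖s.R i (j + 1)‖ * ‖s.R i (j + 1)‖ ≤ m ^ 2 := by
        rw [sq]; exact mul_le_mul b1 b1 (norm_nonneg _) hm
      exact add_le_add (mul_le_mul_of_nonneg_right b3 (norm_nonneg _))
        (mul_le_mul_of_nonneg_right b2 (norm_nonneg _))
    have a2 : ‖VV N s i j‖ ^ 2 ≤ 2 * m ^ 4 * ‖dE N s i j‖ ^ 2 + 2 * β ^ 2 * ‖dD N s i j‖ ^ 2 := by
      have := pow_le_pow_left₀ (norm_nonneg _) a1 2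
      nlinarith [sq_nonneg (m ^ 2 * ‖dE N s i j‖ - β * ‖dD N s i j‖)]
    have hN1 : 0 ≤ 1 / (N:ℝ) := by positivity
    have a3 := mul_le_mul_of_nonneg_left a2 hN1
    linarith
  have hPs : ∑ i, ∑ j ∈ range (N - 1), (1 / (N : ℝ)) * ‖dD N s i j‖ ^ 2 ≤ p ^ 2 := by
    refine le_trans ?_ H.P
    apply Finset.sum_le_sum
    intro i _
    apply Finset.sum_le_sum_of_subset_of_nonneg
    · exact Finset.range_mono (by omega)
    · intro j _ _; positivity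
  have hβ2 : β ^ 2 ≤ (128 * m ^ 4 * (p ^ 2 + p) + 2 * (3 * m ^ 2 * p ^ 2 + 2 * Λ * m ^ 3) ^ 2) *
      (1 + q ^ 2) := by
    have e1 : β ^ 2 ≤ 128 * m ^ 4 * g ^ 2 + 2 * (3 * m ^ 2 * p ^ 2 + 2 * Λ * m ^ 3) ^ 2 := by
      have : β = 8 * m ^ 2 * g + (3 * m ^ 2 * p ^ 2 + 2 * Λ * m ^ 3) := by rw [hβ]; ring
      rw [this]
      nlinarith [sq_nonneg (8 * m ^ 2 * g - (3 * m ^ 2 * p ^ 2 + 2 * Λ * m ^ 3))]
    have e2 : g ^ 2 ≤ (p ^ 2 + p) * (1 + q ^ 2) := by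
      rw [hg2]
      nlinarith [sq_nonneg (q - 1), mul_nonneg hp (sq_nonneg (q - 1)), sq_nonneg (p * q)]
    have e3 := mul_le_mul_of_nonneg_left e2 (by positivity : 0 ≤ 128 * m ^ 4)
    have e4 : 0 ≤ 2 * (3 * m ^ 2 * p ^ 2 + 2 * Λ * m ^ 3) ^ 2 * q ^ 2 := by positivity
    nlinarith
  calc ∑ i, ∑ j ∈ range (N - 1), (1 / (N : ℝ)) * ‖VV N s i j‖ ^ 2
      ≤ ∑ i, ∑ j ∈ range (N - 1), (2 * m ^ 4 * ((1 / (N : ℝ)) * ‖dE N s i j‖ ^ 2) +
      2 * β ^ 2 * ((1 / (N : ℝ)) * ‖dD N s i j‖ ^ 2)) :=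
        Finset.sum_le_sum (fun i _ => Finset.sum_le_sum (fun j hj => hterm i j hj))
    _ = 2 * m ^ 4 * QQ N s + 2 * β ^ 2 * ∑ i, ∑ j ∈ range (N - 1),
        (1 / (N : ℝ)) * ‖dD N s i j‖ ^ 2 := by
        simp only [Finset.sum_add_distrib, QQ, Finset.mul_sum]
    _ ≤ 2 * m ^ 4 * QQ N s + 2 * β ^ 2 * p ^ 2 := by
        have := mul_le_mul_of_nonneg_left hPs (by positivity : 0 ≤ 2 * β ^ 2)
        linarith
    _ ≤ C3 m Λ p * (1 + QQ N s) := by
        rw [C3, ← hq2]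
        have h1 := mul_le_mul_of_nonneg_right hβ2 (by positivity : 0 ≤ 2 * p ^ 2)
        have h2 : 0 ≤ 2 * m ^ 4 := by positivity
        nlinarith

lemma C3_nonneg {m Λ p : ℝ} (hp : 0 ≤ p) : 0 ≤ C3 m Λ p := by unfold C3; positivity

/-- `L²` distance to the initial state -/
noncomputable def VF (N : ℕ) (s s0 : DS ℂ) : ℝ :=
  ∑ i, ∑ j ∈ range (N - 1), (1 / (N : ℝ)) * ‖s.U i (j + 1) - s0.U i (j + 1)‖ ^ 2

lemma VF_nonneg (N : ℕ) (s s0 : DS ℂ) : 0 ≤ VF N s s0 :=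
  sum_nonneg (fun i _ => sum_nonneg (fun j _ => by positivity))

/-- constant of the `L²` estimate -/
noncomputable def C5 (ℓ Λ p0 : ℝ) : ℝ :=
  3 * (C3 (2 / ℓ) Λ (pb p0) / cc Λ * p0 ^ 2 + C3 (2 / ℓ) Λ (pb p0) * (1 + K1 ℓ Λ p0 / cc Λ))

lemma C5_nonneg {ℓ Λ p0 : ℝ} (hΛ : 0 < Λ) : 0 ≤ C5 ℓ Λ p0 := by
  have h1 := C3_nonneg (m := 2 / ℓ) (Λ := Λ) (pb_nonneg p0)
  have h2 := cc_pos hΛ
  have h3 := K1_nonneg (ℓ := ℓ) (p0 := p0) hΛ
  unfold C5; positivity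

theorem Sol.VF_le {N : ℕ} {s : ℝ → DS ℂ} {b ℓ Λ p0 : ℝ} (H : Sol N 1 s 0 b) (hN : 2 ≤ N)
    (hℓ : 0 < ℓ) (hΛ : 0 < Λ) (hI : Init N ℓ Λ p0 (s 0)) (hb : b ≤ tau ℓ Λ p0) :
    ∀ t ∈ Set.Ioc 0 b, VF N (s t) (s 0) ≤ C5 ℓ Λ p0 * t := by
  intro t ht
  have hN0 := N_pos hN
  have hap := H.apriori hN hℓ hΛ hI (e := 1) (by simp) (by linarith)
  have ht0 : 0 < t := ht.1
  have hτ1 : t ≤ 1 := by
    have h1 : tau ℓ Λ p0 ≤ 1 := min_le_left _ _
    linarith [ht.2]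
  have hc := cc_pos hΛ
  set c := cc Λ with hcdef
  set D3 := C3 (2 / ℓ) Λ (pb p0) with hD3
  have hD30 : 0 ≤ D3 := C3_nonneg (pb_nonneg p0)
  set k1 := K1 ℓ Λ p0 with hk1
  have hk10 : 0 ≤ k1 := K1_nonneg hΛ
  have hsub : Set.Icc 0 t ⊆ Set.Icc 0 b := Set.Icc_subset_Icc_right ht.2
  set D4 := D3 * (1 + k1 / c) with hD4
  have hD40 : 0 ≤ D4 := by positivity
  -- derivative of VF
  have hdV : ∀ τ ∈ Set.Icc 0 t, HasDerivWithinAt (fun τ => VF N (s τ) (s 0))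
      (∑ i, ∑ j ∈ range (N - 1), (1 / (N : ℝ)) * (2 * inner ℝ ((s τ).U i (j + 1) -
        (s 0).U i (j + 1)) (1 * fU N (s τ) i (j + 1)))) (Set.Icc 0 t) τ := by
    intro τ hτ
    unfold VF
    apply HasDerivWithinAt.fun_sum
    intro i _
    apply HasDerivWithinAt.fun_sum
    intro j hj
    have hj' := Finset.mem_range.1 hj
    apply HasDerivWithinAt.const_mul
    exact ((((H.U τ (hsub hτ) i (j + 1) (by omega)).mono hsub).sub_const _).norm_sq)
  have hdVle : ∀ τ ∈ Set.Icc 0 t, ∑ i, ∑ j ∈ range (N - 1), (1 / (N : ℝ)) * (2 *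
      inner ℝ ((s τ).U i (j + 1) - (s 0).U i (j + 1)) (1 * fU N (s τ) i (j + 1))) ≤
      VF N (s τ) (s 0) / t + t * (D3 * (1 + QQ N (s τ))) := by
    intro τ hτ
    have B := (hap τ (hsub hτ)).2.2.2.1
    have h1 := VV_sum B
    have h2 : ∀ i, ∀ j ∈ range (N - 1), (1 / (N : ℝ)) * (2 *
      inner ℝ ((s τ).U i (j + 1) - (s 0).U i (j + 1)) (1 * fU N (s τ) i (j + 1))) ≤
      1 / (N:ℝ) * ‖(s τ).U i (j + 1) - (s 0).U i (j + 1)‖ ^ 2 * (1 / t) +
      t * (1 / (N:ℝ) * ‖VV N (s τ) i j‖ ^ 2) := by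
      intro i j hj
      have hj' := Finset.mem_range.1 hj
      have h3 : j + 1 ≠ N := by omega
      have e1 : fU N (s τ) i (j + 1) = VV N (s τ) i j := by simp [fU, h3]
      rw [e1, one_mul]
      set v := (s τ).U i (j + 1) - (s 0).U i (j + 1)
      set w := VV N (s τ) i j
      have h4 : inner ℝ v w ≤ ‖v‖ * ‖w‖ := real_inner_le_norm v w
      have h5 : 2 * (‖v‖ * ‖w‖) ≤ ‖v‖ ^ 2 * (1 / t) + t * ‖w‖ ^ 2 := by
        have : ‖v‖ ^ 2 * (1 / t) + t * ‖w‖ ^ 2 - 2 * (‖v‖ * ‖w‖) = (‖v‖ - t * ‖w‖) ^ 2 / t := by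
          field_simp; ring
        have h6 : 0 ≤ (‖v‖ - t * ‖w‖) ^ 2 / t := by positivity
        linarith
      have hN1 : 0 ≤ 1 / (N:ℝ) := by positivity
      have h7 : 2 * inner ℝ v w ≤ ‖v‖ ^ 2 * (1 / t) + t * ‖w‖ ^ 2 := by linarith
      have h8 := mul_le_mul_of_nonneg_left h7 hN1
      linarith
    calc _ ≤ ∑ i, ∑ j ∈ range (N - 1), (1 / (N:ℝ) * ‖(s τ).U i (j + 1) -
          (s 0).U i (j + 1)‖ ^ 2 * (1 / t) + t * (1 / (N:ℝ) * ‖VV N (s τ) i j‖ ^ 2)) :=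
          Finset.sum_le_sum (fun i _ => Finset.sum_le_sum (fun j hj => h2 i j hj))
      _ = VF N (s τ) (s 0) * (1 / t) + t * ∑ i, ∑ j ∈ range (N - 1),
          (1 / (N:ℝ) * ‖VV N (s τ) i j‖ ^ 2) := by
          simp only [Finset.sum_add_distrib, VF, Finset.mul_sum, Finset.sum_mul]
      _ ≤ VF N (s τ) (s 0) / t + t * (D3 * (1 + QQ N (s τ))) := by
          have := mul_le_mul_of_nonneg_left h1 ht0.le
          rw [mul_one_div]; linarith
  -- Gronwall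
  have hexp : ∀ τ : ℝ, HasDerivAt (fun τ => Real.exp (-(τ / t))) (Real.exp (-(τ / t)) * (-(1 / t))) τ := by
    intro τ
    have h1 : HasDerivAt (fun τ : ℝ => -(τ / t)) (-(1 / t)) τ :=
      ((hasDerivAt_id' τ).div_const t).neg
    exact h1.exp
  have key := antitone_Icc (a := 0) (b := t)
    (f := fun τ => Real.exp (-(τ / t)) * (VF N (s τ) (s 0) + t * (D3 / c) * PP N (s τ)) -
      t * D4 * τ)
    (f' := fun τ => Real.exp (-(τ / t)) * (-(1 / t)) * (VF N (s τ) (s 0) + t * (D3 / c) *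
      PP N (s τ)) + Real.exp (-(τ / t)) * ((∑ i, ∑ j ∈ range (N - 1), (1 / (N : ℝ)) * (2 *
      inner ℝ ((s τ).U i (j + 1) - (s 0).U i (j + 1)) (1 * fU N (s τ) i (j + 1)))) +
      t * (D3 / c) * dP N (s τ) (fun i j => 1 * fU N (s τ) i j)) - t * D4)
    (fun τ hτ => by
      have d1 := (hexp τ).hasDerivWithinAt (s := Set.Icc 0 t)
      have d2 := (H.dPP (hsub hτ)).mono hsub
      have d3 : HasDerivWithinAt (fun τ : ℝ => t * D4 * τ) (t * D4) (Set.Icc 0 t) τ :=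
        ((((hasDerivAt_id' τ)).const_mul (t * D4)).congr_deriv (by ring)).hasDerivWithinAt
      exact (d1.mul ((hdV τ hτ).add (d2.const_mul _))).sub d3)
    (fun τ hτ => by
      have h1 := hdVle τ hτ
      have h2 := (hap τ (hsub hτ)).2.2.2.2
      have h3 : t * (D3 / c) * dP N (s τ) (fun i j => 1 * fU N (s τ) i j) ≤
          t * (D3 / c) * (-(c * QQ N (s τ)) + k1) :=
        mul_le_mul_of_nonneg_left h2 (by positivity)
      have h4 : t * (D3 / c) * (-(c * QQ N (s τ)) + k1) = -(t * (D3 * QQ N (s τ))) +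
          t * (D3 * (k1 / c)) := by field_simp
      have hP0 : 0 ≤ PP N (s τ) := PP_nonneg
      have hV0 := VF_nonneg N (s τ) (s 0)
      have h5 : VF N (s τ) (s 0) / t ≤ 1 / t * (VF N (s τ) (s 0) + t * (D3 / c) * PP N (s τ)) := by
        rw [div_eq_mul_one_div, mul_comm]
        apply mul_le_mul_of_nonneg_left _ (by positivity)
        have : 0 ≤ t * (D3 / c) * PP N (s τ) := by positivity
        linarith
      have he0 : 0 < Real.exp (-(τ / t)) := Real.exp_pos _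
      have he1 : Real.exp (-(τ / t)) ≤ 1 := by
        rw [Real.exp_le_one_iff]
        have : 0 ≤ τ / t := div_nonneg hτ.1 ht0.le
        linarith
      set G := VF N (s τ) (s 0) + t * (D3 / c) * PP N (s τ)
      set W := (∑ i, ∑ j ∈ range (N - 1), (1 / (N : ℝ)) * (2 *
        inner ℝ ((s τ).U i (j + 1) - (s 0).U i (j + 1)) (1 * fU N (s τ) i (j + 1)))) +
        t * (D3 / c) * dP N (s τ) (fun i j => 1 * fU N (s τ) i j) with hW
      have h6 : W - 1 / t * G ≤ t * D4 := by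
        rw [hW, hD4]
        rw [h4] at h3
        have : t * (D3 * (1 + QQ N (s τ))) = t * D3 + t * (D3 * QQ N (s τ)) := by ring
        have h7 : t * (D3 * (1 + k1 / c)) = t * D3 + t * (D3 * (k1 / c)) := by ring
        linarith
      have h7 : Real.exp (-(τ / t)) * (W - 1 / t * G) ≤ t * D4 := by
        have h8 := mul_le_mul_of_nonneg_left h6 he0.le
        have h9 : Real.exp (-(τ / t)) * (t * D4) ≤ 1 * (t * D4) :=
          mul_le_mul_of_nonneg_right he1 (by positivity)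
        linarith
      have e : Real.exp (-(τ / t)) * (-(1 / t)) * G + Real.exp (-(τ / t)) * W - t * D4 =
        Real.exp (-(τ / t)) * (W - 1 / t * G) - t * D4 := by ring
      rw [e]; linarith)
    ht0.le
  simp only [zero_div, neg_zero, Real.exp_zero, one_mul, mul_zero, sub_zero] at key
  have hV00 : VF N (s 0) (s 0) = 0 := by simp [VF]
  rw [hV00, div_self ht0.ne', zero_add] at key
  have hP0 : 0 ≤ PP N (s t) := PP_nonneg
  have hPI := hI.P
  have he : 0 < Real.exp (-1) := Real.exp_pos _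
  have he3 : 1 ≤ 3 * Real.exp (-1) := by
    have h1 : Real.exp 1 ≤ 3 := by have := Real.exp_one_lt_d9; linarith
    have h2 : Real.exp 1 * Real.exp (-1) = 1 := by rw [← Real.exp_add]; simp
    nlinarith
  have h8 : Real.exp (-1) * VF N (s t) (s 0) ≤ t * (D3 / c) * p0 ^ 2 + t * D4 * t := by
    have h9 : 0 ≤ t * (D3 / c) * PP N (s t) := by positivity
    have h10 : t * (D3 / c) * PP N (s 0) ≤ t * (D3 / c) * p0 ^ 2 :=
      mul_le_mul_of_nonneg_left hPI (by positivity)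
    nlinarith
  have h9 : t * D4 * t ≤ t * D4 := by nlinarith [mul_nonneg ht0.le hD40]
  have hVt := VF_nonneg N (s t) (s 0)
  have h10 : VF N (s t) (s 0) ≤ 3 * (Real.exp (-1) * VF N (s t) (s 0)) := by nlinarith
  rw [C5]
  nlinarith

/-- pointwise distance from the `L²` distance -/
lemma point_le {N : ℕ} {s s0 : DS ℂ} (hN : 2 ≤ N) {p ε : ℝ} (hp : 0 ≤ p) (hP : PP N s ≤ p ^ 2)
    (hP0 : PP N s0 ≤ p ^ 2) {m : ℕ} (hm : 1 ≤ m) (hmN : 2 * m + 1 ≤ N)
    (hε : 2 * (p * √((m : ℝ) / N)) ≤ ε / 2) (hV : VF N s s0 ≤ (m : ℝ) / N * (ε / 2) ^ 2)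
    (hε0 : 0 < ε) (i : Fin 3) {j : ℕ} (hj : j ≤ N) : ‖s.U i j - s0.U i j‖ ≤ ε := by
  have hN0 := N_pos hN
  by_contra hcon
  push Not at hcon
  -- window
  obtain ⟨a, ha1, ha2, ha3⟩ : ∃ a : ℕ, a + m ≤ N - 1 ∧
      (∀ l < m, |((a + l + 1 : ℕ) : ℝ) - j| ≤ m) ∧ True := by
    rcases le_or_gt (j + m) (N - 1) with h | h
    · refine ⟨j, h, fun l hl => ?_, trivial⟩
      have : (l:ℝ) + 1 ≤ m := by exact_mod_cast hl
      push_cast
      rw [abs_of_nonneg (by linarith)]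
      linarith
    · refine ⟨j - m - 1, by omega, fun l hl => ?_, trivial⟩
      have h1 : j - m - 1 + l + 1 + (m - l) = j := by omega
      have h2 : (((j - m - 1 + l + 1 : ℕ) : ℝ)) + ((m - l : ℕ) : ℝ) = j := by exact_mod_cast h1
      rw [Nat.cast_sub hl.le] at h2
      have hl0 : (0:ℝ) ≤ l := by positivity
      have hl' : (l:ℝ) < m := by exact_mod_cast hl
      rw [abs_le]; constructor <;> linarith
  have hlow : ∀ l < m, ε / 2 < ‖s.U i (a + l + 1) - s0.U i (a + l + 1)‖ := by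
    intro l hl
    have hk : a + l + 1 ≤ N := by omega
    have h1 := U_holder' hN hp hP i hj hk
    have h2 := U_holder' hN hp hP0 i hj hk
    have h3 : √(|((a + l + 1 : ℕ) : ℝ) - j| / N) ≤ √((m:ℝ) / N) :=
      Real.sqrt_le_sqrt (div_le_div_of_nonneg_right (ha2 l hl) hN0.le)
    have h4 := mul_le_mul_of_nonneg_left h3 hp
    have e : s.U i j - s0.U i j = (s.U i (a + l + 1) - s0.U i (a + l + 1)) -
        (s.U i (a + l + 1) - s.U i j) + (s0.U i (a + l + 1) - s0.U i j) := by ring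
    have h5 : ‖s.U i j - s0.U i j‖ ≤ ‖s.U i (a + l + 1) - s0.U i (a + l + 1)‖ +
        ‖s.U i (a + l + 1) - s.U i j‖ + ‖s0.U i (a + l + 1) - s0.U i j‖ := by
      rw [e]
      refine (norm_add_le _ _).trans ?_
      have := norm_sub_le (s.U i (a + l + 1) - s0.U i (a + l + 1)) (s.U i (a + l + 1) - s.U i j)
      linarith
    linarith
  have hsum : ∑ l ∈ range m, 1 / (N:ℝ) * (ε / 2) ^ 2 < VF N s s0 := by
    calc ∑ l ∈ range m, 1 / (N:ℝ) * (ε / 2) ^ 2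
        < ∑ l ∈ range m, 1 / (N:ℝ) * ‖s.U i (a + l + 1) - s0.U i (a + l + 1)‖ ^ 2 := by
          apply Finset.sum_lt_sum_of_nonempty
          · exact ⟨0, Finset.mem_range.2 (by omega)⟩
          · intro l hl
            apply mul_lt_mul_of_pos_left _ (by positivity)
            exact pow_lt_pow_left₀ (hlow l (Finset.mem_range.1 hl)) (by positivity) (by norm_num)
      _ ≤ ∑ j ∈ range (N - 1), 1 / (N:ℝ) * ‖s.U i (j + 1) - s0.U i (j + 1)‖ ^ 2 := by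
          have h1 : ∑ l ∈ range m, 1 / (N:ℝ) * ‖s.U i (a + l + 1) - s0.U i (a + l + 1)‖ ^ 2 =
              ∑ j ∈ Finset.Ico a (a + m), 1 / (N:ℝ) * ‖s.U i (j + 1) - s0.U i (j + 1)‖ ^ 2 := by
            rw [Finset.sum_Ico_eq_sum_range]
            simp
          rw [h1]
          apply Finset.sum_le_sum_of_subset_of_nonneg
          · intro x hx
            rw [Finset.mem_Ico] at hx
            rw [Finset.mem_range]; omega
          · intro j _ _; positivity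
      _ ≤ VF N s s0 := single_le_sum (f := fun i => ∑ j ∈ range (N - 1), (1 / (N : ℝ)) *
            ‖s.U i (j + 1) - s0.U i (j + 1)‖ ^ 2)
          (fun i _ => sum_nonneg (fun j _ => by positivity)) (Finset.mem_univ i)
  rw [sum_const, card_range, nsmul_eq_mul] at hsum
  have : (m:ℝ) * (1 / N * (ε / 2) ^ 2) = (m : ℝ) / N * (ε / 2) ^ 2 := by ring
  linarith

end Run7.h661x
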