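import Pool.Agent.Run7.h661.X.M5a
import Pool.Agent.Run7.h661.X.Sector
import Pool.Agent.Run7.h661.X.Zero

/-!
# The weighted curvature energy
-/

open Set Filter Topology
open scoped Real

namespace Run7.h661x

/-! ### the weights -/

noncomputable def Xf (x : ℝ) : ℝ := Real.tan (9 / 8 * x)
noncomputable def Yf (x : ℝ) : ℝ := Real.tan (9 / 8 * (π / 3 - x))
noncomputable def Gf (x : ℝ) : ℝ := (√(Real.cos (9 / 8 * x) * Real.cos (9 / 8 * (π / 3 - x))))⁻¹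

section
variable {x : ℝ} (hx : x ∈ Icc (0:ℝ) (π / 3))
include hx

lemma c1_low : Real.cos (3 * π / 8) ≤ Real.cos (9 / 8 * x) := by
  have := Real.pi_pos
  exact Real.cos_le_cos_of_nonneg_of_le_pi (by linarith [hx.1]) (by linarith) (by linarith [hx.2])

lemma c2_low : Real.cos (3 * π / 8) ≤ Real.cos (9 / 8 * (π / 3 - x)) := by
  have := Real.pi_pos
  exact Real.cos_le_cos_of_nonneg_of_le_pi (by linarith [hx.2]) (by linarith) (by linarith [hx.1])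

lemma c1_pos : 0 < Real.cos (9 / 8 * x) := cos38_pos.trans_le (c1_low hx)
lemma c2_pos : 0 < Real.cos (9 / 8 * (π / 3 - x)) := cos38_pos.trans_le (c2_low hx)

lemma Xf_nonneg : 0 ≤ Xf x := by
  have := Real.pi_pos
  exact Real.tan_nonneg_of_nonneg_of_le_pi_div_two (by linarith [hx.1]) (by linarith [hx.2])
lemma Yf_nonneg : 0 ≤ Yf x := by
  have := Real.pi_pos
  exact Real.tan_nonneg_of_nonneg_of_le_pi_div_two (by linarith [hx.2]) (by linarith [hx.1])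

lemma XY_rel : Xf x + Yf x = tq * (1 - Xf x * Yf x) := by
  have h1 := (c1_pos hx).ne'
  have h2 := (c2_pos hx).ne'
  have h3 := cos38_pos.ne'
  have e1 : Real.sin (3 * π / 8) = Real.sin (9 / 8 * x) * Real.cos (9 / 8 * (π / 3 - x)) +
      Real.cos (9 / 8 * x) * Real.sin (9 / 8 * (π / 3 - x)) := by
    rw [← Real.sin_add]; congr 1; ring
  have e2 : Real.cos (3 * π / 8) = Real.cos (9 / 8 * x) * Real.cos (9 / 8 * (π / 3 - x)) -
      Real.sin (9 / 8 * x) * Real.sin (9 / 8 * (π / 3 - x)) := by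
    rw [← Real.cos_add]; congr 1; ring
  rw [Xf, Yf, tq, Real.tan_eq_sin_div_cos, Real.tan_eq_sin_div_cos, Real.tan_eq_sin_div_cos]
  generalize Real.sin (3 * π / 8) = S at *
  generalize Real.cos (3 * π / 8) = C at *
  generalize Real.sin (9 / 8 * x) = s1 at *
  generalize Real.cos (9 / 8 * x) = c1 at *
  generalize Real.sin (9 / 8 * (π / 3 - x)) = s2 at *
  generalize Real.cos (9 / 8 * (π / 3 - x)) = c2 at *
  subst e1
  field_simp
  rw [e2]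

lemma XY_le : Xf x + Yf x ≤ tq := by
  rw [XY_rel hx]
  have h1 := mul_nonneg (Xf_nonneg hx) (Yf_nonneg hx)
  have := tq_pos
  nlinarith

lemma uv_le : (9 / 8 * Xf x + 9 / 8 * Yf x) ^ 2 ≤ 8.5 := by
  have h1 := XY_le hx
  have h2 := tq_bounds.2
  have h3 := Xf_nonneg hx
  have h4 := Yf_nonneg hx
  nlinarith

lemma dXf : HasDerivAt Xf (9 / 8 * (1 + Xf x ^ 2)) x := by
  have h1 := (c1_pos hx).ne'
  have h2 : HasDerivAt (fun x : ℝ => 9 / 8 * x) (9 / 8) x := by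
    simpa using (hasDerivAt_id' x).const_mul (9 / 8 : ℝ)
  have h3 := (Real.hasDerivAt_tan h1).comp x h2
  refine h3.congr_deriv ?_
  rw [Xf, Real.tan_eq_sin_div_cos]
  have := Real.sin_sq_add_cos_sq (9 / 8 * x)
  generalize Real.sin (9 / 8 * x) = s1 at *
  generalize Real.cos (9 / 8 * x) = c1 at *
  field_simp
  linarith

lemma dYf : HasDerivAt Yf (-(9 / 8 * (1 + Yf x ^ 2))) x := by
  have h1 := (c2_pos hx).ne'
  have h2 : HasDerivAt (fun x : ℝ => 9 / 8 * (π / 3 - x)) (-(9 / 8)) x := by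
    refine (((hasDerivAt_id' x).const_sub (π / 3)).const_mul (9 / 8 : ℝ)).congr_deriv (by ring)
  have h3 := (Real.hasDerivAt_tan h1).comp x h2
  refine h3.congr_deriv ?_
  rw [Yf, Real.tan_eq_sin_div_cos]
  have := Real.sin_sq_add_cos_sq (9 / 8 * (π / 3 - x))
  generalize Real.sin (9 / 8 * (π / 3 - x)) = s2 at *
  generalize Real.cos (9 / 8 * (π / 3 - x)) = c2 at *
  field_simp
  linarith

lemma Gf_pos : 0 < Gf x := by
  have := mul_pos (c1_pos hx) (c2_pos hx)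
  unfold Gf; positivity

lemma dGf : HasDerivAt Gf (Gf x * (9 / 16 * (Xf x - Yf x))) x := by
  have h1 := c1_pos hx
  have h2 := c2_pos hx
  have hp := mul_pos h1 h2
  have d1 : HasDerivAt (fun x : ℝ => 9 / 8 * x) (9 / 8) x := by
    simpa using (hasDerivAt_id' x).const_mul (9 / 8 : ℝ)
  have d2 : HasDerivAt (fun x : ℝ => 9 / 8 * (π / 3 - x)) (-(9 / 8)) x := by
    refine (((hasDerivAt_id' x).const_sub (π / 3)).const_mul (9 / 8 : ℝ)).congr_deriv (by ring)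
  have d3 := d1.cos.mul d2.cos
  have d4 := (d3.sqrt hp.ne').inv (Real.sqrt_pos.2 hp).ne'
  refine d4.congr_deriv ?_
  rw [Gf, Xf, Yf, Real.tan_eq_sin_div_cos, Real.tan_eq_sin_div_cos]
  have hs : √(Real.cos (9 / 8 * x) * Real.cos (9 / 8 * (π / 3 - x))) ^ 2 =
    Real.cos (9 / 8 * x) * Real.cos (9 / 8 * (π / 3 - x)) := Real.sq_sqrt hp.le
  have hs0 := (Real.sqrt_pos.2 hp).ne'
  simp only [Pi.mul_apply]
  rw [hs]
  generalize √(Real.cos (9 / 8 * x) * Real.cos (9 / 8 * (π / 3 - x))) = q at *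
  generalize Real.sin (9 / 8 * x) = s1 at *
  generalize Real.cos (9 / 8 * x) = c1 at *
  generalize Real.sin (9 / 8 * (π / 3 - x)) = s2 at *
  generalize Real.cos (9 / 8 * (π / 3 - x)) = c2 at *
  have h1' := h1.ne'
  have h2' := h2.ne'
  field_simp
  ring

lemma Gf_ge : 1 ≤ Gf x := by
  have hp := mul_pos (c1_pos hx) (c2_pos hx)
  rw [Gf, one_le_inv₀ (Real.sqrt_pos.2 hp), ← Real.sqrt_one]
  apply Real.sqrt_le_sqrt
  have h1 := Real.cos_le_one (9 / 8 * x)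
  have h2 := Real.cos_le_one (9 / 8 * (π / 3 - x))
  nlinarith [c1_pos hx, c2_pos hx]

lemma Gf_le : Gf x ≤ (Real.cos (3 * π / 8))⁻¹ := by
  have hp := mul_pos (c1_pos hx) (c2_pos hx)
  have h3 := cos38_pos
  rw [Gf]
  apply inv_anti₀ h3
  apply Real.le_sqrt_of_sq_le
  rw [sq]
  exact mul_le_mul (c1_low hx) (c2_low hx) h3.le (c1_pos hx).le

end

lemma Xf_zero : Xf 0 = 0 := by simp [Xf]
lemma Yf_zero : Yf 0 = tq := by rw [Yf, tq]; congr 1; ring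
lemma Xf_end : Xf (π / 3) = tq := by rw [Xf, tq]; congr 1; ring
lemma Yf_end : Yf (π / 3) = 0 := by simp [Yf]

/-! ### cubes of positive parts -/

lemma hasDerivAt_pos3 (x : ℝ) : HasDerivAt (fun x : ℝ => max x 0 ^ 3) (3 * max x 0 ^ 2) x := by
  rcases lt_trichotomy x 0 with h | h | h
  · rw [max_eq_right h.le]
    have : HasDerivAt (fun _ : ℝ => (0:ℝ)) 0 x := hasDerivAt_const x 0
    refine (this.congr_of_eventuallyEq ?_).congr_deriv (by ring)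
    filter_upwards [Iio_mem_nhds h] with y hy
    rw [max_eq_right (le_of_lt hy)]; ring
  · subst h
    refine hasDerivAt_of_quad (δ := 1) (K := 1) one_pos (fun w hw => ?_)
    rw [max_self, sub_zero] at *
    have h1 : ‖max w 0 ^ 3 - 0 ^ 3 - w • (3 * 0 ^ 2 : ℝ)‖ = max w 0 ^ 3 := by
      simp only [ne_eq, OfNat.ofNat_ne_zero, not_false_eq_true, zero_pow, mul_zero, smul_eq_mul,
        sub_zero, Real.norm_eq_abs]
      exact abs_of_nonneg (pow_nonneg (le_max_right _ _) 3)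
    rw [h1, Real.norm_eq_abs, sq_abs, one_mul]
    rw [Real.norm_eq_abs, abs_lt] at hw
    rcases le_total w 0 with h2 | h2
    · rw [max_eq_right h2]; nlinarith [sq_nonneg w]
    · rw [max_eq_left h2]; nlinarith [sq_nonneg w]
  · rw [max_eq_left h.le]
    have := hasDerivAt_pow 3 x
    refine (this.congr_of_eventuallyEq ?_).congr_deriv (by norm_num)
    filter_upwards [Ioi_mem_nhds h] with y hy
    rw [max_eq_left (le_of_lt hy)]

/-- the pointwise inequality -/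
lemma ptwise {G X Y k ρ lm V Vp rod : ℝ} (hG : 0 < G) (hρ : 0 < ρ)
    (huv : (9 / 8 * X + 9 / 8 * Y) ^ 2 ≤ 8.5) :
    G * (9 / 16 * (X - Y)) * V * (k ^ 2 * ρ) + G * (2 * k * Vp - k ^ 2 * rod) ≤
    G * (9 / 16 * (X - Y)) * (k * ρ) * (-lm * k ^ 2 + 2 * k * V +
      9 / 8 * (X * max k 0 ^ 3 + Y * max (-k) 0 ^ 3)) +
    G * (-(rod + k ^ 2 * ρ) * k ^ 2 - lm * (2 * k * (ρ * (V - lm * k))) +
      2 * (ρ * (V - lm * k)) * V + 2 * k * Vp +
      9 / 8 * (9 / 8 * (1 + X ^ 2) * (k * ρ) * max k 0 ^ 3 + X * (3 * max k 0 ^ 2 *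
        (ρ * (V - lm * k))) + -(9 / 8 * (1 + Y ^ 2)) * (k * ρ) * max (-k) 0 ^ 3 +
        Y * (3 * max (-k) 0 ^ 2 * -(ρ * (V - lm * k))))) := by
  have hGρ : 0 < G * ρ := mul_pos hG hρ
  rcases le_total 0 k with hk | hk
  · rw [max_eq_left hk, max_eq_right (by linarith : -k ≤ 0)]
    have q := quad (u := 9 / 8 * X) (v := 9 / 8 * Y) (x := V - lm * k) (y := k ^ 2) huv
    have := mul_le_mul_of_nonneg_left q hGρ.le
    nlinarith
  · rw [max_eq_right hk, max_eq_left (by linarith : 0 ≤ -k)]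
    have q := quad (u := 9 / 8 * Y) (v := 9 / 8 * X) (x := -(V - lm * k)) (y := k ^ 2)
      (by linarith)
    have := mul_le_mul_of_nonneg_left q hGρ.le
    nlinarith

/-! ### the energy of a flow of angles -/

variable {T : ℝ} {a : AFd}

/-- mixed derivative -/
lemma AF.mixed (A : AF T a) (i : Fin 3) : ∃ Dt : ℝ → ℝ → ℝ,
    ContinuousOn (fun q : ℝ × ℝ => Dt q.1 q.2) (Ioo 0 T ×ˢ Icc 0 1) ∧
    (∀ t ∈ Ioo 0 T, ∀ p ∈ Icc (0:ℝ) 1, HasDerivAt (fun s => a.D i s p) (Dt t p) t) ∧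
    (∀ t ∈ Ioo 0 T, ∀ p ∈ Icc (0:ℝ) 1, HasDerivWithinAt (a.V i t) (Dt t p) (Icc 0 1) p) := by
  obtain ⟨h1, Dt, h2, h3⟩ := A.cD i 1
  have hc : ContinuousOn (fun q : ℝ × ℝ => Dt q.1 q.2) (Ioo 0 T ×ˢ Icc 0 1) := h2.cont
  refine ⟨Dt, hc, h3, fun t ht p hp => ?_⟩
  have key : ∀ q ∈ Icc (0:ℝ) 1, a.V i t q = a.V i t 0 + PI clamp Dt t q := by
    intro q hq
    have e1 : HasDerivAt (fun t => a.th i t q) (a.V i t 0 + PI clamp Dt t q) t := by
      have d1 := (A.tth i t ht 0 zI).add (PI_dt dom_I h1 hc h3 ht q)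
      refine d1.congr_of_eventuallyEq ?_
      filter_upwards [Ioo_mem_nhds ht.1 ht.2] with s hs
      exact PI_eq dom_I hs (fun p hp => A.pth i s hs p hp) h1 hq
    exact (A.tth i t ht q hq).unique e1
  exact ((PI_deriv dom_I hc ht hp).const_add (a.V i t 0)).congr key (key p hp)

/-- energy density -/
noncomputable def AFd.Ph (a : AFd) (i : Fin 3) (t p : ℝ) : ℝ :=
  Gf (a.th i t p) * (a.D i t p ^ 2 * (a.ro i t p)⁻¹)

/-- energy -/
noncomputable def AFd.En (a : AFd) (t : ℝ) : ℝ := ∑ i, PI clamp (a.Ph i) t 1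

/-- energy flux -/
noncomputable def AFd.Hf (a : AFd) (i : Fin 3) (t p : ℝ) : ℝ :=
  Gf (a.th i t p) * (-a.lm i t p * a.k i t p ^ 2 + 2 * a.k i t p * a.V i t p +
    9 / 8 * (Xf (a.th i t p) * max (a.k i t p) 0 ^ 3 + Yf (a.th i t p) * max (-a.k i t p) 0 ^ 3))

section
variable (A : AF T a) (hS : ∀ i, ∀ t ∈ Ioo 0 T, ∀ p ∈ Icc (0:ℝ) 1, a.th i t p ∈ Icc 0 (π / 3))
include A hS

lemma AF.cG (i : Fin 3) : ContinuousOn (fun q : ℝ × ℝ => Gf (a.th i q.1 q.2))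
    (Ioo 0 T ×ˢ Icc 0 1) := by
  have h1 : ContinuousOn Gf (Icc 0 (π / 3)) := fun x hx =>
    (dGf hx).continuousAt.continuousWithinAt
  exact h1.comp (A.cth i 0).cont (fun q hq => hS i q.1 hq.1 q.2 hq.2)

lemma AF.cXY (i : Fin 3) : ContinuousOn (fun q : ℝ × ℝ => Xf (a.th i q.1 q.2))
    (Ioo 0 T ×ˢ Icc 0 1) ∧ ContinuousOn (fun q : ℝ × ℝ => Yf (a.th i q.1 q.2))
    (Ioo 0 T ×ˢ Icc 0 1) := by
  have h1 : ContinuousOn Xf (Icc 0 (π / 3)) := fun x hx =>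
    (dXf hx).continuousAt.continuousWithinAt
  have h2 : ContinuousOn Yf (Icc 0 (π / 3)) := fun x hx =>
    (dYf hx).continuousAt.continuousWithinAt
  exact ⟨h1.comp (A.cth i 0).cont (fun q hq => hS i q.1 hq.1 q.2 hq.2),
    h2.comp (A.cth i 0).cont (fun q hq => hS i q.1 hq.1 q.2 hq.2)⟩

lemma AF.cPh (i : Fin 3) : ContinuousOn (fun q : ℝ × ℝ => a.Ph i q.1 q.2)
    (Ioo 0 T ×ˢ Icc 0 1) :=
  (A.cG hS i).mul (((A.cD i 0).cont.pow 2).mul (A.rroi i 0 0).ct.cont)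

lemma AF.dEn1 (i : Fin 3) {t : ℝ} (ht : t ∈ Ioo 0 T) : ∃ e,
    HasDerivAt (fun t => PI clamp (a.Ph i) t 1) e t ∧ e ≤ a.Hf i t 1 - a.Hf i t 0 := by
  obtain ⟨Dt, m1, m2, m3⟩ := A.mixed i
  set Pt : ℝ → ℝ → ℝ := fun t p => Gf (a.th i t p) * (9 / 16 * (Xf (a.th i t p) -
    Yf (a.th i t p))) * a.V i t p * (a.D i t p ^ 2 * (a.ro i t p)⁻¹) + Gf (a.th i t p) *
    (2 * a.D i t p * Dt t p * (a.ro i t p)⁻¹ - a.D i t p ^ 2 * ((a.ro i t p)⁻¹ ^ 2 *
      a.rod i t p)) with hPt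
  have hPtc : ContinuousOn (fun q : ℝ × ℝ => Pt q.1 q.2) (Ioo 0 T ×ˢ Icc 0 1) := by
    have c1 := A.cG hS i
    obtain ⟨c2, c3⟩ := A.cXY hS i
    have c4 := (A.cV i 0).cont
    have c5 := (A.cD i 0).cont
    have c6 := (A.rroi i 0 0).ct.cont
    have c7 := (A.rrod i 0 0).ct.cont
    fun_prop
  have hd : ∀ t ∈ Ioo 0 T, ∀ p ∈ Icc (0:ℝ) 1, HasDerivAt (fun s => a.Ph i s p) (Pt t p) t := by
    intro t ht p hp
    have hth := hS i t ht p hp
    have h0 := (A.pos i t ht p hp).ne'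
    have d1 := (dGf hth).comp t (A.tth i t ht p hp)
    have d2 := ((m2 t ht p hp).pow 2).mul ((A.tro i ht p).inv h0)
    refine HasDerivAt.congr_deriv (d1.mul d2) ?_
    simp only [hPt, Function.comp_apply, Pi.inv_apply, Pi.mul_apply, Pi.pow_apply]
    field_simp
    ring
  refine ⟨PI clamp Pt t 1, PI_dt dom_I (A.cPh hS i) hPtc hd ht 1, ?_⟩
  -- comparison with the flux
  have hflux : ∀ p ∈ Icc (0:ℝ) 1, ∃ h', HasDerivWithinAt (a.Hf i t) h' (Icc 0 1) p ∧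
      Pt t p ≤ h' := by
    intro p hp
    have hth := hS i t ht p hp
    have hr := A.pos i t ht p hp
    have h0 := hr.ne'
    have d1 := (dGf hth).comp_hasDerivWithinAt p (A.pth i t ht p hp)
    have dX := (dXf hth).comp_hasDerivWithinAt p (A.pth i t ht p hp)
    have dY := (dYf hth).comp_hasDerivWithinAt p (A.pth i t ht p hp)
    have dk := A.pk i ht hp
    have dl := A.plm i t ht p hp
    have dV := m3 t ht p hp
    have dk3 := (hasDerivAt_pos3 (a.k i t p)).comp_hasDerivWithinAt p dk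
    have dm3 := (hasDerivAt_pos3 (-a.k i t p)).comp_hasDerivWithinAt p dk.neg
    have dall := d1.mul (((dl.neg.mul (dk.pow 2)).add ((dk.const_mul 2).mul dV)).add
      (((dX.mul dk3).add (dY.mul dm3)).const_mul (9 / 8)))
    refine ⟨_, dall, ?_⟩
    have hk : a.D i t p = a.k i t p * a.ro i t p := A.D_eq i ht hp
    have key := ptwise (G := Gf (a.th i t p)) (X := Xf (a.th i t p)) (Y := Yf (a.th i t p))
      (k := a.k i t p) (ρ := a.ro i t p) (lm := a.lm i t p) (V := a.V i t p) (Vp := Dt t p)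
      (rod := a.rod i t p) (Gf_pos hth) hr (uv_le hth)
    have e1 : Pt t p = Gf (a.th i t p) * (9 / 16 * (Xf (a.th i t p) - Yf (a.th i t p))) *
        a.V i t p * (a.k i t p ^ 2 * a.ro i t p) + Gf (a.th i t p) * (2 * a.k i t p * Dt t p -
        a.k i t p ^ 2 * a.rod i t p) := by
      simp only [hPt]
      rw [hk]
      field_simp
    rw [e1]
    refine key.trans (le_of_eq ?_)
    simp only [Function.comp_apply, Pi.mul_apply, Pi.add_apply, Pi.pow_apply, Pi.neg_apply, hk]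
    field_simp
    ring
  choose! h' hh1 hh2 using hflux
  have hfin := antitone_Icc (a := 0) (b := 1) (f := fun p => PI clamp Pt t p - a.Hf i t p)
    (f' := fun p => Pt t p - h' p)
    (fun p hp => (PI_deriv dom_I hPtc ht hp).sub (hh1 p hp))
    (fun p hp => by have := hh2 p hp; linarith) zero_le_one
  simp only [PI_zero] at hfin
  linarith

lemma AF.V_junc {t : ℝ} (ht : t ∈ Ioo 0 T) (i : Fin 3) : a.V i t 0 = a.V 0 t 0 := by
  refine (A.tth i t ht 0 zI).unique ((A.tth 0 t ht 0 zI).congr_of_eventuallyEq ?_)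
  filter_upwards [Ioo_mem_nhds ht.1 ht.2] with s hs
  exact A.jth s hs i 0

/-- the flux at the junction -/
lemma AF.flux_junc {t : ℝ} (ht : t ∈ Ioo 0 T) : 0 ≤ ∑ i, a.Hf i t 0 := by
  have hth := A.jth t ht
  have hD := A.jD t ht
  rw [Fin.sum_univ_three] at hD
  have e : ∀ i, a.ro i t 0 = a.L 0 t := fun i => by simp [AFd.ro]
  have hk : ∀ i, a.k i t 0 = a.D i t 0 * (a.L 0 t)⁻¹ := fun i => by rw [AFd.k, e]
  have hl' : ∀ i, a.lm i t 0 = 1 / √3 * (a.k (i + 1) t 0 - a.k (i + 2) t 0) := fun i => by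
    rw [A.jlm t ht, hk, hk]
  have hk0 : a.k 0 t 0 + a.k 1 t 0 + a.k 2 t 0 = 0 := by
    rw [hk, hk, hk, ← add_mul, ← add_mul, hD, zero_mul]
  have l0 := hl' 0
  have l1 := hl' 1
  have l2 := hl' 2
  have f1 : (0:Fin 3) + 1 = 1 := rfl
  have f2 : (0:Fin 3) + 2 = 2 := rfl
  have f3 : (1:Fin 3) + 1 = 2 := rfl
  have f4 : (1:Fin 3) + 2 = 0 := rfl
  have f5 : (2:Fin 3) + 1 = 0 := rfl
  have f6 : (2:Fin 3) + 2 = 1 := rfl
  rw [f1, f2] at l0
  rw [f3, f4] at l1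
  rw [f5, f6] at l2
  have hx := hS 0 t ht 0 zI
  have hj := junc (Xf_nonneg hx) (Yf_nonneg hx) (XY_rel hx) hk0
  have hG := Gf_pos hx
  rw [Fin.sum_univ_three]
  simp only [AFd.Hf, hth 1 0, hth 2 0, A.V_junc hS ht 1, A.V_junc hS ht 2, l0, l1, l2]
  set k0 := a.k 0 t 0
  set k1 := a.k 1 t 0
  set k2 := a.k 2 t 0
  set X := Xf (a.th 0 t 0)
  set Y := Yf (a.th 0 t 0)
  set G := Gf (a.th 0 t 0)
  set V := a.V 0 t 0
  have habs := neg_abs_le ((k0 - k1) * (k1 - k2) * (k2 - k0))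
  have habs2 := le_abs_self ((k0 - k1) * (k1 - k2) * (k2 - k0))
  have i0 : 0 ≤ 1 / √3 := by positivity
  have h1 : 1 / √3 * ((k0 - k1) * (k1 - k2) * (k2 - k0)) ≤ 1 / √3 *
    |(k0 - k1) * (k1 - k2) * (k2 - k0)| := mul_le_mul_of_nonneg_left habs2 i0
  have h2 : 1 / √3 * (-|(k0 - k1) * (k1 - k2) * (k2 - k0)|) ≤ 1 / √3 *
    ((k0 - k1) * (k1 - k2) * (k2 - k0)) := mul_le_mul_of_nonneg_left habs i0
  have e1 : G * (-(1 / √3 * (k1 - k2)) * k0 ^ 2 + 2 * k0 * V + 9 / 8 * (X * max k0 0 ^ 3 +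
      Y * max (-k0) 0 ^ 3)) + G * (-(1 / √3 * (k2 - k0)) * k1 ^ 2 + 2 * k1 * V +
      9 / 8 * (X * max k1 0 ^ 3 + Y * max (-k1) 0 ^ 3)) + G * (-(1 / √3 * (k0 - k1)) * k2 ^ 2 +
      2 * k2 * V + 9 / 8 * (X * max k2 0 ^ 3 + Y * max (-k2) 0 ^ 3)) =
      G * (1 / √3 * ((k0 - k1) * (k1 - k2) * (k2 - k0)) + 2 * (k0 + k1 + k2) * V + 9 / 8 *
      (X * (max k0 0 ^ 3 + max k1 0 ^ 3 + max k2 0 ^ 3) +
      Y * (max (-k0) 0 ^ 3 + max (-k1) 0 ^ 3 + max (-k2) 0 ^ 3))) := by ring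
  rw [e1, hk0]
  apply mul_nonneg hG.le
  linarith

/-- the flux at the far ends -/
lemma AF.flux_end {t : ℝ} (ht : t ∈ Ioo 0 T) (hb : a.k 0 t 1 ≤ 0) : ∑ i, a.Hf i t 1 ≤
    (Real.cos (3 * π / 8))⁻¹ * (9 / 8 * tq) * (max (-a.k 0 t 1) 0 ^ 3 + max (a.k 1 t 1) 0 ^ 3) := by
  obtain ⟨h01, h02⟩ := A.e0 t ht
  obtain ⟨h11, h12⟩ := A.e1 t ht
  obtain ⟨h21, h22⟩ := A.e2 t ht
  have hpi := Real.pi_pos
  have hV0 : a.V 0 t 1 = 0 := by
    refine (A.tth 0 t ht 1 oI).unique ((hasDerivAt_const t (0:ℝ)).congr_of_eventuallyEq ?_)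
    filter_upwards [Ioo_mem_nhds ht.1 ht.2] with s hs
    exact (A.e0 s hs).1
  have hV1 : a.V 1 t 1 = 0 := by
    refine (A.tth 1 t ht 1 oI).unique ((hasDerivAt_const t (π / 3)).congr_of_eventuallyEq ?_)
    filter_upwards [Ioo_mem_nhds ht.1 ht.2] with s hs
    exact (A.e1 s hs).1
  have hk2 : a.k 2 t 1 = 0 := by rw [AFd.k, h21, zero_mul]
  have hl0 : a.lm 0 t 1 = -(1 / √3) * a.k 0 t 1 := h02
  rw [Fin.sum_univ_three]
  simp only [AFd.Hf, h01, h11, hV0, hV1, hk2, hl0, h12, Xf_zero, Yf_zero, Xf_end, Yf_end]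
  set k := a.k 0 t 1
  set m := a.k 1 t 1
  have g0 := Gf_le (x := 0) ⟨le_refl _, by linarith⟩
  have g0' := Gf_pos (x := 0) ⟨le_refl _, by linarith⟩
  have g1 := Gf_le (x := π / 3) ⟨by linarith, le_refl _⟩
  have g1' := Gf_pos (x := π / 3) ⟨by linarith, le_refl _⟩
  have ht := tq_pos
  set C := (Real.cos (3 * π / 8))⁻¹
  have h3 : 0 ≤ max (-k) 0 ^ 3 := by positivity
  have h4 : 0 ≤ max m 0 ^ 3 := by positivity
  have k3 : 1 / √3 * k ^ 3 ≤ 0 := by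
    have : 0 ≤ 1 / √3 * (-k) ^ 3 := mul_nonneg (by positivity) (pow_nonneg (by linarith) 3)
    have e : (-k) ^ 3 = -k ^ 3 := by ring
    rw [e] at this; linarith
  have e1 : Gf 0 * (-(-(1 / √3) * k) * k ^ 2 + 2 * k * 0 + 9 / 8 * (0 * max k 0 ^ 3 +
      tq * max (-k) 0 ^ 3)) ≤ C * (9 / 8 * tq) * max (-k) 0 ^ 3 := by
    have a1 : Gf 0 * (-(-(1 / √3) * k) * k ^ 2 + 2 * k * 0 + 9 / 8 * (0 * max k 0 ^ 3 +
      tq * max (-k) 0 ^ 3)) = Gf 0 * (1 / √3 * k ^ 3) + Gf 0 * (9 / 8 * tq * max (-k) 0 ^ 3) := by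
      ring
    have a2 : Gf 0 * (1 / √3 * k ^ 3) ≤ 0 := mul_nonpos_of_nonneg_of_nonpos g0'.le k3
    have a3 := mul_le_mul_of_nonneg_right g0 (by positivity : 0 ≤ 9 / 8 * tq * max (-k) 0 ^ 3)
    rw [a1]; linarith
  have e2 : Gf (π / 3) * (-0 * m ^ 2 + 2 * m * 0 + 9 / 8 * (tq * max m 0 ^ 3 +
      0 * max (-m) 0 ^ 3)) ≤ C * (9 / 8 * tq) * max m 0 ^ 3 := by
    have a3 := mul_le_mul_of_nonneg_right g1 (by positivity : 0 ≤ 9 / 8 * tq * max m 0 ^ 3)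
    linarith
  have e3 : Gf (a.th 2 t 1) * (-a.lm 2 t 1 * (0:ℝ) ^ 2 + 2 * 0 * a.V 2 t 1 + 9 / 8 *
      (Xf (a.th 2 t 1) * max 0 0 ^ 3 + Yf (a.th 2 t 1) * max (-0) 0 ^ 3)) = 0 := by simp
  rw [h22] at e3
  linarith

theorem AF.dEn {t : ℝ} (ht : t ∈ Ioo 0 T) (hb : a.k 0 t 1 ≤ 0) : ∃ e, HasDerivAt a.En e t ∧
    e ≤ (Real.cos (3 * π / 8))⁻¹ * (9 / 8 * tq) *
      (max (-a.k 0 t 1) 0 ^ 3 + max (a.k 1 t 1) 0 ^ 3) := by
  choose e he1 he2 using fun i => A.dEn1 hS i ht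
  refine ⟨∑ i, e i, HasDerivAt.fun_sum (fun i _ => he1 i), ?_⟩
  have h1 := A.flux_junc hS ht
  have h2 := A.flux_end hS ht hb
  have h3 : ∑ i, e i ≤ ∑ i, (a.Hf i t 1 - a.Hf i t 0) := Finset.sum_le_sum (fun i _ => he2 i)
  rw [Finset.sum_sub_distrib] at h3
  linarith

end

end Run7.h661x
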