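import Pool.Agent.Run7.h661.X.Start
import Pool.Agent.Run7.h661.X.M5b

/-!
# Bounds which do not depend on the existence time
-/

open Set Filter Topology
open scoped Real

namespace Run7.h661x

open Run7.h661y (cang cang0 cang1 cang2 QF SecAt Hyp Aq FF xa ya yM rr Qar rr_pos rr_sq
  sqrt3_bounds pi_bounds cos_ge_half sin_ge_half_sqrt deriv_nonneg_of_left_max)

lemma PI_mono {T : ℝ} {F G : ℝ → ℝ → ℝ}
    (hF : ContinuousOn (fun q : ℝ × ℝ => F q.1 q.2) (Ioo 0 T ×ˢ Icc 0 1))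
    (hG : ContinuousOn (fun q : ℝ × ℝ => G q.1 q.2) (Ioo 0 T ×ˢ Icc 0 1)) {t : ℝ}
    (ht : t ∈ Ioo 0 T) (h : ∀ p ∈ Icc (0:ℝ) 1, F t p ≤ G t p) :
    PI clamp F t 1 ≤ PI clamp G t 1 :=
  intervalIntegral.integral_mono_on zero_le_one ((slice_cont dom_I hF ht).intervalIntegrable _ _)
    ((slice_cont dom_I hG ht).intervalIntegrable _ _) (fun q _ => h _ (clamp_mem q))

section
variable {T : ℝ} {a : AFd} (A : AF T a)
include A

lemma AF.disp (i : Fin 3) {t : ℝ} {f c : ℝ → ℝ} {m M : ℝ} (ht : t ∈ Ioo 0 T)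
    (hf : ∀ p ∈ Icc (0:ℝ) 1, HasDerivWithinAt f (a.ro i t p * c p) (Icc 0 1) p)
    (hc : ∀ p ∈ Icc (0:ℝ) 1, m ≤ c p ∧ c p ≤ M) :
    m * a.L i t ≤ f 1 - f 0 ∧ f 1 - f 0 ≤ M * a.L i t := by
  have hP : ∀ p, HasDerivAt (fun p => a.L 0 t * p + (a.L i t - a.L 0 t) * p ^ 2) (a.ro i t p) p := by
    intro p
    have h1 := ((hasDerivAt_id' p).const_mul (a.L 0 t)).add
      (((hasDerivAt_id' p).pow 2).const_mul (a.L i t - a.L 0 t))
    refine h1.congr_deriv ?_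
    simp only [AFd.ro]
    ring
  constructor
  · have := antitone_Icc (a := 0) (b := 1) (f := fun p => m * (a.L 0 t * p +
      (a.L i t - a.L 0 t) * p ^ 2) - f p) (f' := fun p => m * a.ro i t p - a.ro i t p * c p)
      (fun p hp => (((hP p).const_mul m).hasDerivWithinAt).sub (hf p hp))
      (fun p hp => by
        have h1 := A.pos i t ht p hp
        have h2 := (hc p hp).1
        nlinarith) zero_le_one
    nlinarith
  · have := antitone_Icc (a := 0) (b := 1) (f := fun p => f p - M * (a.L 0 t * p +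
      (a.L i t - a.L 0 t) * p ^ 2)) (f' := fun p => a.ro i t p * c p - M * a.ro i t p)
      (fun p hp => (hf p hp).sub (((hP p).const_mul M).hasDerivWithinAt))
      (fun p hp => by
        have h1 := A.pos i t ht p hp
        have h2 := (hc p hp).2
        nlinarith) zero_le_one
    nlinarith

lemma AF.ro_le {t Λ : ℝ} (h0 : a.L 0 t ≤ Λ) (h1 : ∀ i, 2 * a.L i t - a.L 0 t ≤ Λ) (i : Fin 3)
    {p : ℝ} (hp : p ∈ Icc (0:ℝ) 1) : a.ro i t p ≤ Λ := by
  rw [AFd.ro]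
  nlinarith [h1 i, hp.1, hp.2]

end

section
variable {T1 : ℝ} {a : AFd} {g : Fin 3 → ℝ → ℝ → ℂ} (S : St T1 a g)
include S

lemma St.junc_eq {t : ℝ} (ht : t ∈ Ioo 0 T1) (i : Fin 3) :
    a.X i t 0 = xa g t ∧ a.Y i t 0 = ya g t := by
  have h1 := S.C.re_eq S.A 0 ht zI
  rw [xa, ya, h1.1, h1.2]
  simp only [AFd.X, AFd.Y, PI_zero]
  exact ⟨trivial, trivial⟩

lemma St.len {t : ℝ} (ht : t ∈ Ioo 0 T1) :
    (√3 / 2 * a.L 0 t ≤ ya g t ∧ ya g t ≤ a.L 0 t) ∧
    (1 / 2 * a.L 1 t ≤ xa g t ∧ xa g t ≤ a.L 1 t) ∧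
    (1 / 2 * a.L 2 t ≤ RR - xa g t ∧ RR - xa g t ≤ a.L 2 t) := by
  have hpi := Real.pi_pos
  refine ⟨?_, ?_, ?_⟩
  · have h := S.A.disp 0 ht (f := a.Y 0 t) (c := fun p => Real.sin (a.al 0 t p)) (m := -1)
      (M := -(√3 / 2)) (fun p hp => S.A.pY 0 ht hp) (fun p hp => by
        obtain ⟨h1, h2⟩ := S.sec 0 t ht p hp
        refine ⟨Real.neg_one_le_sin _, ?_⟩
        have e : Real.sin (a.al 0 t p) = -Real.sin (π / 3 + a.th 0 t p) := by
          rw [AFd.al, cang0, ← Real.sin_sub_pi]; congr 1; ring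
        rw [e]
        have := sin_ge_half_sqrt h1 h2
        linarith)
    have e1 : a.Y 0 t 1 = 0 := by rw [AFd.Y]; ring
    rw [e1, (S.junc_eq ht 0).2] at h
    constructor <;> linarith [h.1, h.2]
  · have h := S.A.disp 1 ht (f := a.X 1 t) (c := fun p => Real.cos (a.al 1 t p)) (m := -1)
      (M := -(1 / 2)) (fun p hp => S.A.pX 1 ht hp) (fun p hp => by
        obtain ⟨h1, h2⟩ := S.sec 1 t ht p hp
        refine ⟨Real.neg_one_le_cos _, ?_⟩
        have e : Real.cos (a.al 1 t p) = -Real.cos (π / 3 - a.th 1 t p) := by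
          rw [AFd.al, cang1, ← Real.cos_pi_sub]; congr 1; ring
        rw [e]
        have := cos_ge_half (x := π / 3 - a.th 1 t p) (by linarith) (by linarith)
        linarith)
    have e1 : a.X 1 t 1 = 0 := by rw [AFd.X]; ring
    rw [e1, (S.junc_eq ht 1).1] at h
    constructor <;> linarith [h.1, h.2]
  · have h := S.A.disp 2 ht (f := a.X 2 t) (c := fun p => Real.cos (a.al 2 t p)) (m := 1 / 2)
      (M := 1) (fun p hp => S.A.pX 2 ht hp) (fun p hp => by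
        obtain ⟨h1, h2⟩ := S.sec 2 t ht p hp
        refine ⟨?_, Real.cos_le_one _⟩
        rw [AFd.al, cang2, zero_add]
        exact cos_ge_half h1 h2)
    rw [(S.endp t ht).1, (S.junc_eq ht 2).1] at h
    constructor <;> linarith [h.1, h.2]

lemma St.xa_up {t : ℝ} (ht : t ∈ Ioo 0 T1) : xa g t ≤ 1.21 :=
  S.qf.xa_up S.hyp.sec hh_pos (by rw [hh]) S.Q0 t ht

/-- curvature at the end on the axis -/
lemma St.kb {t : ℝ} (ht : t ∈ Ioo 0 T1) : a.k 0 t 1 ≤ 0 ∧ -a.k 0 t 1 ≤ KQ / yM g t := by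
  have hr := S.A.pos 0 t ht 1 oI
  have hyM := S.qf.yM_pos ht (S.hyp.secAt ht)
  have hK := S.hyp.Kpos
  obtain ⟨E, hE1, hE2, hE3⟩ := S.A.ext_th 0
  have hD := hE3 t ht 1 oI
  have hE1' : E t 1 = 0 := by rw [hE2 t ht 1 oI, (S.A.e0 t ht).1]
  have hg := S.qf.dim ht 0 1
  constructor
  · have h1 := deriv_nonneg_of_left_max hD.neg zero_lt_one (fun z hz => by
      have hz' : z ∈ Icc (0:ℝ) 1 := ⟨hz.1.le, hz.2.le⟩
      have := (S.sec 0 t ht z hz').1
      simp only [Pi.neg_apply, hE1', hE2 t ht z hz']; linarith)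
    have h2 : a.D 0 t 1 ≤ 0 := by linarith
    rw [AFd.k]
    exact mul_nonpos_of_nonpos_of_nonneg h2 (by positivity)
  · have hd := hD.sub (hg.const_mul (KQ / yM g t))
    have h1 := deriv_nonneg_of_left_max hd zero_lt_one (fun z hz => by
      have hz' : z ∈ Icc (0:ℝ) 1 := ⟨hz.1.le, hz.2.le⟩
      have h2 := S.hyp.W t ht 0 z hz'
      rw [S.th_eq 0 ht hz'] at h2
      simp only [Pi.sub_apply, hE1', hE2 t ht z hz', S.qf.bIm t ht]; linarith)
    rw [(S.dp_im 0 ht oI).2, AFd.ty] at h1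
    have hs := Real.neg_one_le_sin (a.al 0 t 1)
    have hc : 0 < KQ / yM g t := div_pos hK hyM
    have h3 : -a.D 0 t 1 ≤ KQ / yM g t * a.ro 0 t 1 := by
      have : KQ / yM g t * (a.ro 0 t 1 * -1) ≤ KQ / yM g t * (a.ro 0 t 1 * Real.sin (a.al 0 t 1)) :=
        mul_le_mul_of_nonneg_left (mul_le_mul_of_nonneg_left hs hr.le) hc.le
      linarith
    have e : -a.k 0 t 1 = -a.D 0 t 1 / a.ro 0 t 1 := by rw [AFd.k]; ring
    rw [e, div_le_iff₀ hr]; exact h3

/-- curvature at the mid-point of the cap -/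
lemma St.kM {t : ℝ} (ht : t ∈ Ioo 0 T1) : a.k 1 t 1 ≤ 1 / rr (1 / 2) t := by
  have h1 := S.hyp.yM_speed ht
  have hrr := rr_pos (S.hyp.ltT ht)
  rw [S.C.tW S.A 1 ht oI, AFd.W, AFd.al, (S.A.e1 t ht).1, (S.A.e1 t ht).2, cang1,
    show 2 * π / 3 + π / 3 = π by ring, Real.cos_pi, Real.sin_pi] at h1
  simp at h1
  have hs : √3 ≤ 2 := by rw [Real.sqrt_le_left (by norm_num)]; norm_num
  have h2 : √3 / 2 / rr (1 / 2) t ≤ 1 / rr (1 / 2) t :=
    div_le_div_of_nonneg_right (by linarith) hrr.le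
  have e : (2⁻¹ : ℝ) = 1 / 2 := by norm_num
  rw [e] at h1
  linarith

end

/-- constants -/
noncomputable def y1 (T' : ℝ) : ℝ := π / 6 * (1 / 2 - T')
noncomputable def cT (T' : ℝ) : ℝ := KQ / y1 T'
noncomputable def r1 (T' : ℝ) : ℝ := √(2 * (1 / 2 - T'))
noncomputable def lT (T' : ℝ) : ℝ := min (hh * Real.exp (-(2 * cT T' * RR))) (min (r1 T') 1)
noncomputable def ΛT : ℝ := 4 * RR
noncomputable def CB (T' : ℝ) : ℝ := (Real.cos (3 * π / 8))⁻¹ * (9 / 8 * tq) *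
  (cT T' ^ 3 + (1 / r1 T') ^ 3)
noncomputable def E0 (P0 : ℝ) : ℝ := (Real.cos (3 * π / 8))⁻¹ * (2 / ll 0) * P0
noncomputable def p1 (T' P0 : ℝ) : ℝ := √(ΛT * (E0 P0 + CB T'))

lemma KQ_pos : 0 < KQ := by
  have := Real.pi_pos
  have := hh_pos
  have := rc_pos
  rw [KQ, yM0]; positivity

section
variable {T' : ℝ} (hT' : T' < 1 / 2)
include hT'
lemma y1_pos : 0 < y1 T' := by
  have := Real.pi_pos
  rw [y1]; apply mul_pos (by positivity); linarith
lemma cT_pos : 0 < cT T' := div_pos KQ_pos (y1_pos hT')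
lemma r1_pos : 0 < r1 T' := Real.sqrt_pos.2 (by linarith)
lemma lT_pos : 0 < lT T' := lt_min (mul_pos hh_pos (Real.exp_pos _)) (lt_min (r1_pos hT') one_pos)
lemma CB_pos : 0 < CB T' := by
  have h1 := cos38_pos
  have h2 := tq_pos
  have h3 := cT_pos hT'
  have h4 := r1_pos hT'
  rw [CB]; positivity
end

section
variable {T1 T' : ℝ} {a : AFd} {g : Fin 3 → ℝ → ℝ → ℂ} (S : St T1 a g) (hT' : T' < 1 / 2)
  (hTT : T1 ≤ T')
include S hT' hTT

lemma St.yM_ge {t : ℝ} (ht : t ∈ Ioo 0 T1) : y1 T' ≤ yM g t := by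
  have h1 := S.hyp.yM_low (fun t ht => S.xa_up ht) ht
  have hpi := Real.pi_pos
  have h2 : π / 3 * (1 / 2 - T') ≤ π / 3 * (1 / 2 - t) :=
    mul_le_mul_of_nonneg_left (by linarith [ht.2]) (by positivity)
  rw [y1]; linarith

lemma St.c_le {t : ℝ} (ht : t ∈ Ioo 0 T1) : KQ / yM g t ≤ cT T' :=
  div_le_div_of_nonneg_left KQ_pos.le (y1_pos hT') (S.yM_ge hT' hTT ht)

lemma St.r_ge {t : ℝ} (ht : t ∈ Ioo 0 T1) : r1 T' ≤ rr (1 / 2) t := by
  rw [r1, rr]
  apply Real.sqrt_le_sqrt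
  linarith [ht.2]

/-- bounds of the lengths -/
theorem St.len_bds {t : ℝ} (ht : t ∈ Ioo 0 T1) : lT T' ≤ a.L 0 t ∧ a.L 0 t ≤ ΛT ∧
    ∀ i, lT T' ≤ 2 * a.L i t - a.L 0 t ∧ 2 * a.L i t - a.L 0 t ≤ ΛT := by
  obtain ⟨⟨a1, a2⟩, ⟨b1, b2⟩, ⟨c1, c2⟩⟩ := S.len ht
  have hs := S.hyp.secAt ht
  have hya := S.qf.ya_pos ht hs
  have hyh := S.qf.ya_le_h ht hs
  have hxa := S.qf.xa_nonneg ht hs
  have hxu := S.xa_up ht
  have hya2 := S.hyp.ya_le ht
  have hbig := (S.hyp.concl_all ht).big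
  have hylow := S.hyp.ya_low ht
  have hr := S.r_ge hT' hTT ht
  have hr1 := r1_pos hT'
  have s1 := sqrt3_bounds.1
  have hhv : hh = 1 / 10000 := rfl
  have hRv : RR = 1001 := rfl
  have hL0 : 0 < a.L 0 t := lt_of_lt_of_le hya a2
  have l1 : lT T' ≤ hh * Real.exp (-(2 * cT T' * RR)) := min_le_left _ _
  have l2 : lT T' ≤ r1 T' := (min_le_right _ _).trans (min_le_left _ _)
  have l3 : lT T' ≤ 1 := (min_le_right _ _).trans (min_le_right _ _)
  have hlow : lT T' ≤ a.L 0 t := by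
    refine l1.trans (le_trans ?_ a2)
    have e1 : Real.exp (2 * (KQ / yM g t) * RR) ≤ Real.exp (2 * cT T' * RR) := by
      apply Real.exp_le_exp.2
      have := S.c_le hT' hTT ht
      rw [hRv]; linarith
    have e2 : hh ≤ ya g t * Real.exp (2 * cT T' * RR) :=
      hylow.trans (mul_le_mul_of_nonneg_left e1 hya.le)
    have e3 : hh * Real.exp (-(2 * cT T' * RR)) ≤ ya g t * Real.exp (2 * cT T' * RR) *
        Real.exp (-(2 * cT T' * RR)) := mul_le_mul_of_nonneg_right e2 (Real.exp_pos _).le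
    have e4 : Real.exp (2 * cT T' * RR) * Real.exp (-(2 * cT T' * RR)) = 1 := by
      rw [← Real.exp_add, add_neg_cancel, Real.exp_zero]
    rw [mul_assoc (ya g t), e4, mul_one] at e3
    exact e3
  have hL0u : a.L 0 t ≤ 1.16 * ya g t := by nlinarith
  have hup : ∀ i, a.L i t ≤ 2 * RR := by
    intro i
    fin_cases i
    · show a.L 0 t ≤ 2 * RR
      rw [hRv]; rw [hhv] at hyh; linarith
    · show a.L 1 t ≤ 2 * RR
      rw [hRv]; linarith
    · show a.L 2 t ≤ 2 * RR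
      linarith
  refine ⟨hlow, ?_, fun i => ⟨?_, ?_⟩⟩
  · rw [ΛT]; have := hup 0; rw [hRv] at *; linarith
  · fin_cases i
    · show lT T' ≤ 2 * a.L 0 t - a.L 0 t
      linarith
    · show lT T' ≤ 2 * a.L 1 t - a.L 0 t
      linarith
    · show lT T' ≤ 2 * a.L 2 t - a.L 0 t
      rw [hRv] at c2; rw [hhv] at hyh; linarith
  · rw [ΛT]; have := hup i; linarith

lemma St.dEn_le {t : ℝ} (ht : t ∈ Ioo 0 T1) : ∃ e, HasDerivAt a.En e t ∧ e ≤ CB T' := by
  obtain ⟨h1, h2⟩ := S.kb ht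
  have h3 := S.kM ht
  obtain ⟨e, he1, he2⟩ := S.A.dEn (fun i t ht p hp => S.sec i t ht p hp) ht h1
  refine ⟨e, he1, he2.trans ?_⟩
  rw [CB]
  have c1 := cos38_pos
  have c2 := tq_pos
  have hc := cT_pos hT'
  have hr1 := r1_pos hT'
  apply mul_le_mul_of_nonneg_left _ (by positivity)
  apply add_le_add
  · apply pow_le_pow_left₀ (le_max_right _ _)
    exact max_le (h2.trans (S.c_le hT' hTT ht)) hc.le
  · apply pow_le_pow_left₀ (le_max_right _ _)
    apply max_le _ (by positivity)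
    exact h3.trans (one_div_le_one_div_of_le hr1 (S.r_ge hT' hTT ht))

/-- the energy bound -/
theorem St.energy {P0 : ℝ}
    (hP : ∀ᶠ t in 𝓝[>] (0:ℝ), ∑ i, PI clamp (fun t p => a.D i t p ^ 2) t 1 ≤ P0) {t : ℝ}
    (ht : t ∈ Ioo 0 T1) : ∑ i, PI clamp (fun t p => a.D i t p ^ 2) t 1 ≤ p1 T' P0 ^ 2 := by
  have hCB := CB_pos hT'
  have hl0 := ll0_pos
  have c1 := cos38_pos
  have hsec : ∀ i, ∀ t ∈ Ioo 0 T1, ∀ p ∈ Icc (0:ℝ) 1, a.th i t p ∈ Icc 0 (π / 3) :=
    fun i t ht p hp => S.sec i t ht p hp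
  have hcD : ∀ i, ContinuousOn (fun q : ℝ × ℝ => a.D i q.1 q.2 ^ 2) (Ioo 0 T1 ×ˢ Icc 0 1) :=
    fun i => (S.A.cD i 0).cont.pow 2
  -- initial energy
  have hini : ∀ᶠ s in 𝓝[>] (0:ℝ), a.En s ≤ E0 P0 := by
    have h1 := fun i => (S.uro i).ev_ge (c := ll 0) (ε := ll 0 / 2) (fun p hp => by
      have b1 := ll1_bounds.1
      have b2 := ll2_bounds.1
      have b0 := ll0_small
      have hhv : hh = 1 / 10000 := rfl
      rw [hhv] at b0
      show ll 0 ≤ ll 0 + 2 * p * (ll i - ll 0)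
      have : 0 ≤ ll i - ll 0 := by
        fin_cases i
        · show 0 ≤ ll 0 - ll 0; linarith
        · show 0 ≤ ll 1 - ll 0; linarith
        · show 0 ≤ ll 2 - ll 0; linarith
      nlinarith [hp.1, mul_nonneg hp.1 this]) (by positivity)
    filter_upwards [eventually_all.2 h1, hP, S.ev] with s a1 a2 hs
    have h2 : a.En s ≤ ∑ i, (Real.cos (3 * π / 8))⁻¹ * (2 / ll 0) *
        PI clamp (fun t p => a.D i t p ^ 2) s 1 := by
      unfold AFd.En
      apply Finset.sum_le_sum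
      intro i _
      have e : (Real.cos (3 * π / 8))⁻¹ * (2 / ll 0) * PI clamp (fun t p => a.D i t p ^ 2) s 1 =
          PI clamp (fun t p => (Real.cos (3 * π / 8))⁻¹ * (2 / ll 0) * a.D i t p ^ 2) s 1 := by
        simp only [PI]
        rw [intervalIntegral.integral_const_mul]
      rw [e]
      refine PI_mono (S.A.cPh hsec i) (continuousOn_const.mul (hcD i)) hs (fun p hp => ?_)
      have hr := S.A.pos i s hs p hp
      have b1 := a1 i p hp
      have hG1 := Gf_le (hsec i s hs p hp)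
      have hG2 := Gf_pos (hsec i s hs p hp)
      rw [AFd.Ph]
      have h3 : (a.ro i s p)⁻¹ ≤ 2 / ll 0 := by
        rw [← one_div, div_le_div_iff₀ hr hl0]; linarith
      have h4 : a.D i s p ^ 2 * (a.ro i s p)⁻¹ ≤ a.D i s p ^ 2 * (2 / ll 0) :=
        mul_le_mul_of_nonneg_left h3 (sq_nonneg _)
      calc Gf (a.th i s p) * (a.D i s p ^ 2 * (a.ro i s p)⁻¹)
          ≤ (Real.cos (3 * π / 8))⁻¹ * (a.D i s p ^ 2 * (2 / ll 0)) :=
            mul_le_mul hG1 h4 (by positivity) (by positivity)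
        _ = _ := by ring
    refine h2.trans ?_
    rw [← Finset.mul_sum, E0]
    exact mul_le_mul_of_nonneg_left a2 (by positivity)
  -- growth
  have hEn : a.En t ≤ E0 P0 + CB T' := by
    have h2 : ∀ᶠ s in 𝓝[>] (0:ℝ), s < t :=
      (eventually_nhdsWithin_of_eventually_nhds (gt_mem_nhds ht.1))
    have h3 : ∀ᶠ s in 𝓝[>] (0:ℝ), 0 < s := eventually_mem_nhdsWithin
    obtain ⟨s, hs1, hs2, hs3⟩ := (hini.and (h2.and h3)).exists
    have hmem : ∀ x ∈ Icc s t, x ∈ Ioo 0 T1 := fun x hx => ⟨hs3.trans_le hx.1, hx.2.trans_lt ht.2⟩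
    choose! e he1 he2 using fun x (hx : x ∈ Icc s t) => S.dEn_le hT' hTT (hmem x hx)
    have hcx : ∀ x : ℝ, HasDerivAt (fun x : ℝ => CB T' * x) (CB T') x := fun x =>
      ((hasDerivAt_id' x).const_mul (CB T')).congr_deriv (by ring)
    have := antitone_Icc (a := s) (b := t) (f := fun x => a.En x - CB T' * x)
      (f' := fun x => e x - CB T')
      (fun x hx => ((he1 x hx).sub (hcx x)).hasDerivWithinAt)
      (fun x hx => by linarith [he2 x hx]) hs2.le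
    have h4 : t - s ≤ 1 := by have := ht.2; have := S.le; linarith
    nlinarith
  have hΛ : 0 < ΛT := by rw [ΛT, RR]; norm_num
  obtain ⟨-, b2, b3⟩ := S.len_bds hT' hTT ht
  have hfin : ∑ i, PI clamp (fun t p => a.D i t p ^ 2) t 1 ≤ ΛT * a.En t := by
    unfold AFd.En
    rw [Finset.mul_sum]
    apply Finset.sum_le_sum
    intro i _
    have e : ΛT * PI clamp (a.Ph i) t 1 = PI clamp (fun t p => ΛT * a.Ph i t p) t 1 := by
      simp only [PI]
      rw [intervalIntegral.integral_const_mul]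
    rw [e]
    refine PI_mono (hcD i) (continuousOn_const.mul (S.A.cPh hsec i)) ht (fun p hp => ?_)
    have hr := S.A.pos i t ht p hp
    have hG := Gf_ge (hsec i t ht p hp)
    have hrl := AF.ro_le S.A b2 (fun i => (b3 i).2) i hp
    rw [AFd.Ph]
    have h3 : 1 ≤ ΛT * (a.ro i t p)⁻¹ := by
      rw [← div_eq_mul_inv, one_le_div hr]; exact hrl
    have h4 : 0 ≤ a.D i t p ^ 2 := sq_nonneg _
    calc a.D i t p ^ 2 = a.D i t p ^ 2 * 1 := by ring
      _ ≤ a.D i t p ^ 2 * (ΛT * (a.ro i t p)⁻¹) := mul_le_mul_of_nonneg_left h3 h4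
      _ = ΛT * (1 * (a.D i t p ^ 2 * (a.ro i t p)⁻¹)) := by ring
      _ ≤ ΛT * (Gf (a.th i t p) * (a.D i t p ^ 2 * (a.ro i t p)⁻¹)) := by
          apply mul_le_mul_of_nonneg_left _ hΛ.le
          exact mul_le_mul_of_nonneg_right hG (by positivity)
  have hE0 : ∑ i, PI clamp (fun t p => a.D i t p ^ 2) t 1 ≤ ΛT * (E0 P0 + CB T') :=
    hfin.trans (mul_le_mul_of_nonneg_left hEn hΛ.le)
  have hnn : 0 ≤ ∑ i, PI clamp (fun t p => a.D i t p ^ 2) t 1 := by
    apply Finset.sum_nonneg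
    intro i _
    apply intervalIntegral.integral_nonneg zero_le_one
    intro q _
    exact sq_nonneg _
  rw [p1, Real.sq_sqrt (hnn.trans hE0)]
  exact hE0

end

end Run7.h661x
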