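import Pool.Agent.Run7.h661.X.Cap

/-!
# The cap of a flow of angles, parametrised with constant speed
-/

open Set Filter Topology
open scoped Real ContDiff

namespace Run7.h661x

open Run7.h661y (cang cang0 cang1 cang2)

variable {T : ℝ} {a : AFd}

noncomputable def AFd.pp (a : AFd) (t q : ℝ) : ℝ := Pf (a.L 0 t) (a.L 1 t) q
noncomputable def AFd.rp (a : AFd) (t q : ℝ) : ℝ := Rf (a.L 0 t) (a.L 1 t) q
/-- tangential velocity -/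
noncomputable def AFd.clq (a : AFd) (t q : ℝ) : ℝ := a.lm 1 t (a.pp t q) +
  (a.Ld 1 t * q - (a.Ld 0 t * a.pp t q + (a.Ld 1 t - a.Ld 0 t) * a.pp t q ^ 2))
/-- arclength derivative of the curvature -/
noncomputable def AFd.csq (a : AFd) (t q : ℝ) : ℝ :=
  a.V 1 t (a.pp t q) - a.lm 1 t (a.pp t q) * a.k 1 t (a.pp t q)

noncomputable def AFd.cTh (a : AFd) (t : ℝ) : ℝ → ℝ := fo (fun q => a.th 1 t (a.pp t q))
noncomputable def AFd.cAl (a : AFd) (t p : ℝ) : ℝ := π + a.cTh t p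
noncomputable def AFd.cK (a : AFd) (t : ℝ) : ℝ → ℝ := fe (fun q => a.k 1 t (a.pp t q))
noncomputable def AFd.cLm (a : AFd) (t : ℝ) : ℝ → ℝ := fo (a.clq t)
noncomputable def AFd.cS (a : AFd) (t : ℝ) : ℝ → ℝ := fo (a.csq t)
noncomputable def AFd.cX (a : AFd) (t : ℝ) : ℝ → ℝ := fo (fun q => a.X 1 t (a.pp t q))
noncomputable def AFd.cY (a : AFd) (t : ℝ) : ℝ → ℝ := fe (fun q => a.Y 1 t (a.pp t q))

section
variable (A : AF T a)
include A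

lemma AF.L0pos {t : ℝ} (ht : t ∈ Ioo 0 T) : 0 < a.L 0 t ∧ 0 < 2 * a.L 1 t - a.L 0 t := by
  have h0 := A.pos 1 t ht 0 ⟨le_refl _, zero_le_one⟩
  have h1 := A.pos 1 t ht 1 ⟨zero_le_one, le_refl _⟩
  simp only [AFd.ro] at h0 h1
  constructor <;> linarith

lemma AF.pp_mem {t : ℝ} (ht : t ∈ Ioo 0 T) {q : ℝ} (hq : q ∈ Icc (0:ℝ) 1) :
    a.pp t q ∈ Icc (0:ℝ) 1 := Pf_mem (A.L0pos ht).1 (A.L0pos ht).2 hq

lemma AF.rp_pos {t : ℝ} (ht : t ∈ Ioo 0 T) {q : ℝ} (hq : q ∈ Icc (0:ℝ) 1) :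
    0 < a.rp t q := Rf_pos (A.L0pos ht).1 (A.L0pos ht).2 hq

lemma AF.ro_pp {t : ℝ} (ht : t ∈ Ioo 0 T) {q : ℝ} (hq : q ∈ Icc (0:ℝ) 1) :
    a.ro 1 t (a.pp t q) = a.rp t q := Pf_speed (A.L0pos ht).1 (A.L0pos ht).2 hq

lemma AF.pp_one {t : ℝ} (ht : t ∈ Ioo 0 T) : a.pp t 1 = 1 := Pf_one (A.L0pos ht).1 (A.L0pos ht).2

lemma AF.sL (i : Fin 3) : ContDiffOn ℝ ∞ (fun q : ℝ × ℝ => a.L i q.1) (Ioo 0 T ×ˢ Icc 0 1) :=
  contDiffOn_infty_of_RGA (F := fun t _ => a.L i t) dom_I (fun n m => A.rL i m n)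

lemma AF.spp : ContDiffOn ℝ ∞ (fun q : ℝ × ℝ => a.pp q.1 q.2) (Ioo 0 T ×ˢ Icc 0 1) := by
  have h0 := A.sL 0
  have h1 := A.sL 1
  have hs : ContDiffOn ℝ ∞ (fun q : ℝ × ℝ => q.2) (Ioo 0 T ×ˢ Icc 0 1) := contDiffOn_snd
  have hr : ContDiffOn ℝ ∞ (fun q : ℝ × ℝ => a.L 0 q.1 ^ 2 +
      4 * (a.L 1 q.1 - a.L 0 q.1) * a.L 1 q.1 * q.2) (Ioo 0 T ×ˢ Icc 0 1) :=
    (h0.pow 2).add (((contDiffOn_const.mul (h1.sub h0)).mul h1).mul hs)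
  have hR := hr.sqrt (fun q hq => (rdc_pos (A.L0pos hq.1).1 (A.L0pos hq.1).2 hq.2).ne')
  have hn : ContDiffOn ℝ ∞ (fun q : ℝ × ℝ => 2 * a.L 1 q.1 * q.2) (Ioo 0 T ×ˢ Icc 0 1) :=
    (contDiffOn_const.mul h1).mul hs
  refine hn.div (h0.add hR) (fun q hq => ?_)
  have k0 := (A.L0pos hq.1).1
  have k1 := A.rp_pos hq.1 hq.2
  exact (add_pos k0 k1).ne'

lemma AF.cpp (m : ℕ) : CTm T (Icc 0 1) m a.pp :=
  CTm_of_smooth (uniqueDiffOn_Icc zero_lt_one) A.spp m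

lemma AF.comp_pp {F : ℝ → ℝ → ℝ} (hF : ∀ m n, RG T (Icc 0 1) m n F) (m : ℕ) :
    CTm T (Icc 0 1) m (fun t q => F t (a.pp t q)) := by
  have h1 := contDiffOn_infty_of_RGA (F := F) dom_I (fun n m => hF m n)
  have h2 : ContDiffOn ℝ ∞ (fun q : ℝ × ℝ => (q.1, a.pp q.1 q.2)) (Ioo 0 T ×ˢ Icc 0 1) :=
    contDiffOn_fst.prodMk A.spp
  have h3 : ContDiffOn ℝ ∞ (fun q : ℝ × ℝ => F q.1 (a.pp q.1 q.2)) (Ioo 0 T ×ˢ Icc 0 1) :=
    ContDiffOn.comp (g := fun q : ℝ × ℝ => F q.1 q.2)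
      (f := fun q : ℝ × ℝ => (q.1, a.pp q.1 q.2)) h1 h2
      (fun q hq => ⟨hq.1, A.pp_mem hq.1 hq.2⟩)
  exact CTm_of_smooth (uniqueDiffOn_Icc zero_lt_one) h3 m

/-- time derivative of the parameter -/
lemma AF.tpp {t : ℝ} (ht : t ∈ Ioo 0 T) {q : ℝ} (hq : q ∈ Icc (0:ℝ) 1) :
    HasDerivAt (fun s => a.pp s q) ((a.clq t q - a.lm 1 t (a.pp t q)) / a.rp t q) t := by
  obtain ⟨-, P', -, h⟩ := A.cpp 1
  have hP := h t ht q hq
  have hR := (A.rp_pos ht hq).ne'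
  have e1 : HasDerivAt (fun s => a.L 0 s * a.pp s q + (a.L 1 s - a.L 0 s) * a.pp s q ^ 2)
      (a.Ld 1 t * q) t := by
    have h1 : HasDerivAt (fun s => a.L 1 s * q) (a.Ld 1 t * q) t := (A.tL 1 t ht).mul_const q
    refine h1.congr_of_eventuallyEq ?_
    filter_upwards [Ioo_mem_nhds ht.1 ht.2] with s hs
    exact Pf_eq (A.L0pos hs).1 (A.L0pos hs).2 hq
  have e2 := ((A.tL 0 t ht).mul hP).add (((A.tL 1 t ht).sub (A.tL 0 t ht)).mul (hP.pow 2))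
  have e3 := e1.unique e2
  have e4 := A.ro_pp ht hq
  rw [AFd.ro] at e4
  refine hP.congr_deriv ?_
  rw [eq_div_iff hR, ← e4, AFd.clq]
  simp only [Nat.cast_ofNat, Nat.add_one_sub_one, pow_one, Pi.pow_apply, Pi.sub_apply] at e3
  linear_combination (-1) * e3

/-- chain rule -/
lemma AF.tcomp {F Ft Fp : ℝ → ℝ → ℝ}
    (hFt : ContinuousOn (fun q : ℝ × ℝ => Ft q.1 q.2) (Ioo 0 T ×ˢ Icc 0 1))
    (h1 : ∀ t ∈ Ioo 0 T, ∀ p ∈ Icc (0:ℝ) 1, HasDerivAt (fun s => F s p) (Ft t p) t)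
    (h2 : ∀ t ∈ Ioo 0 T, ∀ p ∈ Icc (0:ℝ) 1, HasDerivWithinAt (F t) (a.ro 1 t p * Fp t p)
      (Icc 0 1) p) {t : ℝ} (ht : t ∈ Ioo 0 T) {q : ℝ} (hq : q ∈ Icc (0:ℝ) 1) :
    HasDerivAt (fun s => F s (a.pp s q)) (Ft t (a.pp t q) + Fp t (a.pp t q) *
      (a.clq t q - a.lm 1 t (a.pp t q))) t := by
  have h := comp2 (uniqueDiffOn_Icc zero_lt_one) hFt h1 h2 ht (A.tpp ht hq)
    (fun s hs => A.pp_mem hs hq)
  refine h.congr_deriv ?_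
  have hR := (A.rp_pos ht hq).ne'
  rw [A.ro_pp ht hq]
  field_simp

lemma AF.tcth {t : ℝ} (ht : t ∈ Ioo 0 T) {q : ℝ} (hq : q ∈ Icc (0:ℝ) 1) :
    HasDerivAt (fun s => a.th 1 s (a.pp s q)) (a.csq t q + a.clq t q * a.k 1 t (a.pp t q)) t := by
  have h := A.tcomp (F := a.th 1) (Ft := a.V 1) (Fp := a.k 1) (A.rV 1 0 0).ct.cont (A.tth 1)
    (fun t ht p hp => (A.pth 1 t ht p hp).congr_deriv (by rw [A.D_eq 1 ht hp]; ring)) ht hq
  refine h.congr_deriv ?_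
  rw [AFd.csq]; ring

lemma AF.tcx {t : ℝ} (ht : t ∈ Ioo 0 T) {q : ℝ} (hq : q ∈ Icc (0:ℝ) 1) :
    HasDerivAt (fun s => a.X 1 s (a.pp s q)) (a.clq t q * Real.cos (a.al 1 t (a.pp t q)) -
      a.k 1 t (a.pp t q) * Real.sin (a.al 1 t (a.pp t q))) t := by
  have hc := ((RG.const (cang 1) 0 0).add (A.reg 0 1 0).1).cossin
  have hu : RG T (Icc 0 1) 0 0 (a.ux 1) :=
    (((A.reg 0 1 0).2.2.mul hc.1).sub ((A.rk 1 0 0).mul hc.2)).congr (fun _ _ _ _ => rfl)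
  have h := A.tcomp (F := a.X 1) (Ft := a.ux 1) (Fp := fun t p => Real.cos (a.al 1 t p))
    hu.ct.cont (fun t ht p hp => A.tX 1 ht hp) (fun t ht p hp => A.pX 1 ht hp) ht hq
  refine h.congr_deriv ?_
  rw [AFd.ux]; ring

lemma AF.tcy {t : ℝ} (ht : t ∈ Ioo 0 T) {q : ℝ} (hq : q ∈ Icc (0:ℝ) 1) :
    HasDerivAt (fun s => a.Y 1 s (a.pp s q)) (a.clq t q * Real.sin (a.al 1 t (a.pp t q)) +
      a.k 1 t (a.pp t q) * Real.cos (a.al 1 t (a.pp t q))) t := by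
  have hc := ((RG.const (cang 1) 0 0).add (A.reg 0 1 0).1).cossin
  have hu : RG T (Icc 0 1) 0 0 (a.uy 1) :=
    (((A.reg 0 1 0).2.2.mul hc.2).add ((A.rk 1 0 0).mul hc.1)).congr (fun _ _ _ _ => rfl)
  have h := A.tcomp (F := a.Y 1) (Ft := a.uy 1) (Fp := fun t p => Real.sin (a.al 1 t p))
    hu.ct.cont (fun t ht p hp => A.tY 1 ht hp) (fun t ht p hp => A.pY 1 ht hp) ht hq
  refine h.congr_deriv ?_
  rw [AFd.uy]; ring

lemma AF.pkq {t : ℝ} (ht : t ∈ Ioo 0 T) {q : ℝ} (hq : q ∈ Icc (0:ℝ) 1) :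
    HasDerivWithinAt (fun q => a.k 1 t (a.pp t q)) (a.L 1 t * a.csq t q) (Icc 0 1) q := by
  have h := comp_Pf (A.L0pos ht).1 (A.L0pos ht).2 (F := a.k 1 t) (fun p hp => A.pk 1 ht hp) hq
  refine h.congr_deriv ?_
  have hR := (A.rp_pos ht hq).ne'
  have e := A.ro_pp ht hq
  have e2 := A.D_eq 1 ht (A.pp_mem ht hq)
  rw [e] at e2
  simp only [AFd.pp, AFd.rp] at e e2 hR
  rw [e, e2, AFd.csq, AFd.pp]
  field_simp

lemma AF.pclq {t : ℝ} (ht : t ∈ Ioo 0 T) {q : ℝ} (hq : q ∈ Icc (0:ℝ) 1) :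
    HasDerivWithinAt (a.clq t) (a.Ld 1 t + a.L 1 t * a.k 1 t (a.pp t q) ^ 2) (Icc 0 1) q := by
  have h := comp_Pf (A.L0pos ht).1 (A.L0pos ht).2 (F := a.lm 1 t) (fun p hp => A.plm 1 t ht p hp) hq
  have hP := (Pf_deriv (A.L0pos ht).1 (A.L0pos ht).2 hq).hasDerivWithinAt (s := Icc 0 1)
  have hid : HasDerivWithinAt (fun q : ℝ => a.Ld 1 t * q) (a.Ld 1 t * 1) (Icc 0 1) q :=
    ((hasDerivAt_id' q).const_mul _).hasDerivWithinAt
  have h2 := h.add (hid.sub ((hP.const_mul (a.Ld 0 t)).add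
    ((hP.pow 2).const_mul (a.Ld 1 t - a.Ld 0 t))))
  refine HasDerivWithinAt.congr_deriv (f := a.clq t) h2 ?_
  have hR := (A.rp_pos ht hq).ne'
  have e := A.ro_pp ht hq
  have e2 := A.D_eq 1 ht (A.pp_mem ht hq)
  rw [e] at e2
  simp only [AFd.pp, AFd.rp] at e e2 hR ⊢
  rw [e, e2, AFd.rod]
  simp only [Nat.cast_ofNat, Nat.add_one_sub_one, pow_one]
  field_simp
  ring

lemma AF.cone {t : ℝ} (ht : t ∈ Ioo 0 T) : a.clq t 1 = 0 ∧ a.csq t 1 = 0 ∧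
    a.th 1 t (a.pp t 1) = π / 3 := by
  have e := A.pp_one ht
  obtain ⟨h1, h2⟩ := A.e1 t ht
  have o1 : (1:ℝ) ∈ Icc (0:ℝ) 1 := ⟨zero_le_one, le_refl _⟩
  have hV : a.V 1 t 1 = 0 := by
    have d1 := A.tth 1 t ht 1 o1
    have d2 : HasDerivAt (fun t => a.th 1 t 1) 0 t := by
      refine (hasDerivAt_const t (π / 3)).congr_of_eventuallyEq ?_
      filter_upwards [Ioo_mem_nhds ht.1 ht.2] with s hs
      exact (A.e1 s hs).1
    exact d1.unique d2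
  refine ⟨?_, ?_, ?_⟩
  · rw [AFd.clq, e, h2]; ring
  · rw [AFd.csq, e, h2, hV]; ring
  · rw [e, h1]

/-! ### the folded functions -/

lemma AF.pcap {t : ℝ} (ht : t ∈ Ioo 0 T) {p : ℝ} (hp : p ∈ Icc (0:ℝ) 1) :
    HasDerivWithinAt (a.cAl t) (2 * a.L 1 t * a.cK t p) (Icc 0 1) p ∧
    HasDerivWithinAt (a.cX t) (2 * a.L 1 t * Real.cos (a.cAl t p)) (Icc 0 1) p ∧
    HasDerivWithinAt (a.cY t) (2 * a.L 1 t * Real.sin (a.cAl t p)) (Icc 0 1) p :=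
  cap_slice (A.L0pos ht).1 (A.L0pos ht).2 (th := a.th 1 t) (kk := a.k 1 t) (X := a.X 1 t)
    (Y := a.Y 1 t) (fun q hq => (A.pth 1 t ht q hq).congr_deriv (by
      rw [A.D_eq 1 ht hq, AFd.ro]; ring))
    (fun q hq => (A.pX 1 ht hq).congr_deriv (by rw [AFd.tx, AFd.al, cang1, AFd.ro]))
    (fun q hq => (A.pY 1 ht hq).congr_deriv (by rw [AFd.ty, AFd.al, cang1, AFd.ro]))
    (A.e1 t ht).1 hp

lemma AF.pcK {t : ℝ} (ht : t ∈ Ioo 0 T) {p : ℝ} (hp : p ∈ Icc (0:ℝ) 1) :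
    HasDerivWithinAt (a.cK t) (2 * a.L 1 t * a.cS t p) (Icc 0 1) p := by
  refine (fe_deriv (F' := fun q => a.L 1 t * a.csq t q) (fun q hq => A.pkq ht hq) ?_
    hp).congr_deriv ?_
  · simp only [(A.cone ht).2.1, mul_zero]
  · rw [fo, AFd.cS, fo]; ring

lemma AF.pcLm {t : ℝ} (ht : t ∈ Ioo 0 T) {p : ℝ} (hp : p ∈ Icc (0:ℝ) 1) :
    HasDerivWithinAt (a.cLm t) (2 * a.Ld 1 t + 2 * a.L 1 t * a.cK t p ^ 2) (Icc 0 1) p := by
  refine (fo_deriv (F' := fun q => a.Ld 1 t + a.L 1 t * a.k 1 t (a.pp t q) ^ 2)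
    (fun q hq => A.pclq ht hq) hp).congr_deriv ?_
  rcases le_total p (1 / 2) with h | h
  · rw [fe_left _ h, AFd.cK, fe_left _ h]; ring
  · rw [fe_right _ h, AFd.cK, fe_right _ h]; ring

lemma AF.tcAl {t : ℝ} (ht : t ∈ Ioo 0 T) {p : ℝ} (hp : p ∈ Icc (0:ℝ) 1) :
    HasDerivAt (fun s => a.cTh s p) (a.cS t p + a.cLm t p * a.cK t p) t := by
  have h := (A.tcth ht (m1_mem hp)).sub (A.tcth ht (m2_mem hp))
  refine HasDerivAt.congr_deriv (f := fun s => a.cTh s p) h ?_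
  obtain ⟨c1, c2, -⟩ := A.cone ht
  rcases le_total p (1 / 2) with h | h
  · rw [AFd.cS, AFd.cLm, AFd.cK, fo_left _ h, fo_left _ h, fe_left _ h, (m_left h).1, (m_left h).2,
      c1, c2]; ring
  · rw [AFd.cS, AFd.cLm, AFd.cK, fo_right _ h, fo_right _ h, fe_right _ h, (m_right h).1,
      (m_right h).2, c1, c2]; ring

lemma AF.al_half {t : ℝ} (ht : t ∈ Ioo 0 T) {p : ℝ} :
    (p ≤ 1 / 2 → a.cAl t p = a.al 1 t (a.pp t (2 * p))) ∧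
    (1 / 2 ≤ p → a.cAl t p = 2 * π - a.al 1 t (a.pp t (2 - 2 * p))) := by
  obtain ⟨-, -, c3⟩ := A.cone ht
  constructor
  · intro h
    rw [AFd.cAl, AFd.cTh, fo_left _ h, c3, AFd.al, cang1]; ring
  · intro h
    rw [AFd.cAl, AFd.cTh, fo_right _ h, c3, AFd.al, cang1]; ring

lemma AF.al_pp_one {t : ℝ} (ht : t ∈ Ioo 0 T) : a.al 1 t (a.pp t 1) = π := by
  rw [AFd.al, cang1, (A.cone ht).2.2]; ring

lemma AF.tcX {t : ℝ} (ht : t ∈ Ioo 0 T) {p : ℝ} (hp : p ∈ Icc (0:ℝ) 1) :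
    HasDerivAt (fun s => a.cX s p) (a.cLm t p * Real.cos (a.cAl t p) -
      a.cK t p * Real.sin (a.cAl t p)) t := by
  have h := (A.tcx ht (m1_mem hp)).sub (A.tcx ht (m2_mem hp))
  refine HasDerivAt.congr_deriv (f := fun s => a.cX s p) h ?_
  obtain ⟨c1, c2, -⟩ := A.cone ht
  have c3 := A.al_pp_one ht
  rcases le_total p (1 / 2) with h | h
  · rw [(A.al_half ht).1 h, AFd.cLm, AFd.cK, fo_left _ h, fe_left _ h, (m_left h).1, (m_left h).2,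
      c1, c3, Real.sin_pi]; ring
  · rw [(A.al_half ht).2 h, AFd.cLm, AFd.cK, fo_right _ h, fe_right _ h, (m_right h).1,
      (m_right h).2, c1, c3, Real.sin_pi, Real.sin_two_pi_sub, Real.cos_two_pi_sub]; ring

lemma AF.tcY {t : ℝ} (ht : t ∈ Ioo 0 T) {p : ℝ} (hp : p ∈ Icc (0:ℝ) 1) :
    HasDerivAt (fun s => a.cY s p) (a.cLm t p * Real.sin (a.cAl t p) +
      a.cK t p * Real.cos (a.cAl t p)) t := by
  have o1 : (1:ℝ) ∈ Icc (0:ℝ) 1 := ⟨zero_le_one, le_refl _⟩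
  have h := ((A.tcy ht (m1_mem hp)).add (A.tcy ht (m2_mem hp))).sub (A.tcy ht o1)
  refine HasDerivAt.congr_deriv (f := fun s => a.cY s p) h ?_
  obtain ⟨c1, c2, -⟩ := A.cone ht
  have c3 := A.al_pp_one ht
  rcases le_total p (1 / 2) with h | h
  · rw [(A.al_half ht).1 h, AFd.cLm, AFd.cK, fo_left _ h, fe_left _ h, (m_left h).1, (m_left h).2,
      c1, c3, Real.sin_pi]; ring
  · rw [(A.al_half ht).2 h, AFd.cLm, AFd.cK, fo_right _ h, fe_right _ h, (m_right h).1,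
      (m_right h).2, c1, c3, Real.sin_pi, Real.sin_two_pi_sub, Real.cos_two_pi_sub]; ring

/-! ### smoothness -/

omit A in
lemma CTm.fo {m : ℕ} {F : ℝ → ℝ → ℝ} (h : CTm T (Icc 0 1) m F) :
    CTm T (Icc 0 1) m (fun t => Run7.h661x.fo (F t)) := by
  have h1 := h.comp_p m1_cont.continuousOn (fun _ hp => m1_mem hp)
  have h2 := h.comp_p m2_cont.continuousOn (fun _ hp => m2_mem hp)
  have h3 : RG T (Icc 0 1) m 0 (fun t p => F t (m1 p) - F t (m2 p)) :=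
    RG.sub (n := 0) (F := fun t p => F t (m1 p)) (G := fun t p => F t (m2 p)) h1 h2
  exact h3

omit A in
lemma CTm.fe {m : ℕ} {F : ℝ → ℝ → ℝ} (h : CTm T (Icc 0 1) m F) :
    CTm T (Icc 0 1) m (fun t => Run7.h661x.fe (F t)) := by
  have h1 := h.comp_p m1_cont.continuousOn (fun _ hp => m1_mem hp)
  have h2 := h.comp_p m2_cont.continuousOn (fun _ hp => m2_mem hp)
  have h3 : RG T (Icc 0 1) m 0 (fun t p => F t (m1 p) + F t (m2 p) - F t 1) :=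
    RG.sub (n := 0) (F := fun t p => F t (m1 p) + F t (m2 p)) (G := fun t _ => F t 1)
      (h1.add h2) (h.eval ⟨zero_le_one, le_refl _⟩)
  exact h3

theorem AF.creg (n : ℕ) : ∀ m, RG T (Icc 0 1) m n a.cTh ∧ RG T (Icc 0 1) m n a.cK ∧
    RG T (Icc 0 1) m n a.cLm := by
  have b1 : ∀ m, CTm T (Icc 0 1) m a.cTh := fun m =>
    (A.comp_pp (F := a.th 1) (fun m n => (A.reg n 1 m).1) m).fo
  have b2 : ∀ m, CTm T (Icc 0 1) m a.cK := fun m =>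
    (A.comp_pp (F := a.k 1) (fun m n => A.rk 1 m n) m).fe
  have b3 : ∀ m, CTm T (Icc 0 1) m a.cLm := by
    intro m
    refine CTm.fo (F := a.clq) ?_
    have c1 := A.comp_pp (F := a.lm 1) (fun m n => (A.reg n 1 m).2.2) m
    have c2 := A.cpp m
    have e1 := A.cLd 1 m
    have e0 := A.cLd 0 m
    have hid : CTm T (Icc 0 1) m (fun _ p : ℝ => p) := CTm.of_p continuousOn_id
    have d1 : RG T (Icc 0 1) m 0 (fun t q => a.Ld 1 t * q) := e1.mul hid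
    have d2 : RG T (Icc 0 1) m 0 (fun t q => a.Ld 0 t * a.pp t q) := e0.mul c2
    have d3 : RG T (Icc 0 1) m 0 (fun t _ => a.Ld 1 t - a.Ld 0 t) :=
      RG.sub (n := 0) (F := fun t _ => a.Ld 1 t) (G := fun t _ => a.Ld 0 t) e1 e0
    have d4 : RG T (Icc 0 1) m 0 (fun t q => (a.Ld 1 t - a.Ld 0 t) * (a.pp t q * a.pp t q)) :=
      d3.mul (c2.mul c2 : RG T (Icc 0 1) m 0 (fun t q => a.pp t q * a.pp t q))
    have d5 : RG T (Icc 0 1) m 0 (fun t q => a.lm 1 t (a.pp t q)) := c1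
    exact (d5.add (d1.sub (d2.add d4))).congr (fun t _ p _ => by rw [AFd.clq]; ring)
  induction n with
  | zero => exact fun m => ⟨b1 m, b2 m, b3 m⟩
  | succ n ih =>
    intro m
    obtain ⟨h1, h2, h3⟩ := ih m
    have hV : RG T (Icc 0 1) m n (fun t p => a.cS t p + a.cLm t p * a.cK t p) :=
      RG.dt dom_I (ih (m + 1)).1 (fun t ht p hp => A.tcAl ht hp)
    have hS : RG T (Icc 0 1) m n a.cS :=
      (hV.sub (h3.mul h2)).congr (fun t _ p _ => by ring)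
    have hL := (RG.const 2 m n).mul (A.rL 1 m n)
    have hLd := (RG.const 2 m n).mul (A.rLd 1 m n)
    refine ⟨⟨b1 m, _, hL.mul h2, fun t ht p hp => ?_⟩, ⟨b2 m, _, hL.mul hS, fun t ht p hp =>
      A.pcK ht hp⟩, ⟨b3 m, _, hLd.add (hL.mul (h2.mul h2)), fun t ht p hp =>
      (A.pcLm ht hp).congr_deriv (by ring)⟩⟩
    have h := ((A.pcap ht hp).1).sub_const π
    refine h.congr_of_mem (fun q _ => ?_) hp
    rw [AFd.cAl]; ring

lemma AF.rcXY (m n : ℕ) : RG T (Icc 0 1) m n a.cX ∧ RG T (Icc 0 1) m n a.cY := by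
  have b1 : ∀ m, CTm T (Icc 0 1) m a.cX := fun m =>
    (A.comp_pp (F := a.X 1) (fun m n => (A.rX 1 m n).1) m).fo
  have b2 : ∀ m, CTm T (Icc 0 1) m a.cY := fun m =>
    (A.comp_pp (F := a.Y 1) (fun m n => (A.rX 1 m n).2) m).fe
  cases n with
  | zero => exact ⟨b1 m, b2 m⟩
  | succ n =>
    have hL := (RG.const 2 m n).mul (A.rL 1 m n)
    have hc := ((RG.const π m n).add (A.creg n m).1).cossin
    exact ⟨⟨b1 m, _, hL.mul hc.1, fun t ht p hp => (A.pcap ht hp).2.1⟩,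
      ⟨b2 m, _, hL.mul hc.2, fun t ht p hp => (A.pcap ht hp).2.2⟩⟩

end

end Run7.h661x
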