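import Pool.Agent.Run7.h661.Y.Boot

/-!
# Bounds of the geometry
-/

open Set Filter Topology
open scoped Real

namespace Run7.h661y

/-- area to the left of the arm -/
noncomputable def Qar (g : Fin 3 → ℝ → ℝ → ℂ) (t : ℝ) : ℝ :=
  FF (fun _ x => x) g 2 t - FF (fun _ x => x) g 0 t

section
variable {T T1 R h : ℝ} {g : Fin 3 → ℝ → ℝ → ℂ}

lemma QF.dt2 (H : QF T R h g) {t : ℝ} (ht : t ∈ Ioo 0 T) : dt (g 2) t 1 = 0 := by
  have h1 := (H.edge 2).sm.hasDerivAt_t ht 1
  have h2 : (fun s => g 2 s 1) =ᶠ[𝓝 t] (fun _ => (R : ℂ) + h * Complex.I) := by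
    filter_upwards [Ioo_mem_nhds ht.1 ht.2] with s hs
    exact H.pEnd s hs
  exact (h1.congr_of_eventuallyEq h2.symm).unique (hasDerivAt_const t _)

lemma QF.Qar_deriv (H : QF T R h g) {t : ℝ} (ht : t ∈ Ioo 0 T) (hs : SecAt g t) :
    HasDerivAt (Qar g) (-th (cang 2) (g 2) t 1) t := by
  have hpos := SecAt.posAt H ht hs
  have h1 := func_deriv (H.edge 2) ht (hpos 2) (test_x T)
  have h0 := func_deriv (H.edge 0) ht (hpos 0) (test_x T)
  refine (h1.sub h0).congr_deriv ?_
  simp only [H.th_b ht hpos, H.dt0_im ht, H.dt2 ht, H.re_zero ht 2, H.re_zero ht 0,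
    H.vel_junc ht 2 0, H.th_junc ht hpos 2 0, zero_mul, add_zero, mul_zero, one_mul,
    Complex.zero_im, intervalIntegral.integral_zero]
  ring

lemma QF.Qar_le (H : QF T R h g) (hsec : ∀ t ∈ Ioo 0 T, SecAt g t) {q0 : ℝ}
    (hini : ∀ᶠ s in 𝓝[>] (0:ℝ), Qar g s ≤ q0) : ∀ t ∈ Ioo 0 T, Qar g t ≤ q0 := by
  intro t ht
  have h2 : ∀ᶠ s in 𝓝[>] (0:ℝ), s < t :=
    (eventually_nhdsWithin_of_eventually_nhds (gt_mem_nhds ht.1))
  have h3 : ∀ᶠ s in 𝓝[>] (0:ℝ), 0 < s := eventually_mem_nhdsWithin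
  obtain ⟨s, hs1, hs2, hs3⟩ := (hini.and (h2.and h3)).exists
  have hmem : ∀ x ∈ Icc s t, x ∈ Ioo 0 T := fun x hx => ⟨hs3.trans_le hx.1, hx.2.trans_lt ht.2⟩
  have := mono_of_deriv (f := fun x => -Qar g x) (f' := fun x => - -th (cang 2) (g 2) x 1) (a := s)
    (b := t) (fun x hx => (H.Qar_deriv (hmem x hx) (hsec x (hmem x hx))).neg)
    (fun x hx => by
      have := (H.th_mem (hmem x hx) (hsec x (hmem x hx)) 2 one_mem_I).1
      linarith) ⟨le_refl _, hs2.le⟩ ⟨hs2.le, le_refl _⟩ hs2.le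
  linarith

lemma QF.Qar_low (H : QF T R h g) {t : ℝ} (ht : t ∈ Ioo 0 T) (hs : SecAt g t) :
    xa g t * h - √3 / 3 * ya g t ^ 2 ≤ Qar g t := by
  have hya := H.ya_pos ht hs
  have e2 : xa g t * h - xa g t * ya g t ≤ FF (fun _ x => x) g 2 t := by
    have := primitive_le_int (f := fun p => (g 2 t p).re * (dp (g 2) t p).im)
      (F := fun p => xa g t * (g 2 t p).im) (F' := fun p => xa g t * (dp (g 2) t p).im)
      zero_le_one ((H.cx ht 2).mul (H.cZi ht 2)).continuousOn
      (continuous_const.mul (H.cZi ht 2)).continuousOn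
      (fun p _ => (H.dim ht 2 p).const_mul _)
      (fun p hp => by
        apply mul_le_mul_of_nonneg_right _ (H.dp2_im_nonneg ht hs hp)
        have := (H.x2_strict ht hs).monotoneOn zero_mem_I hp hp.1
        simp only [H.re_zero ht] at this
        exact this)
    simp only [H.im_zero ht, H.pEnd t ht] at this
    simpa [FF] using this
  have e0 : FF (fun _ x => x) g 0 t ≤ -((xa g t - √3 / 3 * ya g t) * ya g t) := by
    have := int_le_primitive (f := fun p => (g 0 t p).re * (dp (g 0) t p).im)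
      (F := fun p => (xa g t - √3 / 3 * ya g t) * (g 0 t p).im)
      (F' := fun p => (xa g t - √3 / 3 * ya g t) * (dp (g 0) t p).im)
      zero_le_one ((H.cx ht 0).mul (H.cZi ht 0)).continuousOn
      (continuous_const.mul (H.cZi ht 0)).continuousOn
      (fun p _ => (H.dim ht 0 p).const_mul _)
      (fun p hp => by
        have h1 := H.dp0_im_neg ht hs hp
        have h2 := (H.xbound ht hs hp).2
        nlinarith)
    simp only [H.im_zero ht, H.bIm t ht] at this
    simpa [FF] using this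
  rw [Qar]
  nlinarith

/-- the junction stays in a bounded region -/
lemma QF.xa_up (H : QF T R h g) (hsec : ∀ t ∈ Ioo 0 T, SecAt g t) (hh : 0 < h)
    (hh1 : h ≤ 1 / 10000) (hini : ∀ᶠ s in 𝓝[>] (0:ℝ), Qar g s ≤ 1.2 * h) :
    ∀ t ∈ Ioo 0 T, xa g t ≤ 1.21 := by
  intro t ht
  have h1 := H.Qar_le hsec hini t ht
  have h2 := H.Qar_low ht (hsec t ht)
  have h3 := H.ya_le_h ht (hsec t ht)
  have h4 := H.ya_pos ht (hsec t ht)
  have hs : √3 ≤ 1.8 := by rw [Real.sqrt_le_left (by norm_num)]; norm_num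
  have hs0 : 0 ≤ √3 := Real.sqrt_nonneg 3
  have h5 : √3 / 3 * ya g t ^ 2 ≤ 0.01 * h := by
    have h6 : ya g t ^ 2 ≤ h * h := by nlinarith
    have h7 : √3 / 3 * ya g t ^ 2 ≤ 0.6 * (h * h) := by
      apply mul_le_mul (by linarith) h6 (by positivity) (by norm_num)
    nlinarith
  have h8 : xa g t * h ≤ 1.21 * h := by linarith
  exact le_of_mul_le_mul_right h8 hh

end

section
variable {T1 T R h K : ℝ} {g : Fin 3 → ℝ → ℝ → ℂ}

lemma Hyp.Kpos (H : Hyp T1 T R h K g) : 0 < K := by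
  have := H.hK
  have := Real.pi_pos
  linarith

/-- lower bound of the height of the junction -/
lemma Hyp.ya_low (H : Hyp T1 T R h K g) {t : ℝ} (ht : t ∈ Ioo 0 T1) :
    h ≤ ya g t * Real.exp (2 * (K / yM g t) * R) := by
  have hs := H.secAt ht
  have hya := H.qf.ya_pos ht hs
  have hyM := H.qf.yM_pos ht hs
  have hxa := H.qf.xa_nonneg ht hs
  have hK := H.Kpos
  set c := K / yM g t with hc
  have hc0 : 0 < c := div_pos hK hyM
  have hypos : ∀ p ∈ Icc (0:ℝ) 1, 0 < (g 2 t p).im := fun p hp => by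
    have := H.qf.y2_mono ht hs zero_mem_I hp hp.1
    rw [H.qf.im_zero ht] at this
    linarith
  have key := mono_of_deriv (f := fun p => 2 * c * (g 2 t p).re - Real.log (g 2 t p).im)
    (f' := fun p => 2 * c * (dp (g 2) t p).re - (dp (g 2) t p).im / (g 2 t p).im) (a := 0) (b := 1)
    (fun p hp => ((H.qf.dre ht 2 p).const_mul (2 * c)).sub
      ((H.qf.dim ht 2 p).log (hypos p hp).ne'))
    (fun p hp => by
      obtain ⟨h1, h2⟩ := H.qf.th_mem ht hs 2 hp
      have hn := H.qf.norm_pos ht 2 hp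
      have hy := hypos p hp
      rw [(polar2 t p).1, (polar2 t p).2, sub_nonneg, div_le_iff₀ hy]
      have h3 := H.W t ht 2 p hp
      rw [← hc] at h3
      have h4 := cos_ge_half h1 h2
      have h5 := Real.sin_le h1
      set θ := th (cang 2) (g 2) t p
      set n := ‖dp (g 2) t p‖
      have h6 : Real.sin θ ≤ 2 * Real.cos θ * θ := by nlinarith
      have h7 : 2 * Real.cos θ * θ ≤ 2 * Real.cos θ * (c * (g 2 t p).im) :=
        mul_le_mul_of_nonneg_left h3 (by linarith)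
      have h8 := mul_le_mul_of_nonneg_left (h6.trans h7) hn.le
      linarith) zero_mem_I one_mem_I zero_le_one
  simp only [H.qf.re_zero ht, H.qf.im_zero ht, H.qf.pEnd t ht] at key
  simp only [Complex.add_re, Complex.ofReal_re, Complex.mul_re, Complex.I_re, mul_zero,
    Complex.ofReal_im, Complex.I_im, mul_one, sub_self, add_zero, Complex.add_im, Complex.mul_im,
    zero_add] at key
  have hh : 0 < h := lt_of_lt_of_le hya (H.qf.ya_le_h ht hs)
  have h1 : Real.log h ≤ Real.log (ya g t) + 2 * c * R := by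
    have : 0 ≤ 2 * c * xa g t := by positivity
    linarith
  have h2 := Real.exp_le_exp.2 h1
  rwa [Real.exp_log hh, Real.exp_add, Real.exp_log hya] at h2

/-- lower bound of the height of the mid-point -/
lemma Hyp.yM_low (H : Hyp T1 T R h K g) (hx : ∀ t ∈ Ioo 0 T1, xa g t ≤ 1.21) {t : ℝ}
    (ht : t ∈ Ioo 0 T1) : π / 3 * (T - t) ≤ 2 * yM g t := by
  have hs := H.secAt ht
  have hya := H.qf.ya_pos ht hs
  have hyh := H.qf.ya_le_h ht hs
  have hxa := H.qf.xa_nonneg ht hs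
  have hh := H.hh
  have hs3 : √3 ≤ 1.8 := by rw [Real.sqrt_le_left (by norm_num)]; norm_num
  have hs0 : 0 ≤ √3 := Real.sqrt_nonneg 3
  have h1 : √3 / 3 * ya g t ≤ 0.6 * ya g t := mul_le_mul_of_nonneg_right (by linarith) hya.le
  have h2 := H.qf.Aq_abs_le ht hs (X := 2) (by have := hx t ht; linarith) (by linarith)
  have h3 := le_abs_self (Aq g t)
  have h4 := H.area ht
  have h5 : rr T t ^ 2 = 2 * (T - t) := rr_sq (H.ltT ht).le
  rw [h5] at h4
  rw [h4] at h3 h2
  linarith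

end

end Run7.h661y
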