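import Pool.Agent.Run7.h661.X.Sector

/-!
# The curves form a quarter network flow
-/

open Set Filter Topology
open scoped Real ContDiff

namespace Run7.h661x

open Run7.h661y (cang cang0 cang1 cang2 QF Sm SecAt Sec EdgeFlow trig23 trigm23 wv)

variable {T : ℝ} {a : AFd} {g : Fin 3 → ℝ → ℝ → ℂ}

lemma rmul (r c s : ℝ) : ((r : ℂ) * ((c : ℂ) + (s : ℂ) * Complex.I)).re = r * c ∧
    ((r : ℂ) * ((c : ℂ) + (s : ℂ) * Complex.I)).im = r * s := by
  constructor <;> simp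

section
variable (A : AF T a) (C : Crv T a g)
include A C

lemma Crv.wv_eq (i : Fin 3) {t : ℝ} (ht : t ∈ Ioo 0 T) {p : ℝ} (hp : p ∈ Icc (0:ℝ) 1) :
    wv (cang i) (g i) t p = (a.ro i t p : ℂ) * (Complex.cos (a.th i t p) +
      Complex.sin (a.th i t p) * Complex.I) := by
  have e1 : a.W i t p = Complex.exp (cang i * Complex.I) *
      (Complex.cos (a.th i t p) + Complex.sin (a.th i t p) * Complex.I) := by
    rw [AFd.W, Complex.ofReal_cos, Complex.ofReal_sin, ← Complex.exp_mul_I, ← Complex.exp_mul_I,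
      ← Complex.exp_add, AFd.al]
    congr 1
    push_cast; ring
  rw [wv, C.pW A i ht hp, e1]
  have e2 : Complex.exp (-(cang i * Complex.I)) * Complex.exp (cang i * Complex.I) = 1 := by
    rw [← Complex.exp_add]; simp
  linear_combination ((a.ro i t p : ℂ) * (Complex.cos (a.th i t p) +
      Complex.sin (a.th i t p) * Complex.I)) * e2

lemma Crv.th_eq (i : Fin 3) {t : ℝ} (ht : t ∈ Ioo 0 T) {p : ℝ} (hp : p ∈ Icc (0:ℝ) 1)
    (h : a.th i t p ∈ Ioc (-π) π) : Run7.h661y.th (cang i) (g i) t p = a.th i t p := by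
  rw [Run7.h661y.th, C.wv_eq A i ht hp]
  exact Complex.arg_mul_cos_add_sin_mul_I (A.pos i t ht p hp) h

lemma Crv.secAt {t : ℝ} (ht : t ∈ Ioo 0 T)
    (h : ∀ i, ∀ p ∈ Icc (0:ℝ) 1, 0 ≤ a.th i t p ∧ a.th i t p ≤ π / 3) : SecAt g t := by
  intro i p hp
  obtain ⟨h1, h2⟩ := h i p hp
  have hpi := Real.pi_pos
  have e1 : (wv (cang i) (g i) t p).re = a.ro i t p * Real.cos (a.th i t p) := by
    rw [C.wv_eq A i ht hp, ← Complex.ofReal_cos, ← Complex.ofReal_sin]; exact (rmul _ _ _).1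
  have e2 : (wv (cang i) (g i) t p).im = a.ro i t p * Real.sin (a.th i t p) := by
    rw [C.wv_eq A i ht hp, ← Complex.ofReal_cos, ← Complex.ofReal_sin]; exact (rmul _ _ _).2
  have hr := A.pos i t ht p hp
  have key : √3 * Real.cos (a.th i t p) - Real.sin (a.th i t p) =
      2 * Real.sin (π / 3 - a.th i t p) := by
    rw [Real.sin_sub, Real.cos_pi_div_three, Real.sin_pi_div_three]; ring
  have h3 := Real.sin_nonneg_of_nonneg_of_le_pi (x := π / 3 - a.th i t p) (by linarith)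
    (by linarith)
  have h4 := Real.sin_nonneg_of_nonneg_of_le_pi (x := a.th i t p) h1 (by linarith)
  constructor
  · rw [e2]; positivity
  · rw [e1, e2]
    have : a.ro i t p * Real.sin (a.th i t p) ≤ a.ro i t p * (√3 * Real.cos (a.th i t p)) :=
      mul_le_mul_of_nonneg_left (by linarith) hr.le
    linarith

lemma Crv.re_eq (i : Fin 3) {t : ℝ} (ht : t ∈ Ioo 0 T) {p : ℝ} (hp : p ∈ Icc (0:ℝ) 1) :
    (g i t p).re = a.X i t p ∧ (g i t p).im = a.Y i t p := by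
  rw [C.eq i t ht p hp]
  constructor <;> simp

theorem Crv.qf {R h : ℝ} (hR : ∀ t ∈ Ioo 0 T, a.X 2 t 1 = R) (hh : ∀ t ∈ Ioo 0 T, a.Y 2 t 1 = h) :
    QF T R h g := by
  have z1 : (1:ℝ) ∈ Icc (0:ℝ) 1 := ⟨zero_le_one, le_refl _⟩
  have z0 : (0:ℝ) ∈ Icc (0:ℝ) 1 := ⟨le_refl _, zero_le_one⟩
  refine ⟨C.edge A, ?_, ?_, ?_, ?_, ?_, ?_, ?_⟩
  · intro t ht i j
    rw [C.eq i t ht 0 z0, C.eq j t ht 0 z0]
    simp only [AFd.X, AFd.Y, PI_zero]
  · intro t ht
    have e : ∀ i, Run7.h661y.dp (g i) t 0 / (‖Run7.h661y.dp (g i) t 0‖ : ℂ) = a.W i t 0 := by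
      intro i
      have hr := A.pos i t ht 0 z0
      have hrc : (a.ro i t 0 : ℂ) ≠ 0 := by exact_mod_cast hr.ne'
      rw [C.norm A i ht z0, C.pW A i ht z0]
      field_simp
    rw [Finset.sum_congr rfl (fun i _ => e i), Fin.sum_univ_three]
    simp only [AFd.W, AFd.al, cang0, cang1, cang2, zero_add]
    rw [A.jth t ht 0 2, A.jth t ht 1 2, (trig23 _).1, (trig23 _).2, (trigm23 _).1, (trigm23 _).2]
    push_cast
    ring
  · intro t ht
    rw [(C.re_eq A 0 ht z1).2, AFd.Y]; ring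
  · intro t ht
    have h3 : Real.cos (-(2 * π / 3) + 0) = -(1 / 2) := by
      rw [(trigm23 0).1]; simp
    rw [C.norm A 0 ht z1, C.pW A 0 ht z1, AFd.W, AFd.al, (A.e0 t ht).1, cang0, h3, (rmul _ _ _).1]
    ring
  · intro t ht
    rw [(C.re_eq A 1 ht z1).1, AFd.X]; ring
  · intro t ht
    have h3 : Real.sin (2 * π / 3 + π / 3) = 0 := by
      rw [show 2 * π / 3 + π / 3 = π by ring, Real.sin_pi]
    rw [C.pW A 1 ht z1, AFd.W, AFd.al, (A.e1 t ht).1, cang1, h3, (rmul _ _ _).2, mul_zero]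
  · intro t ht
    rw [C.eq 2 t ht 1 z1, hR t ht, hh t ht]

end

/-- the end-point of the arm is fixed -/
lemma AF.end_const (A : AF T a) {x y : ℝ} (hx : Tendsto (fun t => a.X 2 t 1) (𝓝[>] 0) (𝓝 x))
    (hy : Tendsto (fun t => a.Y 2 t 1) (𝓝[>] 0) (𝓝 y)) :
    ∀ t ∈ Ioo 0 T, a.X 2 t 1 = x ∧ a.Y 2 t 1 = y := by
  have z1 : (1:ℝ) ∈ Icc (0:ℝ) 1 := ⟨zero_le_one, le_refl _⟩
  have key : ∀ (f : ℝ → ℝ) (l : ℝ), (∀ t ∈ Ioo 0 T, HasDerivAt f 0 t) →
      Tendsto f (𝓝[>] 0) (𝓝 l) → ∀ t ∈ Ioo 0 T, f t = l := by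
    intro f l hf hl t ht
    have hc : ∀ s ∈ Ioo 0 T, f s = f t := by
      intro s hs
      refine (convex_Ioo 0 T).is_const_of_fderivWithin_eq_zero (𝕜 := ℝ)
        (fun s hs => (hf s hs).differentiableAt.differentiableWithinAt) (fun s hs => ?_) hs ht
      have hu : UniqueDiffWithinAt ℝ (Ioo 0 T) s := isOpen_Ioo.uniqueDiffWithinAt hs
      have h1 := (hf s hs).hasFDerivAt.hasFDerivWithinAt (s := Ioo 0 T)
      rw [h1.fderivWithin hu]
      ext; simp
    have h2 : Tendsto f (𝓝[>] 0) (𝓝 (f t)) := by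
      refine tendsto_const_nhds.congr' ?_
      filter_upwards [Ioo_mem_nhdsGT (ht.1.trans ht.2)] with s hs
      exact (hc s hs).symm
    exact tendsto_nhds_unique h2 hl
  intro t ht
  constructor
  · refine key _ x (fun s hs => ?_) hx t ht
    have := A.tX 2 hs z1
    rwa [(A.u_end hs).2.2.1] at this
  · refine key _ y (fun s hs => ?_) hy t ht
    have := A.tY 2 hs z1
    rwa [(A.u_end hs).2.2.2] at this

end Run7.h661x
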