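import Pool.Agent.Run7.h661.X.Dat
import Pool.Agent.Run7.h661.X.ToQF
import Pool.Agent.Run7.h661.X.Geo

/-!
# Flows of angles starting from the explicit initial data
-/

open Set Filter Topology
open scoped Real

namespace Run7.h661x

open Run7.h661y (cang cang0 cang1 cang2 QF SecAt Hyp Aq FF xa ya yM rr Qar rr_pos rr_sq
  sqrt3_bounds pi_bounds)

structure St (T1 : ℝ) (a : AFd) (g : Fin 3 → ℝ → ℝ → ℂ) : Prop where
  A : AF T1 a
  C : Crv T1 a g
  pos : 0 < T1
  le : T1 ≤ 1 / 2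
  u : ∀ i, UC (a.th i) (tt i)
  uL : ∀ i, Tendsto (a.L i) (𝓝[>] 0) (𝓝 (ll i))

noncomputable def yM0 : ℝ := hh + rc / 2
noncomputable def KQ : ℝ := π / 3 * yM0 / hh

lemma hh_pos : 0 < hh := by rw [hh]; norm_num

lemma yM0_eq : a0.Y 1 0 1 = yM0 := by
  rw [(X0_1 o1).2, al1_one, Real.cos_pi, yM0]; ring

section
variable {T1 : ℝ} {a : AFd} {g : Fin 3 → ℝ → ℝ → ℂ} (S : St T1 a g)
include S

lemma St.ev : ∀ᶠ t in 𝓝[>] (0:ℝ), t ∈ Ioo 0 T1 := Ioo_mem_nhdsGT S.pos

lemma St.uro (i : Fin 3) : UC (a.ro i) (a0.ro i 0) := by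
  have h := (UC.of_t (S.uL 0)).add (((UC.const 2).mul (UC.of_p continuousOn_id)).mul
    ((UC.of_t (S.uL i)).sub (UC.of_t (S.uL 0))))
  exact h.congr (Eventually.of_forall (fun _ _ _ => rfl)) (fun _ _ => rfl)

lemma St.ual (i : Fin 3) : UC (a.al i) (a0.al i 0) :=
  ((UC.const (cang i)).add (S.u i)).congr (Eventually.of_forall (fun _ _ _ => rfl))
    (fun _ _ => rfl)

lemma St.utx (i : Fin 3) : UC (a.tx i) (a0.tx i 0) :=
  ((S.uro i).mul (S.ual i).cos).congr (Eventually.of_forall (fun _ _ _ => rfl)) (fun _ _ => rfl)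

lemma St.uty (i : Fin 3) : UC (a.ty i) (a0.ty i 0) :=
  ((S.uro i).mul (S.ual i).sin).congr (Eventually.of_forall (fun _ _ _ => rfl)) (fun _ _ => rfl)

lemma St.uX (i : Fin 3) : UC (a.X i) (a0.X i 0) := by
  have h1 := (S.utx 1).prim S.pos (S.A.rtx 1 0 0).1.ct.cont
  have h2 := (S.utx i).prim S.pos (S.A.rtx i 0 0).1.ct.cont
  exact ((UC.of_t (h1.at_p o1)).neg.add h2).congr (Eventually.of_forall (fun _ _ _ => rfl))
    (fun _ _ => rfl)

lemma St.uY (i : Fin 3) : UC (a.Y i) (a0.Y i 0) := by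
  have h1 := (S.uty 0).prim S.pos (S.A.rtx 0 0 0).2.ct.cont
  have h2 := (S.uty i).prim S.pos (S.A.rtx i 0 0).2.ct.cont
  exact ((UC.of_t (h1.at_p o1)).neg.add h2).congr (Eventually.of_forall (fun _ _ _ => rfl))
    (fun _ _ => rfl)

theorem St.sec : ∀ i, ∀ t ∈ Ioo 0 T1, ∀ p ∈ Icc (0:ℝ) 1, 0 ≤ a.th i t p ∧ a.th i t p ≤ π / 3 := by
  apply S.A.sector
  intro ε hε
  have h1 := fun i => (S.u i).ev_le (c := π / 3) (fun p hp => (tt_mem i hp).2) hε
  have h2 := fun i => (S.u i).ev_ge (c := 0) (fun p hp => (tt_mem i hp).1) hε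
  filter_upwards [eventually_all.2 h1, eventually_all.2 h2] with t a1 a2 i p hp
  have := a2 i p hp
  exact ⟨by linarith, a1 i p hp⟩

lemma St.endp : ∀ t ∈ Ioo 0 T1, a.X 2 t 1 = RR ∧ a.Y 2 t 1 = hh := by
  apply S.A.end_const
  · have := (S.uX 2).at_p o1
    rw [(X0_2 o1).1, ll2] at this
    convert this using 2
    ring
  · have := (S.uY 2).at_p o1
    rwa [(X0_2 o1).2] at this

theorem St.qf : QF T1 RR hh g :=
  S.C.qf S.A (fun t ht => (S.endp t ht).1) (fun t ht => (S.endp t ht).2)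

lemma St.th_eq (i : Fin 3) {t : ℝ} (ht : t ∈ Ioo 0 T1) {p : ℝ} (hp : p ∈ Icc (0:ℝ) 1) :
    Run7.h661y.th (cang i) (g i) t p = a.th i t p := by
  apply S.C.th_eq S.A i ht hp
  obtain ⟨h1, h2⟩ := S.sec i t ht p hp
  have := Real.pi_pos
  constructor <;> linarith

lemma St.dp_im (i : Fin 3) {t : ℝ} (ht : t ∈ Ioo 0 T1) {p : ℝ} (hp : p ∈ Icc (0:ℝ) 1) :
    (Run7.h661y.dp (g i) t p).re = a.tx i t p ∧ (Run7.h661y.dp (g i) t p).im = a.ty i t p := by
  rw [S.C.pW S.A i ht hp, AFd.W, (rmul _ _ _).1, (rmul _ _ _).2]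
  exact ⟨rfl, rfl⟩

lemma St.FF_eq (i : Fin 3) {t : ℝ} (ht : t ∈ Ioo 0 T1) :
    FF (fun _ x => x) g i t = PI clamp (fun t p => a.X i t p * a.ty i t p) t 1 := by
  rw [FF, PI]
  apply intervalIntegral.integral_congr
  intro q hq
  rw [uIcc_of_le zero_le_one] at hq
  simp only [clamp_eq hq, (S.dp_im i ht hq).2, (S.C.re_eq S.A i ht hq).1]

lemma St.FF_tendsto (i : Fin 3) : Tendsto (fun t => FF (fun _ x => x) g i t) (𝓝[>] 0)
    (𝓝 (PI clamp (fun t p => a0.X i t p * a0.ty i t p) 0 1)) := by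
  have hc : ContinuousOn (fun q : ℝ × ℝ => a.X i q.1 q.2 * a.ty i q.1 q.2)
      (Ioo 0 T1 ×ˢ Icc 0 1) := (S.A.rX i 0 0).1.ct.cont.mul (S.A.rtx i 0 0).2.ct.cont
  have h1 := (((S.uX i).mul (S.uty i)).prim S.pos hc).at_p o1
  refine h1.congr' ?_
  filter_upwards [S.ev] with t ht
  exact (S.FF_eq i ht).symm

theorem St.hyp : Hyp T1 (1 / 2) RR hh KQ g := by
  have hpi := Real.pi_pos
  have hh0 := hh_pos
  have hrc := rc_pos
  have hy0 : 0 < yM0 := by rw [yM0]; positivity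
  have hsr : √3 * √3 = 3 := Real.mul_self_sqrt (by norm_num)
  refine ⟨S.qf, S.pos, S.le, by norm_num, fun t ht => S.C.secAt S.A ht (fun i p hp =>
    S.sec i t ht p hp), ?_, ?_, ?_, ?_, ?_, ?_, ?_⟩
  · rw [KQ, le_div_iff₀ hh0, yM0]
    nlinarith
  · intro ε hε
    have hyM : Tendsto (fun t => KQ / a.Y 1 t 1) (𝓝[>] 0) (𝓝 (KQ / yM0)) := by
      have h1 := (S.uY 1).at_p o1
      rw [yM0_eq] at h1
      exact tendsto_const_nhds.div h1 hy0.ne'
    have h1 := fun i => ((S.u i).sub ((UC.of_t hyM).mul (S.uY i))).ev_le (c := 0) (ε := ε)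
      (fun p hp => by
        have e : KQ / yM0 = π / 3 / hh := by rw [KQ]; field_simp
        rw [e]
        obtain ⟨t1, t2⟩ := tt_mem i hp
        fin_cases i
        · simp only [Fin.zero_eta, tt0, (X0_0 hp).2]
          have : 0 ≤ π / 3 / hh * (hh - hh * p) := by
            apply mul_nonneg (by positivity)
            nlinarith [hp.2]
          linarith
        · simp only [Fin.mk_one, (X0_1 hp).2] at t2 ⊢
          have h3 : Real.cos (a0.al 1 0 p) ≤ -(1 / 2) := by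
            rw [← cos23]
            have h4 := (tt_mem 1 hp)
            rw [tt1] at h4
            rw [a0_al1]
            exact Real.cos_le_cos_of_nonneg_of_le_pi (by linarith) (by linarith [h4.2])
              (by linarith [h4.1])
          have h5 : hh ≤ hh - rc / 2 - rc * Real.cos (a0.al 1 0 p) := by nlinarith
          have h6 : π / 3 / hh * hh ≤ π / 3 / hh * (hh - rc / 2 - rc * Real.cos (a0.al 1 0 p)) :=
            mul_le_mul_of_nonneg_left h5 (by positivity)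
          rw [div_mul_cancel₀ _ hh0.ne'] at h6
          linarith
        · show tt 2 p - π / 3 / hh * a0.Y 2 0 p ≤ 0
          rw [tt2, (X0_2 hp).2, div_mul_cancel₀ _ hh0.ne']
          linarith) hε
    filter_upwards [eventually_all.2 h1, S.ev] with t a1 ht i p hp
    rw [S.th_eq i ht hp, (S.C.re_eq S.A i ht hp).2, yM, (S.C.re_eq S.A 1 ht o1).2]
    have := a1 i p hp
    rwa [zero_add] at this
  · intro ε hε
    have hr : Tendsto (fun t => √3 / 2 / rr (1 / 2) t) (𝓝[>] 0) (𝓝 (√3 / 2)) := by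
      have hc : Continuous (rr (1 / 2)) := by unfold rr; fun_prop
      have h1 := (hc.tendsto 0).mono_left (nhdsWithin_le_nhds (s := Ioi 0))
      have h2 : rr (1 / 2) 0 = 1 := by rw [rr]; norm_num
      rw [h2] at h1
      have := (tendsto_const_nhds (x := √3 / 2)).div h1 one_ne_zero
      rw [div_one] at this
      exact this
    have h1 := (((UC.const (π / 3)).sub (S.u 1)).sin.sub ((UC.of_t hr).mul (S.uX 1))).ev_le
      (c := 0) (ε := ε) (fun p hp => by
        rw [(X0_1 hp).1, a0_al1]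
        have h4 := (tt_mem 1 hp)
        rw [tt1] at h4 ⊢
        have e : Real.sin (2 * π / 3 + sl p / rc) = Real.sin (π / 3 - sl p / rc) := by
          rw [← Real.sin_pi_sub]; congr 1; ring
        rw [e]
        have h5 : 0 ≤ Real.sin (π / 3 - sl p / rc) :=
          Real.sin_nonneg_of_nonneg_of_le_pi (by linarith [h4.2]) (by linarith [h4.1])
        have h6 := x0_bounds.1
        rw [x0] at h6
        nlinarith) hε
    filter_upwards [h1, S.ev] with t a1 ht p hp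
    rw [S.th_eq 1 ht hp, (S.C.re_eq S.A 1 ht hp).1]
    have := a1 p hp
    rwa [zero_add] at this
  · have h1 := (S.FF_tendsto 1).sub (S.FF_tendsto 0)
    obtain ⟨e0, e1, -⟩ := area0
    have := rc_area
    rw [e0, e1] at h1
    have e : π / 3 * (1 / 2) = rc ^ 2 * (π / 6 - √3 / 8) - (-(x0 * hh) + hh * ll 0 / 4) := by
      rw [x0, ll0]; linarith
    rw [e]
    exact h1
  · have h1 := (S.uX 0).at_p zI
    rw [(X0_0 zI).1, mul_zero, sub_zero] at h1
    have h2 : 1 < x0 := by have := x0_bounds.1; linarith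
    filter_upwards [h1.eventually (lt_mem_nhds h2), S.ev] with t a1 ht
    rw [xa, (S.C.re_eq S.A 0 ht zI).1]
    exact a1.le
  · rw [RR]; norm_num
  · rw [hh]

theorem St.Q0 : ∀ᶠ s in 𝓝[>] (0:ℝ), Qar g s ≤ 1.2 * hh := by
  have h1 := (S.FF_tendsto 2).sub (S.FF_tendsto 0)
  obtain ⟨e0, -, e2⟩ := area0
  rw [e0, e2] at h1
  have h2 : 0 - (-(x0 * hh) + hh * ll 0 / 4) < 1.2 * hh := by
    have := x0_bounds.2
    have := ll0_pos
    have := hh_pos
    nlinarith
  filter_upwards [h1.eventually (gt_mem_nhds h2)] with t ht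
  exact ht.le

end

end Run7.h661x
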