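import Pool.Agent.Run7.h661.X.DIni
import Pool.Agent.Run7.h661.X.Unif

/-!
# Existence of the flow up to the extinction time of the cell
-/

open Set Filter Topology
open scoped Real

namespace Run7.h661x

/-- the discrete solutions -/
noncomputable abbrev ZZ : ∀ N, ℝ → EE N ℂ := Zc Zz

section
variable {s : ℝ} {𝒰 : Ultrafilter ℕ}

lemma St_of_Ok (h𝒰 : (𝒰 : Filter ℕ) ≤ atTop) (H : Ok ZZ s) (hs : 0 < s) (hs2 : s ≤ 1 / 2) :
    ∃ g, St s (LA 𝒰 ZZ) g := by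
  have A := lim_AF h𝒰 H
  obtain ⟨g, C⟩ := A.exists_crv
  refine ⟨g, A, C, hs, hs2, fun i => ⟨(ctt i).continuousOn, fun ε hε => ?_⟩, fun i => ?_⟩
  · filter_upwards [LA_zero h𝒰 H hs Zz_Ini hε] with t ht
    exact (ht i).1
  · rw [Metric.tendsto_nhds]
    intro ε hε
    filter_upwards [LA_zero h𝒰 H hs Zz_Ini (half_pos hε)] with t ht
    rw [Real.dist_eq]
    exact (ht i).2.trans_lt (half_lt_self hε)

end

/-- uniform bounds of the discrete solutions -/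
theorem unif_init {T' : ℝ} (hT' : T' < 1 / 2) {s : ℝ} (hs : 0 < s) (hsT : s ≤ T')
    (H : Ok ZZ s) {t : ℝ} (ht : t ∈ Ioo 0 s) :
    ∀ᶠ N in atTop, Init N (lT T' / 2) (ΛT + 1) (√(p1 T' (11 ^ 2 + 1) ^ 2 + 1)) (toDS (ZZ N t)) := by
  have hl := lT_pos hT'
  have key : {N | Init N (lT T' / 2) (ΛT + 1) (√(p1 T' (11 ^ 2 + 1) ^ 2 + 1)) (toDS (ZZ N t))} ∈
      (atTop : Filter ℕ) := by
    rw [Filter.mem_iff_ultrafilter]
    intro 𝒰 h𝒰
    obtain ⟨g, S⟩ := St_of_Ok h𝒰 H hs (by linarith)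
    obtain ⟨b1, b2, b3⟩ := S.len_bds hT' hsT ht
    have hE := S.energy hT' hsT (PI_zero_le h𝒰 H hs Zz_Ini) ht
    have tL := tL h𝒰 H ht
    have tLr : ∀ i, Tendsto (fun N => ((toDS (ZZ N t)).L i).re) 𝒰 (𝓝 ((LA 𝒰 ZZ).L i t)) := by
      intro i
      have := (Complex.continuous_re.tendsto _).comp (tL i)
      rwa [Complex.ofReal_re] at this
    have tP := PP_tendsto h𝒰 H ht
    have e1 : ∀ᶠ N in (𝒰 : Filter ℕ), lT T' / 2 ≤ ((toDS (ZZ N t)).L 0).re ∧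
        ((toDS (ZZ N t)).L 0).re ≤ ΛT + 1 := by
      have h1 := (tLr 0).eventually (lt_mem_nhds (by linarith : lT T' / 2 < (LA 𝒰 ZZ).L 0 t))
      have h2 := (tLr 0).eventually (gt_mem_nhds (by linarith : (LA 𝒰 ZZ).L 0 t < ΛT + 1))
      filter_upwards [h1, h2] with N a1 a2
      exact ⟨a1.le, a2.le⟩
    have e2 : ∀ᶠ N in (𝒰 : Filter ℕ), ∀ i, lT T' / 2 ≤ 2 * ((toDS (ZZ N t)).L i).re -
        ((toDS (ZZ N t)).L 0).re ∧ 2 * ((toDS (ZZ N t)).L i).re -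
        ((toDS (ZZ N t)).L 0).re ≤ ΛT + 1 := by
      rw [eventually_all]
      intro i
      have h0 := ((tLr i).const_mul 2).sub (tLr 0)
      have h1 := h0.eventually (lt_mem_nhds (by linarith [(b3 i).1] :
        lT T' / 2 < 2 * (LA 𝒰 ZZ).L i t - (LA 𝒰 ZZ).L 0 t))
      have h2 := h0.eventually (gt_mem_nhds (by linarith [(b3 i).2] :
        2 * (LA 𝒰 ZZ).L i t - (LA 𝒰 ZZ).L 0 t < ΛT + 1))
      filter_upwards [h1, h2] with N a1 a2
      exact ⟨a1.le, a2.le⟩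
    have e3 : ∀ᶠ N in (𝒰 : Filter ℕ), PP N (toDS (ZZ N t)) ≤ p1 T' (11 ^ 2 + 1) ^ 2 + 1 := by
      have h1 := tP.eventually (gt_mem_nhds (lt_of_le_of_lt hE (lt_add_one _)))
      filter_upwards [h1] with N a1
      exact a1.le
    obtain ⟨ℓ, Λ, p0, hℓ, hΛ, hN⟩ := H
    filter_upwards [e1, e2, e3, h𝒰 hN] with N a1 a2 a3 hN
    have hI := hN.init t ⟨ht.1.le, ht.2.le⟩
    obtain ⟨l, hlr, -, -, -⟩ := hI.L
    have hre : ∀ i, ((toDS (ZZ N t)).L i).re = l i := fun i => by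
      rw [hlr i, Complex.ofReal_re]
    refine ⟨hI.con, ⟨l, hlr, ?_, ?_, fun i => ?_⟩, hI.R, ?_⟩
    · rw [← hre 0]; exact a1.1
    · rw [← hre 0]; exact a1.2
    · rw [← hre 0, ← hre i]; exact a2 i
    · rw [Real.sq_sqrt (by positivity)]; exact a3
  exact key

/-- The discrete solutions exist, with uniform bounds, on all intervals `[0,s]`, `s < 1/2`. -/
theorem ok_half : ∀ s, 0 < s → s < 1 / 2 → Ok ZZ s := by
  intro s hs hs2
  have hl := lT_pos hs2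
  have hΛ : 0 < ΛT + 1 := by rw [ΛT, RR]; norm_num
  exact ok_all Zz_IS hs (half_pos hl) hΛ
    (fun s' h0 h1 H t ht => unif_init hs2 h0 h1 H ht)

/-- the limit flow -/
noncomputable def AA : AFd := LA (hyperfilter ℕ) ZZ

lemma hyp_le : ((hyperfilter ℕ : Ultrafilter ℕ) : Filter ℕ) ≤ atTop := Nat.hyperfilter_le_atTop

lemma AA_lt (s : ℝ) (hs : 0 < s) (hs2 : s < 1 / 2) : AF s AA := lim_AF hyp_le (ok_half s hs hs2)

lemma HL_half {F : ℝ → ℝ → ℂ} (h : ∀ s, 0 < s → s < 1 / 2 → HL s F) : HL (1 / 2) F := by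
  intro t0 ht0
  exact h ((t0 + 1 / 2) / 2) (by linarith [ht0.1]) (by linarith [ht0.2]) t0
    ⟨ht0.1, by linarith [ht0.2]⟩

lemma HL_q {k : ℕ} {Q : ℕ → DS ℂ → ℕ → ℂ} (hQ : Qt k Q) :
    HL (1 / 2) (LQ (hyperfilter ℕ) ZZ k Q) :=
  HL_half (fun s h0 h1 => LQ_HL hyp_le (ok_half s h0 h1) hQ)

theorem AA_half : AF (1 / 2) AA := by
  have key : ∀ t ∈ Ioo (0:ℝ) (1 / 2), ∃ s, t ∈ Ioo 0 s ∧ AF s AA := fun t ht =>
    ⟨(t + 1 / 2) / 2, ⟨ht.1, by linarith [ht.2]⟩, AA_lt _ (by linarith [ht.1]) (by linarith [ht.2])⟩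
  refine ⟨fun i t ht p hp => ?_, fun i m => (HL_q (Qt_U i)).ct m,
    fun i m => (HL_q (Qt_D i)).ct m, fun i m => (HL_q (Qt_lam i)).ct m,
    fun i m => (HL_q (Qt_fU i)).ct m, fun i m => ?_,
    fun i m => ?_, fun i t ht p hp => ?_, fun i t ht => ?_,
    fun i t ht p hp => ?_, fun i t ht p hp => ?_, fun i t ht p hp => ?_, fun t ht => ?_,
    fun t ht => ?_, fun t ht => ?_, fun t ht => ?_, fun t ht => ?_, fun t ht => ?_⟩
  · obtain ⟨s, hs, A⟩ := key t ht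
    exact A.pos i t hs p hp
  · exact ((HL_q (Qt_L i)).ct m).eval zI
  · exact ((HL_q (Qt_Ld i)).ct m).eval zI
  · obtain ⟨s, hs, A⟩ := key t ht
    exact A.tth i t hs p hp
  · obtain ⟨s, hs, A⟩ := key t ht
    exact A.tL i t hs
  · obtain ⟨s, hs, A⟩ := key t ht
    exact A.pth i t hs p hp
  · obtain ⟨s, hs, A⟩ := key t ht
    exact A.pD i t hs p hp
  · obtain ⟨s, hs, A⟩ := key t ht
    exact A.plm i t hs p hp
  · obtain ⟨s, hs, A⟩ := key t ht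
    exact A.jth t hs
  · obtain ⟨s, hs, A⟩ := key t ht
    exact A.jD t hs
  · obtain ⟨s, hs, A⟩ := key t ht
    exact A.jlm t hs
  · obtain ⟨s, hs, A⟩ := key t ht
    exact A.e0 t hs
  · obtain ⟨s, hs, A⟩ := key t ht
    exact A.e1 t hs
  · obtain ⟨s, hs, A⟩ := key t ht
    exact A.e2 t hs

/-- The flow exists on `(0,1/2)` and starts from the explicit data. -/
theorem exists_flow : ∃ g, St (1 / 2) AA g := by
  obtain ⟨g, C⟩ := AA_half.exists_crv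
  have H := ok_half (1 / 4) (by norm_num) (by norm_num)
  refine ⟨g, AA_half, C, by norm_num, le_refl _, fun i => ⟨(ctt i).continuousOn, fun ε hε => ?_⟩,
    fun i => ?_⟩
  · filter_upwards [LA_zero hyp_le H (by norm_num) Zz_Ini hε] with t ht
    exact (ht i).1
  · rw [Metric.tendsto_nhds]
    intro ε hε
    filter_upwards [LA_zero hyp_le H (by norm_num) Zz_Ini (half_pos hε)] with t ht
    rw [Real.dist_eq]
    exact (ht i).2.trans_lt (half_lt_self hε)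

end Run7.h661x
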