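import Pool.Agent.Run7.h661.X.Lim3

/-!
# Regularity of flows of angles
-/

open Set Filter Topology
open scoped Real ContDiff

namespace Run7.h661x

variable {T : ℝ} {a : AFd}

section
variable (A : AF T a)
include A

lemma AF.rL (i : Fin 3) (m n : ℕ) : RG T (Icc 0 1) m n (fun t _ => a.L i t) := RG.of_t (A.cL i m)
lemma AF.rLd (i : Fin 3) (m n : ℕ) : RG T (Icc 0 1) m n (fun t _ => a.Ld i t) :=
  RG.of_t (A.cLd i m)

lemma AF.rro (i : Fin 3) (m n : ℕ) : RG T (Icc 0 1) m n (a.ro i) :=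
  ((A.rL 0 m n).add (((RG.const 2 m n).mul RG.id).mul ((A.rL i m n).sub (A.rL 0 m n)))).congr
    (fun _ _ _ _ => rfl)

lemma AF.rrod (i : Fin 3) (m n : ℕ) : RG T (Icc 0 1) m n (a.rod i) :=
  ((A.rLd 0 m n).add (((RG.const 2 m n).mul RG.id).mul ((A.rLd i m n).sub (A.rLd 0 m n)))).congr
    (fun _ _ _ _ => rfl)

lemma AF.rroi (i : Fin 3) (m n : ℕ) : RG T (Icc 0 1) m n (fun t p => (a.ro i t p)⁻¹) :=
  (A.rro i m n).inv (fun t ht p hp => (A.pos i t ht p hp).ne')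

theorem AF.reg (n : ℕ) : ∀ i, ∀ m, RG T (Icc 0 1) m n (a.th i) ∧ RG T (Icc 0 1) m n (a.D i) ∧
    RG T (Icc 0 1) m n (a.lm i) := by
  induction n with
  | zero => exact fun i m => ⟨A.cth i m, A.cD i m, A.clm i m⟩
  | succ n ih =>
    intro i m
    obtain ⟨h1, h2, h3⟩ := ih i m
    have hV : RG T (Icc 0 1) m n (a.V i) := RG.dt dom_I (ih i (m + 1)).1 (A.tth i)
    have hρ := A.rro i m n
    have hi := A.rroi i m n
    have hE : RG T (Icc 0 1) m n (a.E i) := by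
      have hb := (h3.mul hi).sub ((RG.const 2 m n).mul
        (((A.rL i m n).sub (A.rL 0 m n)).mul ((hi.mul hi).mul hi)))
      refine ((hρ.mul hρ).mul (hV.sub (hb.mul h2))).congr (fun t ht p hp => ?_)
      rw [AFd.E]; ring
    refine ⟨⟨A.cth i m, _, h2, A.pth i⟩, ⟨A.cD i m, _, hE, A.pD i⟩, ⟨A.clm i m, _, ?_, A.plm i⟩⟩
    refine ((A.rrod i m n).add ((h2.mul h2).mul hi)).congr (fun t ht p hp => ?_)
    ring

lemma AF.rV (i : Fin 3) (m n : ℕ) : RG T (Icc 0 1) m n (a.V i) :=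
  RG.dt dom_I (A.reg n i (m + 1)).1 (A.tth i)

/-- derivative of the speed -/
lemma AF.pro (i : Fin 3) (t p : ℝ) :
    HasDerivAt (a.ro i t) (2 * (a.L i t - a.L 0 t)) p := by
  have h1 : HasDerivAt (fun p : ℝ => 2 * p * (a.L i t - a.L 0 t)) (2 * 1 * (a.L i t - a.L 0 t)) p :=
    ((hasDerivAt_id' p).const_mul 2).mul_const _
  have h2 := h1.const_add (a.L 0 t)
  rw [mul_one] at h2
  exact h2

lemma AF.tro (i : Fin 3) {t : ℝ} (ht : t ∈ Ioo 0 T) (p : ℝ) :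
    HasDerivAt (fun t => a.ro i t p) (a.rod i t p) t :=
  (A.tL 0 t ht).add (((A.tL i t ht).sub (A.tL 0 t ht)).const_mul (2 * p))

end

/-- curvature -/
noncomputable def AFd.k (a : AFd) (i : Fin 3) (t p : ℝ) : ℝ := a.D i t p * (a.ro i t p)⁻¹

section
variable (A : AF T a)
include A

/-- arclength derivative of the curvature times the speed -/
lemma AF.pk (i : Fin 3) {t : ℝ} (ht : t ∈ Ioo 0 T) {p : ℝ} (hp : p ∈ Icc (0:ℝ) 1) :
    HasDerivWithinAt (a.k i t) (a.ro i t p * a.V i t p - a.lm i t p * a.D i t p) (Icc 0 1) p := by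
  have h0 := (A.pos i t ht p hp).ne'
  have h1 := (A.pD i t ht p hp).mul (((A.pro i t p).inv h0).hasDerivWithinAt (s := Icc 0 1))
  refine h1.congr_deriv ?_
  rw [AFd.E]
  simp only [Pi.inv_apply]
  field_simp
  ring

lemma AF.rk (i : Fin 3) (m n : ℕ) : RG T (Icc 0 1) m n (a.k i) :=
  ((A.reg n i m).2.1.mul (A.rroi i m n)).congr (fun _ _ _ _ => rfl)

lemma AF.D_eq (i : Fin 3) {t : ℝ} (ht : t ∈ Ioo 0 T) {p : ℝ} (hp : p ∈ Icc (0:ℝ) 1) :
    a.D i t p = a.k i t p * a.ro i t p := by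
  have h0 := (A.pos i t ht p hp).ne'
  rw [AFd.k]; field_simp

end

end Run7.h661x
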