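import Pool.Agent.Run7.h661.X.Energy

/-!
# A-priori estimates for the semi-discrete system on a short time interval
-/

open Set Filter Topology Finset
open scoped NNReal InnerProductSpace

namespace Run7.h661x

/-- continuity method -/
lemma bootstrap {ι : Type*} [Finite ι] {a b : ℝ} {φ : ι → ℝ → ℝ} {c : ι → ℝ}
    (hcont : ∀ k, ContinuousOn (φ k) (Icc a b)) (ha : ∀ k, φ k a ≤ c k)
    (hstep : ∀ t ∈ Icc a b, (∀ τ ∈ Icc a t, ∀ k, φ k τ ≤ c k) → ∀ k, φ k t < c k) :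
    ∀ t ∈ Icc a b, ∀ k, φ k t ≤ c k := by
  have key : Icc a b ⊆ {t | ∀ τ ∈ Icc a t, ∀ k, φ k τ ≤ c k} := by
    apply IsClosed.Icc_subset_of_forall_exists_gt
    · apply IsSeqClosed.isClosed
      intro u x hu hx
      have hxI : x ∈ Icc a b := isClosed_Icc.mem_of_tendsto hx (Eventually.of_forall
        (fun n => (hu n).2))
      refine ⟨?_, hxI⟩
      intro τ hτ k
      rcases eq_or_lt_of_le hτ.2 with h | h
      · rw [h]
        have h1 : Tendsto (fun n => φ k (u n)) atTop (𝓝 (φ k x)) := by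
          have := (hcont k x hxI).tendsto
          exact this.comp (tendsto_nhdsWithin_iff.2 ⟨hx, Eventually.of_forall (fun n => (hu n).2)⟩)
        exact le_of_tendsto h1 (Eventually.of_forall (fun n =>
          (hu n).1 (u n) ⟨(hu n).2.1, le_refl _⟩ k))
      · have : ∀ᶠ n in atTop, τ < u n := hx.eventually (lt_mem_nhds h)
        obtain ⟨n, hn⟩ := this.exists
        exact (hu n).1 τ ⟨hτ.1, hn.le⟩ k
    · intro τ hτ k
      have : τ = a := le_antisymm hτ.2 hτ.1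
      rw [this]; exact ha k
    · intro x hx y hy
      have hxI : x ∈ Icc a b := ⟨hx.2.1, hx.2.2.le⟩
      have h1 := hstep x hxI hx.1
      have h2 : ∀ᶠ τ in 𝓝[Icc a b] x, ∀ k, φ k τ < c k := by
        rw [eventually_all]
        intro k
        exact (hcont k x hxI).eventually (gt_mem_nhds (h1 k))
      rw [eventually_nhdsWithin_iff, Metric.eventually_nhds_iff] at h2
      obtain ⟨ε, hε, hball⟩ := h2
      set z := min (x + ε / 2) (min y b) with hz
      have hxz : x < z := lt_min (by linarith) (lt_min hy hx.2.2)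
      have hzx : z ≤ x + ε / 2 := min_le_left _ _
      have hzy : z ≤ y := (min_le_right _ _).trans (min_le_left _ _)
      have hz1 : z ≤ b := (min_le_right _ _).trans (min_le_right _ _)
      refine ⟨z, ?_, hxz, hzy⟩
      intro τ hτ k
      rcases le_or_gt τ x with h | h
      · exact hx.1 τ ⟨hτ.1, h⟩ k
      · refine (hball ?_ ⟨hτ.1, hτ.2.trans hz1⟩ k).le
        rw [Real.dist_eq, abs_lt]
        constructor <;> linarith [hτ.2]
  intro t ht k
  exact key ht t ⟨ht.1, le_refl _⟩ k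

/-- admissible initial states -/
structure Init (N : ℕ) (ℓ Λ p0 : ℝ) (s : DS ℂ) : Prop where
  con : Con N s
  L : ∃ l : Fin 3 → ℝ, (∀ i, s.L i = l i) ∧ ℓ ≤ l 0 ∧ l 0 ≤ Λ ∧
    ∀ i, ℓ ≤ 2 * l i - l 0 ∧ 2 * l i - l 0 ≤ Λ
  R : ∀ i, ∀ j ≤ N, s.R i j * rho N s i j = 1
  P : PP N s ≤ p0 ^ 2

lemma xn_real (N j : ℕ) : xn N j = (((j : ℝ) / N : ℝ) : ℂ) := by rw [xn]; push_cast; rfl

lemma xnr_mem {N j : ℕ} (hN : 2 ≤ N) (hj : j ≤ N) : (j : ℝ) / N ∈ Icc (0:ℝ) 1 := by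
  have hN0 := N_pos hN
  refine ⟨by positivity, ?_⟩
  rw [div_le_one hN0]; exact_mod_cast hj

lemma re_quot {e z : ℂ} (he : ‖e - 1‖ ≤ 1 / 100) (hz : ‖z‖ ≤ 3 / 1000) :
    1 + z ≠ 0 ∧ 1 / 2 ≤ (e * (1 / (1 + z) * (1 / (1 + z)))).re := by
  have hz1 : 1 - 3 / 1000 ≤ ‖1 + z‖ := by
    have := norm_sub_norm_le (1:ℂ) (-z)
    rw [sub_neg_eq_add, norm_neg, norm_one] at this
    linarith
  have hne : 1 + z ≠ 0 := by
    intro h
    rw [h, norm_zero] at hz1
    norm_num at hz1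
  refine ⟨hne, ?_⟩
  have e1 : e * (1 / (1 + z) * (1 / (1 + z))) - 1 = (e - 1 - (2 * z + z * z)) / ((1 + z) * (1 + z)) := by
    field_simp
    ring
  have h2 : ‖e - 1 - (2 * z + z * z)‖ ≤ 1 / 100 + (2 * (3 / 1000) + (3 / 1000) * (3 / 1000)) := by
    have a1 := norm_sub_le (e - 1) (2 * z + z * z)
    have a2 := norm_add_le (2 * z) (z * z)
    rw [norm_mul, norm_mul, Complex.norm_ofNat] at a2
    have a3 := mul_le_mul hz hz (norm_nonneg _) (by norm_num)
    linarith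
  have h3 : ‖e * (1 / (1 + z) * (1 / (1 + z))) - 1‖ ≤ 1 / 2 := by
    rw [e1, norm_div, norm_mul]
    have a4 : (997 / 1000 : ℝ) * (997 / 1000) ≤ ‖1 + z‖ * ‖1 + z‖ :=
      mul_le_mul (by linarith) (by linarith) (by norm_num) (norm_nonneg _)
    rw [div_le_iff₀ (by positivity)]
    nlinarith
  have h4 := (abs_le.1 ((Complex.abs_re_le_norm (e * (1 / (1 + z) * (1 / (1 + z))) - 1)).trans h3)).1
  rw [Complex.sub_re, Complex.one_re] at h4
  linarith

section static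
variable {N : ℕ} {s : DS ℂ} {ℓ Λ : ℝ} {l : Fin 3 → ℝ}

lemma rho0_mem (hN : 2 ≤ N) (h0 : ℓ ≤ l 0) (h0' : l 0 ≤ Λ)
    (hi : ∀ i, ℓ ≤ 2 * l i - l 0 ∧ 2 * l i - l 0 ≤ Λ) (i : Fin 3) {j : ℕ} (hj : j ≤ N) :
    ℓ ≤ l 0 + 2 * ((j:ℝ) / N) * (l i - l 0) ∧ l 0 + 2 * ((j:ℝ) / N) * (l i - l 0) ≤ Λ := by
  obtain ⟨x0, x1⟩ := xnr_mem hN hj
  obtain ⟨a1, a2⟩ := hi i
  constructor <;> nlinarith

/-- bounds of the coefficients when the lengths are close to the initial ones -/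
lemma static (hN : 2 ≤ N) (hℓ : 0 < ℓ) (hΛ : 0 < Λ) (h0 : ℓ ≤ l 0) (h0' : l 0 ≤ Λ)
    (hi : ∀ i, ℓ ≤ 2 * l i - l 0 ∧ 2 * l i - l 0 ≤ Λ)
    (hL : ∀ i, ‖s.L i - l i‖ ≤ ℓ / 1000) (hR : ∀ i, ∀ j ≤ N, s.R i j * rho N s i j = 1) {e : ℂ}
    (he : ‖e - 1‖ ≤ 1 / 100) :
    (∀ i, ∀ j ≤ N, ‖s.R i j‖ ≤ 2 / ℓ) ∧
    (∀ i, ∀ j ≤ N, 1 / (2 * Λ ^ 2) ≤ (e * (s.R i j * s.R i j)).re) ∧
    (∀ i, ‖s.L i - s.L 0‖ ≤ Λ) := by
  have key : ∀ i, ∀ j ≤ N, ‖s.R i j‖ ≤ 2 / ℓ ∧ 1 / (2 * Λ ^ 2) ≤ (e * (s.R i j * s.R i j)).re := by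
    intro i j hj
    obtain ⟨x0, x1⟩ := xnr_mem hN hj
    obtain ⟨r0, r1⟩ := rho0_mem hN h0 h0' hi i hj
    set x := (j:ℝ) / N with hx
    set ρ0 := l 0 + 2 * x * (l i - l 0) with hρ0
    have hρpos : 0 < ρ0 := hℓ.trans_le r0
    have hdiff : ‖rho N s i j - ρ0‖ ≤ 3 * (ℓ / 1000) := by
      have e1 : rho N s i j - ρ0 = ((1 - 2 * x : ℝ) : ℂ) * (s.L 0 - l 0) +
          ((2 * x : ℝ) : ℂ) * (s.L i - l i) := by
        rw [rho, xn_real, hρ0, ← hx, smul_eq_mul]
        push_cast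
        ring
      rw [e1]
      have a1 := norm_add_le (((1 - 2 * x : ℝ) : ℂ) * (s.L 0 - l 0))
        (((2 * x : ℝ) : ℂ) * (s.L i - l i))
      rw [norm_mul, norm_mul, Complex.norm_real, Complex.norm_real, Real.norm_eq_abs,
        Real.norm_eq_abs] at a1
      have a2 : |1 - 2 * x| ≤ 1 := by rw [abs_le]; constructor <;> linarith
      have a3 : |2 * x| ≤ 2 := by rw [abs_le]; constructor <;> linarith
      have a4 := mul_le_mul a2 (hL 0) (norm_nonneg _) (by norm_num)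
      have a5 := mul_le_mul a3 (hL i) (norm_nonneg _) (by norm_num)
      linarith
    set z := (rho N s i j - ρ0) / ρ0 with hz
    have hρc : (ρ0 : ℂ) ≠ 0 := by exact_mod_cast hρpos.ne'
    have hzn : ‖z‖ ≤ 3 / 1000 := by
      rw [hz, norm_div, Complex.norm_real, Real.norm_of_nonneg hρpos.le, div_le_iff₀ hρpos]
      linarith
    have hrho : rho N s i j = ρ0 * (1 + z) := by rw [hz]; field_simp; ring
    obtain ⟨hne, hre⟩ := re_quot he hzn
    have hRe : s.R i j = 1 / ρ0 * (1 / (1 + z)) := by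
      have h1 := hR i j hj
      rw [hrho] at h1
      have h2 : s.R i j = 1 / (ρ0 * (1 + z)) := by
        rw [eq_div_iff (mul_ne_zero hρc hne)]; exact h1
      rw [h2]; field_simp
    have hn1 : 997 / 1000 ≤ ‖1 + z‖ := by
      have := norm_sub_norm_le (1:ℂ) (-z)
      rw [sub_neg_eq_add, norm_neg, norm_one] at this
      linarith
    constructor
    · rw [hRe, norm_mul, norm_div, norm_div, norm_one, Complex.norm_real,
        Real.norm_of_nonneg hρpos.le]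
      have b1 : 1 / ρ0 ≤ 1 / ℓ := one_div_le_one_div_of_le hℓ r0
      have b2 : 1 / ‖1 + z‖ ≤ 2 := by
        rw [div_le_iff₀ (by linarith)]; linarith
      calc 1 / ρ0 * (1 / ‖1 + z‖) ≤ 1 / ℓ * 2 := mul_le_mul b1 b2 (by positivity) (by positivity)
        _ = 2 / ℓ := by ring
    · have e2 : e * (s.R i j * s.R i j) = ((1 / ρ0 ^ 2 : ℝ) : ℂ) *
          (e * (1 / (1 + z) * (1 / (1 + z)))) := by
        rw [hRe]; push_cast; field_simp
      rw [e2, Complex.re_ofReal_mul]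
      have b3 : 1 / Λ ^ 2 ≤ 1 / ρ0 ^ 2 := one_div_le_one_div_of_le (by positivity)
        (pow_le_pow_left₀ hρpos.le r1 2)
      calc 1 / (2 * Λ ^ 2) = 1 / Λ ^ 2 * (1 / 2) := by field_simp
        _ ≤ _ := mul_le_mul b3 hre (by norm_num) (by positivity)
  refine ⟨fun i j hj => (key i j hj).1, fun i j hj => (key i j hj).2, fun i => ?_⟩
  have e1 : s.L i - s.L 0 = ((l i - l 0 : ℝ) : ℂ) + ((s.L i - l i) - (s.L 0 - l 0)) := by
    push_cast; ring
  rw [e1]
  have a1 := norm_add_le ((l i - l 0 : ℝ) : ℂ) ((s.L i - l i) - (s.L 0 - l 0))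
  have a2 := norm_sub_le (s.L i - l i) (s.L 0 - l 0)
  rw [Complex.norm_real, Real.norm_eq_abs] at a1
  have a3 : |l i - l 0| ≤ (Λ - ℓ) / 2 := by
    obtain ⟨b1, b2⟩ := hi i
    rw [abs_le]; constructor <;> linarith
  have := hL i
  have := hL 0
  linarith

end static

/-! ## continuity of the coefficients along a solution -/

lemma cts_smul {f g : ℝ → ℂ} {S : Set ℝ} (c : ℂ) (hf : ContinuousOn f S) (hg : ContinuousOn g S) :
    ContinuousOn (fun t => c • (f t - g t)) S := by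
  have h : ContinuousOn (fun t => c * (f t - g t)) S := continuousOn_const.mul (hf.sub hg)
  exact h

lemma cts_smul' {f : ℝ → ℂ} {S : Set ℝ} (c : ℂ) (hf : ContinuousOn f S) :
    ContinuousOn (fun t => c • f t) S := by
  have h : ContinuousOn (fun t => c * f t) S := continuousOn_const.mul hf
  exact h

section cont
variable {N : ℕ} {e : ℂ} {s : ℝ → DS ℂ} {a b : ℝ} (H : Sol N e s a b)
include H

lemma Sol.cU (i : Fin 3) {j : ℕ} (hj : j ≤ N) : ContinuousOn (fun t => (s t).U i j) (Icc a b) :=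
  fun t ht => (H.U t ht i j hj).continuousWithinAt
lemma Sol.cL (i : Fin 3) : ContinuousOn (fun t => (s t).L i) (Icc a b) :=
  fun t ht => (H.L t ht i).continuousWithinAt
lemma Sol.cR (i : Fin 3) {j : ℕ} (hj : j ≤ N) : ContinuousOn (fun t => (s t).R i j) (Icc a b) :=
  fun t ht => (H.R t ht i j hj).continuousWithinAt
lemma Sol.cD (i : Fin 3) {j : ℕ} (hj : j < N) : ContinuousOn (fun t => dD N (s t) i j) (Icc a b) :=
  cts_smul _ (H.cU i (j := j + 1) hj) (H.cU i hj.le)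
lemma Sol.clam0 (hN : 2 ≤ N) (i : Fin 3) : ContinuousOn (fun t => lam0 N (s t) i) (Icc a b) :=
  cts_smul _ ((H.cD (i + 1) (j := 0) (by omega)).mul (H.cR (i + 1) (Nat.zero_le _)))
    ((H.cD (i + 2) (j := 0) (by omega)).mul (H.cR (i + 2) (Nat.zero_le _)))
lemma Sol.clamE (hN : 2 ≤ N) (i : Fin 3) : ContinuousOn (fun t => lamE N (s t) i) (Icc a b) := by
  by_cases h : i = 0
  · simp only [lamE, h, if_true]
    exact cts_smul' _ ((H.cD 0 (j := N - 1) (by omega)).mul (H.cR 0 (le_refl _)))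
  · simp only [lamE, h, if_false]
    exact continuousOn_const
lemma Sol.cSS (i : Fin 3) {j : ℕ} (hj : j ≤ N) : ContinuousOn (fun t => SS N (s t) i j) (Icc a b) := by
  unfold SS
  apply continuousOn_finsetSum
  intro l hl
  have hl' := Finset.mem_range.1 hl
  have c1 := H.cD i (j := l) (by omega)
  exact cts_smul' _ ((c1.mul c1).mul (H.cR i (j := l) (by omega)))
lemma Sol.cLd (hN : 2 ≤ N) (i : Fin 3) : ContinuousOn (fun t => Ld N (s t) i) (Icc a b) :=
  ((H.clamE hN i).sub (H.clam0 hN i)).sub (H.cSS i (le_refl _))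
lemma Sol.crhod (hN : 2 ≤ N) (i : Fin 3) (j : ℕ) :
    ContinuousOn (fun t => rhod N (s t) i j) (Icc a b) :=
  (H.cLd hN 0).add (cts_smul _ (H.cLd hN i) (H.cLd hN 0))

lemma Sol.cPP : ContinuousOn (fun t => PP N (s t)) (Icc a b) := by
  unfold PP
  apply continuousOn_finsetSum
  intro i _
  apply continuousOn_finsetSum
  intro j hj
  exact ((H.cD i (Finset.mem_range.1 hj)).norm.pow 2).const_mul _

/-- the inverse speed stays the inverse speed -/
lemma Sol.inv (hN : 2 ≤ N) (h0 : ∀ i, ∀ j ≤ N, (s a).R i j * rho N (s a) i j = 1) :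
    ∀ t ∈ Icc a b, ∀ i, ∀ j ≤ N, (s t).R i j * rho N (s t) i j = 1 := by
  intro t ht i j hj
  have hd : ∀ t ∈ Icc a b, HasDerivWithinAt (fun t => (s t).R i j * rho N (s t) i j - 1)
      ((-(e * (rhod N (s t) i j * (s t).R i j))) * ((s t).R i j * rho N (s t) i j - 1))
      (Icc a b) t := by
    intro t ht
    have d1 := H.R t ht i j hj
    have d2 : HasDerivWithinAt (fun t => rho N (s t) i j) (e * rhod N (s t) i j) (Icc a b) t := by
      have := (H.L t ht 0).add (((H.L t ht i).sub (H.L t ht 0)).const_smul (2 * xn N j))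
      refine this.congr_deriv ?_
      simp only [rhod, smul_eq_mul]; ring
    refine ((d1.mul d2).sub_const 1).congr_deriv ?_
    simp only [fR]; ring
  have hc : ContinuousOn (fun t => -(e * (rhod N (s t) i j * (s t).R i j))) (Icc a b) :=
    (continuousOn_const.mul ((H.crhod hN i j).mul (H.cR i hj))).neg
  have := zero_of_linear hd hc (by rw [h0 i j hj, sub_self]) t ht
  exact sub_eq_zero.1 this

/-- the constraints are preserved -/
lemma Sol.con (hN : 2 ≤ N) (h0 : Con N (s a)) : ∀ t ∈ Icc a b, Con N (s t) := by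
  intro t ht
  have hN0 : N ≠ 0 := by omega
  have hN1 : N - 1 ≠ 0 := by omega
  have hN1' : N - 1 ≠ N := by omega
  have h1N : 1 ≠ N := by omega
  constructor
  · intro i
    have hd : ∀ t ∈ Icc a b, HasDerivWithinAt (fun t => (s t).U i 0 -
        (1 / 3 : ℂ) * ∑ l, (s t).U l 1) 0 (Icc a b) t := by
      intro t ht
      have d1 := H.U t ht i 0 (Nat.zero_le _)
      have d2 : HasDerivWithinAt (fun t => ∑ l, (s t).U l 1) (∑ l, e * fU N (s t) l 1)
        (Icc a b) t := HasDerivWithinAt.fun_sum (fun l _ => H.U t ht l 1 (by omega))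
      refine (d1.sub (d2.const_mul (1 / 3 : ℂ))).congr_deriv ?_
      simp only [fU, if_true, one_ne_zero, if_false, h1N, smul_eq_mul, Nat.sub_self]
      rw [← mul_sum]; ring
    have := const_of_deriv_zero hd t ht
    rw [h0.c0 i, sub_self] at this
    exact sub_eq_zero.1 this
  · have hd : ∀ t ∈ Icc a b, HasDerivWithinAt (fun t => (s t).U 2 N - (s t).U 2 (N - 1)) 0
        (Icc a b) t := by
      intro t ht
      have d1 := H.U t ht 2 N (le_refl _)
      have d2 := H.U t ht 2 (N - 1) (by omega)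
      refine (d1.sub d2).congr_deriv ?_
      have : N - 1 - 1 = N - 2 := by omega
      simp only [fU, if_true, hN0, hN1, hN1', if_false, this, sub_self]
    have := const_of_deriv_zero hd t ht
    rw [h0.c2, sub_self] at this
    exact sub_eq_zero.1 this

/-- the angles at the far ends are constant -/
lemma Sol.far (hN : 2 ≤ N) : ∀ t ∈ Icc a b, (s t).U 0 N = (s a).U 0 N ∧
    (s t).U 1 N = (s a).U 1 N := by
  intro t ht
  have hN0 : N ≠ 0 := by omega
  constructor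
  · refine const_of_deriv_zero (g := fun t => (s t).U 0 N) (fun t ht => ?_) t ht
    refine (H.U t ht 0 N (le_refl _)).congr_deriv ?_
    simp [fU, hN0]
  · refine const_of_deriv_zero (g := fun t => (s t).U 1 N) (fun t ht => ?_) t ht
    refine (H.U t ht 1 N (le_refl _)).congr_deriv ?_
    simp [fU, hN0]

lemma Sol.dPP {t : ℝ} (ht : t ∈ Icc a b) :
    HasDerivWithinAt (fun t => PP N (s t)) (dP N (s t) (fun i j => e * fU N (s t) i j))
      (Icc a b) t := by
  unfold PP dP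
  apply HasDerivWithinAt.fun_sum
  intro i _
  apply HasDerivWithinAt.fun_sum
  intro j hj
  have hj' := Finset.mem_range.1 hj
  apply HasDerivWithinAt.const_mul
  have d1 : HasDerivWithinAt (fun t => dD N (s t) i j) ((N:ℂ) * (e * fU N (s t) i (j + 1) -
      e * fU N (s t) i j)) (Icc a b) t := by
    have := ((H.U t ht i (j + 1) (by omega)).sub (H.U t ht i j hj'.le)).const_smul (N:ℂ)
    exact this
  have d2 := d1.norm_sq
  refine d2.congr_deriv ?_
  rw [Complex.inner, mul_comm (starRingEnd ℂ _)]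

end cont

/-! ## the constants -/

noncomputable def cc (Λ : ℝ) : ℝ := 1 / (2 * Λ ^ 2)
noncomputable def pb (p0 : ℝ) : ℝ := √(p0 ^ 2 + 1)
noncomputable def K1 (ℓ Λ p0 : ℝ) : ℝ := C1 (2 / ℓ) Λ (pb p0) (cc Λ)
noncomputable def K2 (ℓ p0 : ℝ) : ℝ := C2 (2 / ℓ) (pb p0)
noncomputable def K3 (ℓ Λ p0 : ℝ) : ℝ := (K1 ℓ Λ p0 + p0 ^ 2) / cc Λ + K2 ℓ p0
noncomputable def tau (ℓ Λ p0 : ℝ) : ℝ :=
  min 1 (min (1 / (2 * (K1 ℓ Λ p0 + 1))) ((ℓ / (2000 * (K3 ℓ Λ p0 + 1))) ^ 2))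

lemma cc_pos {Λ : ℝ} (h : 0 < Λ) : 0 < cc Λ := by unfold cc; positivity
lemma pb_sq (p0 : ℝ) : pb p0 ^ 2 = p0 ^ 2 + 1 := Real.sq_sqrt (by positivity)
lemma pb_nonneg (p0 : ℝ) : 0 ≤ pb p0 := Real.sqrt_nonneg _
lemma C1_nonneg {m Λ p c : ℝ} (hc : 0 < c) : 0 ≤ C1 m Λ p c := by unfold C1; positivity
lemma K1_nonneg {ℓ Λ p0 : ℝ} (hΛ : 0 < Λ) : 0 ≤ K1 ℓ Λ p0 := C1_nonneg (cc_pos hΛ)
lemma K2_nonneg {ℓ p0 : ℝ} (hℓ : 0 < ℓ) : 0 ≤ K2 ℓ p0 := by unfold K2 C2; positivity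
lemma K3_nonneg {ℓ Λ p0 : ℝ} (hℓ : 0 < ℓ) (hΛ : 0 < Λ) : 0 ≤ K3 ℓ Λ p0 := by
  have h1 := K1_nonneg (ℓ := ℓ) (p0 := p0) hΛ
  have h2 := K2_nonneg (p0 := p0) hℓ
  have h3 := cc_pos hΛ
  unfold K3; positivity
lemma tau_pos {ℓ Λ p0 : ℝ} (hℓ : 0 < ℓ) (hΛ : 0 < Λ) : 0 < tau ℓ Λ p0 := by
  have h1 := K1_nonneg (ℓ := ℓ) (p0 := p0) hΛ
  have h2 := K3_nonneg (p0 := p0) hℓ hΛ
  unfold tau
  refine lt_min one_pos (lt_min (by positivity) (by positivity))

section
variable {N : ℕ} {e : ℂ} {s : ℝ → DS ℂ} {a b ℓ Λ p0 : ℝ}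

/-- The a-priori estimate. -/
theorem Sol.apriori (H : Sol N e s a b) (hN : 2 ≤ N) (hℓ : 0 < ℓ) (hΛ : 0 < Λ)
    (hI : Init N ℓ Λ p0 (s a)) (he : ‖e - 1‖ ≤ 1 / 100) (hb : b ≤ a + tau ℓ Λ p0) :
    ∀ t ∈ Icc a b, PP N (s t) ≤ p0 ^ 2 + K1 ℓ Λ p0 * (t - a) ∧
      (∀ i, ‖(s t).L i - (s a).L i‖ ≤ K3 ℓ Λ p0 * √(t - a)) ∧
      (∀ i, ‖(s t).L i - (s a).L i‖ ≤ ℓ / 1000) ∧
      Bd N (s t) (2 / ℓ) Λ (pb p0) ∧
      dP N (s t) (fun i j => e * fU N (s t) i j) ≤ -(cc Λ * QQ N (s t)) + K1 ℓ Λ p0 := by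
  obtain ⟨l, hl, l0, l0', li⟩ := hI.L
  have hinv := H.inv hN hI.R
  have hcon := H.con hN hI.con
  have hK1 := K1_nonneg (ℓ := ℓ) (p0 := p0) hΛ
  have hK2 := K2_nonneg (p0 := p0) hℓ
  have hK3 := K3_nonneg (p0 := p0) hℓ hΛ
  have hcc := cc_pos hΛ
  have he2 : ‖e‖ ≤ 2 := by
    have := norm_sub_norm_le e 1
    rw [norm_one] at this
    linarith
  -- conclusions at one time from the weak bounds
  have hbd : ∀ t ∈ Icc a b, PP N (s t) ≤ pb p0 ^ 2 → (∀ i, ‖(s t).L i - (s a).L i‖ ≤ ℓ / 1000) →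
      Bd N (s t) (2 / ℓ) Λ (pb p0) ∧
      dP N (s t) (fun i j => e * fU N (s t) i j) ≤ -(cc Λ * QQ N (s t)) + K1 ℓ Λ p0 := by
    intro t ht h1 h2
    obtain ⟨a1, a2, a3⟩ := static hN hℓ hΛ l0 l0' li (s := s t)
      (fun i => by rw [← hl i]; exact h2 i) (hinv t ht) he
    have B : Bd N (s t) (2 / ℓ) Λ (pb p0) := ⟨hN, by positivity, hΛ.le, pb_nonneg _, a1, a3, h1⟩
    refine ⟨B, ?_⟩
    have hN0 : N ≠ 0 := by omega
    apply energy B (hcon t ht) hcc he2 a2
    · intro i; simp [fU]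
    · simp [fU, hN0]
    · simp [fU, hN0]
    · intro i j hj
      have h3 : j + 1 ≠ N := by omega
      simp [fU, h3]
  -- integrated bounds on [a,t]
  have hint : ∀ t ∈ Icc a b, (∀ τ ∈ Icc a t, PP N (s τ) ≤ pb p0 ^ 2 ∧
      ∀ i, ‖(s τ).L i - (s a).L i‖ ≤ ℓ / 1000) →
      PP N (s t) ≤ p0 ^ 2 + K1 ℓ Λ p0 * (t - a) ∧
      (∀ i, ‖(s t).L i - (s a).L i‖ ≤ K3 ℓ Λ p0 * √(t - a)) := by
    intro t ht hw
    have hsub : Icc a t ⊆ Icc a b := Icc_subset_Icc (le_refl _) ht.2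
    have hIci : ∀ x ∈ Ico a t, ∀ {F : Type} [NormedAddCommGroup F] [NormedSpace ℝ F] {g : ℝ → F}
        {g' : F}, HasDerivWithinAt g g' (Icc a b) x → HasDerivWithinAt g g' (Ici x) x := by
      intro x hx F _ _ g g' hg
      exact hg.mono_of_mem_nhdsWithin (Icc_mem_nhdsGE_of_mem ⟨hx.1, hx.2.trans_le ht.2⟩)
    have hall : ∀ x ∈ Ico a t, dP N (s x) (fun i j => e * fU N (s x) i j) ≤
        -(cc Λ * QQ N (s x)) + K1 ℓ Λ p0 := fun x hx =>
      (hbd x ⟨hx.1, hx.2.le.trans ht.2⟩ (hw x ⟨hx.1, hx.2.le⟩).1 (hw x ⟨hx.1, hx.2.le⟩).2).2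
    constructor
    · have := image_le_of_deriv_right_le_deriv_boundary (a := a) (b := t)
        (f := fun x => PP N (s x)) (f' := fun x => dP N (s x) (fun i j => e * fU N (s x) i j))
        (B := fun x => p0 ^ 2 + K1 ℓ Λ p0 * (x - a)) (B' := fun _ => K1 ℓ Λ p0)
        (H.cPP.mono hsub) (fun x hx => hIci x hx (H.dPP ⟨hx.1, hx.2.le.trans ht.2⟩))
        (by simpa using hI.P) (by fun_prop)
        (fun x _ => by
          have := (((hasDerivAt_id' x).sub_const a).const_mul (K1 ℓ Λ p0)).const_add (p0 ^ 2)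
          exact (this.congr_deriv (by ring)).hasDerivWithinAt)
        (fun x hx => by
          have h1 := hall x hx
          have h2 : 0 ≤ cc Λ * QQ N (s x) := mul_nonneg hcc.le QQ_nonneg
          linarith)
      exact this ⟨ht.1, le_refl _⟩
    · intro i
      rcases eq_or_lt_of_le ht.1 with hat | hat
      · subst hat; simp
      have hta : 0 < t - a := by linarith
      set κ := √(t - a) with hκ
      have hκ0 : 0 < κ := Real.sqrt_pos.2 hta
      have hκ2 : κ * κ = t - a := Real.mul_self_sqrt hta.le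
      have hτ1 : t - a ≤ 1 := by
        have h1 : tau ℓ Λ p0 ≤ 1 := min_le_left _ _
        linarith [ht.2]
      have hκ1 : κ ≤ 1 := by
        rw [hκ, ← Real.sqrt_one]; exact Real.sqrt_le_sqrt hτ1
      have hB := image_norm_le_of_norm_deriv_right_le_deriv_boundary' (a := a) (b := t)
        (f := fun x => (s x).L i - (s a).L i) (f' := fun x => e * Ld N (s x) i)
        (B := fun x => κ / cc Λ * (K1 ℓ Λ p0 * (x - a) + (PP N (s a) - PP N (s x))) +
          K2 ℓ p0 / κ * (x - a))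
        (B' := fun x => κ / cc Λ * (K1 ℓ Λ p0 - dP N (s x) (fun i j => e * fU N (s x) i j)) +
          K2 ℓ p0 / κ)
        (((H.cL i).mono hsub).sub continuousOn_const)
        (fun x hx => (hIci x hx (H.L x ⟨hx.1, hx.2.le.trans ht.2⟩ i)).sub_const _)
        (by simp)
        (by
          have := H.cPP.mono hsub
          fun_prop)
        (fun x hx => by
          have d1 : HasDerivWithinAt (fun x : ℝ => K1 ℓ Λ p0 * (x - a)) (K1 ℓ Λ p0) (Ici x) x :=
            ((((hasDerivAt_id' x).sub_const a).const_mul (K1 ℓ Λ p0)).congr_deriv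
              (by ring)).hasDerivWithinAt
          have d2 := hIci x hx (H.dPP ⟨hx.1, hx.2.le.trans ht.2⟩)
          have d3 : HasDerivWithinAt (fun x : ℝ => K2 ℓ p0 / κ * (x - a)) (K2 ℓ p0 / κ) (Ici x) x :=
            ((((hasDerivAt_id' x).sub_const a).const_mul (K2 ℓ p0 / κ)).congr_deriv
              (by ring)).hasDerivWithinAt
          refine (((d1.add (d2.const_sub _)).const_mul (κ / cc Λ)).add d3).congr_deriv ?_
          ring)
        (fun x hx => by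
          have hx' : x ∈ Icc a b := ⟨hx.1, hx.2.le.trans ht.2⟩
          have B := (hbd x hx' (hw x ⟨hx.1, hx.2.le⟩).1 (hw x ⟨hx.1, hx.2.le⟩).2).1
          have h1 := B.Ld_small he2 hκ0 hκ1 i
          have h2 := hall x hx
          have h3 : κ * QQ N (s x) ≤ κ / cc Λ *
              (K1 ℓ Λ p0 - dP N (s x) (fun i j => e * fU N (s x) i j)) := by
            rw [div_mul_eq_mul_div, le_div_iff₀ hcc]
            have := mul_le_mul_of_nonneg_left h2 hκ0.le
            nlinarith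
          have h4 : K2 ℓ p0 / κ = C2 (2 / ℓ) (pb p0) / κ := rfl
          rw [h4]
          linarith)
      have h5 := hB ⟨hat.le, le_refl t⟩
      refine h5.trans ?_
      have h6 : PP N (s a) - PP N (s t) ≤ p0 ^ 2 := by
        have h7 := hI.P
        have h8 : 0 ≤ PP N (s t) := PP_nonneg
        linarith
      have h9 : K1 ℓ Λ p0 * (t - a) ≤ K1 ℓ Λ p0 := by nlinarith
      have h10 : κ / cc Λ * (K1 ℓ Λ p0 * (t - a) + (PP N (s a) - PP N (s t))) ≤
          κ / cc Λ * (K1 ℓ Λ p0 + p0 ^ 2) := mul_le_mul_of_nonneg_left (by linarith) (by positivity)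
      have h11 : K2 ℓ p0 / κ * (t - a) = K2 ℓ p0 * κ := by
        rw [← hκ2]; field_simp
      rw [K3, h11]
      have h12 : κ / cc Λ * (K1 ℓ Λ p0 + p0 ^ 2) = (K1 ℓ Λ p0 + p0 ^ 2) / cc Λ * κ := by ring
      linarith
  -- the continuity argument
  have htau1 : K1 ℓ Λ p0 * tau ℓ Λ p0 < 1 := by
    have h1 : tau ℓ Λ p0 ≤ 1 / (2 * (K1 ℓ Λ p0 + 1)) := (min_le_right _ _).trans (min_le_left _ _)
    have h2 : K1 ℓ Λ p0 * (1 / (2 * (K1 ℓ Λ p0 + 1))) < 1 := by
      rw [mul_one_div, div_lt_one (by positivity)]; linarith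
    exact (mul_le_mul_of_nonneg_left h1 hK1).trans_lt h2
  have htau2 : K3 ℓ Λ p0 * √(tau ℓ Λ p0) < ℓ / 1000 := by
    have h1 : tau ℓ Λ p0 ≤ (ℓ / (2000 * (K3 ℓ Λ p0 + 1))) ^ 2 :=
      (min_le_right _ _).trans (min_le_right _ _)
    have h2 : √(tau ℓ Λ p0) ≤ ℓ / (2000 * (K3 ℓ Λ p0 + 1)) := by
      rw [Real.sqrt_le_left (by positivity)]; exact h1
    have h3 : K3 ℓ Λ p0 * (ℓ / (2000 * (K3 ℓ Λ p0 + 1))) < ℓ / 1000 := by
      rw [mul_div_assoc', div_lt_div_iff₀ (by positivity) (by norm_num)]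
      nlinarith
    exact (mul_le_mul_of_nonneg_left h2 hK3).trans_lt h3
  have hboot := bootstrap (ι := Option (Fin 3)) (a := a) (b := b)
    (φ := fun k t => k.elim (PP N (s t)) (fun i => ‖(s t).L i - (s a).L i‖))
    (c := fun k => k.elim (pb p0 ^ 2) (fun _ => ℓ / 1000))
    (by
      intro k
      cases k with
      | none => exact H.cPP
      | some i => exact ((H.cL i).sub continuousOn_const).norm)
    (by
      intro k
      cases k with
      | none =>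
        simp only [Option.elim]
        rw [pb_sq]; linarith [hI.P]
      | some i =>
        simp only [Option.elim, sub_self, norm_zero]
        positivity)
    (by
      intro t ht hw k
      obtain ⟨h1, h2⟩ := hint t ht (fun τ hτ => ⟨hw τ hτ none, fun i => hw τ hτ (some i)⟩)
      have hta : t - a ≤ tau ℓ Λ p0 := by linarith [ht.2]
      cases k with
      | none =>
        simp only [Option.elim]
        rw [pb_sq]
        have := mul_le_mul_of_nonneg_left hta hK1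
        linarith
      | some i =>
        simp only [Option.elim]
        have h3 : √(t - a) ≤ √(tau ℓ Λ p0) := Real.sqrt_le_sqrt hta
        have := mul_le_mul_of_nonneg_left h3 hK3
        exact (h2 i).trans_lt (this.trans_lt htau2))
  have hw : ∀ t ∈ Icc a b, PP N (s t) ≤ pb p0 ^ 2 ∧ ∀ i, ‖(s t).L i - (s a).L i‖ ≤ ℓ / 1000 :=
    fun t ht => ⟨hboot t ht none, fun i => hboot t ht (some i)⟩
  intro t ht
  obtain ⟨h1, h2⟩ := hint t ht (fun τ hτ => hw τ ⟨hτ.1, hτ.2.trans ht.2⟩)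
  obtain ⟨h3, h4⟩ := hbd t ht (hw t ht).1 (hw t ht).2
  exact ⟨h1, h2, (hw t ht).2, h3, h4⟩

end

end Run7.h661x
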