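import Pool.Agent.Run7.h661.X.Holo

/-!
# Interior bounds, uniform in the number of nodes
-/

open Set Filter Topology Finset
open scoped NNReal InnerProductSpace

namespace Run7.h661x

/-- bounded and Lipschitz in the node index -/
def BL (N n : ℕ) (C : ℝ) (f : ℕ → ℂ) : Prop :=
  0 ≤ C ∧ (∀ j < n, ‖f j‖ ≤ C) ∧ ∀ j l, j < n → l < n → ‖f j - f l‖ ≤ C * (|(j : ℝ) - l| / N)

section BL
variable {N n : ℕ} {C D : ℝ} {f g : ℕ → ℂ}

lemma BL.const (c : ℂ) {C : ℝ} (h : ‖c‖ ≤ C) : BL N n C (fun _ => c) :=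
  ⟨(norm_nonneg _).trans h, fun _ _ => h, fun j l _ _ => by
    have : 0 ≤ C := (norm_nonneg _).trans h
    simp only [sub_self, norm_zero]; positivity⟩

lemma BL.mono (h : BL N n C f) (hCD : C ≤ D) : BL N n D f :=
  ⟨h.1.trans hCD, fun j hj => (h.2.1 j hj).trans hCD, fun j l hj hl =>
    (h.2.2 j l hj hl).trans (mul_le_mul_of_nonneg_right hCD (by positivity))⟩

lemma BL.mono_n {n' : ℕ} (h : BL N n C f) (hn : n' ≤ n) : BL N n' C f :=
  ⟨h.1, fun j hj => h.2.1 j (hj.trans_le hn), fun j l hj hl =>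
    h.2.2 j l (hj.trans_le hn) (hl.trans_le hn)⟩

lemma BL.add (hf : BL N n C f) (hg : BL N n D g) : BL N n (C + D) (fun j => f j + g j) := by
  refine ⟨add_nonneg hf.1 hg.1, fun j hj => ?_, fun j l hj hl => ?_⟩
  · exact (norm_add_le _ _).trans (add_le_add (hf.2.1 j hj) (hg.2.1 j hj))
  · have e : f j + g j - (f l + g l) = (f j - f l) + (g j - g l) := by ring
    rw [e, add_mul]
    exact (norm_add_le _ _).trans (add_le_add (hf.2.2 j l hj hl) (hg.2.2 j l hj hl))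

lemma BL.neg (hf : BL N n C f) : BL N n C (fun j => -f j) := by
  refine ⟨hf.1, fun j hj => by rw [norm_neg]; exact hf.2.1 j hj, fun j l hj hl => ?_⟩
  have e : -f j - -f l = -(f j - f l) := by ring
  rw [e, norm_neg]; exact hf.2.2 j l hj hl

lemma BL.sub (hf : BL N n C f) (hg : BL N n D g) : BL N n (C + D) (fun j => f j - g j) := by
  have := hf.add hg.neg
  simpa only [sub_eq_add_neg] using this

lemma BL.mul (hf : BL N n C f) (hg : BL N n D g) : BL N n (2 * (C * D)) (fun j => f j * g j) := by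
  have hC := hf.1
  have hD := hg.1
  have hCD : 0 ≤ C * D := mul_nonneg hC hD
  refine ⟨by positivity, fun j hj => ?_, fun j l hj hl => ?_⟩
  · rw [norm_mul]
    have := mul_le_mul (hf.2.1 j hj) (hg.2.1 j hj) (norm_nonneg _) hC
    linarith
  · have e : f j * g j - f l * g l = f j * (g j - g l) + (f j - f l) * g l := by ring
    rw [e]
    have a1 := norm_add_le (f j * (g j - g l)) ((f j - f l) * g l)
    rw [norm_mul, norm_mul] at a1
    have a2 := mul_le_mul (hf.2.1 j hj) (hg.2.2 j l hj hl) (norm_nonneg _) hC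
    have a3 := mul_le_mul (hf.2.2 j l hj hl) (hg.2.1 l hl) (norm_nonneg _)
      (mul_nonneg hC (by positivity))
    calc _ ≤ _ := a1
      _ ≤ C * (D * (|(j : ℝ) - l| / N)) + C * (|(j : ℝ) - l| / N) * D := add_le_add a2 a3
      _ = _ := by ring

lemma BL.shift (hf : BL N (n + 1) C f) : BL N n C (fun j => f (j + 1)) := by
  refine ⟨hf.1, fun j hj => hf.2.1 (j + 1) (by omega), fun j l hj hl => ?_⟩
  have := hf.2.2 (j + 1) (l + 1) (by omega) (by omega)
  have e : |((j + 1 : ℕ) : ℝ) - (l + 1 : ℕ)| = |(j : ℝ) - l| := by push_cast; congr 1; ring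
  rwa [e] at this

lemma BL.congr (hf : BL N n C f) (h : ∀ j < n, g j = f j) : BL N n C g :=
  ⟨hf.1, fun j hj => by rw [h j hj]; exact hf.2.1 j hj, fun j l hj hl => by
    rw [h j hj, h l hl]; exact hf.2.2 j l hj hl⟩

lemma lip_of_step (_hN : 0 < N) (_hC : 0 ≤ C) (h : ∀ k, k + 1 < n → ‖f (k + 1) - f k‖ ≤ C / N)
    {j l : ℕ} (hj : j < n) (hl : l < n) : ‖f j - f l‖ ≤ C * (|(j : ℝ) - l| / N) := by
  have key : ∀ a b : ℕ, a ≤ b → b < n → ‖f b - f a‖ ≤ C * (((b : ℝ) - a) / N) := by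
    intro a b hab hb
    have h1 := dist_le_Ico_sum_dist f hab
    rw [dist_eq_norm, norm_sub_rev] at h1
    refine h1.trans ?_
    calc ∑ k ∈ Finset.Ico a b, dist (f k) (f (k + 1)) ≤ ∑ k ∈ Finset.Ico a b, C / N := by
          apply sum_le_sum
          intro k hk
          rw [dist_eq_norm, norm_sub_rev]
          have := (Finset.mem_Ico.1 hk).2
          exact h k (by omega)
      _ = _ := by
        rw [sum_const, Nat.card_Ico, nsmul_eq_mul, Nat.cast_sub hab]; ring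
  rcases le_total j l with h1 | h1
  · have h2 : (j:ℝ) ≤ l := by exact_mod_cast h1
    rw [norm_sub_rev, abs_sub_comm, abs_of_nonneg (by linarith)]
    exact key j l h1 hl
  · have h2 : (l:ℝ) ≤ j := by exact_mod_cast h1
    rw [abs_of_nonneg (by linarith)]
    exact key l j h1 hj

lemma BL_xn (hN : 2 ≤ N) : BL N (N + 1) 1 (fun j => xn N j) := by
  have hN0 := N_pos hN
  refine ⟨zero_le_one, fun j hj => xn_le hN (by omega), fun j l _ _ => ?_⟩
  have e : xn N j - xn N l = ((((j:ℝ) - l) / N : ℝ) : ℂ) := by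
    rw [xn_real, xn_real]; push_cast; ring
  rw [e, Complex.norm_real, Real.norm_eq_abs, abs_div, abs_of_pos hN0, one_mul]

end BL

/-- the hypotheses on a ball in the complex time domain -/
structure BH (ℓ Λ p0 r : ℝ) (N : ℕ) (t0 : ℂ) (G : ℂ → DS ℂ) : Prop where
  N2 : 2 ≤ N
  hol : Hol N G (Metric.ball t0 r)
  ode : ∀ i, ∀ j ≤ N, ∀ w ∈ Metric.ball t0 r, HasDerivAt (fun w => (G w).U i j) (fU N (G w) i j) w
  bd : ∀ w ∈ Metric.ball t0 r, Bd N (G w) (2 / ℓ) Λ (pb p0)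
  con : ∀ w ∈ Metric.ball t0 r, Con N (G w)
  inv : ∀ w ∈ Metric.ball t0 r, ∀ i, ∀ j ≤ N, (G w).R i j * rho N (G w) i j = 1
  L0 : ∀ w ∈ Metric.ball t0 r, ∀ i, ‖(G w).L i‖ ≤ 2 * Λ
  far : ∀ w ∈ Metric.ball t0 r, ‖(G w).U 0 N‖ + ‖(G w).U 1 N‖ ≤ 2

lemma cauchy_bound {f : ℂ → ℂ} {w : ℂ} {ρ C : ℝ} (hρ : 0 < ρ) (h : DifferentiableOn ℂ f
    (Metric.closedBall w ρ)) (hC : ∀ z ∈ Metric.closedBall w ρ, ‖f z‖ ≤ C) :
    ‖deriv f w‖ ≤ C / ρ := by
  apply Complex.norm_deriv_le_of_forall_mem_sphere_norm_le hρ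
  · refine ⟨h.mono Metric.ball_subset_closedBall, ?_⟩
    rw [closure_ball w hρ.ne']
    exact h.continuousOn
  · intro z hz
    exact hC z (Metric.sphere_subset_closedBall hz)

lemma closedBall_sub {t0 w : ℂ} {r ρ : ℝ} (hw : w ∈ Metric.ball t0 r) :
    Metric.closedBall w ρ ⊆ Metric.ball t0 (r + ρ) := by
  intro z hz
  rw [Metric.mem_closedBall] at hz
  rw [Metric.mem_ball] at hw ⊢
  have := dist_triangle z w t0
  linarith

section
variable {ℓ Λ p0 r : ℝ} {N : ℕ} {t0 : ℂ} {G : ℂ → DS ℂ}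

lemma rho_norm (H : BH ℓ Λ p0 r N t0 G) {w : ℂ} (hw : w ∈ Metric.ball t0 r) (i : Fin 3) {j : ℕ}
    (hj : j ≤ N) : ‖rho N (G w) i j‖ ≤ 4 * Λ := by
  have h1 := H.L0 w hw 0
  have h2 := (H.bd w hw).L i
  have h3 := xn_le H.N2 hj
  rw [rho]
  have a1 := norm_add_le ((G w).L 0) ((2 * xn N j) • ((G w).L i - (G w).L 0))
  have a2 : ‖(2 * xn N j) • ((G w).L i - (G w).L 0)‖ ≤ 2 * Λ := by
    rw [norm_smul, norm_mul, Complex.norm_ofNat]
    exact mul_le_mul (by linarith) h2 (norm_nonneg _) (by norm_num)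
  linarith

/-- the bound of the time derivative -/
lemma V_bound (hr : 0 < r) (H : BH ℓ Λ p0 r N t0 G) {w : ℂ} (hw : w ∈ Metric.ball t0 (r / 2))
    (i : Fin 3) {j : ℕ} (hj : j ≤ N) : ‖fU N (G w) i j‖ ≤ (2 + 2 * pb p0) / (r / 4) := by
  have hsub : Metric.closedBall w (r / 4) ⊆ Metric.ball t0 r := by
    refine (closedBall_sub hw).trans (Metric.ball_subset_ball (by linarith))
  have hw' : w ∈ Metric.ball t0 r := Metric.ball_subset_ball (by linarith) hw
  rw [← (H.ode i j hj w hw').deriv]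
  apply cauchy_bound (by positivity) ((H.hol.U i j hj).mono hsub)
  intro z hz
  have h1 := U_bound H.N2 (pb_nonneg p0) (H.bd z (hsub hz)).P (H.con z (hsub hz)) i hj
  have h2 := H.far z (hsub hz)
  linarith

lemma dE_eq (H : BH ℓ Λ p0 r N t0 G) {w : ℂ} (hw : w ∈ Metric.ball t0 r) (i : Fin 3) {j : ℕ}
    (hj : j < N - 1) : dE N (G w) i j = rho N (G w) i (j + 1) * rho N (G w) i (j + 1) *
      (fU N (G w) i (j + 1) - bb N (G w) i j * dD N (G w) i j) := by
  have h3 : j + 1 ≠ N := by omega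
  have h1 : fU N (G w) i (j + 1) = VV N (G w) i j := by simp [fU, h3]
  have h2 := H.inv w hw i (j + 1) (by omega)
  rw [h1, VV]
  have : rho N (G w) i (j + 1) * rho N (G w) i (j + 1) * ((G w).R i (j + 1) * (G w).R i (j + 1) *
      dE N (G w) i j + bb N (G w) i j * dD N (G w) i j - bb N (G w) i j * dD N (G w) i j) =
      ((G w).R i (j + 1) * rho N (G w) i (j + 1)) ^ 2 * dE N (G w) i j := by ring
  rw [this, h2, one_pow, one_mul]

lemma q_alg {Λ V β β1 β2 g p q : ℝ} (hQ : q ^ 2 ≤ 512 * Λ ^ 4 * (3 * V ^ 2 + β ^ 2 * p ^ 2))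
    (hg2 : g ^ 2 = p ^ 2 + 2 * (p * q)) (hβ : β = β1 + β2 * g) :
    q ^ 2 ≤ 512 * Λ ^ 4 * (3 * V ^ 2 + 2 * β1 ^ 2 * p ^ 2 + 2 * β2 ^ 2 * p ^ 4) +
      512 * Λ ^ 4 * (4 * β2 ^ 2 * p ^ 3) * q := by
  have hβ2' : β ^ 2 ≤ 2 * β1 ^ 2 + 2 * β2 ^ 2 * g ^ 2 := by
    rw [hβ]; nlinarith [sq_nonneg (β1 - β2 * g)]
  rw [hg2] at hβ2'
  have h5 := mul_le_mul_of_nonneg_right hβ2' (sq_nonneg p)
  have h6 := mul_le_mul_of_nonneg_left h5 (by positivity : 0 ≤ 512 * Λ ^ 4)
  linarith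

lemma q_fin {q α0 α1 : ℝ} (hq0 : 0 ≤ q) (h0 : 0 ≤ α0) (h1 : 0 ≤ α1) (h : q ^ 2 ≤ α0 + α1 * q) :
    q ≤ 1 + α0 + α1 := by
  by_contra hcon
  push Not at hcon
  nlinarith

lemma Q_sum {s : DS ℂ} (hN : 2 ≤ N) {K V β p : ℝ} (hK : 0 ≤ K) (hP : PP N s ≤ p ^ 2)
    (hE : ∀ i, ∀ j < N - 1, ‖dE N s i j‖ ^ 2 ≤ K * (V ^ 2 + β ^ 2 * ‖dD N s i j‖ ^ 2)) :
    QQ N s ≤ K * (3 * V ^ 2 + β ^ 2 * p ^ 2) := by
  have hN0 := N_pos hN
  have hone : ∀ i : Fin 3, ∑ j ∈ range (N - 1), (1 / (N:ℝ)) * ‖dE N s i j‖ ^ 2 ≤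
      K * V ^ 2 + K * β ^ 2 * ∑ j ∈ range N, (1 / (N:ℝ)) * ‖dD N s i j‖ ^ 2 := by
    intro i
    have h1 : ∑ j ∈ range (N - 1), (1 / (N:ℝ)) * ‖dE N s i j‖ ^ 2 ≤
        ∑ j ∈ range (N - 1), (1 / (N:ℝ)) * (K * (V ^ 2 + β ^ 2 * ‖dD N s i j‖ ^ 2)) := by
      apply sum_le_sum
      intro j hj
      exact mul_le_mul_of_nonneg_left (hE i j (Finset.mem_range.1 hj)) (by positivity)
    have h2 : ∑ j ∈ range (N - 1), (1 / (N:ℝ)) * (K * (V ^ 2 + β ^ 2 * ‖dD N s i j‖ ^ 2)) ≤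
        ∑ j ∈ range N, (1 / (N:ℝ)) * (K * (V ^ 2 + β ^ 2 * ‖dD N s i j‖ ^ 2)) := by
      apply sum_le_sum_of_subset_of_nonneg
      · intro k hk
        rw [Finset.mem_range] at hk ⊢
        omega
      · intro k _ _
        positivity
    have h3 : ∑ j ∈ range N, (1 / (N:ℝ)) * (K * (V ^ 2 + β ^ 2 * ‖dD N s i j‖ ^ 2)) =
        K * V ^ 2 + K * β ^ 2 * ∑ j ∈ range N, (1 / (N:ℝ)) * ‖dD N s i j‖ ^ 2 := by
      rw [mul_sum]
      have : K * V ^ 2 = ∑ j ∈ range N, (1 / (N:ℝ)) * (K * V ^ 2) := by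
        rw [sum_const, card_range, nsmul_eq_mul]; field_simp
      rw [this, ← sum_add_distrib]
      apply sum_congr rfl
      intro j _
      ring
    linarith
  have h1 : QQ N s ≤ ∑ i : Fin 3, (K * V ^ 2 + K * β ^ 2 *
      ∑ j ∈ range N, (1 / (N:ℝ)) * ‖dD N s i j‖ ^ 2) := by
    rw [QQ]
    exact sum_le_sum (fun i _ => hone i)
  have h3 : ∑ i : Fin 3, K * V ^ 2 = K * (3 * V ^ 2) := by
    rw [sum_const, Finset.card_univ, Fintype.card_fin, nsmul_eq_mul]; push_cast; ring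
  rw [sum_add_distrib, h3, ← mul_sum] at h1
  have h4 := mul_le_mul_of_nonneg_left hP (by positivity : 0 ≤ K * β ^ 2)
  rw [PP] at h4
  linarith

/-- bound of the second order energy -/
lemma Q_bound (hℓ : 0 < ℓ) (hΛ : 0 < Λ) (hr : 0 < r) : ∃ q0, 0 ≤ q0 ∧
    ∀ (N : ℕ) (t0 : ℂ) (G : ℂ → DS ℂ), BH ℓ Λ p0 r N t0 G → ∀ w ∈ Metric.ball t0 (r / 2),
      √(QQ N (G w)) ≤ q0 := by
  set m := 2 / ℓ with hm
  set p := pb p0 with hp
  have hp0 : 0 ≤ p := pb_nonneg _
  have hm0 : 0 ≤ m := by positivity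
  set V := (2 + 2 * p) / (r / 4) with hV
  have hV0 : 0 ≤ V := by positivity
  set β1 := 3 * (m * p ^ 2) * m + 2 * (Λ * m ^ 3) with hβ1
  set β2 := 8 * m * m with hβ2
  set α0 := 512 * Λ ^ 4 * (3 * V ^ 2 + 2 * β1 ^ 2 * p ^ 2 + 2 * β2 ^ 2 * p ^ 4) with hα0
  set α1 := 512 * Λ ^ 4 * (4 * β2 ^ 2 * p ^ 3) with hα1
  have hα0' : 0 ≤ α0 := by positivity
  have hα1' : 0 ≤ α1 := by positivity
  refine ⟨1 + α0 + α1, by positivity, fun N t0 G H w hw => ?_⟩
  have hw' : w ∈ Metric.ball t0 r := Metric.ball_subset_ball (by linarith) hw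
  have B := H.bd w hw'
  have hN0 := N_pos H.N2
  set q := √(QQ N (G w)) with hq
  have hq2 : q ^ 2 = QQ N (G w) := Real.sq_sqrt QQ_nonneg
  have hq0 : 0 ≤ q := Real.sqrt_nonneg _
  set g := gg N (G w) p with hg
  have hgb := B.gg_bound
  have hg2 : g ^ 2 = p ^ 2 + 2 * (p * q) := B.gg_sq
  have hg0 : 0 ≤ g := B.g_nonneg hgb
  set β := (8 * (g * m) + 3 * (m * p ^ 2)) * m + 2 * (Λ * m ^ 3) with hβ
  have hβe : β = β1 + β2 * g := by rw [hβ, hβ1, hβ2]; ring
  have hβ0 : 0 ≤ β := by positivity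
  have hE : ∀ i, ∀ j < N - 1, ‖dE N (G w) i j‖ ^ 2 ≤ 512 * Λ ^ 4 * (V ^ 2 +
      β ^ 2 * ‖dD N (G w) i j‖ ^ 2) := by
    intro i j hj
    rw [dE_eq H hw' i hj]
    have h1 := rho_norm H hw' i (j := j + 1) (by omega)
    have h2 := V_bound hr H hw i (j := j + 1) (by omega)
    have h3 := B.bb_le hgb i (j := j) (by omega)
    rw [norm_mul, norm_mul]
    have h4 : ‖fU N (G w) i (j + 1) - bb N (G w) i j * dD N (G w) i j‖ ≤
        V + β * ‖dD N (G w) i j‖ := by
      have a1 := norm_sub_le (fU N (G w) i (j + 1)) (bb N (G w) i j * dD N (G w) i j)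
      rw [norm_mul] at a1
      have a2 := mul_le_mul_of_nonneg_right h3 (norm_nonneg (dD N (G w) i j))
      linarith
    have h5 : ‖rho N (G w) i (j + 1)‖ * ‖rho N (G w) i (j + 1)‖ ≤ 4 * Λ * (4 * Λ) :=
      mul_le_mul h1 h1 (norm_nonneg _) (by positivity)
    have h6 : ‖rho N (G w) i (j + 1)‖ * ‖rho N (G w) i (j + 1)‖ *
        ‖fU N (G w) i (j + 1) - bb N (G w) i j * dD N (G w) i j‖ ≤
        4 * Λ * (4 * Λ) * (V + β * ‖dD N (G w) i j‖) :=
      mul_le_mul h5 h4 (norm_nonneg _) (by positivity)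
    have h7 := pow_le_pow_left₀ (by positivity) h6 2
    refine h7.trans ?_
    have h8 : (V + β * ‖dD N (G w) i j‖) ^ 2 ≤ 2 * (V ^ 2 + β ^ 2 * ‖dD N (G w) i j‖ ^ 2) := by
      nlinarith [sq_nonneg (V - β * ‖dD N (G w) i j‖)]
    calc (4 * Λ * (4 * Λ) * (V + β * ‖dD N (G w) i j‖)) ^ 2
        = 256 * Λ ^ 4 * (V + β * ‖dD N (G w) i j‖) ^ 2 := by ring
      _ ≤ 256 * Λ ^ 4 * (2 * (V ^ 2 + β ^ 2 * ‖dD N (G w) i j‖ ^ 2)) :=
          mul_le_mul_of_nonneg_left h8 (by positivity)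
      _ = _ := by ring
  have hQ : QQ N (G w) ≤ 512 * Λ ^ 4 * (3 * V ^ 2 + β ^ 2 * p ^ 2) :=
    Q_sum H.N2 (by positivity) B.P hE
  rw [← hq2] at hQ
  exact q_fin hq0 hα0' hα1' (q_alg hQ hg2 hβe)

/-- all interior bounds -/
theorem interior_bounds (hℓ : 0 < ℓ) (hΛ : 0 < Λ) (hr : 0 < r) : ∃ C,
    ∀ (N : ℕ) (t0 : ℂ) (G : ℂ → DS ℂ), BH ℓ Λ p0 r N t0 G → ∀ w ∈ Metric.ball t0 (r / 4), ∀ i,
      BL N (N + 1) C (fun j => (G w).U i j) ∧ BL N N C (fun j => dD N (G w) i j) ∧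
      BL N (N - 1) C (fun j => dE N (G w) i j) ∧ BL N (N + 1) C (fun j => lam N (G w) i j) ∧
      BL N (N + 1) C (fun j => (G w).R i j) ∧ BL N (N + 1) C (fun j => SS N (G w) i j) ∧
      ‖(G w).L i‖ ≤ C ∧ ‖Ld N (G w) i‖ ≤ C ∧ BL N (N + 1) C (fun j => fU N (G w) i j) := by
  obtain ⟨q0, hq0, hQ⟩ := Q_bound (p0 := p0) hℓ hΛ hr
  set m := 2 / ℓ with hm
  set p := pb p0 with hp
  have hp0 : 0 ≤ p := pb_nonneg _
  have hm0 : 0 ≤ m := by positivity
  set V := (2 + 2 * p) / (r / 4) with hV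
  have hV0 : 0 ≤ V := by positivity
  set g := √(p ^ 2 + 2 * (p * q0)) with hg
  have hg0 : 0 ≤ g := Real.sqrt_nonneg _
  set β := (8 * (g * m) + 3 * (m * p ^ 2)) * m + 2 * (Λ * m ^ 3) with hβ
  have hβ0 : 0 ≤ β := by positivity
  set E0 := 4 * Λ * (4 * Λ) * (V + β * g) with hE0
  have hE00 : 0 ≤ E0 := by positivity
  -- bounds of the first differences on the ball of radius r/2
  have hD : ∀ (N : ℕ) (t0 : ℂ) (G : ℂ → DS ℂ), BH ℓ Λ p0 r N t0 G → ∀ w ∈ Metric.ball t0 (r / 2),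
      ∀ i, ∀ j < N, ‖dD N (G w) i j‖ ≤ g := by
    intro N t0 G H w hw i j hj
    have hw' : w ∈ Metric.ball t0 r := Metric.ball_subset_ball (by linarith) hw
    have B := H.bd w hw'
    refine (B.gg_bound i j hj).trans ?_
    rw [gg, hg]
    apply Real.sqrt_le_sqrt
    have := mul_le_mul_of_nonneg_left (hQ N t0 G H w hw) hp0
    linarith
  have hE : ∀ (N : ℕ) (t0 : ℂ) (G : ℂ → DS ℂ), BH ℓ Λ p0 r N t0 G → ∀ w ∈ Metric.ball t0 (r / 2),
      ∀ i, ∀ j < N - 1, ‖dE N (G w) i j‖ ≤ E0 := by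
    intro N t0 G H w hw i j hj
    have hw' : w ∈ Metric.ball t0 r := Metric.ball_subset_ball (by linarith) hw
    have B := H.bd w hw'
    have hgb := hD N t0 G H w hw
    rw [dE_eq H hw' i hj]
    have h1 := rho_norm H hw' i (j := j + 1) (by omega)
    have h2 := V_bound hr H hw i (j := j + 1) (by omega)
    have h3 := B.bb_le hgb i (j := j) (by omega)
    rw [norm_mul, norm_mul]
    have h4 : ‖fU N (G w) i (j + 1) - bb N (G w) i j * dD N (G w) i j‖ ≤ V + β * g := by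
      have a1 := norm_sub_le (fU N (G w) i (j + 1)) (bb N (G w) i j * dD N (G w) i j)
      rw [norm_mul] at a1
      have a2 := mul_le_mul h3 (hgb i j (by omega)) (norm_nonneg _) hβ0
      linarith
    have h5 : ‖rho N (G w) i (j + 1)‖ * ‖rho N (G w) i (j + 1)‖ ≤ 4 * Λ * (4 * Λ) :=
      mul_le_mul h1 h1 (norm_nonneg _) (by positivity)
    exact mul_le_mul h5 h4 (norm_nonneg _) (by positivity)
  -- families
  have fU1 : ∀ (N : ℕ) (t0 : ℂ) (G : ℂ → DS ℂ), BH ℓ Λ p0 r N t0 G →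
      ∀ w ∈ Metric.ball t0 (r / 2), ∀ i,
      BL N (N + 1) (2 + 2 * p + g) (fun j => (G w).U i j) := by
    intro N t0 G H w hw i
    have hw' : w ∈ Metric.ball t0 r := Metric.ball_subset_ball (by linarith) hw
    have hN0 := N_pos H.N2
    refine ⟨by positivity, fun j hj => ?_, fun j l hj hl => ?_⟩
    · have h1 := U_bound H.N2 (pb_nonneg p0) (H.bd w hw').P (H.con w hw') i (j := j) (by omega)
      have h2 := H.far w hw'
      linarith
    · refine (lip_of_step (by have := H.N2; omega) hg0 (fun k hk => ?_) hj hl).trans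
        (mul_le_mul_of_nonneg_right (by linarith) (by positivity))
      have h1 := hD N t0 G H w hw i k (by omega)
      rw [dD, norm_smul, Complex.norm_natCast] at h1
      rw [le_div_iff₀ hN0]; linarith
  have fD1 : ∀ (N : ℕ) (t0 : ℂ) (G : ℂ → DS ℂ), BH ℓ Λ p0 r N t0 G →
      ∀ w ∈ Metric.ball t0 (r / 2), ∀ i, BL N N (g + E0) (fun j => dD N (G w) i j) := by
    intro N t0 G H w hw i
    have hN0 := N_pos H.N2
    refine ⟨by positivity, fun j hj => ?_, fun j l hj hl => ?_⟩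
    · have := hD N t0 G H w hw i j hj; linarith
    · refine (lip_of_step (by have := H.N2; omega) hE00 (fun k hk => ?_) hj hl).trans
        (mul_le_mul_of_nonneg_right (by linarith) (by positivity))
      have h1 := hE N t0 G H w hw i k (by omega)
      rw [dE, norm_smul, Complex.norm_natCast] at h1
      rw [le_div_iff₀ hN0]; linarith
  have fρ : ∃ Cρ, ∀ (N : ℕ) (t0 : ℂ) (G : ℂ → DS ℂ), BH ℓ Λ p0 r N t0 G →
      ∀ w ∈ Metric.ball t0 (r / 2), ∀ i,
      BL N (N + 1) Cρ (fun j => rho N (G w) i j) := by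
    refine ⟨2 * Λ + 2 * (2 * (2 * 1) * Λ), fun N t0 G H w hw i => ?_⟩
    have hw' : w ∈ Metric.ball t0 r := Metric.ball_subset_ball (by linarith) hw
    have h1 := (BL.const (N := N) (n := N + 1) _ (H.L0 w hw' 0)).add
      (((BL.const (N := N) (n := N + 1) (2:ℂ) (C := 2) (by
        rw [Complex.norm_ofNat])).mul (BL_xn H.N2)).mul
        (BL.const (N := N) (n := N + 1) _ ((H.bd w hw').L i)))
    exact h1.congr (fun j _ => rfl)
  obtain ⟨Cρ, hCρ⟩ := fρ
  have fR1 : ∀ (N : ℕ) (t0 : ℂ) (G : ℂ → DS ℂ), BH ℓ Λ p0 r N t0 G →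
      ∀ w ∈ Metric.ball t0 (r / 2), ∀ i,
      BL N (N + 1) (m + m * m * (2 * Λ)) (fun j => (G w).R i j) := by
    intro N t0 G H w hw i
    have hw' : w ∈ Metric.ball t0 r := Metric.ball_subset_ball (by linarith) hw
    have B := H.bd w hw'
    have hN0 := N_pos H.N2
    refine ⟨by positivity, fun j hj => ?_, fun j l hj hl => ?_⟩
    · have h1 := B.R i j (by omega)
      have : 0 ≤ m * m * (2 * Λ) := by positivity
      linarith
    · have h1 := B.R i j (by omega)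
      have h2 := B.R i l (by omega)
      have e1 : (G w).R i j - (G w).R i l = (G w).R i j * (G w).R i l *
          (rho N (G w) i l - rho N (G w) i j) := by
        have a1 := H.inv w hw' i j (by omega)
        have a2 := H.inv w hw' i l (by omega)
        linear_combination (-(G w).R i j) * a2 + ((G w).R i l) * a1
      have e2 : rho N (G w) i l - rho N (G w) i j = 2 * (xn N l - xn N j) *
          ((G w).L i - (G w).L 0) := by
        simp only [rho, smul_eq_mul]; ring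
      rw [e1, e2, norm_mul, norm_mul, norm_mul, norm_mul, Complex.norm_ofNat]
      have h3 := (BL_xn H.N2).2.2 l j hl hj
      rw [one_mul, abs_sub_comm] at h3
      have h4 := mul_le_mul h1 h2 (norm_nonneg _) hm0
      have h5 : 2 * ‖xn N l - xn N j‖ * ‖(G w).L i - (G w).L 0‖ ≤
          2 * (|(j:ℝ) - l| / N) * Λ :=
        mul_le_mul (by linarith) (B.L i) (norm_nonneg _) (by positivity)
      calc _ ≤ m * m * (2 * (|(j:ℝ) - l| / N) * Λ) :=
            mul_le_mul h4 h5 (by positivity) (by positivity)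
        _ = m * m * (2 * Λ) * (|(j:ℝ) - l| / N) := by ring
        _ ≤ _ := mul_le_mul_of_nonneg_right (by linarith) (by positivity)
  have fLd : ∀ (N : ℕ) (t0 : ℂ) (G : ℂ → DS ℂ), BH ℓ Λ p0 r N t0 G →
      ∀ w ∈ Metric.ball t0 (r / 2), ∀ i, ‖Ld N (G w) i‖ ≤ 3 * (g * m) + m * p ^ 2 := by
    intro N t0 G H w hw i
    have hw' : w ∈ Metric.ball t0 r := Metric.ball_subset_ball (by linarith) hw
    exact (H.bd w hw').Ld_le (hD N t0 G H w hw) i
  have flam0 : ∀ (N : ℕ) (t0 : ℂ) (G : ℂ → DS ℂ), BH ℓ Λ p0 r N t0 G →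
      ∀ w ∈ Metric.ball t0 (r / 2), ∀ i, ‖lam0 N (G w) i‖ ≤ 2 * (g * m) := by
    intro N t0 G H w hw i
    have hw' : w ∈ Metric.ball t0 r := Metric.ball_subset_ball (by linarith) hw
    exact (H.bd w hw').lam0_le (hD N t0 G H w hw) i
  have fS : ∀ (N : ℕ) (t0 : ℂ) (G : ℂ → DS ℂ), BH ℓ Λ p0 r N t0 G →
      ∀ w ∈ Metric.ball t0 (r / 2), ∀ i,
      BL N (N + 1) (m * p ^ 2 + g * g * m) (fun j => SS N (G w) i j) := by
    intro N t0 G H w hw i
    have hw' : w ∈ Metric.ball t0 r := Metric.ball_subset_ball (by linarith) hw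
    have B := H.bd w hw'
    have hN0 := N_pos H.N2
    refine ⟨by positivity, fun j hj => ?_, fun j l hj hl => ?_⟩
    · have h1 := B.SS_le i (j := j) (by omega)
      have : 0 ≤ g * g * m := by positivity
      linarith
    · refine (lip_of_step (by have := H.N2; omega) (by positivity : 0 ≤ g * g * m)
        (fun k hk => ?_) hj hl).trans
        (mul_le_mul_of_nonneg_right (by nlinarith [sq_nonneg p]) (by positivity))
      rw [SS, SS, sum_range_succ, add_sub_cancel_left, norm_smul, norm_mul, norm_mul, norm_div,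
        norm_one, Complex.norm_natCast]
      have h1 := hD N t0 G H w hw i k (by omega)
      have h2 := B.R i k (by omega)
      have h3 := mul_le_mul (mul_le_mul h1 h1 (norm_nonneg _) hg0) h2 (norm_nonneg _)
        (by positivity)
      rw [one_div, inv_mul_eq_div]
      exact div_le_div_of_nonneg_right h3 hN0.le
  have flam : ∃ Cl, ∀ (N : ℕ) (t0 : ℂ) (G : ℂ → DS ℂ), BH ℓ Λ p0 r N t0 G →
      ∀ w ∈ Metric.ball t0 (r / 2), ∀ i, BL N (N + 1) Cl (fun j => lam N (G w) i j) := by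
    apply Exists.intro
    intro N t0 G H w hw i
    have hx := BL_xn H.N2
    have hxx := hx.mul hx
    have h1 := (((BL.const (N := N) (n := N + 1) _ (flam0 N t0 G H w hw i)).add
      (fS N t0 G H w hw i)).add ((hx.sub hxx).mul (BL.const (N := N) (n := N + 1) _
      (fLd N t0 G H w hw 0)))).add (hxx.mul (BL.const (N := N) (n := N + 1) _
      (fLd N t0 G H w hw i)))
    refine h1.congr (fun j _ => ?_)
    simp only [lam, smul_eq_mul, sq]
  obtain ⟨Cl, hCl⟩ := flam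
  have fb : ∃ Cb, ∀ (N : ℕ) (t0 : ℂ) (G : ℂ → DS ℂ), BH ℓ Λ p0 r N t0 G →
      ∀ w ∈ Metric.ball t0 (r / 2), ∀ i, BL N N Cb (fun j => bb N (G w) i j) := by
    apply Exists.intro
    intro N t0 G H w hw i
    have hw' : w ∈ Metric.ball t0 r := Metric.ball_subset_ball (by linarith) hw
    have hR := (fR1 N t0 G H w hw i).shift
    have h1 := ((hCl N t0 G H w hw i).shift.mul hR).sub ((BL.const (N := N) (n := N) (2:ℂ)
      (C := 2) (by rw [Complex.norm_ofNat])).mul ((BL.const (N := N) (n := N) _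
      ((H.bd w hw').L i)).mul ((hR.mul hR).mul hR)))
    refine h1.congr (fun j _ => ?_)
    simp only [bb, smul_eq_mul]
  obtain ⟨Cb, hCb⟩ := fb
  have fV : ∀ (N : ℕ) (t0 : ℂ) (G : ℂ → DS ℂ), BH ℓ Λ p0 r N t0 G →
      ∀ w ∈ Metric.ball t0 (r / 4), ∀ i,
      BL N (N + 1) (V + g / (r / 8)) (fun j => fU N (G w) i j) := by
    intro N t0 G H w hw i
    have hw2 : w ∈ Metric.ball t0 (r / 2) := Metric.ball_subset_ball (by linarith) hw
    have hw' : w ∈ Metric.ball t0 r := Metric.ball_subset_ball (by linarith) hw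
    have hN0 := N_pos H.N2
    refine ⟨by positivity, fun j hj => ?_, fun j l hj hl => ?_⟩
    · have h1 := V_bound hr H hw2 i (j := j) (by omega)
      have : 0 ≤ g / (r / 8) := by positivity
      linarith
    · have hsub : Metric.closedBall w (r / 8) ⊆ Metric.ball t0 (r / 2) := by
        refine (closedBall_sub hw).trans (Metric.ball_subset_ball (by linarith))
      have hsub' : Metric.closedBall w (r / 8) ⊆ Metric.ball t0 r :=
        hsub.trans (Metric.ball_subset_ball (by linarith))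
      have d1 := (H.ode i j (by omega) w hw').sub (H.ode i l (by omega) w hw')
      have h2 := cauchy_bound (f := fun w => (G w).U i j - (G w).U i l) (w := w) (ρ := r / 8)
        (C := g * (|(j:ℝ) - l| / N)) (by positivity)
        (((H.hol.U i j (by omega)).fun_sub (H.hol.U i l (by omega))).mono hsub')
        (fun z hz => lip_of_step (f := fun j => (G z).U i j) (n := N + 1)
          (by have := H.N2; omega) hg0 (fun k hk => by
            have h1 := hD N t0 G H z (hsub hz) i k (by omega)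
            rw [dD, norm_smul, Complex.norm_natCast] at h1
            rw [le_div_iff₀ hN0]; linarith) hj hl)
      have d2 : deriv (fun w => (G w).U i j - (G w).U i l) w = fU N (G w) i j - fU N (G w) i l :=
        d1.deriv
      rw [d2] at h2
      refine h2.trans ?_
      rw [mul_div_right_comm]
      exact mul_le_mul_of_nonneg_right (by linarith) (by positivity)
  have fE : ∃ Ce, ∀ (N : ℕ) (t0 : ℂ) (G : ℂ → DS ℂ), BH ℓ Λ p0 r N t0 G →
      ∀ w ∈ Metric.ball t0 (r / 4), ∀ i, BL N (N - 1) Ce (fun j => dE N (G w) i j) := by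
    apply Exists.intro
    intro N t0 G H w hw i
    have hw2 : w ∈ Metric.ball t0 (r / 2) := Metric.ball_subset_ball (by linarith) hw
    have hw' : w ∈ Metric.ball t0 r := Metric.ball_subset_ball (by linarith) hw
    have hN2 := H.N2
    have k1 := ((hCρ N t0 G H w hw2 i).shift).mono_n (n' := N - 1) (by omega)
    have k2 := ((fV N t0 G H w hw i).shift).mono_n (n' := N - 1) (by omega)
    have k3 := (hCb N t0 G H w hw2 i).mono_n (n' := N - 1) (by omega)
    have k4 := (fD1 N t0 G H w hw2 i).mono_n (n' := N - 1) (by omega)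
    refine ((k1.mul k1).mul (k2.sub (k3.mul k4))).congr (fun j hj => ?_)
    exact dE_eq H hw' i hj
  obtain ⟨Ce, hCe⟩ := fE
  set CC := (2 + 2 * p + g) + (g + E0) + |Ce| + |Cl| + (m + m * m * (2 * Λ)) +
    (m * p ^ 2 + g * g * m) + 2 * Λ + (3 * (g * m) + m * p ^ 2) + (V + g / (r / 8)) with hCC
  refine ⟨CC, fun N t0 G H w hw i => ?_⟩
  have hw2 : w ∈ Metric.ball t0 (r / 2) := Metric.ball_subset_ball (by linarith) hw
  have hw' : w ∈ Metric.ball t0 r := Metric.ball_subset_ball (by linarith) hw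
  have n1 : 0 ≤ 2 + 2 * p + g := by positivity
  have n2 : 0 ≤ g + E0 := by positivity
  have n3 : 0 ≤ |Ce| := abs_nonneg _
  have n4 : 0 ≤ |Cl| := abs_nonneg _
  have n5 : 0 ≤ m + m * m * (2 * Λ) := by positivity
  have n6 : 0 ≤ m * p ^ 2 + g * g * m := by positivity
  have n7 : 0 ≤ 2 * Λ := by positivity
  have n8 : 0 ≤ 3 * (g * m) + m * p ^ 2 := by positivity
  have n9 : 0 ≤ V + g / (r / 8) := by positivity
  have e1 := le_abs_self Ce
  have e2 := le_abs_self Cl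
  exact ⟨(fU1 N t0 G H w hw2 i).mono (by linarith), (fD1 N t0 G H w hw2 i).mono (by linarith),
    (hCe N t0 G H w hw i).mono (by linarith), (hCl N t0 G H w hw2 i).mono (by linarith),
    (fR1 N t0 G H w hw2 i).mono (by linarith), (fS N t0 G H w hw2 i).mono (by linarith),
    (H.L0 w hw' i).trans (by linarith), (fLd N t0 G H w hw2 i).trans (by linarith),
    (fV N t0 G H w hw i).mono (by linarith)⟩

end

end Run7.h661x
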