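import Pool.Agent.Run7.h661.X.AReg
import Pool.Agent.Run7.h661.Y.Boot

/-!
# The curves of a flow of angles
-/

open Set Filter Topology
open scoped Real ContDiff

namespace Run7.h661x

open Run7.h661y (cang cang0 cang1 cang2 QF Sm SecAt EdgeFlow trig23 trigm23)

variable {T : ℝ} {a : AFd}

/-- direction -/
noncomputable def AFd.al (a : AFd) (i : Fin 3) (t p : ℝ) : ℝ := cang i + a.th i t p
noncomputable def AFd.tx (a : AFd) (i : Fin 3) (t p : ℝ) : ℝ := a.ro i t p * Real.cos (a.al i t p)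
noncomputable def AFd.ty (a : AFd) (i : Fin 3) (t p : ℝ) : ℝ := a.ro i t p * Real.sin (a.al i t p)
noncomputable def AFd.ux (a : AFd) (i : Fin 3) (t p : ℝ) : ℝ :=
  a.lm i t p * Real.cos (a.al i t p) - a.k i t p * Real.sin (a.al i t p)
noncomputable def AFd.uy (a : AFd) (i : Fin 3) (t p : ℝ) : ℝ :=
  a.lm i t p * Real.sin (a.al i t p) + a.k i t p * Real.cos (a.al i t p)
/-- coordinates of the curves -/
noncomputable def AFd.X (a : AFd) (i : Fin 3) (t p : ℝ) : ℝ :=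
  -(PI clamp (a.tx 1) t 1) + PI clamp (a.tx i) t p
noncomputable def AFd.Y (a : AFd) (i : Fin 3) (t p : ℝ) : ℝ :=
  -(PI clamp (a.ty 0) t 1) + PI clamp (a.ty i) t p

section
variable (A : AF T a)
include A

lemma AF.pal (i : Fin 3) {t : ℝ} (ht : t ∈ Ioo 0 T) {p : ℝ} (hp : p ∈ Icc (0:ℝ) 1) :
    HasDerivWithinAt (a.al i t) (a.D i t p) (Icc 0 1) p := (A.pth i t ht p hp).const_add _

lemma AF.tal (i : Fin 3) {t : ℝ} (ht : t ∈ Ioo 0 T) {p : ℝ} (hp : p ∈ Icc (0:ℝ) 1) :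
    HasDerivAt (fun t => a.al i t p) (a.V i t p) t := (A.tth i t ht p hp).const_add _

lemma AF.rtx (i : Fin 3) (m n : ℕ) : RG T (Icc 0 1) m n (a.tx i) ∧ RG T (Icc 0 1) m n (a.ty i) := by
  have h1 := ((RG.const (cang i) m n).add (A.reg n i m).1).cossin
  exact ⟨((A.rro i m n).mul h1.1).congr (fun _ _ _ _ => rfl),
    ((A.rro i m n).mul h1.2).congr (fun _ _ _ _ => rfl)⟩

lemma AF.ttx (i : Fin 3) {t : ℝ} (ht : t ∈ Ioo 0 T) {p : ℝ} (hp : p ∈ Icc (0:ℝ) 1) :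
    HasDerivAt (fun t => a.tx i t p) (a.rod i t p * Real.cos (a.al i t p) -
      a.ro i t p * (Real.sin (a.al i t p) * a.V i t p)) t := by
  have := (A.tro i ht p).mul (A.tal i ht hp).cos
  exact this.congr_deriv (by ring)

lemma AF.tty (i : Fin 3) {t : ℝ} (ht : t ∈ Ioo 0 T) {p : ℝ} (hp : p ∈ Icc (0:ℝ) 1) :
    HasDerivAt (fun t => a.ty i t p) (a.rod i t p * Real.sin (a.al i t p) +
      a.ro i t p * (Real.cos (a.al i t p) * a.V i t p)) t := by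
  have := (A.tro i ht p).mul (A.tal i ht hp).sin
  exact this.congr_deriv (by ring)

lemma AF.pux (i : Fin 3) {t : ℝ} (ht : t ∈ Ioo 0 T) {p : ℝ} (hp : p ∈ Icc (0:ℝ) 1) :
    HasDerivWithinAt (a.ux i t) (a.rod i t p * Real.cos (a.al i t p) -
      a.ro i t p * (Real.sin (a.al i t p) * a.V i t p)) (Icc 0 1) p := by
  have h0 := (A.pos i t ht p hp).ne'
  have h1 := ((A.plm i t ht p hp).mul (A.pal i ht hp).cos).sub
    ((A.pk i ht hp).mul (A.pal i ht hp).sin)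
  refine h1.congr_deriv ?_
  simp only [AFd.k]
  field_simp
  ring

lemma AF.puy (i : Fin 3) {t : ℝ} (ht : t ∈ Ioo 0 T) {p : ℝ} (hp : p ∈ Icc (0:ℝ) 1) :
    HasDerivWithinAt (a.uy i t) (a.rod i t p * Real.sin (a.al i t p) +
      a.ro i t p * (Real.cos (a.al i t p) * a.V i t p)) (Icc 0 1) p := by
  have h0 := (A.pos i t ht p hp).ne'
  have h1 := ((A.plm i t ht p hp).mul (A.pal i ht hp).sin).add
    ((A.pk i ht hp).mul (A.pal i ht hp).cos)
  refine h1.congr_deriv ?_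
  simp only [AFd.k]
  field_simp
  ring

/-- time derivative of the primitive -/
lemma AF.tPx (i : Fin 3) {t : ℝ} (ht : t ∈ Ioo 0 T) {p : ℝ} (hp : p ∈ Icc (0:ℝ) 1) :
    HasDerivAt (fun t => PI clamp (a.tx i) t p) (a.ux i t p - a.ux i t 0) t := by
  have hc : ContinuousOn (fun q : ℝ × ℝ => a.rod i q.1 q.2 * Real.cos (a.al i q.1 q.2) -
      a.ro i q.1 q.2 * (Real.sin (a.al i q.1 q.2) * a.V i q.1 q.2)) (Ioo 0 T ×ˢ Icc 0 1) := by
    have h1 := ((RG.const (cang i) 0 0).add (A.reg 0 i 0).1).cossin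
    have h2 : RG T (Icc 0 1) 0 0 (fun t p => a.rod i t p * Real.cos (a.al i t p) -
      a.ro i t p * (Real.sin (a.al i t p) * a.V i t p)) :=
      ((A.rrod i 0 0).mul h1.1).sub ((A.rro i 0 0).mul (h1.2.mul (A.rV i 0 0)))
    exact h2.ct.cont
  have h1 := PI_dt dom_I (A.rtx i 0 0).1.ct.cont (F' := fun t p => a.rod i t p *
    Real.cos (a.al i t p) - a.ro i t p * (Real.sin (a.al i t p) * a.V i t p)) hc
    (fun t ht p hp => A.ttx i ht hp) ht p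
  have h2 := PI_eq dom_I ht (F := a.ux i) (G := fun t p => a.rod i t p *
    Real.cos (a.al i t p) - a.ro i t p * (Real.sin (a.al i t p) * a.V i t p))
    (fun q hq => A.pux i ht hq) hc hp
  refine h1.congr_deriv ?_
  linarith

lemma AF.tPy (i : Fin 3) {t : ℝ} (ht : t ∈ Ioo 0 T) {p : ℝ} (hp : p ∈ Icc (0:ℝ) 1) :
    HasDerivAt (fun t => PI clamp (a.ty i) t p) (a.uy i t p - a.uy i t 0) t := by
  have hc : ContinuousOn (fun q : ℝ × ℝ => a.rod i q.1 q.2 * Real.sin (a.al i q.1 q.2) +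
      a.ro i q.1 q.2 * (Real.cos (a.al i q.1 q.2) * a.V i q.1 q.2)) (Ioo 0 T ×ˢ Icc 0 1) := by
    have h1 := ((RG.const (cang i) 0 0).add (A.reg 0 i 0).1).cossin
    have h2 : RG T (Icc 0 1) 0 0 (fun t p => a.rod i t p * Real.sin (a.al i t p) +
      a.ro i t p * (Real.cos (a.al i t p) * a.V i t p)) :=
      ((A.rrod i 0 0).mul h1.2).add ((A.rro i 0 0).mul (h1.1.mul (A.rV i 0 0)))
    exact h2.ct.cont
  have h1 := PI_dt dom_I (A.rtx i 0 0).2.ct.cont (F' := fun t p => a.rod i t p *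
    Real.sin (a.al i t p) + a.ro i t p * (Real.cos (a.al i t p) * a.V i t p)) hc
    (fun t ht p hp => A.tty i ht hp) ht p
  have h2 := PI_eq dom_I ht (F := a.uy i) (G := fun t p => a.rod i t p *
    Real.sin (a.al i t p) + a.ro i t p * (Real.cos (a.al i t p) * a.V i t p))
    (fun q hq => A.puy i ht hq) hc hp
  refine h1.congr_deriv ?_
  linarith

/-- the velocities at the junction agree -/
lemma AF.u_junc {t : ℝ} (ht : t ∈ Ioo 0 T) (i : Fin 3) :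
    a.ux i t 0 = a.ux 2 t 0 ∧ a.uy i t 0 = a.uy 2 t 0 := by
  have hth := A.jth t ht
  have hD := A.jD t ht
  rw [Fin.sum_univ_three] at hD
  have hl := A.jlm t ht
  have e : ∀ i, a.ro i t 0 = a.L 0 t := fun i => by simp [AFd.ro]
  have hk : ∀ i, a.k i t 0 = a.D i t 0 * (a.L 0 t)⁻¹ := fun i => by rw [AFd.k, e]
  have hl' : ∀ i, a.lm i t 0 = 1 / √3 * (a.k (i + 1) t 0 - a.k (i + 2) t 0) := fun i => by
    rw [hl, hk, hk]
  have hk0 : a.k 0 t 0 + a.k 1 t 0 + a.k 2 t 0 = 0 := by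
    rw [hk, hk, hk, ← add_mul, ← add_mul, hD, zero_mul]
  have hs3 : √3 * √3 = 3 := Real.mul_self_sqrt (by norm_num)
  have hs : √3 ≠ 0 := by positivity
  have l0 := hl' 0
  have l1 := hl' 1
  have l2 := hl' 2
  have f1 : (0:Fin 3) + 1 = 1 := rfl
  have f2 : (0:Fin 3) + 2 = 2 := rfl
  have f3 : (1:Fin 3) + 1 = 2 := rfl
  have f4 : (1:Fin 3) + 2 = 0 := rfl
  have f5 : (2:Fin 3) + 1 = 0 := rfl
  have f6 : (2:Fin 3) + 2 = 1 := rfl
  rw [f1, f2] at l0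
  rw [f3, f4] at l1
  rw [f5, f6] at l2
  set φ := a.th 2 t 0 with hφ
  have q0 : a.th 0 t 0 = φ := hth 0 2
  have q1 : a.th 1 t 0 = φ := hth 1 2
  set k0 := a.k 0 t 0 with hk0'
  set k1 := a.k 1 t 0 with hk1'
  have hk2 : a.k 2 t 0 = -(k0 + k1) := by linarith
  rw [hk2] at l0 l1
  have i3 : 1 / √3 = √3 / 3 := by field_simp; linarith
  rw [i3] at l0 l1 l2
  obtain ⟨c1, s1⟩ := trig23 φ
  obtain ⟨c0, s0⟩ := trigm23 φ
  fin_cases i
  · simp only [Fin.zero_eta, AFd.ux, AFd.uy, AFd.al, cang0, cang2, q0, ← hφ, zero_add, c0, s0, l0,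
      l2, hk2]
    constructor
    · linear_combination ((k0 * Real.sin φ) / 6 + k1 * Real.sin φ / 3) * hs3
    · linear_combination ((k0 * Real.cos φ) / 6 + k1 * Real.cos φ / 3) * (-1) * hs3
  · simp only [Fin.mk_one, AFd.ux, AFd.uy, AFd.al, cang1, cang2, q1, ← hφ, zero_add, c1, s1, l1,
      l2, hk2]
    constructor
    · linear_combination ((2 * k0 + k1) * Real.sin φ / 6) * hs3
    · linear_combination (-(2 * k0 + k1) * Real.cos φ / 6) * hs3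
  · simp

/-- the end velocities vanish or are tangential to the axes -/
lemma AF.u_end {t : ℝ} (ht : t ∈ Ioo 0 T) : a.uy 0 t 1 = 0 ∧ a.ux 1 t 1 = 0 ∧ a.ux 2 t 1 = 0 ∧
    a.uy 2 t 1 = 0 := by
  obtain ⟨h01, h02⟩ := A.e0 t ht
  obtain ⟨h11, h12⟩ := A.e1 t ht
  obtain ⟨h21, h22⟩ := A.e2 t ht
  have hs3 : √3 * √3 = 3 := Real.mul_self_sqrt (by norm_num)
  have i3 : 1 / √3 = √3 / 3 := by field_simp; linarith
  refine ⟨?_, ?_, ?_, ?_⟩
  · obtain ⟨c0, s0⟩ := trigm23 0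
    rw [Real.cos_zero, Real.sin_zero] at c0 s0
    simp only [AFd.uy, AFd.al, cang0, h01, h02, c0, s0, AFd.k, i3]
    linear_combination (a.D 0 t 1 * (a.ro 0 t 1)⁻¹ / 6) * hs3
  · have e : cang 1 + a.th 1 t 1 = π := by rw [cang1, h11]; ring
    simp only [AFd.ux, AFd.al, e, h12, Real.sin_pi, Real.cos_pi]
    ring
  · simp [AFd.ux, AFd.k, h21, h22]
  · simp [AFd.uy, AFd.k, h21, h22]

lemma AF.tX (i : Fin 3) {t : ℝ} (ht : t ∈ Ioo 0 T) {p : ℝ} (hp : p ∈ Icc (0:ℝ) 1) :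
    HasDerivAt (fun t => a.X i t p) (a.ux i t p) t := by
  have h1 := (A.tPx 1 ht oI).neg.add (A.tPx i ht hp)
  refine HasDerivAt.congr_deriv (f := fun t => a.X i t p) h1 ?_
  rw [(A.u_end ht).2.1, (A.u_junc ht i).1, (A.u_junc ht 1).1]; ring

lemma AF.tY (i : Fin 3) {t : ℝ} (ht : t ∈ Ioo 0 T) {p : ℝ} (hp : p ∈ Icc (0:ℝ) 1) :
    HasDerivAt (fun t => a.Y i t p) (a.uy i t p) t := by
  have h1 := (A.tPy 0 ht oI).neg.add (A.tPy i ht hp)
  refine HasDerivAt.congr_deriv (f := fun t => a.Y i t p) h1 ?_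
  rw [(A.u_end ht).1, (A.u_junc ht i).2, (A.u_junc ht 0).2]; ring

lemma AF.pX (i : Fin 3) {t : ℝ} (ht : t ∈ Ioo 0 T) {p : ℝ} (hp : p ∈ Icc (0:ℝ) 1) :
    HasDerivWithinAt (a.X i t) (a.tx i t p) (Icc 0 1) p :=
  (PI_deriv dom_I (A.rtx i 0 0).1.ct.cont ht hp).const_add _

lemma AF.pY (i : Fin 3) {t : ℝ} (ht : t ∈ Ioo 0 T) {p : ℝ} (hp : p ∈ Icc (0:ℝ) 1) :
    HasDerivWithinAt (a.Y i t) (a.ty i t p) (Icc 0 1) p :=
  (PI_deriv dom_I (A.rtx i 0 0).2.ct.cont ht hp).const_add _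

lemma AF.rX (i : Fin 3) (m n : ℕ) : RG T (Icc 0 1) m n (a.X i) ∧ RG T (Icc 0 1) m n (a.Y i) := by
  have k1 : CTm T (Icc 0 1) m (fun t _ => PI clamp (a.tx 1) t 1) :=
    (((A.rtx 1 m 0).1.PI dom_I).ct).eval oI
  have k2 : CTm T (Icc 0 1) m (fun t _ => PI clamp (a.ty 0) t 1) :=
    (((A.rtx 0 m 0).2.PI dom_I).ct).eval oI
  exact ⟨((RG.of_t k1).neg.add ((A.rtx i m n).1.PI dom_I).succ).congr (fun _ _ _ _ => rfl),
    ((RG.of_t k2).neg.add ((A.rtx i m n).2.PI dom_I).succ).congr (fun _ _ _ _ => rfl)⟩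

end

end Run7.h661x
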