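import Pool.Agent.Run7.h661.X.SmT
import Pool.Agent.Run7.h661.X.Curve

/-!
# Constant speed reparametrisation of the cap
-/

open Set Filter Topology
open scoped Real ContDiff

namespace Run7.h661x

/-- speed at the new parameter -/
noncomputable def Rf (L0 L q : ℝ) : ℝ := √(L0 ^ 2 + 4 * (L - L0) * L * q)
/-- the new parameter -/
noncomputable def Pf (L0 L q : ℝ) : ℝ := 2 * L * q / (L0 + Rf L0 L q)

section
variable {L0 L q : ℝ} (h0 : 0 < L0) (h1 : 0 < 2 * L - L0) (hq : q ∈ Icc (0:ℝ) 1)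
include h0 h1 hq

lemma rdc_pos : 0 < L0 ^ 2 + 4 * (L - L0) * L * q := by
  obtain ⟨q0, q1⟩ := hq
  have e : L0 ^ 2 + 4 * (L - L0) * L * q = (1 - q) * L0 ^ 2 + q * (2 * L - L0) ^ 2 := by ring
  rw [e]
  rcases eq_or_lt_of_le q0 with h | h
  · rw [← h]; positivity
  · have : 0 ≤ 1 - q := by linarith
    positivity

lemma Rf_pos : 0 < Rf L0 L q := Real.sqrt_pos.2 (rdc_pos h0 h1 hq)

lemma Rf_sq : Rf L0 L q * Rf L0 L q = L0 ^ 2 + 4 * (L - L0) * L * q :=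
  Real.mul_self_sqrt (rdc_pos h0 h1 hq).le

lemma Pf_speed : L0 + 2 * Pf L0 L q * (L - L0) = Rf L0 L q := by
  have hR := Rf_pos h0 h1 hq
  have hR2 := Rf_sq h0 h1 hq
  have hs : L0 + Rf L0 L q ≠ 0 := by positivity
  have e : Pf L0 L q * (L0 + Rf L0 L q) = 2 * L * q := by
    rw [Pf, div_mul_cancel₀ _ hs]
  apply mul_right_cancel₀ hs
  linear_combination (2 * (L - L0)) * e - hR2

lemma Pf_eq : L0 * Pf L0 L q + (L - L0) * Pf L0 L q ^ 2 = L * q := by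
  have hR := Rf_pos h0 h1 hq
  have hs : L0 + Rf L0 L q ≠ 0 := by positivity
  have e : Pf L0 L q * (L0 + Rf L0 L q) = 2 * L * q := by
    rw [Pf, div_mul_cancel₀ _ hs]
  have e2 := Pf_speed h0 h1 hq
  linear_combination (Pf L0 L q / 2) * e2 + e / 2

lemma Pf_mem : Pf L0 L q ∈ Icc (0:ℝ) 1 := by
  have hR := Rf_pos h0 h1 hq
  have hR2 := Rf_sq h0 h1 hq
  obtain ⟨q0, q1⟩ := hq
  have hL : 0 < L := by linarith
  constructor
  · rw [Pf]; positivity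
  · rw [Pf, div_le_one (by positivity)]
    by_contra hcon
    push Not at hcon
    have h2 : Rf L0 L q < 2 * L * q - L0 := by linarith
    nlinarith [mul_nonneg (mul_nonneg hL.le hL.le) (mul_nonneg q0 (sub_nonneg.2 q1))]

lemma Pf_deriv : HasDerivAt (Pf L0 L) (L / Rf L0 L q) q := by
  have hR := Rf_pos h0 h1 hq
  have hR2 := Rf_sq h0 h1 hq
  have hr := rdc_pos h0 h1 hq
  have d1 : HasDerivAt (fun q : ℝ => L0 ^ 2 + 4 * (L - L0) * L * q) (4 * (L - L0) * L) q :=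
    (((hasDerivAt_id' q).const_mul (4 * (L - L0) * L)).const_add (L0 ^ 2)).congr_deriv (by ring)
  have d2 : HasDerivAt (Rf L0 L) (4 * (L - L0) * L / (2 * Rf L0 L q)) q := d1.sqrt hr.ne'
  have d3 : HasDerivAt (fun q : ℝ => 2 * L * q) (2 * L) q :=
    ((hasDerivAt_id' q).const_mul (2 * L)).congr_deriv (by ring)
  have d4 := d3.div (d2.const_add L0) (by positivity)
  refine HasDerivAt.congr_deriv (f := Pf L0 L) d4 ?_
  have hs : L0 + Rf L0 L q ≠ 0 := by positivity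
  have hR0 := hR.ne'
  field_simp
  linear_combination L * hR2

end

lemma Pf_zero (L0 L : ℝ) : Pf L0 L 0 = 0 := by rw [Pf]; simp

lemma Rf_one {L0 L : ℝ} (h1 : 0 < 2 * L - L0) : Rf L0 L 1 = 2 * L - L0 := by
  have : L0 ^ 2 + 4 * (L - L0) * L * 1 = (2 * L - L0) ^ 2 := by ring
  rw [Rf, this, Real.sqrt_sq h1.le]

lemma Pf_one {L0 L : ℝ} (h0 : 0 < L0) (h1 : 0 < 2 * L - L0) : Pf L0 L 1 = 1 := by
  have : L0 + (2 * L - L0) = 2 * L := by ring
  rw [Pf, Rf_one h1, this, mul_one, div_self]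
  linarith

/-- folding of an odd function -/
noncomputable def fo (F : ℝ → ℝ) (p : ℝ) : ℝ := F (m1 p) - F (m2 p)
/-- folding of an even function -/
noncomputable def fe (F : ℝ → ℝ) (p : ℝ) : ℝ := F (m1 p) + F (m2 p) - F 1

lemma fo_left (F : ℝ → ℝ) {p : ℝ} (hp : p ≤ 1 / 2) : fo F p = F (2 * p) - F 1 := by
  rw [fo, (m_left hp).1, (m_left hp).2]
lemma fo_right (F : ℝ → ℝ) {p : ℝ} (hp : 1 / 2 ≤ p) : fo F p = F 1 - F (2 - 2 * p) := by
  rw [fo, (m_right hp).1, (m_right hp).2]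
lemma fe_left (F : ℝ → ℝ) {p : ℝ} (hp : p ≤ 1 / 2) : fe F p = F (2 * p) := by
  rw [fe, (m_left hp).1, (m_left hp).2]; ring
lemma fe_right (F : ℝ → ℝ) {p : ℝ} (hp : 1 / 2 ≤ p) : fe F p = F (2 - 2 * p) := by
  rw [fe, (m_right hp).1, (m_right hp).2]; ring

lemma fo_deriv {F F' : ℝ → ℝ} (hF : ∀ q ∈ Icc (0:ℝ) 1, HasDerivWithinAt F (F' q) (Icc 0 1) q)
    {p : ℝ} (hp : p ∈ Icc (0:ℝ) 1) : HasDerivWithinAt (fo F) (2 * fe F' p) (Icc 0 1) p := by
  refine (fold_odd hF hp).congr_deriv ?_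
  rw [fe]; ring
lemma fe_deriv {F F' : ℝ → ℝ} (hF : ∀ q ∈ Icc (0:ℝ) 1, HasDerivWithinAt F (F' q) (Icc 0 1) q)
    (h1 : F' 1 = 0) {p : ℝ} (hp : p ∈ Icc (0:ℝ) 1) :
    HasDerivWithinAt (fe F) (2 * fo F' p) (Icc 0 1) p := by
  refine (fold_even hF h1 hp).congr_deriv ?_
  rw [fo]; ring

/-- values of foldings -/
lemma fold_ind {Q : ℝ → Prop} {p : ℝ} (h1 : p ≤ 1 / 2 → Q p) (h2 : 1 / 2 ≤ p → Q p) : Q p :=
  (le_total p (1 / 2)).elim h1 h2

/-- composition with the new parameter -/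
lemma comp_Pf {L0 L : ℝ} (h0 : 0 < L0) (h1 : 0 < 2 * L - L0) {F : ℝ → ℝ} {F' : ℝ → ℝ}
    (hF : ∀ q ∈ Icc (0:ℝ) 1, HasDerivWithinAt F (F' q) (Icc 0 1) q) {q : ℝ}
    (hq : q ∈ Icc (0:ℝ) 1) :
    HasDerivWithinAt (fun q => F (Pf L0 L q)) (F' (Pf L0 L q) * (L / Rf L0 L q)) (Icc 0 1) q :=
  HasDerivWithinAt.comp q (h₂ := F) (h := Pf L0 L) (hF _ (Pf_mem h0 h1 hq))
    (Pf_deriv h0 h1 hq).hasDerivWithinAt (fun _ hx => Pf_mem h0 h1 hx)

/-- space derivatives of the folded cap -/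
lemma cap_slice {L0 L : ℝ} (h0 : 0 < L0) (h1 : 0 < 2 * L - L0) {th kk X Y : ℝ → ℝ}
    (ht : ∀ q ∈ Icc (0:ℝ) 1, HasDerivWithinAt th ((L0 + 2 * q * (L - L0)) * kk q) (Icc 0 1) q)
    (hX : ∀ q ∈ Icc (0:ℝ) 1, HasDerivWithinAt X ((L0 + 2 * q * (L - L0)) *
      Real.cos (2 * π / 3 + th q)) (Icc 0 1) q)
    (hY : ∀ q ∈ Icc (0:ℝ) 1, HasDerivWithinAt Y ((L0 + 2 * q * (L - L0)) *
      Real.sin (2 * π / 3 + th q)) (Icc 0 1) q)
    (hth1 : th 1 = π / 3) {p : ℝ} (hp : p ∈ Icc (0:ℝ) 1) :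
    HasDerivWithinAt (fun p => π + fo (fun q => th (Pf L0 L q)) p)
      (2 * L * fe (fun q => kk (Pf L0 L q)) p) (Icc 0 1) p ∧
    HasDerivWithinAt (fo (fun q => X (Pf L0 L q)))
      (2 * L * Real.cos (π + fo (fun q => th (Pf L0 L q)) p)) (Icc 0 1) p ∧
    HasDerivWithinAt (fe (fun q => Y (Pf L0 L q)))
      (2 * L * Real.sin (π + fo (fun q => th (Pf L0 L q)) p)) (Icc 0 1) p := by
  have e : ∀ q ∈ Icc (0:ℝ) 1, ∀ c : ℝ,
      (L0 + 2 * Pf L0 L q * (L - L0)) * c * (L / Rf L0 L q) = L * c := by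
    intro q hq c
    have := (Rf_pos h0 h1 hq).ne'
    rw [Pf_speed h0 h1 hq]; field_simp
  have hP1 := Pf_one h0 h1
  refine ⟨?_, ?_, ?_⟩
  · have d := fun q (hq : q ∈ Icc (0:ℝ) 1) => (comp_Pf h0 h1 ht hq).congr_deriv (e q hq _)
    refine ((fo_deriv (F' := fun q => L * kk (Pf L0 L q)) d hp).const_add π).congr_deriv ?_
    rw [fe, fe]; ring
  · have d := fun q (hq : q ∈ Icc (0:ℝ) 1) => (comp_Pf h0 h1 hX hq).congr_deriv (e q hq _)
    refine (fo_deriv (F' := fun q => L * Real.cos (2 * π / 3 + th (Pf L0 L q))) d hp).congr_deriv ?_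
    rcases le_total p (1 / 2) with h | h
    · rw [fe_left _ h, fo_left _ h, hP1, hth1, ← mul_assoc]
      congr 2; ring
    · rw [fe_right _ h, fo_right _ h, hP1, hth1, ← mul_assoc]
      congr 1
      rw [← Real.cos_two_pi_sub]
      congr 1; ring
  · have d := fun q (hq : q ∈ Icc (0:ℝ) 1) => (comp_Pf h0 h1 hY hq).congr_deriv (e q hq _)
    refine (fe_deriv (F' := fun q => L * Real.sin (2 * π / 3 + th (Pf L0 L q))) d ?_ hp).congr_deriv
      ?_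
    · have e1 : 2 * π / 3 + π / 3 = π := by ring
      simp only [hP1, hth1, e1, Real.sin_pi, mul_zero]
    · have e1 : 2 * π / 3 + π / 3 = π := by ring
      rcases le_total p (1 / 2) with h | h
      · rw [fo_left _ h, fo_left _ h, hP1, hth1, e1, Real.sin_pi, mul_zero, sub_zero, ← mul_assoc]
        congr 2; ring
      · rw [fo_right _ h, fo_right _ h, hP1, hth1, e1, Real.sin_pi, mul_zero, zero_sub]
        have e2 : π + (π / 3 - th (Pf L0 L (2 - 2 * p))) =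
            2 * π - (2 * π / 3 + th (Pf L0 L (2 - 2 * p))) := by ring
        rw [e2, Real.sin_two_pi_sub]
        ring

end Run7.h661x
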