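import Pool.Agent.Run7.h661.X.Holo

/-!
# Reality of the semi-discrete solutions
-/

open Set Filter Topology Finset

namespace Run7.h661x

/-- complex conjugate state -/
noncomputable def DS.cj (s : DS ℂ) : DS ℂ :=
  ⟨fun i j => starRingEnd ℂ (s.U i j), fun i => starRingEnd ℂ (s.L i), fun i j => starRingEnd ℂ (s.R i j)⟩

section
variable (N : ℕ) (s : DS ℂ)

lemma xn_cj (j : ℕ) : starRingEnd ℂ (xn N j) = xn N j := by simp [xn]
lemma dD_cj (i : Fin 3) (j : ℕ) : dD N s.cj i j = starRingEnd ℂ (dD N s i j) := by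
  simp [dD, DS.cj]
lemma dE_cj (i : Fin 3) (j : ℕ) : dE N s.cj i j = starRingEnd ℂ (dE N s i j) := by
  simp [dE, dD_cj]
lemma lam0_cj (i : Fin 3) : lam0 N s.cj i = starRingEnd ℂ (lam0 N s i) := by
  simp only [lam0, dD_cj, smul_eq_mul, map_mul, map_sub, Complex.conj_ofReal]; rfl
lemma lamE_cj (i : Fin 3) : lamE N s.cj i = starRingEnd ℂ (lamE N s i) := by
  simp only [lamE]
  split_ifs
  · simp only [dD_cj, smul_eq_mul, map_mul, Complex.conj_ofReal]; rfl
  · simp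
lemma SS_cj (i : Fin 3) (j : ℕ) : SS N s.cj i j = starRingEnd ℂ (SS N s i j) := by
  simp only [SS, map_sum, dD_cj, smul_eq_mul, map_mul, map_div₀, map_one, map_natCast]; rfl
lemma Ld_cj (i : Fin 3) : Ld N s.cj i = starRingEnd ℂ (Ld N s i) := by
  simp only [Ld, lamE_cj, lam0_cj, SS_cj, map_sub]
lemma lam_cj (i : Fin 3) (j : ℕ) : lam N s.cj i j = starRingEnd ℂ (lam N s i j) := by
  simp only [lam, lam0_cj, SS_cj, Ld_cj, map_add, smul_eq_mul, map_mul, map_sub, map_pow, xn_cj]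
lemma rhod_cj (i : Fin 3) (j : ℕ) : rhod N s.cj i j = starRingEnd ℂ (rhod N s i j) := by
  simp only [rhod, Ld_cj, map_add, map_sub, smul_eq_mul, map_mul, map_ofNat, xn_cj]
lemma bb_cj (i : Fin 3) (j : ℕ) : bb N s.cj i j = starRingEnd ℂ (bb N s i j) := by
  simp only [bb, lam_cj, map_sub, smul_eq_mul, map_mul, map_ofNat]; rfl
lemma VV_cj (i : Fin 3) (j : ℕ) : VV N s.cj i j = starRingEnd ℂ (VV N s i j) := by
  simp only [VV, bb_cj, dE_cj, dD_cj, map_add, map_mul]; rfl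
lemma fU_cj (i : Fin 3) (j : ℕ) : fU N s.cj i j = starRingEnd ℂ (fU N s i j) := by
  simp only [fU, VV_cj]
  split_ifs
  · simp only [smul_eq_mul, map_mul, map_sum, map_div₀, map_one, map_ofNat]
  · rfl
  · simp
  · rfl
lemma fR_cj (i : Fin 3) (j : ℕ) : fR N s.cj i j = starRingEnd ℂ (fR N s i j) := by
  simp only [fR, rhod_cj, map_neg, map_mul]; rfl

end

/-- complex conjugation on the state space -/
noncomputable def ecj {N : ℕ} (y : EE N ℂ) : EE N ℂ :=
  (fun i j => starRingEnd ℂ (y.1 i j), fun i => starRingEnd ℂ (y.2.1 i), fun i j => starRingEnd ℂ (y.2.2 i j))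

lemma toDS_ecj {N : ℕ} (y : EE N ℂ) : toDS (ecj y) = (toDS y).cj := by
  simp only [toDS, ecj, DS.cj, DS.mk.injEq]
  refine ⟨?_, trivial, ?_⟩
  · funext i j
    split_ifs <;> simp
  · funext i j
    split_ifs <;> simp

lemma vf_ecj {N : ℕ} (y : EE N ℂ) : vf N 1 (ecj y) = ecj (vf N 1 y) := by
  simp only [vf, one_mul, toDS_ecj, fU_cj, Ld_cj, fR_cj]
  rfl

lemma conj_deriv {f : ℝ → ℂ} {f' : ℂ} {S : Set ℝ} {t : ℝ} (h : HasDerivWithinAt f f' S t) :
    HasDerivWithinAt (fun t => starRingEnd ℂ (f t)) (starRingEnd ℂ f') S t :=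
  Complex.conjCLE.toContinuousLinearMap.hasFDerivAt.comp_hasDerivWithinAt t h

lemma solOn_ecj {N : ℕ} {y : ℝ → EE N ℂ} {a b : ℝ} (h : SolOn (vf N 1) y a b) :
    SolOn (vf N 1) (fun t => ecj (y t)) a b := by
  intro t ht
  rw [vf_ecj]
  have h0 := h t ht
  refine HasDerivWithinAt.prodMk ?_ (HasDerivWithinAt.prodMk ?_ ?_)
  · rw [hasDerivWithinAt_pi]
    intro i
    rw [hasDerivWithinAt_pi]
    intro j
    exact conj_deriv ((hasDerivWithinAt_pi.1 ((hasDerivWithinAt_pi.1 h0.fst) i)) j)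
  · rw [hasDerivWithinAt_pi]
    intro i
    exact conj_deriv ((hasDerivWithinAt_pi.1 h0.snd.fst) i)
  · rw [hasDerivWithinAt_pi]
    intro i
    rw [hasDerivWithinAt_pi]
    intro j
    exact conj_deriv ((hasDerivWithinAt_pi.1 ((hasDerivWithinAt_pi.1 h0.snd.snd) i)) j)

/-- solutions with real initial values are real -/
theorem real_of_real {N : ℕ} {y : ℝ → EE N ℂ} {a b : ℝ} (h : SolOn (vf N 1) y a b)
    (h0 : ecj (y a) = y a) : ∀ t ∈ Icc a b, (toDS (y t)).cj = toDS (y t) := by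
  intro t ht
  have := SolOn.unique (LB_vf (1:ℂ)) (solOn_ecj h) h h0 ht
  simp only at this
  rw [← toDS_ecj, this]

end Run7.h661x
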