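import Pool.Agent.Run7.h661.X.Lim

/-!
# Continuation of the family of discrete solutions
-/

open Set Filter Topology
open scoped Real

namespace Run7.h661x

/-- there is a discrete solution on `[0,t]` -/
def Ex (Z0 : ∀ N, EE N ℂ) (N : ℕ) (t : ℝ) : Prop := ∃ y, SolOn (vf N 1) y 0 t ∧ y 0 = Z0 N

open Classical in
/-- the discrete solution -/
noncomputable def Zc (Z0 : ∀ N, EE N ℂ) (N : ℕ) (t : ℝ) : EE N ℂ :=
  if h : Ex Z0 N t then Classical.choose h t else Z0 N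

section
variable {Z0 : ∀ N, EE N ℂ} {N : ℕ}

lemma Zc_eq {y : ℝ → EE N ℂ} {s : ℝ} (hy : SolOn (vf N 1) y 0 s) (h0 : y 0 = Z0 N) :
    ∀ t ∈ Icc 0 s, Zc Z0 N t = y t := by
  intro t ht
  have hE : Ex Z0 N t := ⟨y, hy.mono (le_refl _) ht.2, h0⟩
  rw [Zc, dif_pos hE]
  obtain ⟨h1, h2⟩ := Classical.choose_spec hE
  exact SolOn.unique (LB_vf (1:ℂ)) h1 (hy.mono (le_refl _) ht.2) (h2.trans h0.symm)
    ⟨ht.1, le_refl _⟩

lemma Zc_zero : Zc Z0 N 0 = Z0 N := by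
  by_cases hE : Ex Z0 N 0
  · rw [Zc, dif_pos hE]; exact (Classical.choose_spec hE).2
  · rw [Zc, dif_neg hE]

lemma Zc_sol {y : ℝ → EE N ℂ} {s : ℝ} (hy : SolOn (vf N 1) y 0 s) (h0 : y 0 = Z0 N) :
    SolOn (vf N 1) (Zc Z0 N) 0 s := by
  intro t ht
  have h1 := hy t ht
  rw [Zc_eq hy h0 t ht]
  exact h1.congr (fun x hx => Zc_eq hy h0 x hx) (Zc_eq hy h0 t ht)

lemma SolOn.zero (f : EE N ℂ → EE N ℂ) (y : ℝ → EE N ℂ) : SolOn f y 0 0 := by
  intro t ht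
  rw [Icc_self] at ht ⊢
  rw [mem_singleton_iff.1 ht]
  exact HasFDerivWithinAt.singleton

end

lemma Init.mono {N : ℕ} {ℓ Λ p ℓ' Λ' p' : ℝ} {s : DS ℂ} (h : Init N ℓ Λ p s) (hℓ : ℓ' ≤ ℓ)
    (hΛ : Λ ≤ Λ') (hp : p ^ 2 ≤ p' ^ 2) : Init N ℓ' Λ' p' s := by
  obtain ⟨l, hl, l0, l1, l2⟩ := h.L
  exact ⟨h.con, ⟨l, hl, hℓ.trans l0, l1.trans hΛ, fun i => ⟨hℓ.trans (l2 i).1,
    (l2 i).2.trans hΛ⟩⟩, h.R, h.P.trans hp⟩

lemma Ok.mono {Z : ∀ N, ℝ → EE N ℂ} {s s' : ℝ} (h : Ok Z s) (h0 : 0 ≤ s') (hs : s' ≤ s) :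
    Ok Z s' := by
  obtain ⟨ℓ, Λ, p0, hℓ, hΛ, hN⟩ := h
  refine ⟨ℓ, Λ, p0, hℓ, hΛ, ?_⟩
  filter_upwards [hN] with N hN
  exact ⟨hN.N2, hN.sol.mono (le_refl _) hs, fun t ht => hN.init t ⟨ht.1, ht.2.trans hs⟩,
    fun t ht => hN.rl t ⟨ht.1, ht.2.trans hs⟩, hN.f0, hN.f1⟩

/-- initial states -/
structure IS (Z0 : ∀ N, EE N ℂ) (ℓ0 Λ0 p00 : ℝ) : Prop where
  hℓ : 0 < ℓ0
  hΛ : 0 < Λ0
  init : ∀ᶠ N in atTop, Init N ℓ0 Λ0 p00 (toDS (Z0 N))
  rl : ∀ N, ecj (Z0 N) = Z0 N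
  f0 : ∀ᶠ N in atTop, (toDS (Z0 N)).U 0 N = 0
  f1 : ∀ᶠ N in atTop, (toDS (Z0 N)).U 1 N = ((π / 3 : ℝ) : ℂ)

section
variable {Z0 : ∀ N, EE N ℂ} {ℓ0 Λ0 p00 : ℝ} (I : IS Z0 ℓ0 Λ0 p00)
include I

/-- continuation by a uniform amount of time -/
theorem step {s : ℝ} (hs : 0 ≤ s) {ℓ Λ p0 : ℝ} (hℓ : 0 < ℓ) (hΛ : 0 < Λ)
    (h1 : ∃ ℓ1 Λ1 p1, 0 < ℓ1 ∧ 0 < Λ1 ∧ ∀ᶠ N in atTop, SolOn (vf N 1) (Zc Z0 N) 0 s ∧
      ∀ t ∈ Icc 0 s, Init N ℓ1 Λ1 p1 (toDS (Zc Z0 N t)))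
    (h2 : ∀ᶠ N in atTop, Init N ℓ Λ p0 (toDS (Zc Z0 N s))) :
    Ok (Zc Z0) (s + tau ℓ Λ p0) := by
  obtain ⟨ℓ1, Λ1, p1, hℓ1, hΛ1, hN⟩ := h1
  have hτ := tau_pos (p0 := p0) hℓ hΛ
  have hpb := pb_nonneg p0
  refine ⟨min ℓ1 (ℓ / 2), max Λ1 (Λ + ℓ), √(p1 ^ 2 + pb p0 ^ 2), lt_min hℓ1 (by positivity),
    lt_max_of_lt_left hΛ1, ?_⟩
  have hp2 : √(p1 ^ 2 + pb p0 ^ 2) ^ 2 = p1 ^ 2 + pb p0 ^ 2 := Real.sq_sqrt (by positivity)
  filter_upwards [hN, h2, eventually_ge_atTop 2, I.f0, I.f1] with N hN h2 hN2 hf0 hf1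
  obtain ⟨hsol, hinit⟩ := hN
  obtain ⟨y, hy0, hy⟩ := local_exists hN2 hℓ hΛ h2 s
  -- the real solution
  let one : KK := ⟨1, Metric.mem_closedBall_self (by norm_num)⟩
  set z : ℝ → EE N ℂ := fun t => mapE (ev one) (y t) with hz
  have hzsol : SolOn (vf N 1) z s (s + tau ℓ Λ p0) := by
    have := hy.mapE one
    rwa [ev_XX] at this
  have hz0 : z s = Zc Z0 N s := by
    simp only [hz, hy0]; exact mapE_emb _ _
  have hglue := SolOn.glue hs (by linarith) hsol hzsol hz0.symm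
  have hg0 : (fun t => if t ≤ s then Zc Z0 N t else z t) 0 = Z0 N := by
    simp only [if_pos hs]; exact Zc_zero
  have hZ := Zc_sol hglue hg0
  have hreal := real_of_real hZ (by rw [Zc_zero]; exact I.rl N)
  refine ⟨hN2, hZ, fun t ht => ?_, hreal, by rw [Zc_zero]; exact hf0, by rw [Zc_zero]; exact hf1⟩
  rcases le_or_gt t s with hts | hts
  · exact (hinit t ⟨ht.1, hts⟩).mono (min_le_left _ _) (le_max_left _ _)
      (by rw [hp2]; nlinarith [sq_nonneg (pb p0)])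
  · -- after the time `s`
    have hZs : SolOn (vf N 1) (Zc Z0 N) s (s + tau ℓ Λ p0) := hZ.mono hs (le_refl _)
    have hS := sol_of_solOn' hZs
    have htI : t ∈ Icc s (s + tau ℓ Λ p0) := ⟨hts.le, ht.2⟩
    have hap := hS.apriori hN2 hℓ hΛ h2 (e := 1) (by simp) (le_refl _) t htI
    have hcon := hS.con hN2 h2.con t htI
    have hinv := hS.inv hN2 h2.R t htI
    obtain ⟨l, hl, l0, l1, l2⟩ := h2.L
    have hcj := hreal t ht
    have hLr : ∀ i, (toDS (Zc Z0 N t)).L i = (((toDS (Zc Z0 N t)).L i).re : ℂ) := by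
      intro i
      have h3 : starRingEnd ℂ ((toDS (Zc Z0 N t)).L i) = (toDS (Zc Z0 N t)).L i := by
        have := congrArg (fun s : DS ℂ => s.L i) hcj
        exact this
      exact (Complex.conj_eq_iff_re.1 h3).symm
    have hd : ∀ i, |((toDS (Zc Z0 N t)).L i).re - l i| ≤ ℓ / 1000 := by
      intro i
      have h3 := hap.2.2.1 i
      rw [hl i, hLr i, ← Complex.ofReal_sub, Complex.norm_real] at h3
      exact h3
    have d0 := abs_le.1 (hd 0)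
    refine ⟨hcon, ⟨fun i => ((toDS (Zc Z0 N t)).L i).re, hLr, ?_, ?_, fun i => ⟨?_, ?_⟩⟩, hinv, ?_⟩
    · refine (min_le_right _ _).trans ?_
      linarith [d0.1]
    · refine le_trans ?_ (le_max_right _ _)
      linarith [d0.2]
    · refine (min_le_right _ _).trans ?_
      have d1 := abs_le.1 (hd i)
      linarith [d0.2, d1.1, (l2 i).1]
    · refine le_trans ?_ (le_max_right _ _)
      have d1 := abs_le.1 (hd i)
      linarith [d0.1, d1.2, (l2 i).2]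
    · rw [hp2]
      have := hap.2.2.2.1.P
      nlinarith [sq_nonneg p1]

lemma ok_start : Ok (Zc Z0) (tau ℓ0 Λ0 p00) := by
  have h : ∀ᶠ N in atTop, Init N ℓ0 Λ0 p00 (toDS (Zc Z0 N 0)) := by
    filter_upwards [I.init] with N hN
    rw [Zc_zero]; exact hN
  have := step I (s := 0) (le_refl _) I.hℓ I.hΛ ⟨ℓ0, Λ0, p00, I.hℓ, I.hΛ, by
    filter_upwards [h] with N hN
    refine ⟨SolOn.zero _ _, fun t ht => ?_⟩
    have : t = 0 := le_antisymm ht.2 ht.1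
    rw [this]; exact hN⟩ h
  rwa [zero_add] at this

/-- A uniform bound on the solutions implies existence. -/
theorem ok_all {T' : ℝ} (hT' : 0 < T') {ℓ Λ p0 : ℝ} (hℓ : 0 < ℓ) (hΛ : 0 < Λ)
    (hU : ∀ s, 0 < s → s ≤ T' → Ok (Zc Z0) s → ∀ t ∈ Ioo 0 s,
      ∀ᶠ N in atTop, Init N ℓ Λ p0 (toDS (Zc Z0 N t))) : Ok (Zc Z0) T' := by
  have hτ := tau_pos (p0 := p0) hℓ hΛ
  set τ := tau ℓ Λ p0 with hτd
  have hτ0 := tau_pos (p0 := p00) I.hℓ I.hΛ
  have hstep : ∀ s, 0 < s → s ≤ T' → Ok (Zc Z0) s → Ok (Zc Z0) (min (s + τ / 2) T') := by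
    intro s hs hsT hO
    set t0 := max (s - τ / 2) (s / 2) with ht0
    have h1 : t0 ∈ Ioo 0 s := ⟨lt_max_of_lt_right (by positivity),
      max_lt (by linarith) (by linarith)⟩
    have h2 := hU s hs hsT hO t0 h1
    obtain ⟨ℓ1, Λ1, p1, hℓ1, hΛ1, hN⟩ := hO
    have h3 := step I h1.1.le hℓ hΛ ⟨ℓ1, Λ1, p1, hℓ1, hΛ1, by
      filter_upwards [hN] with N hN
      exact ⟨hN.sol.mono (le_refl _) h1.2.le, fun t ht => hN.init t ⟨ht.1, ht.2.trans h1.2.le⟩⟩⟩ h2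
    refine h3.mono (le_min (by positivity) hT'.le) ?_
    refine (min_le_left _ _).trans ?_
    have := le_max_left (s - τ / 2) (s / 2)
    rw [← hτd]
    linarith
  have hind : ∀ n : ℕ, Ok (Zc Z0) (min (min (tau ℓ0 Λ0 p00) T' + n * (τ / 2)) T') := by
    intro n
    induction n with
    | zero =>
      refine (ok_start I).mono ?_ ?_
      · have := lt_min hτ0 hT'
        simp only [Nat.cast_zero, zero_mul, add_zero]
        exact le_min this.le hT'.le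
      · simp only [Nat.cast_zero, zero_mul, add_zero]
        exact (min_le_left _ _).trans (min_le_left _ _)
    | succ n ih =>
      have hpos : 0 < min (min (tau ℓ0 Λ0 p00) T' + n * (τ / 2)) T' := by
        have := lt_min hτ0 hT'
        exact lt_min (by positivity) hT'
      have h4 := hstep _ hpos (min_le_right _ _) ih
      refine h4.mono ?_ ?_
      · have := lt_min hτ0 hT'
        exact le_min (by positivity) hT'.le
      · push_cast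
        apply le_min _ (min_le_right _ _)
        rcases le_total (min (tau ℓ0 Λ0 p00) T' + n * (τ / 2)) T' with h | h
        · rw [min_eq_left h]
          refine (min_le_left _ _).trans ?_
          linarith
        · rw [min_eq_right h]
          refine (min_le_right _ _).trans ?_
          linarith
  obtain ⟨n, hn⟩ := exists_nat_gt (T' / (τ / 2))
  have h5 := hind n
  have h6 : T' ≤ min (tau ℓ0 Λ0 p00) T' + n * (τ / 2) := by
    rw [div_lt_iff₀ (by positivity)] at hn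
    have := (lt_min hτ0 hT').le
    linarith
  rwa [min_eq_right h6] at h5

end

end Run7.h661x
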