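import Pool.Agent.Run7.h661.X.Curve

/-!
# The curves of a flow of angles form a quarter of a network flow
-/

open Set Filter Topology
open scoped Real ContDiff

namespace Run7.h661x

open Run7.h661y (cang cang0 cang1 cang2 QF Sm SecAt EdgeFlow trig23 trigm23)

variable {T : ℝ} {a : AFd} {g : Fin 3 → ℝ → ℝ → ℂ}

/-- the curves, extended to the whole line -/
structure Crv (T : ℝ) (a : AFd) (g : Fin 3 → ℝ → ℝ → ℂ) : Prop where
  sm : ∀ i, Sm 4 T (g i)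
  eq : ∀ i, ∀ t ∈ Ioo 0 T, ∀ p ∈ Icc (0:ℝ) 1, g i t p = (a.X i t p : ℂ) + a.Y i t p * Complex.I

theorem AF.exists_crv (A : AF T a) : ∃ g, Crv T a g := by
  have h : ∀ i, ∃ E E' : ℝ → ℝ → ℝ, RGA T univ 5 E ∧ RGA T univ 5 E' ∧
      (∀ t, ∀ p ∈ Icc (0:ℝ) 1, t ∈ Ioo 0 T → E t p = a.X i t p) ∧
      (∀ t, ∀ p ∈ Icc (0:ℝ) 1, t ∈ Ioo 0 T → E' t p = a.Y i t p) := by
    intro i
    have hx : RGA T (Icc 0 1) 5 (a.X i) := fun m => (A.rX i m 5).1
    have hy : RGA T (Icc 0 1) 5 (a.Y i) := fun m => (A.rX i m 5).2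
    obtain ⟨E, h1, h2⟩ := hx.extend
    obtain ⟨E', h3, h4⟩ := hy.extend
    exact ⟨E, E', h1, h3, h2, h4⟩
  choose E E' h1 h2 h3 h4 using h
  refine ⟨fun i t p => (E i t p : ℂ) + E' i t p * Complex.I, fun i => ?_, fun i t ht p hp => ?_⟩
  · have c1 := (h1 i).contDiffOn dom_univ
    have c2 := (h2 i).contDiffOn dom_univ
    have d1 : ContDiffOn ℝ (5:ℕ) (fun q : ℝ × ℝ => (E i q.1 q.2 : ℂ)) (Ioo 0 T ×ˢ univ) :=
      Complex.ofRealCLM.contDiff.comp_contDiffOn c1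
    have d2 : ContDiffOn ℝ (5:ℕ) (fun q : ℝ × ℝ => (E' i q.1 q.2 : ℂ)) (Ioo 0 T ×ˢ univ) :=
      Complex.ofRealCLM.contDiff.comp_contDiffOn c2
    exact d1.add (d2.mul contDiffOn_const)
  · simp only [h3 i t p hp ht, h4 i t p hp ht]

/-- the direction as a complex number -/
noncomputable def AFd.W (a : AFd) (i : Fin 3) (t p : ℝ) : ℂ :=
  (Real.cos (a.al i t p) : ℂ) + Real.sin (a.al i t p) * Complex.I

lemma W_ne (i : Fin 3) (t p : ℝ) : a.W i t p ≠ 0 := by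
  intro h
  have h1 := congrArg Complex.normSq h
  rw [AFd.W, Complex.normSq_add_mul_I, map_zero] at h1
  have := Real.sin_sq_add_cos_sq (a.al i t p)
  linarith

lemma W_norm (i : Fin 3) (t p : ℝ) : ‖a.W i t p‖ = 1 := by
  have : a.W i t p = Complex.exp ((a.al i t p : ℝ) * Complex.I) := by
    rw [AFd.W, Complex.exp_mul_I, Complex.ofReal_cos, Complex.ofReal_sin]
  rw [this]
  exact Complex.norm_exp_ofReal_mul_I _

section
variable (A : AF T a) (C : Crv T a g)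
include A C

lemma Crv.pW (i : Fin 3) {t : ℝ} (ht : t ∈ Ioo 0 T) {p : ℝ} (hp : p ∈ Icc (0:ℝ) 1) :
    Run7.h661y.dp (g i) t p = (a.ro i t p : ℂ) * a.W i t p := by
  have h1 := ((C.sm i).hasDerivAt_p ht p).hasDerivWithinAt (s := Icc 0 1)
  have d1 : HasDerivWithinAt (fun p => (a.X i t p : ℂ)) (a.tx i t p : ℂ) (Icc 0 1) p :=
    Complex.ofRealCLM.hasFDerivAt.comp_hasDerivWithinAt p (A.pX i ht hp)
  have d2 : HasDerivWithinAt (fun p => (a.Y i t p : ℂ)) (a.ty i t p : ℂ) (Icc 0 1) p :=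
    Complex.ofRealCLM.hasFDerivAt.comp_hasDerivWithinAt p (A.pY i ht hp)
  have h2 := (d1.add (d2.mul_const Complex.I)).congr (fun q hq => C.eq i t ht q hq) (C.eq i t ht p hp)
  have h3 := (uniqueDiffOn_Icc zero_lt_one p hp).eq_deriv _ h1 h2
  rw [h3, AFd.tx, AFd.ty, AFd.W]
  push_cast; ring

lemma Crv.tW (i : Fin 3) {t : ℝ} (ht : t ∈ Ioo 0 T) {p : ℝ} (hp : p ∈ Icc (0:ℝ) 1) :
    Run7.h661y.dt (g i) t p = ((a.lm i t p : ℂ) + a.k i t p * Complex.I) * a.W i t p := by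
  have h1 := (C.sm i).hasDerivAt_t ht p
  have d1 : HasDerivAt (fun t => (a.X i t p : ℂ)) (a.ux i t p : ℂ) t :=
    Complex.ofRealCLM.hasFDerivAt.comp_hasDerivAt t (A.tX i ht hp)
  have d2 : HasDerivAt (fun t => (a.Y i t p : ℂ)) (a.uy i t p : ℂ) t :=
    Complex.ofRealCLM.hasFDerivAt.comp_hasDerivAt t (A.tY i ht hp)
  have h2 : HasDerivAt (fun t => g i t p) ((a.ux i t p : ℂ) + a.uy i t p * Complex.I) t := by
    refine (d1.add (d2.mul_const Complex.I)).congr_of_eventuallyEq ?_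
    filter_upwards [Ioo_mem_nhds ht.1 ht.2] with s hs
    exact C.eq i s hs p hp
  rw [h1.unique h2, AFd.ux, AFd.uy, AFd.W]
  push_cast
  linear_combination (-(a.k i t p : ℂ) * (Complex.sin (a.al i t p) : ℂ)) * Complex.I_sq

lemma Crv.ppW (i : Fin 3) {t : ℝ} (ht : t ∈ Ioo 0 T) {p : ℝ} (hp : p ∈ Icc (0:ℝ) 1) :
    Run7.h661y.dp (Run7.h661y.dp (g i)) t p = ((2 * (a.L i t - a.L 0 t) : ℝ) +
      (a.ro i t p * a.D i t p : ℝ) * Complex.I) * a.W i t p := by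
  have h1 := ((C.sm i).dp.hasDerivAt_p ht p).hasDerivWithinAt (s := Icc 0 1)
  have dc := (A.pal i ht hp).cos.ofReal_comp
  have ds := (A.pal i ht hp).sin.ofReal_comp
  have dW : HasDerivWithinAt (a.W i t) _ (Icc 0 1) p := dc.add (ds.mul_const Complex.I)
  have dr := ((A.pro i t p).hasDerivWithinAt (s := Icc 0 1)).ofReal_comp
  have h2 := (dr.mul dW).congr (fun q hq => C.pW A i ht hq) (C.pW A i ht hp)
  have h3 := (uniqueDiffOn_Icc zero_lt_one p hp).eq_deriv _ h1 h2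
  rw [h3, AFd.W]
  push_cast
  linear_combination (-(a.ro i t p : ℂ) * (a.D i t p : ℂ) * (Complex.sin (a.al i t p) : ℂ)) *
    Complex.I_sq

lemma Crv.norm (i : Fin 3) {t : ℝ} (ht : t ∈ Ioo 0 T) {p : ℝ} (hp : p ∈ Icc (0:ℝ) 1) :
    ‖Run7.h661y.dp (g i) t p‖ = a.ro i t p := by
  rw [C.pW A i ht hp, norm_mul, W_norm, mul_one, Complex.norm_real,
    Real.norm_of_nonneg (A.pos i t ht p hp).le]

lemma Crv.edge (i : Fin 3) : EdgeFlow T (g i) := by
  refine ⟨C.sm i, fun t ht p hp => ?_, fun t ht p hp => ?_⟩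
  · rw [← norm_pos_iff, C.norm A i ht hp]; exact A.pos i t ht p hp
  · have hr := A.pos i t ht p hp
    have hrc : (a.ro i t p : ℂ) ≠ 0 := by exact_mod_cast hr.ne'
    have hW := W_ne (a := a) i t p
    have e1 : Run7.h661y.dt (g i) t p / Run7.h661y.dp (g i) t p =
        (((a.lm i t p / a.ro i t p : ℝ) : ℂ)) + ((a.k i t p / a.ro i t p : ℝ) : ℂ) * Complex.I := by
      rw [C.tW A i ht hp, C.pW A i ht hp]
      push_cast
      field_simp
    have e2 : Run7.h661y.dp (Run7.h661y.dp (g i)) t p / Run7.h661y.dp (g i) t p =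
        (((2 * (a.L i t - a.L 0 t) / a.ro i t p : ℝ) : ℂ)) + ((a.D i t p : ℝ) : ℂ) * Complex.I := by
      rw [C.ppW A i ht hp, C.pW A i ht hp]
      push_cast
      field_simp
    have im : ∀ x y : ℝ, ((x : ℂ) + (y : ℂ) * Complex.I).im = y := fun x y => by simp
    rw [e1, e2, Complex.normSq_eq_norm_sq, C.norm A i ht hp, im, im, AFd.k]
    field_simp

end

end Run7.h661x
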