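import Pool.Agent.Run7.h661.X.UC
import Pool.Agent.Run7.h661.X.Curve

/-!
# The explicit initial data
-/

open Set Filter Topology
open scoped Real

namespace Run7.h661x

open Run7.h661y (cang cang0 cang1 cang2 trig23 trigm23 sqrt3_bounds pi_bounds)

/-- height of the end-points -/
noncomputable def hh : ℝ := 1 / 10000

lemma exists_rc : ∃ r ∈ Icc (1.30:ℝ) 1.31, r ^ 2 * (π / 6 - √3 / 8) + r * (√3 / 2) * hh -
    hh * (2 * hh / √3) / 4 = π / 6 := by
  have s1 := sqrt3_bounds.1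
  have s2 := sqrt3_bounds.2
  have p1 := pi_bounds.1
  have p2 := pi_bounds.2
  have hc : ContinuousOn (fun r : ℝ => r ^ 2 * (π / 6 - √3 / 8) + r * (√3 / 2) * hh -
    hh * (2 * hh / √3) / 4) (Icc 1.30 1.31) := by fun_prop
  have h3 : 0 ≤ 1 / √3 ∧ 1 / √3 ≤ 1 := by
    constructor
    · positivity
    · rw [div_le_one (by positivity)]; linarith
  have e : hh * (2 * hh / √3) / 4 = hh ^ 2 / 2 * (1 / √3) := by
    field_simp; ring
  obtain ⟨r, hr, hr2⟩ := intermediate_value_Icc (by norm_num : (1.30:ℝ) ≤ 1.31) hc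
    (show π / 6 ∈ Icc _ _ by
      rw [e, hh]
      constructor <;> nlinarith)
  exact ⟨r, hr, hr2⟩

/-- radius of the initial cap -/
noncomputable def rc : ℝ := Classical.choose exists_rc

lemma rc_mem : 1.30 ≤ rc ∧ rc ≤ 1.31 := (Classical.choose_spec exists_rc).1
lemma rc_area : rc ^ 2 * (π / 6 - √3 / 8) + rc * (√3 / 2) * hh -
    hh * (2 * hh / √3) / 4 = π / 6 := (Classical.choose_spec exists_rc).2

lemma rc_pos : 0 < rc := by have := rc_mem.1; linarith

noncomputable def x0 : ℝ := rc * (√3 / 2)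
noncomputable def RR : ℝ := 1001
noncomputable def ll : Fin 3 → ℝ := ![2 * hh / √3, rc * (π / 3), RR - x0]
/-- arclength along the cap -/
noncomputable def sl (p : ℝ) : ℝ := ll 0 * p + (ll 1 - ll 0) * p ^ 2
noncomputable def tt : Fin 3 → ℝ → ℝ := ![fun _ => 0, fun p => sl p / rc, fun _ => 0]

lemma ll0 : ll 0 = 2 * hh / √3 := rfl
lemma ll1 : ll 1 = rc * (π / 3) := rfl
lemma ll2 : ll 2 = RR - x0 := rfl
lemma tt0 (p : ℝ) : tt 0 p = 0 := rfl
lemma tt1 (p : ℝ) : tt 1 p = sl p / rc := rfl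
lemma tt2 (p : ℝ) : tt 2 p = 0 := rfl

lemma x0_bounds : 1.12 ≤ x0 ∧ x0 ≤ 1.14 := by
  have s1 := sqrt3_bounds.1
  have s2 := sqrt3_bounds.2
  obtain ⟨r1, r2⟩ := rc_mem
  rw [x0]
  constructor <;> nlinarith

lemma ll0_pos : 0 < ll 0 := by rw [ll0, hh]; positivity
lemma ll0_small : ll 0 ≤ 2 * hh := by
  rw [ll0, div_le_iff₀ (by positivity)]
  have s1 := sqrt3_bounds.1
  have : 0 < hh := by rw [hh]; norm_num
  nlinarith

lemma ll1_bounds : 1.36 ≤ ll 1 ∧ ll 1 ≤ 1.38 := by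
  have p1 := pi_bounds.1
  have p2 := pi_bounds.2
  obtain ⟨r1, r2⟩ := rc_mem
  rw [ll1]
  constructor <;> nlinarith

lemma ll2_bounds : 999 ≤ ll 2 ∧ ll 2 ≤ 1001 := by
  obtain ⟨a, b⟩ := x0_bounds
  rw [ll2, RR]; constructor <;> linarith

lemma sl_one : sl 1 = ll 1 := by rw [sl]; ring
lemma sl_zero : sl 0 = 0 := by rw [sl]; ring

lemma sl_mem {p : ℝ} (hp : p ∈ Icc (0:ℝ) 1) : 0 ≤ sl p ∧ sl p ≤ ll 1 := by
  have h0 := ll0_pos
  have h1 := ll1_bounds.1
  have h2 := ll0_small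
  have h3 : hh = 1 / 10000 := rfl
  obtain ⟨p0, p1⟩ := hp
  have h4 : 0 ≤ ll 1 - ll 0 := by rw [h3] at h2; linarith
  constructor
  · rw [sl]; positivity
  · rw [sl]; nlinarith [mul_nonneg h4 (by nlinarith : 0 ≤ 1 - p ^ 2)]

lemma tt_mem (i : Fin 3) {p : ℝ} (hp : p ∈ Icc (0:ℝ) 1) : 0 ≤ tt i p ∧ tt i p ≤ π / 3 := by
  have hpi := Real.pi_pos
  have hr := rc_pos
  obtain ⟨h1, h2⟩ := sl_mem hp
  fin_cases i
  · simp only [Fin.zero_eta, tt0]; constructor <;> linarith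
  · simp only [Fin.mk_one, tt1]
    refine ⟨by positivity, ?_⟩
    rw [div_le_iff₀ hr]
    rw [ll1] at h2; linarith
  · show 0 ≤ tt 2 p ∧ tt 2 p ≤ π / 3
    rw [tt2]; constructor <;> linarith

/-- the initial data as (constant) data of a flow -/
noncomputable def a0 : AFd where
  th := fun i _ p => tt i p
  D := fun _ _ _ => 0
  lm := fun _ _ _ => 0
  V := fun _ _ _ => 0
  L := fun i _ => ll i
  Ld := fun _ _ => 0

lemma dsl (p : ℝ) : HasDerivAt sl (a0.ro 1 0 p) p := by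
  have h1 := ((hasDerivAt_id' p).const_mul (ll 0)).add
    (((hasDerivAt_id' p).pow 2).const_mul (ll 1 - ll 0))
  refine h1.congr_deriv ?_
  simp only [AFd.ro, a0]
  ring

lemma dtt (i : Fin 3) (p : ℝ) : ∃ d, HasDerivAt (tt i) d p := by
  fin_cases i
  · exact ⟨0, hasDerivAt_const p (0:ℝ)⟩
  · exact ⟨_, (dsl p).div_const rc⟩
  · exact ⟨0, hasDerivAt_const p (0:ℝ)⟩

lemma ctt (i : Fin 3) : Continuous (tt i) :=
  continuous_iff_continuousAt.2 (fun p => (dtt i p).choose_spec.continuousAt)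

lemma cro0 (i : Fin 3) : Continuous (a0.ro i 0) := by
  unfold AFd.ro; fun_prop

lemma ctx0 (i : Fin 3) : Continuous (a0.tx i 0) ∧ Continuous (a0.ty i 0) := by
  have h1 := cro0 i
  have h2 : Continuous (a0.al i 0) := continuous_const.add (ctt i)
  constructor
  · exact h1.mul (Real.continuous_cos.comp h2)
  · exact h1.mul (Real.continuous_sin.comp h2)

/-- evaluation of a primitive -/
lemma PI_eval {f G : ℝ → ℝ} (hf : ContinuousOn f (Icc 0 1))
    (hG : ∀ p ∈ Icc (0:ℝ) 1, HasDerivAt G (f p) p) {p : ℝ} (hp : p ∈ Icc (0:ℝ) 1) :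
    PI clamp (fun _ p => f p) 0 p = G p - G 0 := by
  have h1 := PI_eq (T := 1) dom_I (t := 1 / 2) ⟨by norm_num, by norm_num⟩ (F := fun _ p => G p)
    (G := fun _ p => f p) (fun p hp => (hG p hp).hasDerivWithinAt)
    (hf.comp continuousOn_snd (fun q hq => hq.2)) hp
  have h2 : PI clamp (fun _ p => f p) 0 p = PI clamp (fun _ p => f p) (1 / 2) p := rfl
  rw [h2, h1]; ring

lemma a0_ro0 (p : ℝ) : a0.ro 0 0 p = ll 0 := by simp [AFd.ro, a0]

lemma sin23 : Real.sin (2 * π / 3) = √3 / 2 := by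
  have := (trig23 0).2
  simp only [Real.cos_zero, Real.sin_zero, add_zero] at this
  rw [this]; ring
lemma cos23 : Real.cos (2 * π / 3) = -(1 / 2) := by
  have := (trig23 0).1
  simp only [Real.cos_zero, Real.sin_zero, add_zero] at this
  rw [this]; ring

lemma a0_tx0 (p : ℝ) : a0.tx 0 0 p = -(ll 0 / 2) ∧ a0.ty 0 0 p = -hh := by
  have h1 : a0.al 0 0 p = -(2 * π / 3) + 0 := by simp [AFd.al, a0, cang0, tt0]
  obtain ⟨c, s⟩ := trigm23 0
  rw [Real.cos_zero, Real.sin_zero] at c s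
  have hs3 : √3 * √3 = 3 := Real.mul_self_sqrt (by norm_num)
  have hs : √3 ≠ 0 := by positivity
  constructor
  · rw [AFd.tx, a0_ro0, h1, c]; ring
  · rw [AFd.ty, a0_ro0, h1, s, ll0]; field_simp; ring

lemma a0_tx2 (p : ℝ) : a0.tx 2 0 p = a0.ro 2 0 p ∧ a0.ty 2 0 p = 0 := by
  have h1 : a0.al 2 0 p = 0 := by simp [AFd.al, a0, cang2, tt2]
  rw [AFd.tx, AFd.ty, h1, Real.cos_zero, Real.sin_zero]
  constructor <;> ring

lemma a0_al1 (p : ℝ) : a0.al 1 0 p = 2 * π / 3 + sl p / rc := by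
  simp [AFd.al, a0, cang1, tt1]

lemma al1_one : a0.al 1 0 1 = π := by
  rw [a0_al1, sl_one, ll1]
  have := rc_pos.ne'
  field_simp; ring

lemma dal1 (p : ℝ) : HasDerivAt (a0.al 1 0) (a0.ro 1 0 p / rc) p := by
  have h := (dsl p).div_const rc
  have h2 := h.const_add (2 * π / 3)
  refine h2.congr_of_eventuallyEq (Eventually.of_forall (fun q => ?_))
  exact a0_al1 q

lemma PItx1 {p : ℝ} (hp : p ∈ Icc (0:ℝ) 1) : PI clamp (a0.tx 1) 0 p =
    rc * Real.sin (a0.al 1 0 p) - rc * (√3 / 2) ∧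
    PI clamp (a0.ty 1) 0 p = -(rc * Real.cos (a0.al 1 0 p)) - rc / 2 := by
  have hr := rc_pos.ne'
  have e0 : a0.al 1 0 0 = 2 * π / 3 := by rw [a0_al1, sl_zero]; simp
  constructor
  · have := PI_eval (f := a0.tx 1 0) (G := fun p => rc * Real.sin (a0.al 1 0 p))
      (ctx0 1).1.continuousOn (fun p _ => by
        refine ((dal1 p).sin.const_mul rc).congr_deriv ?_
        rw [AFd.tx]; field_simp) hp
    rw [e0, sin23] at this
    exact this
  · have := PI_eval (f := a0.ty 1 0) (G := fun p => -(rc * Real.cos (a0.al 1 0 p)))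
      (ctx0 1).2.continuousOn (fun p _ => by
        refine ((dal1 p).cos.const_mul rc).neg.congr_deriv ?_
        rw [AFd.ty]; field_simp) hp
    rw [e0, cos23] at this
    refine Eq.trans this ?_
    ring

lemma PItx0 {p : ℝ} (hp : p ∈ Icc (0:ℝ) 1) : PI clamp (a0.tx 0) 0 p = -(ll 0 / 2) * p ∧
    PI clamp (a0.ty 0) 0 p = -hh * p := by
  constructor
  · have := PI_eval (f := a0.tx 0 0) (G := fun p => -(ll 0 / 2) * p)
      (ctx0 0).1.continuousOn (fun p _ => by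
        rw [(a0_tx0 p).1]
        exact ((hasDerivAt_id' p).const_mul (-(ll 0 / 2))).congr_deriv (by ring)) hp
    refine Eq.trans this ?_
    ring
  · have := PI_eval (f := a0.ty 0 0) (G := fun p => -hh * p)
      (ctx0 0).2.continuousOn (fun p _ => by
        rw [(a0_tx0 p).2]
        exact ((hasDerivAt_id' p).const_mul (-hh)).congr_deriv (by ring)) hp
    refine Eq.trans this ?_
    ring

lemma PItx2 {p : ℝ} (hp : p ∈ Icc (0:ℝ) 1) :
    PI clamp (a0.tx 2) 0 p = ll 0 * p + (ll 2 - ll 0) * p ^ 2 ∧ PI clamp (a0.ty 2) 0 p = 0 := by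
  constructor
  · have := PI_eval (f := a0.tx 2 0) (G := fun p => ll 0 * p + (ll 2 - ll 0) * p ^ 2)
      (ctx0 2).1.continuousOn (fun p _ => by
        rw [(a0_tx2 p).1]
        have h1 := ((hasDerivAt_id' p).const_mul (ll 0)).add
          (((hasDerivAt_id' p).pow 2).const_mul (ll 2 - ll 0))
        refine h1.congr_deriv ?_
        simp only [AFd.ro, a0]
        ring) hp
    refine Eq.trans this ?_
    ring
  · have := PI_eval (f := a0.ty 2 0) (G := fun p => 0)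
      (ctx0 2).2.continuousOn (fun p _ => by
        rw [(a0_tx2 p).2]
        exact hasDerivAt_const p (0:ℝ)) hp
    refine Eq.trans this ?_
    ring

lemma o1 : (1:ℝ) ∈ Icc (0:ℝ) 1 := ⟨zero_le_one, le_refl _⟩

lemma X0_0 {p : ℝ} (hp : p ∈ Icc (0:ℝ) 1) :
    a0.X 0 0 p = x0 - ll 0 / 2 * p ∧ a0.Y 0 0 p = hh - hh * p := by
  rw [AFd.X, AFd.Y, (PItx1 o1).1, (PItx0 o1).2, (PItx0 hp).1, (PItx0 hp).2, al1_one, Real.sin_pi,
    x0]
  constructor <;> ring

lemma X0_1 {p : ℝ} (hp : p ∈ Icc (0:ℝ) 1) :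
    a0.X 1 0 p = rc * Real.sin (a0.al 1 0 p) ∧
      a0.Y 1 0 p = hh - rc / 2 - rc * Real.cos (a0.al 1 0 p) := by
  rw [AFd.X, AFd.Y, (PItx1 o1).1, (PItx0 o1).2, (PItx1 hp).1, (PItx1 hp).2, al1_one, Real.sin_pi]
  constructor <;> ring

lemma X0_2 {p : ℝ} (hp : p ∈ Icc (0:ℝ) 1) :
    a0.X 2 0 p = x0 + (ll 0 * p + (ll 2 - ll 0) * p ^ 2) ∧ a0.Y 2 0 p = hh := by
  rw [AFd.X, AFd.Y, (PItx1 o1).1, (PItx0 o1).2, (PItx2 hp).1, (PItx2 hp).2, al1_one, Real.sin_pi,
    x0]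
  constructor <;> ring

/-- the areas -/
lemma area0 : PI clamp (fun t p => a0.X 0 t p * a0.ty 0 t p) 0 1 = -(x0 * hh) + hh * ll 0 / 4 ∧
    PI clamp (fun t p => a0.X 1 t p * a0.ty 1 t p) 0 1 = rc ^ 2 * (π / 6 - √3 / 8) ∧
    PI clamp (fun t p => a0.X 2 t p * a0.ty 2 t p) 0 1 = 0 := by
  refine ⟨?_, ?_, ?_⟩
  · have := PI_eval (f := fun p => (x0 - ll 0 / 2 * p) * (-hh))
      (G := fun p => -(x0 * hh * p) + hh * ll 0 / 4 * p ^ 2) (by fun_prop) (fun p _ => by
        have h1 := (((hasDerivAt_id' p).const_mul (x0 * hh)).neg).add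
          (((hasDerivAt_id' p).pow 2).const_mul (hh * ll 0 / 4))
        refine h1.congr_deriv ?_
        simp; ring) o1
    have e : PI clamp (fun t p => a0.X 0 t p * a0.ty 0 t p) 0 1 =
        PI clamp (fun _ p => (x0 - ll 0 / 2 * p) * (-hh)) 0 1 := by
      unfold PI
      apply intervalIntegral.integral_congr
      intro q _
      simp only [(X0_0 (clamp_mem q)).1, (a0_tx0 (clamp q)).2]
    rw [e, this]; ring
  · have hr := rc_pos.ne'
    have := PI_eval (f := fun p => rc * Real.sin (a0.al 1 0 p) * a0.ty 1 0 p)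
      (G := fun p => rc ^ 2 * (a0.al 1 0 p / 2 - Real.sin (2 * a0.al 1 0 p) / 4))
      (by
        have h2 : Continuous (a0.al 1 0) := continuous_const.add (ctt 1)
        have h3 := (ctx0 1).2
        fun_prop) (fun p _ => by
        have h1 := (((dal1 p).div_const 2).sub ((((dal1 p).const_mul 2).sin).div_const 4)).const_mul
          (rc ^ 2)
        refine h1.congr_deriv ?_
        rw [AFd.ty, Real.cos_two_mul]
        have h4 := Real.sin_sq_add_cos_sq (a0.al 1 0 p)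
        field_simp
        linear_combination (-8 * a0.ro 1 0 p) * h4) o1
    have e0 : a0.al 1 0 0 = 2 * π / 3 := by rw [a0_al1, sl_zero]; simp
    have e : PI clamp (fun t p => a0.X 1 t p * a0.ty 1 t p) 0 1 =
        PI clamp (fun _ p => rc * Real.sin (a0.al 1 0 p) * a0.ty 1 0 p) 0 1 := by
      unfold PI
      apply intervalIntegral.integral_congr
      intro q _
      simp only [(X0_1 (clamp_mem q)).1]
    rw [e, this, al1_one, e0, Real.sin_two_pi, Real.sin_two_mul (2 * π / 3), sin23, cos23]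
    ring
  · have := PI_eval (f := fun _ => (0:ℝ)) (G := fun _ => 0) (by fun_prop) (fun p _ =>
      hasDerivAt_const p (0:ℝ)) o1
    have e : PI clamp (fun t p => a0.X 2 t p * a0.ty 2 t p) 0 1 =
        PI clamp (fun _ _ => (0:ℝ)) 0 1 := by
      unfold PI
      apply intervalIntegral.integral_congr
      intro q _
      simp only [(a0_tx2 (clamp q)).2, mul_zero]
    rw [e, this]; ring

end Run7.h661x
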