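import Pool.Agent.Run7.h661.X.Zero

/-!
# The limit near the initial time
-/

open Set Filter Topology
open scoped Real

namespace Run7.h661x

/-- initial data of a family of discrete solutions -/
structure Ini (Z : ∀ N, ℝ → EE N ℂ) (ℓ0 Λ0 p00 : ℝ) (th0 : Fin 3 → ℝ → ℝ) (L0 : Fin 3 → ℝ) :
    Prop where
  hℓ : 0 < ℓ0
  hΛ : 0 < Λ0
  init : ∀ᶠ N in atTop, Init N ℓ0 Λ0 p00 (toDS (Z N 0))
  L : ∀ᶠ N in atTop, ∀ i, (toDS (Z N 0)).L i = L0 i
  U : ∀ ε > 0, ∀ᶠ N in atTop, ∀ i, ∀ j ≤ N, ‖(toDS (Z N 0)).U i j - (th0 i ((j:ℝ) / N) : ℂ)‖ ≤ ε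
  cth : ∀ i, ContinuousOn (th0 i) (Icc 0 1)

section
variable {Z : ∀ N, ℝ → EE N ℂ} {s : ℝ} {𝒰 : Ultrafilter ℕ}

theorem unif_zero (H : Ok Z s) (hs : 0 < s) {ε : ℝ} (hε : 0 < ε) : ∃ t0 > 0, t0 ≤ s ∧
    ∀ t ∈ Ioo 0 t0, ∀ᶠ N in atTop, ∀ i,
      (∀ j ≤ N, ‖(toDS (Z N t)).U i j - (toDS (Z N 0)).U i j‖ ≤ ε) ∧
      ‖(toDS (Z N t)).L i - (toDS (Z N 0)).L i‖ ≤ ε := by
  obtain ⟨ℓ, Λ, p0, hℓ, hΛ, hN⟩ := H
  have hτ := tau_pos (p0 := p0) hℓ hΛ
  set b := min s (tau ℓ Λ p0) with hb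
  have hb0 : 0 < b := lt_min hs hτ
  have hpb := pb_nonneg p0
  have hC5 := C5_nonneg (ℓ := ℓ) (p0 := p0) hΛ
  have hK3 := K3_nonneg (p0 := p0) hℓ hΛ
  set η := min (1 / 8) ((ε / (4 * (pb p0 + 1))) ^ 2) with hη
  have hη0 : 0 < η := lt_min (by norm_num) (by positivity)
  have hη1 : 2 * (pb p0 * √η) ≤ ε / 2 := by
    have h1 : √η ≤ ε / (4 * (pb p0 + 1)) := by
      rw [Real.sqrt_le_left (by positivity)]; exact min_le_right _ _
    have h2 := mul_le_mul_of_nonneg_left h1 hpb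
    have h3 : pb p0 * (ε / (4 * (pb p0 + 1))) ≤ ε / 4 := by
      rw [mul_div_assoc', div_le_div_iff₀ (by positivity) (by norm_num)]
      nlinarith
    linarith
  set t0 := min b (min (η / 2 * (ε / 2) ^ 2 / (C5 ℓ Λ p0 + 1)) ((ε / (K3 ℓ Λ p0 + 1)) ^ 2)) with ht0
  refine ⟨t0, lt_min hb0 (lt_min (by positivity) (by positivity)), ?_, ?_⟩
  · exact (min_le_left _ _).trans (min_le_left _ _)
  intro t ht
  have htb : t ≤ b := ht.2.le.trans (min_le_left _ _)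
  have ht1 : t ≤ η / 2 * (ε / 2) ^ 2 / (C5 ℓ Λ p0 + 1) :=
    ht.2.le.trans ((min_le_right _ _).trans (min_le_left _ _))
  have ht2 : t ≤ (ε / (K3 ℓ Λ p0 + 1)) ^ 2 :=
    ht.2.le.trans ((min_le_right _ _).trans (min_le_right _ _))
  obtain ⟨N0, hN0⟩ := exists_nat_gt (2 / η)
  filter_upwards [hN, eventually_ge_atTop N0] with N hN hNN i
  have hN2 := hN.N2
  have hNp := N_pos hN2
  have hηN : 2 < η * N := by
    have h1 : (N0:ℝ) ≤ N := by exact_mod_cast hNN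
    have h2 : 2 / η < N := lt_of_lt_of_le hN0 h1
    rw [div_lt_iff₀ hη0] at h2
    linarith
  have hS : Sol N 1 (fun t => toDS (Z N t)) 0 b :=
    (sol_of_solOn' (hN.sol.mono (le_refl _) (min_le_left _ _)))
  have hI : Init N ℓ Λ p0 (toDS (Z N 0)) := hN.init 0 ⟨le_refl _, hs.le⟩
  have hap := hS.apriori hN2 hℓ hΛ hI (e := 1) (by simp)
    (by rw [zero_add]; exact min_le_right _ _) t ⟨ht.1.le, htb⟩
  have hap0 := hS.apriori hN2 hℓ hΛ hI (e := 1) (by simp)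
    (by rw [zero_add]; exact min_le_right _ _) 0 ⟨le_refl _, hb0.le⟩
  have hVF := hS.VF_le hN2 hℓ hΛ hI (min_le_right _ _) t ⟨ht.1, htb⟩
  set m := ⌊η * N⌋₊ with hm
  have hm1 : (m:ℝ) ≤ η * N := Nat.floor_le (by positivity)
  have hm2 : η * N < m + 1 := Nat.lt_floor_add_one _
  have hm3 : 1 ≤ m := by
    have : (1:ℝ) < m := by linarith
    exact_mod_cast this.le
  have hm4 : 2 * m + 1 ≤ N := by
    have h1 : η ≤ 1 / 8 := min_le_left _ _
    have h2 : (m:ℝ) ≤ N / 8 := by nlinarith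
    have h3 : (2:ℝ) * m + 1 ≤ N := by
      have : (2:ℝ) ≤ N := by exact_mod_cast hN2
      linarith
    exact_mod_cast h3
  have hmN : (m:ℝ) / N ≤ η := by rw [div_le_iff₀ hNp]; exact hm1
  have hmN2 : η / 2 ≤ (m:ℝ) / N := by rw [le_div_iff₀ hNp]; linarith
  constructor
  · intro j hj
    refine point_le hN2 hpb hap.2.2.2.1.P hap0.2.2.2.1.P hm3 hm4 ?_ ?_ hε i hj
    · have h1 := mul_le_mul_of_nonneg_left (Real.sqrt_le_sqrt hmN) hpb
      linarith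
    · refine hVF.trans ?_
      have h1 : C5 ℓ Λ p0 * t ≤ η / 2 * (ε / 2) ^ 2 := by
        have h2 : (C5 ℓ Λ p0 + 1) * t ≤ η / 2 * (ε / 2) ^ 2 := by
          rw [le_div_iff₀ (by positivity)] at ht1
          linarith
        have := ht.1
        nlinarith
      exact h1.trans (mul_le_mul_of_nonneg_right hmN2 (by positivity))
  · refine (hap.2.1 i).trans ?_
    rw [sub_zero]
    have h1 : √t ≤ ε / (K3 ℓ Λ p0 + 1) := by
      rw [Real.sqrt_le_left (by positivity)]; exact ht2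
    have h2 := mul_le_mul_of_nonneg_left h1 hK3
    have h3 : K3 ℓ Λ p0 * (ε / (K3 ℓ Λ p0 + 1)) ≤ ε := by
      rw [mul_div_assoc', div_le_iff₀ (by positivity)]
      nlinarith
    exact h2.trans h3

section
variable (h𝒰 : (𝒰 : Filter ℕ) ≤ atTop) (H : Ok Z s)
include h𝒰 H

theorem LA_zero (hs : 0 < s) {ℓ0 Λ0 p00 : ℝ} {th0 : Fin 3 → ℝ → ℝ} {L0 : Fin 3 → ℝ}
    (I : Ini Z ℓ0 Λ0 p00 th0 L0) {ε : ℝ} (hε : 0 < ε) : ∀ᶠ t in 𝓝[>] (0:ℝ), ∀ i,
      (∀ p ∈ Icc (0:ℝ) 1, |(LA 𝒰 Z).th i t p - th0 i p| ≤ ε) ∧ |(LA 𝒰 Z).L i t - L0 i| ≤ ε := by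
  obtain ⟨t0, h0, h0s, h1⟩ := unif_zero H hs (ε := ε / 2) (by positivity)
  filter_upwards [Ioo_mem_nhdsGT h0] with t ht i
  have hts : t ∈ Ioo 0 s := ⟨ht.1, ht.2.trans_le h0s⟩
  have h2 := h𝒰 (h1 t ht)
  have h3 := h𝒰 (I.U (ε / 2) (by positivity))
  constructor
  · intro p hp
    have jlt : ∀ᶠ N in (𝒰 : Filter ℕ), idx N 0 p < N + 1 - 0 := by
      filter_upwards [ev_ge h𝒰 1] with N hN
      exact idx_lt (by omega) p
    have j0 : Tendsto (fun N => (idx N 0 p : ℝ) / N) 𝒰 (𝓝 p) := idx_tendsto h𝒰 0 hp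
    have a1 := LQ_tendsto h𝒰 H hts (Qt_U i) hp jlt j0
    rw [rU h𝒰 H hts i hp] at a1
    have jI : Tendsto (fun N => (idx N 0 p : ℝ) / N) 𝒰 (𝓝[Icc 0 1] p) := by
      rw [tendsto_nhdsWithin_iff]
      refine ⟨j0, ?_⟩
      filter_upwards [ev_ge h𝒰 1] with N hN
      have hN0 : (0:ℝ) < N := by exact_mod_cast hN
      have : idx N 0 p ≤ N := by
        have := idx_lt (N := N) (k := 0) (by omega) p
        omega
      have h4 : (idx N 0 p : ℝ) ≤ N := by exact_mod_cast this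
      refine ⟨by positivity, ?_⟩
      rw [div_le_one hN0]; exact h4
    have a2 : Tendsto (fun N => ((th0 i ((idx N 0 p : ℝ) / N) : ℝ) : ℂ)) 𝒰 (𝓝 (th0 i p : ℂ)) :=
      (Complex.continuous_ofReal.tendsto _).comp ((I.cth i p hp).tendsto.comp jI)
    have a3 := (a1.sub a2).norm
    have h5 : ‖((LA 𝒰 Z).th i t p : ℂ) - (th0 i p : ℂ)‖ ≤ ε := by
      refine le_of_tendsto a3 ?_
      filter_upwards [h2, h3, jlt] with N b1 b2 b3
      have c1 := (b1 i).1 (idx N 0 p) (by omega)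
      have c2 := b2 i (idx N 0 p) (by omega)
      have e : (toDS (Z N t)).U i (idx N 0 p) - (th0 i ((idx N 0 p : ℝ) / N) : ℂ) =
          ((toDS (Z N t)).U i (idx N 0 p) - (toDS (Z N 0)).U i (idx N 0 p)) +
          ((toDS (Z N 0)).U i (idx N 0 p) - (th0 i ((idx N 0 p : ℝ) / N) : ℂ)) := by ring
      rw [e]
      refine (norm_add_le _ _).trans ?_
      linarith
    rwa [← Complex.ofReal_sub, Complex.norm_real, Real.norm_eq_abs] at h5
  · have a1 := tL h𝒰 H hts i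
    have a3 := (a1.sub_const (L0 i : ℂ)).norm
    have h5 : ‖((LA 𝒰 Z).L i t : ℂ) - (L0 i : ℂ)‖ ≤ ε := by
      refine le_of_tendsto a3 ?_
      filter_upwards [h2, h𝒰 I.L] with N b1 b2
      have c1 := (b1 i).2
      rw [b2 i] at c1
      linarith
    rwa [← Complex.ofReal_sub, Complex.norm_real, Real.norm_eq_abs] at h5

/-- the limit of the energy -/
theorem PP_tendsto {t : ℝ} (ht : t ∈ Ioo 0 s) : Tendsto (fun N => PP N (toDS (Z N t))) 𝒰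
    (𝓝 (∑ i, PI clamp (fun t p => (LA 𝒰 Z).D i t p ^ 2) t 1)) := by
  have A := lim_AF h𝒰 H
  have hone : ∀ i, Tendsto (fun N => ∑ j ∈ Finset.range N, (1 / (N:ℝ)) *
      ‖dD N (toDS (Z N t)) i j‖ ^ 2) 𝒰 (𝓝 (PI clamp (fun t p => (LA 𝒰 Z).D i t p ^ 2) t 1)) := by
    intro i
    obtain ⟨C1, hC1⟩ := LQ_bl h𝒰 H ht (Qt_D i)
    set f : ℕ → ℕ → ℂ := fun N j => ∑ l ∈ Finset.range j, (1 / (N:ℂ)) *
      (dD N (toDS (Z N t)) i l * dD N (toDS (Z N t)) i l) with hf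
    set d : ℕ → ℕ → ℂ := fun N l => dD N (toDS (Z N t)) i l * dD N (toDS (Z N t)) i l with hd
    have hdB : ∀ᶠ N in (𝒰 : Filter ℕ), BL N (N + 1 - 1) (2 * (C1 * C1)) (d N) := by
      filter_upwards [hC1] with N a1
      exact a1.mul a1
    have hfB : ∀ᶠ N in (𝒰 : Filter ℕ), BL N (N + 1 - 0) (2 * (C1 * C1)) (f N) := by
      filter_upwards [hdB, ev_ge h𝒰 1] with N a1 a2
      exact BL_sum (by omega) a1
    have hfd : ∀ᶠ N in (𝒰 : Filter ℕ), ∀ j < N + 1 - (0 + 1), d N j = (N:ℂ) • (f N (j + 1) - f N j) := by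
      filter_upwards [ev_ge h𝒰 1] with N hN j _
      have hNc : (N:ℂ) ≠ 0 := by exact_mod_cast (by omega : N ≠ 0)
      simp only [hf, hd]
      rw [Finset.sum_range_succ, add_sub_cancel_left, smul_eq_mul]
      field_simp
    have hder : ∀ p ∈ Icc (0:ℝ) 1, HasDerivWithinAt (fun p => (glim 𝒰 0 f p).re)
        ((LA 𝒰 Z).D i t p ^ 2) (Icc 0 1) p := by
      intro p hp
      have h1 := glim_deriv h𝒰 (k := 0) hfB hdB hfd hp
      have jlt : ∀ᶠ N in (𝒰 : Filter ℕ), idx N 1 p < N + 1 - 1 := by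
        filter_upwards [ev_ge h𝒰 1] with N hN
        exact idx_lt hN p
      have j0 : Tendsto (fun N => (idx N 1 p : ℝ) / N) 𝒰 (𝓝 p) := idx_tendsto h𝒰 1 hp
      have tD := LQ_tendsto h𝒰 H ht (Qt_D i) hp jlt j0
      rw [rD h𝒰 H ht i hp] at tD
      have hv : glim 𝒰 (0 + 1) d p = (((LA 𝒰 Z).D i t p ^ 2 : ℝ) : ℂ) := by
        apply ulim_eq
        have := tD.mul tD
        push_cast
        rw [sq]
        exact this
      rw [hv] at h1
      exact re_within h1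
    have hcD : ContinuousOn (fun q : ℝ × ℝ => (LA 𝒰 Z).D i q.1 q.2 ^ 2) (Ioo 0 s ×ˢ Icc 0 1) :=
      ((A.cD i 0).cont.pow 2)
    have h2 := PI_eq dom_I ht (F := fun _ p => (glim 𝒰 0 f p).re)
      (G := fun t p => (LA 𝒰 Z).D i t p ^ 2) (fun p hp => hder p hp) hcD (p := 1) oI
    have h0 : glim 𝒰 0 f 0 = 0 := by
      apply ulim_eq
      refine tendsto_const_nhds.congr (fun N => ?_)
      rw [idx_zero]; simp [hf]
    simp only [h0, Complex.zero_re, zero_add] at h2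
    have n0 : Tendsto (fun N : ℕ => ((N:ℕ):ℝ) / N) 𝒰 (𝓝 1) := by
      have := sub_div_tendsto h𝒰 0
      simpa using this
    have h3 := glim_tendsto h𝒰 hfB oI (j := fun N => N) (by
      filter_upwards [ev_ge h𝒰 1] with N hN; omega) n0
    have h4 := (Complex.continuous_re.tendsto _).comp h3
    rw [h2] at h4
    refine h4.congr' ?_
    obtain ⟨ℓ, Λ, p0, -, -, hN⟩ := H
    filter_upwards [h𝒰 hN] with N hN
    have hcj := hN.rl t ⟨ht.1.le, ht.2.le⟩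
    simp only [Function.comp_apply, hf, Complex.re_sum]
    apply Finset.sum_congr rfl
    intro l _
    have hreal : starRingEnd ℂ (dD N (toDS (Z N t)) i l) = dD N (toDS (Z N t)) i l := by
      rw [← dD_cj, hcj]
    have e1 : dD N (toDS (Z N t)) i l * dD N (toDS (Z N t)) i l =
        ((‖dD N (toDS (Z N t)) i l‖ ^ 2 : ℝ) : ℂ) := by
      nth_rewrite 1 [← hreal]
      rw [mul_comm, Complex.mul_conj, Complex.normSq_eq_norm_sq]
    rw [e1, show (1 / (N:ℂ)) = ((1 / (N:ℝ) : ℝ) : ℂ) by push_cast; rfl, Complex.re_ofReal_mul,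
      Complex.ofReal_re]
  exact tendsto_finsetSum Finset.univ (fun i _ => hone i)

/-- the energy near the initial time -/
theorem PI_zero_le (hs : 0 < s) {ℓ0 Λ0 p00 : ℝ} {th0 : Fin 3 → ℝ → ℝ} {L0 : Fin 3 → ℝ}
    (I : Ini Z ℓ0 Λ0 p00 th0 L0) : ∀ᶠ t in 𝓝[>] (0:ℝ),
      ∑ i, PI clamp (fun t p => (LA 𝒰 Z).D i t p ^ 2) t 1 ≤ p00 ^ 2 + 1 := by
  have hτ := tau_pos (p0 := p00) I.hℓ I.hΛ
  filter_upwards [Ioo_mem_nhdsGT (lt_min hs hτ)] with t ht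
  have hts : t ∈ Ioo 0 s := ⟨ht.1, ht.2.trans_le (min_le_left _ _)⟩
  refine le_of_tendsto (PP_tendsto h𝒰 H hts) ?_
  obtain ⟨ℓ, Λ, p0, hℓ, hΛ, hN⟩ := H
  filter_upwards [h𝒰 hN, h𝒰 I.init] with N hN hI
  have hS : Sol N 1 (fun t => toDS (Z N t)) 0 (min s (tau ℓ0 Λ0 p00)) :=
    (sol_of_solOn' (hN.sol.mono (le_refl _) (min_le_left _ _)))
  have hap := hS.apriori hN.N2 I.hℓ I.hΛ hI (e := 1) (by simp)
    (by rw [zero_add]; exact min_le_right _ _) t ⟨ht.1.le, ht.2.le⟩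
  have := hap.2.2.2.1.P
  rwa [pb_sq] at this

end

end

end Run7.h661x
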