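import Pool.Agent.Run7.h661.X.Cont
import Pool.Agent.Run7.h661.X.Dat
import Pool.Agent.Run7.h661.X.Zero2

/-!
# Discrete initial data
-/

open Set Filter Topology
open scoped Real

namespace Run7.h661x

lemma tt_zero (i : Fin 3) : tt i 0 = 0 := by
  fin_cases i
  · rfl
  · show tt 1 0 = 0
    rw [tt1, sl_zero, zero_div]
  · rfl

lemma tt_one : tt 0 1 = 0 ∧ tt 1 1 = π / 3 ∧ tt 2 1 = 0 := by
  refine ⟨rfl, ?_, rfl⟩
  have := rc_pos.ne'
  rw [tt1, sl_one, ll1]; field_simp

lemma tt_lip (i : Fin 3) {p q : ℝ} (hp : p ∈ Icc (0:ℝ) 1) (hq : q ∈ Icc (0:ℝ) 1) :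
    |tt i p - tt i q| ≤ 3 * |p - q| := by
  fin_cases i
  · simp only [Fin.zero_eta, tt0]; simp
  · simp only [Fin.mk_one, tt1]
    have hr := rc_mem.1
    have hr0 := rc_pos
    have h0 := ll0_pos
    have h0' := ll0_small
    have hhv : hh = 1 / 10000 := rfl
    rw [hhv] at h0'
    obtain ⟨h1, h1'⟩ := ll1_bounds
    have e : sl p / rc - sl q / rc = (p - q) * ((ll 0 + (ll 1 - ll 0) * (p + q)) / rc) := by
      rw [sl, sl]; field_simp; ring
    rw [e, abs_mul, mul_comm]
    apply mul_le_mul_of_nonneg_right _ (abs_nonneg _)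
    rw [abs_div, abs_of_pos hr0, div_le_iff₀ hr0, abs_le]
    have h2 : 0 ≤ p + q := by linarith [hp.1, hq.1]
    have h3 : p + q ≤ 2 := by linarith [hp.2, hq.2]
    constructor <;> nlinarith
  · show |tt 2 p - tt 2 q| ≤ _
    rw [tt2, tt2]; simp

/-- the discrete initial angle -/
noncomputable def Uz (N : ℕ) (i : Fin 3) (j : ℕ) : ℝ :=
  if j = 0 then 1 / 3 * ∑ l, tt l (1 / N) else tt i (j / N)

/-- the discrete initial speed -/
noncomputable def rz (N : ℕ) (i : Fin 3) (j : ℕ) : ℝ := ll 0 + 2 * ((j:ℝ) / N) * (ll i - ll 0)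

noncomputable def Zz (N : ℕ) : EE N ℂ :=
  (fun i j => (Uz N i j : ℂ), fun i => (ll i : ℂ), fun i j => ((rz N i j)⁻¹ : ℝ))

lemma Zz_U {N : ℕ} (i : Fin 3) {j : ℕ} (hj : j ≤ N) : (toDS (Zz N)).U i j = (Uz N i j : ℂ) := by
  rw [toDS_U _ _ (Nat.lt_succ_of_le hj)]; rfl
lemma Zz_L {N : ℕ} (i : Fin 3) : (toDS (Zz N)).L i = (ll i : ℂ) := rfl
lemma Zz_R {N : ℕ} (i : Fin 3) {j : ℕ} (hj : j ≤ N) :
    (toDS (Zz N)).R i j = (((rz N i j)⁻¹ : ℝ) : ℂ) := by
  rw [toDS_R _ _ (Nat.lt_succ_of_le hj)]; rfl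

lemma ll_ge (i : Fin 3) : ll 0 ≤ ll i := by
  have b0 := ll0_small
  have hhv : hh = 1 / 10000 := rfl
  rw [hhv] at b0
  have b1 := ll1_bounds.1
  have b2 := ll2_bounds.1
  fin_cases i
  · show ll 0 ≤ ll 0; exact le_refl _
  · show ll 0 ≤ ll 1; linarith
  · show ll 0 ≤ ll 2; linarith

lemma ll_le (i : Fin 3) : ll i ≤ 1001 := by
  have b0 := ll0_small
  have hhv : hh = 1 / 10000 := rfl
  rw [hhv] at b0
  have b1 := ll1_bounds.2
  have b2 := ll2_bounds.2
  fin_cases i
  · show ll 0 ≤ 1001; linarith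
  · show ll 1 ≤ 1001; linarith
  · show ll 2 ≤ 1001; linarith

lemma rz_pos {N : ℕ} (hN : 2 ≤ N) (i : Fin 3) {j : ℕ} (hj : j ≤ N) : 0 < rz N i j := by
  obtain ⟨x0, x1⟩ := xnr_mem hN hj
  have := ll0_pos
  have := ll_ge i
  rw [rz]
  have h1 : 0 ≤ 2 * ((j:ℝ) / N) * (ll i - ll 0) := mul_nonneg (by positivity) (by linarith)
  linarith

lemma one_div_mem {N : ℕ} (hN : 2 ≤ N) : (1:ℝ) / N ∈ Icc (0:ℝ) 1 := by
  have := xnr_mem (N := N) (j := 1) hN (by omega)
  simpa using this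

lemma Uz_step {N : ℕ} (hN : 2 ≤ N) (i : Fin 3) {j : ℕ} (hj : j < N) :
    |(N:ℝ) * (Uz N i (j + 1) - Uz N i j)| ≤ 6 := by
  have hN0 := N_pos hN
  have key : |Uz N i (j + 1) - Uz N i j| ≤ 6 / N := by
    rw [Uz, if_neg (Nat.succ_ne_zero j), Uz]
    have hm : ((j + 1 : ℕ) : ℝ) / N ∈ Icc (0:ℝ) 1 := xnr_mem hN (by omega)
    split_ifs with h
    · subst h
      have h1 : ∀ l, |tt l (1 / N)| ≤ 3 / N := by
        intro l
        have := tt_lip l (one_div_mem hN) zI
        rw [tt_zero, sub_zero, sub_zero, abs_of_nonneg (one_div_mem hN).1] at this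
        rw [mul_one_div] at this
        exact this
      have h2 : |1 / 3 * ∑ l, tt l (1 / N)| ≤ 3 / N := by
        rw [Fin.sum_univ_three, abs_mul, abs_of_pos (by norm_num : (0:ℝ) < 1 / 3)]
        have a1 := abs_add_le (tt 0 (1 / N) + tt 1 (1 / N)) (tt 2 (1 / N))
        have a2 := abs_add_le (tt 0 (1 / N)) (tt 1 (1 / N))
        linarith [h1 0, h1 1, h1 2]
      have h3 := h1 i
      have h4 : |tt i (((0 + 1 : ℕ) : ℝ) / N) - 1 / 3 * ∑ l, tt l (1 / N)| ≤
          |tt i (1 / N)| + |1 / 3 * ∑ l, tt l (1 / N)| := by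
        have e : (((0 + 1 : ℕ) : ℝ) / N) = 1 / N := by norm_num
        rw [e]
        exact abs_sub _ _
      have h5 : (6:ℝ) / N = 3 / N + 3 / N := by ring
      rw [h5]
      linarith
    · have := tt_lip i hm (xnr_mem hN hj.le)
      refine this.trans ?_
      have e : ((j + 1 : ℕ) : ℝ) / N - (j:ℝ) / N = 1 / N := by push_cast; ring
      rw [e, abs_of_pos (by positivity), mul_one_div]
      exact div_le_div_of_nonneg_right (by norm_num) hN0.le
  rw [abs_mul, abs_of_pos hN0]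
  have := mul_le_mul_of_nonneg_left key hN0.le
  rwa [mul_div_cancel₀ _ hN0.ne'] at this

lemma Zz_init {N : ℕ} (hN : 2 ≤ N) : Init N (ll 0) 2002 11 (toDS (Zz N)) := by
  have hN0 := N_pos hN
  have h0 := ll0_pos
  refine ⟨⟨fun i => ?_, ?_⟩, ⟨ll, fun i => rfl, le_refl _, ?_, fun i => ⟨?_, ?_⟩⟩, fun i j hj => ?_, ?_⟩
  · rw [Zz_U i (Nat.zero_le _)]
    have e : ∀ l, (toDS (Zz N)).U l 1 = (tt l (1 / N) : ℂ) := by
      intro l
      rw [Zz_U l (by omega), Uz, if_neg one_ne_zero, Nat.cast_one]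
    rw [Finset.sum_congr rfl (fun l _ => e l), Uz, if_pos rfl]
    push_cast; ring
  · rw [Zz_U 2 (le_refl _), Zz_U 2 (Nat.sub_le _ _), Uz, Uz, if_neg (by omega), if_neg (by omega)]
    rfl
  · have := ll_le 0; linarith
  · have := ll_ge i; linarith
  · have := ll_le i; linarith
  · rw [Zz_R i hj]
    have h1 := (rz_pos hN i hj).ne'
    have h2 : rho N (toDS (Zz N)) i j = (rz N i j : ℂ) := by
      rw [rho, Zz_L, Zz_L, xn_real, rz, smul_eq_mul]; push_cast; ring
    rw [h2]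
    have : ((rz N i j : ℝ) : ℂ) ≠ 0 := by exact_mod_cast h1
    push_cast
    exact inv_mul_cancel₀ this
  · have h1 : ∀ i, ∑ j ∈ Finset.range N, (1 / (N:ℝ)) * ‖dD N (toDS (Zz N)) i j‖ ^ 2 ≤ 36 := by
      intro i
      calc ∑ j ∈ Finset.range N, (1 / (N:ℝ)) * ‖dD N (toDS (Zz N)) i j‖ ^ 2
          ≤ ∑ j ∈ Finset.range N, (1 / (N:ℝ)) * 36 := by
            apply Finset.sum_le_sum
            intro j hj
            have hj' := Finset.mem_range.1 hj
            have e : dD N (toDS (Zz N)) i j = ((N * (Uz N i (j + 1) - Uz N i j) : ℝ) : ℂ) := by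
              rw [dD, Zz_U i hj', Zz_U i hj'.le, smul_eq_mul]; push_cast; ring
            rw [e, Complex.norm_real, Real.norm_eq_abs]
            have h2 := Uz_step hN i hj'
            have h3 : |(N:ℝ) * (Uz N i (j + 1) - Uz N i j)| ^ 2 ≤ 36 := by
              have := pow_le_pow_left₀ (abs_nonneg _) h2 2
              norm_num at this ⊢
              exact this
            exact mul_le_mul_of_nonneg_left h3 (by positivity)
        _ = 36 := by
            rw [Finset.sum_const, Finset.card_range, nsmul_eq_mul]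
            field_simp
    rw [PP, Fin.sum_univ_three]
    have := h1 0; have := h1 1; have := h1 2
    linarith

theorem Zz_IS : IS Zz (ll 0) 2002 11 where
  hℓ := ll0_pos
  hΛ := by norm_num
  init := by filter_upwards [eventually_ge_atTop 2] with N hN; exact Zz_init hN
  rl := fun N => by
    simp only [ecj, Zz, Complex.conj_ofReal]
  f0 := by
    filter_upwards [eventually_ge_atTop 2] with N hN
    rw [Zz_U 0 (le_refl _), Uz, if_neg (by omega), tt0]; simp
  f1 := by
    filter_upwards [eventually_ge_atTop 2] with N hN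
    have hN0 := (N_pos hN).ne'
    rw [Zz_U 1 (le_refl _), Uz, if_neg (by omega), div_self hN0, tt_one.2.1]

theorem Zz_Ini : Ini (Zc Zz) (ll 0) 2002 11 tt ll where
  hℓ := ll0_pos
  hΛ := by norm_num
  init := by filter_upwards [Zz_IS.init] with N hN; rw [Zc_zero]; exact hN
  L := Eventually.of_forall (fun N i => by rw [Zc_zero]; rfl)
  U := by
    intro ε hε
    obtain ⟨N0, hN0⟩ := exists_nat_gt (3 / ε)
    filter_upwards [eventually_ge_atTop 2, eventually_ge_atTop N0] with N hN hNN i j hj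
    have hNp := N_pos hN
    rw [Zc_zero, Zz_U i hj, ← Complex.ofReal_sub, Complex.norm_real, Real.norm_eq_abs, Uz]
    split_ifs with h
    · subst h
      have h1 : ∀ l, |tt l (1 / N)| ≤ 3 / N := by
        intro l
        have := tt_lip l (one_div_mem hN) zI
        rw [tt_zero, sub_zero, sub_zero, abs_of_nonneg (one_div_mem hN).1] at this
        rw [mul_one_div] at this
        exact this
      rw [Nat.cast_zero, zero_div, tt_zero, sub_zero, Fin.sum_univ_three, abs_mul,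
        abs_of_pos (by norm_num : (0:ℝ) < 1 / 3)]
      have a1 := abs_add_le (tt 0 (1 / N) + tt 1 (1 / N)) (tt 2 (1 / N))
      have a2 := abs_add_le (tt 0 (1 / N)) (tt 1 (1 / N))
      have h2 : 3 / (N:ℝ) ≤ ε := by
        rw [div_le_iff₀ hNp]
        rw [div_lt_iff₀ hε] at hN0
        have : (N0:ℝ) ≤ N := by exact_mod_cast hNN
        nlinarith
      linarith [h1 0, h1 1, h1 2]
    · rw [sub_self, abs_zero]; exact hε.le
  cth := fun i => (ctt i).continuousOn

end Run7.h661x
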