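import Pool.Agent.Run7.h661.X.Ode

/-!
# The semi-discrete system
-/

open Set Filter Topology Finset
open scoped NNReal

namespace Run7.h661x

/-- node values of the angles `U i j`, lengths `L i`, inverse speeds `R i j` -/
structure DS (A : Type*) where
  U : Fin 3 → ℕ → A
  L : Fin 3 → A
  R : Fin 3 → ℕ → A

section alg
variable {A : Type*} [CommRing A] [Algebra ℂ A] (N : ℕ) (s : DS A)

/-- the node `j/N` -/
noncomputable def xn (N j : ℕ) : ℂ := (j : ℂ) / N

/-- first differences -/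
noncomputable def dD (i : Fin 3) (j : ℕ) : A := (N : ℂ) • (s.U i (j + 1) - s.U i j)

/-- second differences at the node `j+1` -/
noncomputable def dE (i : Fin 3) (j : ℕ) : A := (N : ℂ) • (dD N s i (j + 1) - dD N s i j)

/-- tangential velocities at the junction -/
noncomputable def lam0 (i : Fin 3) : A :=
  ((1 / √3 : ℝ) : ℂ) • (dD N s (i + 1) 0 * s.R (i + 1) 0 - dD N s (i + 2) 0 * s.R (i + 2) 0)

/-- tangential velocities at the far ends -/
noncomputable def lamE (i : Fin 3) : A :=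
  if i = 0 then ((-(1 / √3) : ℝ) : ℂ) • (dD N s 0 (N - 1) * s.R 0 N) else 0

/-- `∫ ϑ_p²/ρ` -/
noncomputable def SS (i : Fin 3) (j : ℕ) : A :=
  ∑ l ∈ range j, (1 / (N : ℂ)) • (dD N s i l * dD N s i l * s.R i l)

/-- derivatives of the lengths -/
noncomputable def Ld (i : Fin 3) : A := lamE N s i - lam0 N s i - SS N s i N

/-- tangential velocity -/
noncomputable def lam (i : Fin 3) (j : ℕ) : A :=
  lam0 N s i + SS N s i j + (xn N j - xn N j ^ 2) • Ld N s 0 + (xn N j ^ 2) • Ld N s i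

/-- speed -/
noncomputable def rho (i : Fin 3) (j : ℕ) : A := s.L 0 + (2 * xn N j) • (s.L i - s.L 0)

/-- time derivative of the speed -/
noncomputable def rhod (i : Fin 3) (j : ℕ) : A :=
  Ld N s 0 + (2 * xn N j) • (Ld N s i - Ld N s 0)

/-- drift at the node `j+1` -/
noncomputable def bb (i : Fin 3) (j : ℕ) : A :=
  lam N s i (j + 1) * s.R i (j + 1) -
    (2 : ℂ) • ((s.L i - s.L 0) * (s.R i (j + 1) * s.R i (j + 1) * s.R i (j + 1)))

/-- right-hand side at the node `j+1` -/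
noncomputable def VV (i : Fin 3) (j : ℕ) : A :=
  s.R i (j + 1) * s.R i (j + 1) * dE N s i j + bb N s i j * dD N s i j

/-- right-hand side of the `U` equation -/
noncomputable def fU (i : Fin 3) (j : ℕ) : A :=
  if j = 0 then (1 / 3 : ℂ) • ∑ l, VV N s l 0
  else if j = N then (if i = 2 then VV N s 2 (N - 2) else 0)
  else VV N s i (j - 1)

/-- right-hand side of the `R` equation -/
noncomputable def fR (i : Fin 3) (j : ℕ) : A := -(rhod N s i j * (s.R i j * s.R i j))

end alg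

/-! ## characters -/

section map
variable {A B : Type*} [CommRing A] [Algebra ℂ A] [CommRing B] [Algebra ℂ B]

/-- apply a character to a state -/
def DS.map (φ : A →ₐ[ℂ] B) (s : DS A) : DS B :=
  ⟨fun i j => φ (s.U i j), fun i => φ (s.L i), fun i j => φ (s.R i j)⟩

variable (φ : A →ₐ[ℂ] B) (N : ℕ) (s : DS A)

lemma dD_map (i : Fin 3) (j : ℕ) : dD N (s.map φ) i j = φ (dD N s i j) := by
  simp [dD, DS.map]
lemma dE_map (i : Fin 3) (j : ℕ) : dE N (s.map φ) i j = φ (dE N s i j) := by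
  simp [dE, dD_map]
lemma lam0_map (i : Fin 3) : lam0 N (s.map φ) i = φ (lam0 N s i) := by
  simp only [lam0, dD_map, map_smul, map_sub, map_mul]; rfl
lemma lamE_map (i : Fin 3) : lamE N (s.map φ) i = φ (lamE N s i) := by
  simp only [lamE]
  split_ifs
  · simp only [dD_map, map_smul, map_mul]; rfl
  · simp
lemma SS_map (i : Fin 3) (j : ℕ) : SS N (s.map φ) i j = φ (SS N s i j) := by
  simp only [SS, map_sum, dD_map, map_smul, map_mul]; rfl
lemma Ld_map (i : Fin 3) : Ld N (s.map φ) i = φ (Ld N s i) := by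
  simp only [Ld, lamE_map, lam0_map, SS_map, map_sub]
lemma lam_map (i : Fin 3) (j : ℕ) : lam N (s.map φ) i j = φ (lam N s i j) := by
  simp only [lam, lam0_map, SS_map, Ld_map, map_add, map_smul]
lemma rho_map (i : Fin 3) (j : ℕ) : rho N (s.map φ) i j = φ (rho N s i j) := by
  simp only [rho, map_add, map_sub, map_smul]; rfl
lemma rhod_map (i : Fin 3) (j : ℕ) : rhod N (s.map φ) i j = φ (rhod N s i j) := by
  simp only [rhod, Ld_map, map_add, map_sub, map_smul]
lemma bb_map (i : Fin 3) (j : ℕ) : bb N (s.map φ) i j = φ (bb N s i j) := by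
  simp only [bb, lam_map, map_sub, map_smul, map_mul]; rfl
lemma VV_map (i : Fin 3) (j : ℕ) : VV N (s.map φ) i j = φ (VV N s i j) := by
  simp only [VV, bb_map, dE_map, dD_map, map_add, map_mul]; rfl
lemma fU_map (i : Fin 3) (j : ℕ) : fU N (s.map φ) i j = φ (fU N s i j) := by
  simp only [fU, VV_map]
  split_ifs
  · simp only [map_smul, map_sum]
  · rfl
  · simp
  · rfl
lemma fR_map (i : Fin 3) (j : ℕ) : fR N (s.map φ) i j = φ (fR N s i j) := by
  simp only [fR, rhod_map, map_neg, map_mul]; rfl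

end map

/-! ## the differential equation -/

/-- the state space -/
abbrev EE (N : ℕ) (A : Type*) := (Fin 3 → Fin (N + 1) → A) × (Fin 3 → A) × (Fin 3 → Fin (N + 1) → A)

/-- extension by zero -/
def toDS {N : ℕ} {A : Type*} [Zero A] (y : EE N A) : DS A :=
  ⟨fun i j => if h : j < N + 1 then y.1 i ⟨j, h⟩ else 0, y.2.1,
    fun i j => if h : j < N + 1 then y.2.2 i ⟨j, h⟩ else 0⟩

lemma toDS_U {N : ℕ} {A : Type*} [Zero A] (y : EE N A) (i : Fin 3) {j : ℕ} (h : j < N + 1) :
    (toDS y).U i j = y.1 i ⟨j, h⟩ := dif_pos h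
lemma toDS_U' {N : ℕ} {A : Type*} [Zero A] (y : EE N A) (i : Fin 3) {j : ℕ} (h : ¬ j < N + 1) :
    (toDS y).U i j = 0 := dif_neg h
lemma toDS_R {N : ℕ} {A : Type*} [Zero A] (y : EE N A) (i : Fin 3) {j : ℕ} (h : j < N + 1) :
    (toDS y).R i j = y.2.2 i ⟨j, h⟩ := dif_pos h
lemma toDS_R' {N : ℕ} {A : Type*} [Zero A] (y : EE N A) (i : Fin 3) {j : ℕ} (h : ¬ j < N + 1) :
    (toDS y).R i j = 0 := dif_neg h

/-- the vector field -/
noncomputable def vf (N : ℕ) {A : Type*} [CommRing A] [Algebra ℂ A] (e : A) (y : EE N A) : EE N A :=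
  (fun i j => e * fU N (toDS y) i j, fun i => e * Ld N (toDS y) i,
    fun i j => e * fR N (toDS y) i j)

section LB
variable {N : ℕ} {A : Type*} [NormedCommRing A] [NormedAlgebra ℂ A]

lemma LB_U (i : Fin 3) (j : ℕ) : LB (fun y : EE N A => (toDS y).U i j) := by
  by_cases h : j < N + 1
  · have : (fun y : EE N A => (toDS y).U i j) = fun y => (((ContinuousLinearMap.proj (R := ℝ)
      (φ := fun _ : Fin (N + 1) => A) ⟨j, h⟩).comp (ContinuousLinearMap.proj (R := ℝ)
      (φ := fun _ : Fin 3 => (Fin (N + 1) → A)) i)).comp (ContinuousLinearMap.fst ℝ _ _)) y := by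
      funext y; rw [toDS_U y i h]; rfl
    rw [this]
    exact LB.clm _
  · have : (fun y : EE N A => (toDS y).U i j) = fun _ => 0 := by
      funext y; exact toDS_U' y i h
    rw [this]; exact LB.const 0

lemma LB_L (i : Fin 3) : LB (fun y : EE N A => (toDS y).L i) := by
  have : (fun y : EE N A => (toDS y).L i) = fun y => ((ContinuousLinearMap.proj (R := ℝ)
      (φ := fun _ : Fin 3 => A) i).comp ((ContinuousLinearMap.fst ℝ _ _).comp
      (ContinuousLinearMap.snd ℝ _ _))) y := by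
    funext y; simp [toDS]
  rw [this]
  exact LB.clm _

lemma LB_R (i : Fin 3) (j : ℕ) : LB (fun y : EE N A => (toDS y).R i j) := by
  by_cases h : j < N + 1
  · have : (fun y : EE N A => (toDS y).R i j) = fun y => (((ContinuousLinearMap.proj (R := ℝ)
      (φ := fun _ : Fin (N + 1) => A) ⟨j, h⟩).comp (ContinuousLinearMap.proj (R := ℝ)
      (φ := fun _ : Fin 3 => (Fin (N + 1) → A)) i)).comp ((ContinuousLinearMap.snd ℝ _ _).comp
      (ContinuousLinearMap.snd ℝ _ _))) y := by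
      funext y; rw [toDS_R y i h]; rfl
    rw [this]
    exact LB.clm _
  · have : (fun y : EE N A => (toDS y).R i j) = fun _ => 0 := by
      funext y; exact toDS_R' y i h
    rw [this]; exact LB.const 0

lemma LB_D (i : Fin 3) (j : ℕ) : LB (fun y : EE N A => dD N (toDS y) i j) :=
  ((LB_U i (j + 1)).sub (LB_U i j)).smul _
lemma LB_E (i : Fin 3) (j : ℕ) : LB (fun y : EE N A => dE N (toDS y) i j) :=
  ((LB_D i (j + 1)).sub (LB_D i j)).smul _
lemma LB_lam0 (i : Fin 3) : LB (fun y : EE N A => lam0 N (toDS y) i) :=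
  (((LB_D (i + 1) 0).mul (LB_R (i + 1) 0)).sub ((LB_D (i + 2) 0).mul (LB_R (i + 2) 0))).smul _
lemma LB_lamE (i : Fin 3) : LB (fun y : EE N A => lamE N (toDS y) i) := by
  by_cases h : i = 0
  · simp only [lamE, h, if_true]
    exact ((LB_D 0 (N - 1)).mul (LB_R 0 N)).smul _
  · simp only [lamE, h, if_false]
    exact LB.const 0
lemma LB_SS (i : Fin 3) (j : ℕ) : LB (fun y : EE N A => SS N (toDS y) i j) :=
  LB.sum (fun l _ => (((LB_D i l).mul (LB_D i l)).mul (LB_R i l)).smul _)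
lemma LB_Ld (i : Fin 3) : LB (fun y : EE N A => Ld N (toDS y) i) :=
  ((LB_lamE i).sub (LB_lam0 i)).sub (LB_SS i N)
lemma LB_lam (i : Fin 3) (j : ℕ) : LB (fun y : EE N A => lam N (toDS y) i j) :=
  (((LB_lam0 i).add (LB_SS i j)).add ((LB_Ld 0).smul _)).add ((LB_Ld i).smul _)
lemma LB_rhod (i : Fin 3) (j : ℕ) : LB (fun y : EE N A => rhod N (toDS y) i j) :=
  (LB_Ld 0).add (((LB_Ld i).sub (LB_Ld 0)).smul _)
lemma LB_bb (i : Fin 3) (j : ℕ) : LB (fun y : EE N A => bb N (toDS y) i j) :=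
  ((LB_lam i (j + 1)).mul (LB_R i (j + 1))).sub ((((LB_L i).sub (LB_L 0)).mul
    (((LB_R i (j + 1)).mul (LB_R i (j + 1))).mul (LB_R i (j + 1)))).smul _)
lemma LB_VV (i : Fin 3) (j : ℕ) : LB (fun y : EE N A => VV N (toDS y) i j) :=
  (((LB_R i (j + 1)).mul (LB_R i (j + 1))).mul (LB_E i j)).add ((LB_bb i j).mul (LB_D i j))
lemma LB_fU (i : Fin 3) (j : ℕ) : LB (fun y : EE N A => fU N (toDS y) i j) := by
  unfold fU
  split_ifs
  · exact (LB.sum (fun l _ => LB_VV l 0)).smul _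
  · exact LB_VV 2 (N - 2)
  · exact LB.const 0
  · exact LB_VV i (j - 1)
lemma LB_fR (i : Fin 3) (j : ℕ) : LB (fun y : EE N A => fR N (toDS y) i j) :=
  ((LB_rhod i j).mul ((LB_R i j).mul (LB_R i j))).neg

theorem LB_vf (e : A) : LB (vf N e) := by
  refine LB.prodMk ?_ (LB.prodMk ?_ ?_)
  · refine LB.pi (fun i => LB.pi (fun j => ?_))
    exact (LB.const e).mul (LB_fU i j)
  · refine LB.pi (fun i => ?_)
    exact (LB.const e).mul (LB_Ld i)
  · refine LB.pi (fun i => LB.pi (fun j => ?_))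
    exact (LB.const e).mul (LB_fR i j)

end LB

/-! ## solutions in coordinates -/

/-- A solution in coordinates, for scalars. -/
structure Sol (N : ℕ) (e : ℂ) (s : ℝ → DS ℂ) (a b : ℝ) : Prop where
  U : ∀ t ∈ Icc a b, ∀ i, ∀ j ≤ N, HasDerivWithinAt (fun t => (s t).U i j) (e * fU N (s t) i j)
    (Icc a b) t
  L : ∀ t ∈ Icc a b, ∀ i, HasDerivWithinAt (fun t => (s t).L i) (e * Ld N (s t) i) (Icc a b) t
  R : ∀ t ∈ Icc a b, ∀ i, ∀ j ≤ N, HasDerivWithinAt (fun t => (s t).R i j) (e * fR N (s t) i j)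
    (Icc a b) t

lemma sol_of_solOn {N : ℕ} {A : Type*} [NormedCommRing A] [NormedAlgebra ℂ A] {e : A}
    {y : ℝ → EE N A} {a b : ℝ} (h : SolOn (vf N e) y a b) (φ : A →ₐ[ℂ] ℂ) (hφ : Continuous φ) :
    Sol N (φ e) (fun t => (toDS (y t)).map φ) a b := by
  let Φ : A →L[ℝ] ℂ := ⟨(φ.toLinearMap).restrictScalars ℝ, hφ⟩
  have hΦ : ∀ x, Φ x = φ x := fun _ => rfl
  have hlin : ∀ (g : ℝ → A) (g' : A) (t : ℝ), HasDerivWithinAt g g' (Icc a b) t →
      HasDerivWithinAt (fun s => φ (g s)) (φ g') (Icc a b) t := by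
    intro g g' t hg
    exact Φ.hasFDerivAt.comp_hasDerivWithinAt t hg
  refine ⟨fun t ht i j hj => ?_, fun t ht i => ?_, fun t ht i j hj => ?_⟩
  · have h1 := (h t ht).fst
    have h2 := (hasDerivWithinAt_pi.1 ((hasDerivWithinAt_pi.1 h1) i)) ⟨j, Nat.lt_succ_of_le hj⟩
    have h3 := hlin _ _ t h2
    rw [fU_map]
    have e1 : (fun t => ((toDS (y t)).map φ).U i j) =
        fun s => φ ((y s).1 i ⟨j, Nat.lt_succ_of_le hj⟩) := by
      funext u
      exact congrArg φ (toDS_U (y u) i (Nat.lt_succ_of_le hj))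
    rw [e1, ← map_mul]
    exact h3
  · have h1 := (h t ht).snd.fst
    have h2 := (hasDerivWithinAt_pi.1 h1) i
    have h3 := hlin _ _ t h2
    rw [Ld_map, ← map_mul]
    exact h3
  · have h1 := (h t ht).snd.snd
    have h2 := (hasDerivWithinAt_pi.1 ((hasDerivWithinAt_pi.1 h1) i)) ⟨j, Nat.lt_succ_of_le hj⟩
    have h3 := hlin _ _ t h2
    rw [fR_map]
    have e1 : (fun t => ((toDS (y t)).map φ).R i j) =
        fun s => φ ((y s).2.2 i ⟨j, Nat.lt_succ_of_le hj⟩) := by
      funext u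
      exact congrArg φ (toDS_R (y u) i (Nat.lt_succ_of_le hj))
    rw [e1, ← map_mul]
    exact h3

end Run7.h661x
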