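import Pool.Agent.Run7.h661.X.Disc

/-!
# The energy estimate for the semi-discrete system
-/

open Set Filter Topology Finset
open scoped NNReal InnerProductSpace

namespace Run7.h661x

/-- twice the Dirichlet energy -/
noncomputable def PP (N : ℕ) (s : DS ℂ) : ℝ :=
  ∑ i, ∑ j ∈ range N, (1 / (N : ℝ)) * ‖dD N s i j‖ ^ 2

/-- second order energy -/
noncomputable def QQ (N : ℕ) (s : DS ℂ) : ℝ :=
  ∑ i, ∑ j ∈ range (N - 1), (1 / (N : ℝ)) * ‖dE N s i j‖ ^ 2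

/-- the constraints at the boundary nodes -/
structure Con (N : ℕ) (s : DS ℂ) : Prop where
  c0 : ∀ i, s.U i 0 = (1 / 3 : ℂ) * ∑ l, s.U l 1
  c2 : s.U 2 N = s.U 2 (N - 1)

/-- bounds of the coefficients -/
structure Bd (N : ℕ) (s : DS ℂ) (m Λ p : ℝ) : Prop where
  N2 : 2 ≤ N
  m0 : 0 ≤ m
  Λ0 : 0 ≤ Λ
  p0 : 0 ≤ p
  R : ∀ i, ∀ j ≤ N, ‖s.R i j‖ ≤ m
  L : ∀ i, ‖s.L i - s.L 0‖ ≤ Λ
  P : PP N s ≤ p ^ 2

lemma abel_sum (n : ℕ) (c v : ℕ → ℂ) :
    ∑ j ∈ range (n + 1), c j * (v (j + 1) - v j) =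
      c n * v (n + 1) - c 0 * v 0 - ∑ j ∈ range n, (c (j + 1) - c j) * v (j + 1) := by
  induction n with
  | zero => simp; ring
  | succ n ih =>
    rw [sum_range_succ, ih, sum_range_succ (f := fun j => (c (j + 1) - c j) * v (j + 1))]
    ring

section
variable {N : ℕ} {s : DS ℂ} {m Λ p : ℝ}

lemma PP_nonneg : 0 ≤ PP N s := sum_nonneg (fun i _ => sum_nonneg (fun j _ => by positivity))
lemma QQ_nonneg : 0 ≤ QQ N s := sum_nonneg (fun i _ => sum_nonneg (fun j _ => by positivity))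

lemma sumP_le (i : Fin 3) : ∑ j ∈ range N, (1 / (N : ℝ)) * ‖dD N s i j‖ ^ 2 ≤ PP N s :=
  single_le_sum (f := fun i => ∑ j ∈ range N, (1 / (N : ℝ)) * ‖dD N s i j‖ ^ 2)
    (fun i _ => sum_nonneg (fun j _ => by positivity)) (Finset.mem_univ i)

lemma sumQ_le (i : Fin 3) : ∑ j ∈ range (N - 1), (1 / (N : ℝ)) * ‖dE N s i j‖ ^ 2 ≤ QQ N s :=
  single_le_sum (f := fun i => ∑ j ∈ range (N - 1), (1 / (N : ℝ)) * ‖dE N s i j‖ ^ 2)
    (fun i _ => sum_nonneg (fun j _ => by positivity)) (Finset.mem_univ i)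

/-- weighted Cauchy-Schwarz -/
lemma wCS {ι : Type*} (S : Finset ι) (c : ℝ) (_hc : 0 ≤ c) (a b : ι → ℝ) :
    (∑ j ∈ S, c * (a j * b j)) ^ 2 ≤ (∑ j ∈ S, c * a j ^ 2) * (∑ j ∈ S, c * b j ^ 2) := by
  have h := sum_mul_sq_le_sq_mul_sq S a b
  rw [← mul_sum, ← mul_sum, ← mul_sum]
  nlinarith [sq_nonneg c]

lemma N_pos (h : 2 ≤ N) : (0:ℝ) < N := by
  have : (2:ℝ) ≤ N := by exact_mod_cast h
  linarith

/-- oscillation of the first difference -/
lemma D_osc (hN : 2 ≤ N) (i : Fin 3) {j l : ℕ} (hj : j < N) (hl : l < N) {p : ℝ} (hp : 0 ≤ p)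
    (hP : PP N s ≤ p ^ 2) :
    ‖dD N s i j‖ ^ 2 ≤ ‖dD N s i l‖ ^ 2 + 2 * (p * √(QQ N s)) := by
  have hN0 := N_pos hN
  have hstep : ∀ k, |‖dD N s i (k + 1)‖ ^ 2 - ‖dD N s i k‖ ^ 2| ≤
      1 / (N : ℝ) * (‖dE N s i k‖ * ‖dD N s i (k + 1)‖) +
      1 / (N : ℝ) * (‖dE N s i k‖ * ‖dD N s i k‖) := by
    intro k
    have e1 : dD N s i (k + 1) - dD N s i k = (1 / (N : ℂ)) * dE N s i k := by
      rw [dE, smul_eq_mul]
      have : (N : ℂ) ≠ 0 := by exact_mod_cast hN0.ne'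
      field_simp
    have e2 : |‖dD N s i (k + 1)‖ - ‖dD N s i k‖| ≤ 1 / (N : ℝ) * ‖dE N s i k‖ := by
      have h1 := abs_norm_sub_norm_le (dD N s i (k + 1)) (dD N s i k)
      rw [e1, norm_mul, norm_div, norm_one, Complex.norm_natCast] at h1
      exact h1
    have e3 : ‖dD N s i (k + 1)‖ ^ 2 - ‖dD N s i k‖ ^ 2 =
      (‖dD N s i (k + 1)‖ - ‖dD N s i k‖) * (‖dD N s i (k + 1)‖ + ‖dD N s i k‖) := by ring
    rw [e3, abs_mul, abs_of_nonneg (by positivity : 0 ≤ ‖dD N s i (k + 1)‖ + ‖dD N s i k‖)]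
    have := mul_le_mul_of_nonneg_right e2 (by positivity : 0 ≤ ‖dD N s i (k + 1)‖ + ‖dD N s i k‖)
    linarith
  -- the total sum
  have htot : ∑ k ∈ range (N - 1), |‖dD N s i (k + 1)‖ ^ 2 - ‖dD N s i k‖ ^ 2| ≤
      2 * (p * √(QQ N s)) := by
    have h1 : ∑ k ∈ range (N - 1), |‖dD N s i (k + 1)‖ ^ 2 - ‖dD N s i k‖ ^ 2| ≤
        ∑ k ∈ range (N - 1), 1 / (N : ℝ) * (‖dE N s i k‖ * ‖dD N s i (k + 1)‖) +
        ∑ k ∈ range (N - 1), 1 / (N : ℝ) * (‖dE N s i k‖ * ‖dD N s i k‖) := by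
      rw [← sum_add_distrib]
      exact sum_le_sum (fun k _ => hstep k)
    have hQ := sumQ_le (N := N) (s := s) i
    have hq := Real.sq_sqrt (QQ_nonneg (N := N) (s := s))
    have hsq := Real.sqrt_nonneg (QQ N s)
    have a1 : ∑ k ∈ range (N - 1), 1 / (N : ℝ) * (‖dE N s i k‖ * ‖dD N s i (k + 1)‖) ≤
        p * √(QQ N s) := by
      have h2 := wCS (range (N - 1)) (1 / (N:ℝ)) (by positivity) (fun k => ‖dE N s i k‖)
        (fun k => ‖dD N s i (k + 1)‖)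
      have h3 : ∑ k ∈ range (N - 1), 1 / (N : ℝ) * ‖dD N s i (k + 1)‖ ^ 2 ≤ p ^ 2 := by
        refine le_trans ?_ ((sumP_le i).trans hP)
        have h4 : ∑ k ∈ range (N - 1), 1 / (N : ℝ) * ‖dD N s i (k + 1)‖ ^ 2 =
            ∑ k ∈ Finset.Ico 1 N, 1 / (N : ℝ) * ‖dD N s i k‖ ^ 2 := by
          rw [Finset.sum_Ico_eq_sum_range]
          apply sum_congr rfl
          intro k _
          rw [add_comm 1 k]
        rw [h4]
        apply sum_le_sum_of_subset_of_nonneg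
        · intro k hk
          rw [Finset.mem_range]
          exact (Finset.mem_Ico.1 hk).2
        · intro k _ _
          positivity
      have h5 : (∑ k ∈ range (N - 1), 1 / (N : ℝ) * (‖dE N s i k‖ * ‖dD N s i (k + 1)‖)) ^ 2 ≤
          (p * √(QQ N s)) ^ 2 := by
        rw [mul_pow, hq, mul_comm (p ^ 2)]
        refine h2.trans (mul_le_mul hQ h3 (sum_nonneg (fun k _ => by positivity)) QQ_nonneg)
      exact (abs_le_of_sq_le_sq' h5 (by positivity)).2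
    have a2 : ∑ k ∈ range (N - 1), 1 / (N : ℝ) * (‖dE N s i k‖ * ‖dD N s i k‖) ≤
        p * √(QQ N s) := by
      have h2 := wCS (range (N - 1)) (1 / (N:ℝ)) (by positivity) (fun k => ‖dE N s i k‖)
        (fun k => ‖dD N s i k‖)
      have h3 : ∑ k ∈ range (N - 1), 1 / (N : ℝ) * ‖dD N s i k‖ ^ 2 ≤ p ^ 2 := by
        refine le_trans ?_ ((sumP_le i).trans hP)
        apply sum_le_sum_of_subset_of_nonneg
        · intro k hk
          rw [Finset.mem_range] at hk ⊢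
          omega
        · intro k _ _
          positivity
      have h5 : (∑ k ∈ range (N - 1), 1 / (N : ℝ) * (‖dE N s i k‖ * ‖dD N s i k‖)) ^ 2 ≤
          (p * √(QQ N s)) ^ 2 := by
        rw [mul_pow, hq, mul_comm (p ^ 2)]
        refine h2.trans (mul_le_mul hQ h3 (sum_nonneg (fun k _ => by positivity)) QQ_nonneg)
      exact (abs_le_of_sq_le_sq' h5 (by positivity)).2
    linarith
  have hpath : ∀ a b : ℕ, a ≤ b → b < N → |‖dD N s i b‖ ^ 2 - ‖dD N s i a‖ ^ 2| ≤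
      2 * (p * √(QQ N s)) := by
    intro a b hab hb
    have h1 := dist_le_Ico_sum_dist (fun k => ‖dD N s i k‖ ^ 2) hab
    rw [Real.dist_eq, abs_sub_comm] at h1
    refine h1.trans (le_trans ?_ htot)
    have h2 : ∑ k ∈ Finset.Ico a b, dist (‖dD N s i k‖ ^ 2) (‖dD N s i (k + 1)‖ ^ 2) =
        ∑ k ∈ Finset.Ico a b, |‖dD N s i (k + 1)‖ ^ 2 - ‖dD N s i k‖ ^ 2| := by
      apply sum_congr rfl
      intro k _
      rw [Real.dist_eq, abs_sub_comm]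
    rw [h2]
    apply sum_le_sum_of_subset_of_nonneg
    · intro k hk
      rw [Finset.mem_range]
      have := (Finset.mem_Ico.1 hk).2
      omega
    · intro k _ _
      exact abs_nonneg _
  rcases le_total j l with h | h
  · have := (abs_le.1 (hpath j l h hl)).1
    linarith
  · have := (abs_le.1 (hpath l j h hj)).2
    linarith

/-- sup bound of the first difference -/
lemma D_sup (hN : 2 ≤ N) {p : ℝ} (hp : 0 ≤ p) (hP : PP N s ≤ p ^ 2) (i : Fin 3) {j : ℕ}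
    (hj : j < N) : ‖dD N s i j‖ ^ 2 ≤ p ^ 2 + 2 * (p * √(QQ N s)) := by
  have hN0 := N_pos hN
  have h1 : ∑ l ∈ range N, (1 / (N:ℝ)) * ‖dD N s i j‖ ^ 2 ≤
      ∑ l ∈ range N, (1 / (N:ℝ)) * (‖dD N s i l‖ ^ 2 + 2 * (p * √(QQ N s))) := by
    apply sum_le_sum
    intro l hl
    apply mul_le_mul_of_nonneg_left _ (by positivity)
    exact D_osc hN i hj (Finset.mem_range.1 hl) hp hP
  rw [sum_const, card_range, nsmul_eq_mul] at h1
  simp only [mul_add] at h1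
  rw [sum_add_distrib, sum_const, card_range, nsmul_eq_mul] at h1
  have h2 := (sumP_le (N := N) (s := s) i).trans hP
  have e1 : (N:ℝ) * (1 / (N:ℝ) * ‖dD N s i j‖ ^ 2) = ‖dD N s i j‖ ^ 2 := by field_simp
  have e2 : (N:ℝ) * (1 / (N:ℝ) * (2 * (p * √(QQ N s)))) = 2 * (p * √(QQ N s)) := by field_simp
  rw [e1, e2] at h1
  linarith

lemma inv_sqrt3_le : 1 / √3 ≤ 1 := by
  rw [div_le_one (by positivity)]
  exact Real.one_le_sqrt.2 (by norm_num)

lemma xn_le {j : ℕ} (hN : 2 ≤ N) (hj : j ≤ N) : ‖xn N j‖ ≤ 1 := by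
  have hN0 := N_pos hN
  rw [xn, norm_div, Complex.norm_natCast, Complex.norm_natCast, div_le_one hN0]
  exact_mod_cast hj

lemma xn_le' {j : ℕ} (hN : 2 ≤ N) (hj : j ≤ N) : ‖xn N j - xn N j ^ 2‖ ≤ 1 := by
  have hN0 := N_pos hN
  have e : xn N j - xn N j ^ 2 = (((j:ℝ) / N - ((j:ℝ) / N) ^ 2 : ℝ) : ℂ) := by
    rw [xn]; push_cast; ring
  rw [e, Complex.norm_real, Real.norm_eq_abs]
  have h1 : (j:ℝ) / N ≤ 1 := by
    rw [div_le_one hN0]; exact_mod_cast hj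
  have h0 : 0 ≤ (j:ℝ) / N := by positivity
  rw [abs_le]
  constructor <;> nlinarith

section bounds
variable (H : Bd N s m Λ p) {g : ℝ}
include H

lemma Bd.g_nonneg (hg : ∀ i, ∀ j < N, ‖dD N s i j‖ ≤ g) : 0 ≤ g :=
  (norm_nonneg _).trans (hg 0 0 (by have := H.N2; omega))

lemma Bd.lam0_le (hg : ∀ i, ∀ j < N, ‖dD N s i j‖ ≤ g) (i : Fin 3) :
    ‖lam0 N s i‖ ≤ 2 * (g * m) := by
  have hN := H.N2
  have hg0 := H.g_nonneg hg
  rw [lam0, norm_smul, Complex.norm_real, Real.norm_of_nonneg (by positivity)]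
  have h1 := norm_sub_le (dD N s (i + 1) 0 * s.R (i + 1) 0) (dD N s (i + 2) 0 * s.R (i + 2) 0)
  rw [norm_mul, norm_mul] at h1
  have h2 := mul_le_mul (hg (i + 1) 0 (by omega)) (H.R (i + 1) 0 (Nat.zero_le _))
    (norm_nonneg _) hg0
  have h3 := mul_le_mul (hg (i + 2) 0 (by omega)) (H.R (i + 2) 0 (Nat.zero_le _))
    (norm_nonneg _) hg0
  have h4 := inv_sqrt3_le
  have h5 : 0 ≤ 2 * (g * m) := by have := H.m0; positivity
  calc 1 / √3 * ‖dD N s (i + 1) 0 * s.R (i + 1) 0 - dD N s (i + 2) 0 * s.R (i + 2) 0‖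
      ≤ 1 * (2 * (g * m)) := mul_le_mul h4 (by linarith) (norm_nonneg _) (by norm_num)
    _ = _ := one_mul _

lemma Bd.lamE_le (hg : ∀ i, ∀ j < N, ‖dD N s i j‖ ≤ g) (i : Fin 3) :
    ‖lamE N s i‖ ≤ g * m := by
  have hN := H.N2
  have hg0 := H.g_nonneg hg
  have hm := H.m0
  rw [lamE]
  split_ifs
  · rw [norm_smul, Complex.norm_real, norm_neg, Real.norm_of_nonneg (by positivity), norm_mul]
    have h2 := mul_le_mul (hg 0 (N - 1) (by omega)) (H.R 0 N (le_refl _)) (norm_nonneg _) hg0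
    calc 1 / √3 * (‖dD N s 0 (N - 1)‖ * ‖s.R 0 N‖) ≤ 1 * (g * m) :=
        mul_le_mul inv_sqrt3_le h2 (by positivity) (by norm_num)
      _ = _ := one_mul _
  · rw [norm_zero]; positivity

lemma Bd.SS_le (i : Fin 3) {j : ℕ} (hj : j ≤ N) : ‖SS N s i j‖ ≤ m * p ^ 2 := by
  have hm := H.m0
  have hN0 := N_pos H.N2
  have h1 : ‖SS N s i j‖ ≤ ∑ l ∈ range N, (1 / (N:ℝ)) * ‖dD N s i l‖ ^ 2 * m := by
    refine (norm_sum_le _ _).trans ?_
    refine le_trans (b := ∑ l ∈ range j, (1 / (N:ℝ)) * ‖dD N s i l‖ ^ 2 * m) ?_ ?_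
    · apply sum_le_sum
      intro l hl
      have hl' : l ≤ N := by have := Finset.mem_range.1 hl; omega
      rw [norm_smul, norm_mul, norm_mul, norm_div, norm_one, Complex.norm_natCast]
      have := mul_le_mul_of_nonneg_left (H.R i l hl')
        (by positivity : 0 ≤ 1 / (N:ℝ) * (‖dD N s i l‖ * ‖dD N s i l‖))
      calc 1 / (N:ℝ) * (‖dD N s i l‖ * ‖dD N s i l‖ * ‖s.R i l‖)
          = 1 / (N:ℝ) * (‖dD N s i l‖ * ‖dD N s i l‖) * ‖s.R i l‖ := by ring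
        _ ≤ _ := this
        _ = _ := by ring
    · apply sum_le_sum_of_subset_of_nonneg
      · intro k hk
        rw [Finset.mem_range] at hk ⊢
        omega
      · intro k _ _
        positivity
  rw [← sum_mul] at h1
  have h2 := (sumP_le (N := N) (s := s) i).trans H.P
  nlinarith

lemma Bd.Ld_le (hg : ∀ i, ∀ j < N, ‖dD N s i j‖ ≤ g) (i : Fin 3) :
    ‖Ld N s i‖ ≤ 3 * (g * m) + m * p ^ 2 := by
  have h1 := H.lamE_le hg i
  have h2 := H.lam0_le hg i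
  have h3 := H.SS_le i (le_refl N)
  rw [Ld]
  have h4 := norm_sub_le (lamE N s i - lam0 N s i) (SS N s i N)
  have h5 := norm_sub_le (lamE N s i) (lam0 N s i)
  linarith

lemma Bd.lam_le (hg : ∀ i, ∀ j < N, ‖dD N s i j‖ ≤ g) (i : Fin 3) {j : ℕ} (hj : j ≤ N) :
    ‖lam N s i j‖ ≤ 8 * (g * m) + 3 * (m * p ^ 2) := by
  have h2 := H.lam0_le hg i
  have h3 := H.SS_le i hj
  have h4 := H.Ld_le hg 0
  have h5 := H.Ld_le hg i
  have hx := xn_le H.N2 hj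
  have hx' := xn_le' H.N2 hj
  have h6 : ‖(xn N j - xn N j ^ 2) • Ld N s 0‖ ≤ 3 * (g * m) + m * p ^ 2 := by
    rw [norm_smul]
    calc _ ≤ 1 * (3 * (g * m) + m * p ^ 2) := mul_le_mul hx' h4 (norm_nonneg _) (by norm_num)
      _ = _ := one_mul _
  have h7 : ‖(xn N j ^ 2) • Ld N s i‖ ≤ 3 * (g * m) + m * p ^ 2 := by
    rw [norm_smul, norm_pow]
    have : ‖xn N j‖ ^ 2 ≤ 1 := pow_le_one₀ (norm_nonneg _) hx
    calc _ ≤ 1 * (3 * (g * m) + m * p ^ 2) := mul_le_mul this h5 (norm_nonneg _) (by norm_num)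
      _ = _ := one_mul _
  rw [lam]
  have k1 := norm_add_le (lam0 N s i + SS N s i j + (xn N j - xn N j ^ 2) • Ld N s 0)
    ((xn N j ^ 2) • Ld N s i)
  have k2 := norm_add_le (lam0 N s i + SS N s i j) ((xn N j - xn N j ^ 2) • Ld N s 0)
  have k3 := norm_add_le (lam0 N s i) (SS N s i j)
  linarith

lemma Bd.bb_le (hg : ∀ i, ∀ j < N, ‖dD N s i j‖ ≤ g) (i : Fin 3) {j : ℕ} (hj : j < N) :
    ‖bb N s i j‖ ≤ (8 * (g * m) + 3 * (m * p ^ 2)) * m + 2 * (Λ * m ^ 3) := by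
  have h1 := H.lam_le hg i (j := j + 1) hj
  have h2 := H.R i (j + 1) hj
  have h3 := H.L i
  have hm := H.m0
  have hg0 := H.g_nonneg hg
  have hΛ := H.Λ0
  rw [bb]
  have k1 := norm_sub_le (lam N s i (j + 1) * s.R i (j + 1))
    ((2 : ℂ) • ((s.L i - s.L 0) * (s.R i (j + 1) * s.R i (j + 1) * s.R i (j + 1))))
  rw [norm_mul, norm_smul, norm_mul, norm_mul, norm_mul, Complex.norm_ofNat] at k1
  have k2 := mul_le_mul h1 h2 (norm_nonneg _) (by positivity)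
  have k3 : ‖s.R i (j + 1)‖ * ‖s.R i (j + 1)‖ * ‖s.R i (j + 1)‖ ≤ m ^ 3 := by
    have := pow_le_pow_left₀ (norm_nonneg _) h2 3
    calc _ = ‖s.R i (j + 1)‖ ^ 3 := by ring
      _ ≤ _ := this
  have k4 := mul_le_mul h3 k3 (by positivity) hΛ
  linarith

lemma Bd.rhod_le (hg : ∀ i, ∀ j < N, ‖dD N s i j‖ ≤ g) (i : Fin 3) {j : ℕ} (hj : j ≤ N) :
    ‖rhod N s i j‖ ≤ 5 * (3 * (g * m) + m * p ^ 2) := by
  have h4 := H.Ld_le hg 0
  have h5 := H.Ld_le hg i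
  have hx := xn_le H.N2 hj
  rw [rhod]
  have k1 := norm_add_le (Ld N s 0) ((2 * xn N j) • (Ld N s i - Ld N s 0))
  have k2 : ‖(2 * xn N j) • (Ld N s i - Ld N s 0)‖ ≤ 2 * (2 * (3 * (g * m) + m * p ^ 2)) := by
    rw [norm_smul, norm_mul, Complex.norm_ofNat]
    have k3 := norm_sub_le (Ld N s i) (Ld N s 0)
    apply mul_le_mul (by linarith) (by linarith) (norm_nonneg _) (by norm_num)
  linarith

end bounds

/-- the derivative of `PP` along the vector field `v` -/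
noncomputable def dP (N : ℕ) (s : DS ℂ) (v : Fin 3 → ℕ → ℂ) : ℝ :=
  ∑ i, ∑ j ∈ range N, (1 / (N : ℝ)) * (2 * (starRingEnd ℂ (dD N s i j) *
    ((N : ℂ) * (v i (j + 1) - v i j))).re)

lemma dP_eq (hN : 2 ≤ N) (hc : Con N s) {v : Fin 3 → ℕ → ℂ} (h0 : ∀ i, v i 0 = v 0 0)
    (h1 : v 0 N = 0) (h2 : v 1 N = 0) :
    dP N s v = -∑ i, ∑ j ∈ range (N - 1), (1 / (N : ℝ)) *
      (2 * (starRingEnd ℂ (dE N s i j) * v i (j + 1)).re) := by
  have hN0 := N_pos hN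
  have hNc : (N : ℂ) ≠ 0 := by exact_mod_cast hN0.ne'
  obtain ⟨n, rfl⟩ : ∃ n, N = n + 1 := ⟨N - 1, by omega⟩
  have hi : ∀ i, ∑ j ∈ range (n + 1), (1 / ((n + 1 : ℕ) : ℝ)) * (2 * (starRingEnd ℂ
      (dD (n + 1) s i j) * (((n + 1 : ℕ) : ℂ) * (v i (j + 1) - v i j))).re) =
      2 * (starRingEnd ℂ (dD (n + 1) s i n) * v i (n + 1) -
        starRingEnd ℂ (dD (n + 1) s i 0) * v i 0).re -
      ∑ j ∈ range n, (1 / ((n + 1 : ℕ) : ℝ)) *
      (2 * (starRingEnd ℂ (dE (n + 1) s i j) * v i (j + 1)).re) := by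
    intro i
    have ab := abel_sum n (fun j => starRingEnd ℂ (dD (n + 1) s i j)) (fun j => v i j)
    have l1 : ∑ j ∈ range (n + 1), (1 / ((n + 1 : ℕ) : ℝ)) * (2 * (starRingEnd ℂ
      (dD (n + 1) s i j) * (((n + 1 : ℕ) : ℂ) * (v i (j + 1) - v i j))).re) =
      2 * (∑ j ∈ range (n + 1), starRingEnd ℂ (dD (n + 1) s i j) * (v i (j + 1) - v i j)).re := by
      rw [Complex.re_sum, mul_sum]
      apply sum_congr rfl
      intro j _
      have : starRingEnd ℂ (dD (n + 1) s i j) * (((n + 1 : ℕ) : ℂ) * (v i (j + 1) - v i j)) =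
        (((n + 1 : ℕ) : ℝ) : ℂ) * (starRingEnd ℂ (dD (n + 1) s i j) * (v i (j + 1) - v i j)) := by
        push_cast; ring
      rw [this, Complex.re_ofReal_mul]
      field_simp
    have l2 : (∑ j ∈ range n, (starRingEnd ℂ (dD (n + 1) s i (j + 1)) -
        starRingEnd ℂ (dD (n + 1) s i j)) * v i (j + 1)).re =
        ∑ j ∈ range n, (1 / ((n + 1 : ℕ) : ℝ)) *
      (starRingEnd ℂ (dE (n + 1) s i j) * v i (j + 1)).re := by
      rw [Complex.re_sum]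
      apply sum_congr rfl
      intro j _
      rw [← map_sub]
      have e1 : dE (n + 1) s i j = (((n + 1 : ℕ) : ℝ) : ℂ) *
          (dD (n + 1) s i (j + 1) - dD (n + 1) s i j) := by
        rw [dE, smul_eq_mul]; push_cast; ring
      rw [e1, map_mul, Complex.conj_ofReal, mul_assoc, Complex.re_ofReal_mul]
      field_simp
    have l3 : ∑ j ∈ range n, (1 / ((n + 1 : ℕ) : ℝ)) *
      (2 * (starRingEnd ℂ (dE (n + 1) s i j) * v i (j + 1)).re) =
      2 * ∑ j ∈ range n, (1 / ((n + 1 : ℕ) : ℝ)) *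
      (starRingEnd ℂ (dE (n + 1) s i j) * v i (j + 1)).re := by
      rw [mul_sum]
      apply sum_congr rfl
      intro j _
      ring
    rw [l1, ab, Complex.sub_re, l2, l3]
    ring
  rw [dP]
  simp only [hi]
  rw [sum_sub_distrib]
  have hb : ∑ i, 2 * (starRingEnd ℂ (dD (n + 1) s i n) * v i (n + 1) -
        starRingEnd ℂ (dD (n + 1) s i 0) * v i 0).re = 0 := by
    have e0 : ∑ i, starRingEnd ℂ (dD (n + 1) s i 0) = 0 := by
      rw [← map_sum]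
      have : ∑ i, dD (n + 1) s i 0 = 0 := by
        simp only [dD, smul_eq_mul, ← mul_sum, sum_sub_distrib, hc.c0, sum_const,
          Finset.card_univ, Fintype.card_fin, nsmul_eq_mul]
        push_cast
        ring
      rw [this, map_zero]
    have e2 : dD (n + 1) s 2 n = 0 := by
      have := hc.c2
      simp only [Nat.add_sub_cancel] at this
      rw [dD, this, sub_self, smul_zero]
    rw [← mul_sum, ← Complex.re_sum, sum_sub_distrib]
    have e3 : ∑ i, starRingEnd ℂ (dD (n + 1) s i 0) * v i 0 = 0 := by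
      simp only [h0]
      rw [← sum_mul, e0, zero_mul]
    rw [e3, Fin.sum_univ_three, h1, h2, e2]
    simp
  rw [hb, zero_sub]
  simp only [Nat.add_sub_cancel]

/-- Cauchy-Schwarz for the mixed term -/
lemma mix_le (hN : 2 ≤ N) {p : ℝ} (hp : 0 ≤ p) (hP : PP N s ≤ p ^ 2) :
    ∑ i, ∑ j ∈ range (N - 1), (1 / (N : ℝ)) * (‖dE N s i j‖ * ‖dD N s i j‖) ≤
      p * √(QQ N s) := by
  have hN0 := N_pos hN
  have e : ∀ f : Fin 3 → ℕ → ℝ, ∑ i, ∑ j ∈ range (N - 1), f i j =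
    ∑ x ∈ (Finset.univ : Finset (Fin 3)) ×ˢ range (N - 1), f x.1 x.2 := fun f => by
      rw [sum_product]
  have h2 := wCS ((Finset.univ : Finset (Fin 3)) ×ˢ range (N - 1)) (1 / (N:ℝ)) (by positivity)
    (fun x => ‖dE N s x.1 x.2‖) (fun x => ‖dD N s x.1 x.2‖)
  rw [← e (fun i j => 1 / (N:ℝ) * (‖dE N s i j‖ * ‖dD N s i j‖)),
    ← e (fun i j => 1 / (N:ℝ) * ‖dE N s i j‖ ^ 2),
    ← e (fun i j => 1 / (N:ℝ) * ‖dD N s i j‖ ^ 2)] at h2
  have h3 : ∑ i, ∑ j ∈ range (N - 1), 1 / (N : ℝ) * ‖dD N s i j‖ ^ 2 ≤ p ^ 2 := by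
    refine le_trans ?_ hP
    apply sum_le_sum
    intro i _
    apply sum_le_sum_of_subset_of_nonneg
    · intro k hk
      rw [Finset.mem_range] at hk ⊢
      omega
    · intro k _ _
      positivity
  have hq := Real.sq_sqrt (QQ_nonneg (N := N) (s := s))
  have h5 : (∑ i, ∑ j ∈ range (N - 1), (1 / (N : ℝ)) * (‖dE N s i j‖ * ‖dD N s i j‖)) ^ 2 ≤
      (p * √(QQ N s)) ^ 2 := by
    rw [mul_pow, hq, mul_comm (p ^ 2)]
    exact h2.trans (mul_le_mul (le_refl _) h3 (sum_nonneg (fun k _ => sum_nonneg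
      (fun j _ => by positivity))) QQ_nonneg)
  exact (abs_le_of_sq_le_sq' h5 (by positivity)).2

/-- the constant in the energy estimate -/
noncomputable def C1 (m Λ p c : ℝ) : ℝ :=
  (2 * (32 * m ^ 2 * p) ^ 2 * p ^ 2 / c) +
    (2 * ((4 * (32 * m ^ 2 * p) ^ 2 * p / c) + (12 * m ^ 2 * p ^ 2 + 8 * Λ * m ^ 3) * p) ^ 2 / c)

lemma young1 {c a g q p : ℝ} (hc : 0 < c) (hg : g ^ 2 = p ^ 2 + 2 * (p * q)) :
    a * g * q ≤ c / 8 * q ^ 2 + (2 * a ^ 2 * p ^ 2 / c) + (4 * a ^ 2 * p / c) * q := by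
  have h1 : 0 ≤ (c * q - 4 * a * g) ^ 2 := sq_nonneg _
  have h2 : a * g * q ≤ c / 8 * q ^ 2 + 2 * a ^ 2 * g ^ 2 / c := by
    rw [← sub_nonneg]
    have : c / 8 * q ^ 2 + 2 * a ^ 2 * g ^ 2 / c - a * g * q = (c * q - 4 * a * g) ^ 2 / (8 * c) := by
      field_simp; ring
    rw [this]; positivity
  rw [hg] at h2
  have : 2 * a ^ 2 * (p ^ 2 + 2 * (p * q)) / c = (2 * a ^ 2 * p ^ 2 / c) + (4 * a ^ 2 * p / c) * q := by
    field_simp; ring
  linarith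

lemma young2 {c a q : ℝ} (hc : 0 < c) : a * q ≤ c / 8 * q ^ 2 + 2 * a ^ 2 / c := by
  rw [← sub_nonneg]
  have : c / 8 * q ^ 2 + 2 * a ^ 2 / c - a * q = (c * q - 4 * a) ^ 2 / (8 * c) := by
    field_simp; ring
  rw [this]; positivity

/-- the sup bound `g` -/
noncomputable def gg (N : ℕ) (s : DS ℂ) (p : ℝ) : ℝ := √(p ^ 2 + 2 * (p * √(QQ N s)))

lemma Bd.gg_bound (H : Bd N s m Λ p) : ∀ i, ∀ j < N, ‖dD N s i j‖ ≤ gg N s p := fun i _ hj =>
  Real.le_sqrt_of_sq_le (D_sup H.N2 H.p0 H.P i hj)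

lemma Bd.gg_sq (H : Bd N s m Λ p) : gg N s p ^ 2 = p ^ 2 + 2 * (p * √(QQ N s)) :=
  Real.sq_sqrt (by have := H.p0; positivity)

/-- The energy estimate. -/
theorem energy (H : Bd N s m Λ p) (hc : Con N s) {e : ℂ} {c : ℝ} (hc0 : 0 < c) (he : ‖e‖ ≤ 2)
    (hRe : ∀ i, ∀ j ≤ N, c ≤ (e * (s.R i j * s.R i j)).re) {v : Fin 3 → ℕ → ℂ}
    (h0 : ∀ i, v i 0 = v 0 0) (h1 : v 0 N = 0) (h2 : v 1 N = 0)
    (hv : ∀ i, ∀ j < N - 1, v i (j + 1) = e * VV N s i j) :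
    dP N s v ≤ -(c * QQ N s) + C1 m Λ p c := by
  have hN0 := N_pos H.N2
  have hm := H.m0
  have hΛ := H.Λ0
  have hp := H.p0
  set q := √(QQ N s) with hq
  have hq2 : q ^ 2 = QQ N s := Real.sq_sqrt QQ_nonneg
  have hq0 : 0 ≤ q := Real.sqrt_nonneg _
  set g := gg N s p with hg
  have hgb := H.gg_bound
  have hg0 : 0 ≤ g := H.g_nonneg hgb
  have hg2 := H.gg_sq
  set β := (8 * (g * m) + 3 * (m * p ^ 2)) * m + 2 * (Λ * m ^ 3) with hβ
  have hβ0 : 0 ≤ β := by positivity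
  rw [dP_eq H.N2 hc h0 h1 h2]
  have hterm : ∀ i, ∀ j ∈ range (N - 1), c * (1 / (N:ℝ) * ‖dE N s i j‖ ^ 2) * 2 -
      4 * β * (1 / (N:ℝ) * (‖dE N s i j‖ * ‖dD N s i j‖)) ≤
      (1 / (N : ℝ)) * (2 * (starRingEnd ℂ (dE N s i j) * v i (j + 1)).re) := by
    intro i j hj
    have hj' := Finset.mem_range.1 hj
    rw [hv i j hj', VV]
    have e1 : starRingEnd ℂ (dE N s i j) * (e * (s.R i (j + 1) * s.R i (j + 1) * dE N s i j +
        bb N s i j * dD N s i j)) = ((‖dE N s i j‖ ^ 2 : ℝ) : ℂ) * (e * (s.R i (j + 1) * s.R i (j + 1)))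
        + e * bb N s i j * (starRingEnd ℂ (dE N s i j) * dD N s i j) := by
      have : starRingEnd ℂ (dE N s i j) * dE N s i j = ((‖dE N s i j‖ ^ 2 : ℝ) : ℂ) := by
        rw [mul_comm, Complex.mul_conj, Complex.normSq_eq_norm_sq]
      rw [← this]; ring
    rw [e1, Complex.add_re, Complex.re_ofReal_mul]
    have k1 := hRe i (j + 1) (by omega)
    have k2 := mul_le_mul_of_nonneg_left k1 (sq_nonneg ‖dE N s i j‖)
    have k3 : -(2 * β * (‖dE N s i j‖ * ‖dD N s i j‖)) ≤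
        (e * bb N s i j * (starRingEnd ℂ (dE N s i j) * dD N s i j)).re := by
      have a1 := Complex.abs_re_le_norm (e * bb N s i j * (starRingEnd ℂ (dE N s i j) * dD N s i j))
      rw [norm_mul, norm_mul, norm_mul, RCLike.norm_conj] at a1
      have a2 := H.bb_le hgb i (j := j) (by omega)
      have a3 : ‖e‖ * ‖bb N s i j‖ ≤ 2 * β := mul_le_mul he a2 (norm_nonneg _) (by norm_num)
      have a4 := mul_le_mul_of_nonneg_right a3
        (by positivity : 0 ≤ ‖dE N s i j‖ * ‖dD N s i j‖)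
      have a5 := (abs_le.1 (a1.trans a4)).1
      exact a5
    have hN1 : 0 ≤ 1 / (N:ℝ) := by positivity
    have k4 : c * ‖dE N s i j‖ ^ 2 * 2 - 4 * β * (‖dE N s i j‖ * ‖dD N s i j‖) ≤
      2 * (‖dE N s i j‖ ^ 2 * (e * (s.R i (j + 1) * s.R i (j + 1))).re +
        (e * bb N s i j * (starRingEnd ℂ (dE N s i j) * dD N s i j)).re) := by linarith
    have k5 := mul_le_mul_of_nonneg_left k4 hN1
    linarith
  have hsum : c * QQ N s * 2 - 4 * β * (∑ i, ∑ j ∈ range (N - 1), 1 / (N:ℝ) *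
      (‖dE N s i j‖ * ‖dD N s i j‖)) ≤ ∑ i, ∑ j ∈ range (N - 1), (1 / (N : ℝ)) *
      (2 * (starRingEnd ℂ (dE N s i j) * v i (j + 1)).re) := by
    rw [QQ, mul_sum, sum_mul, mul_sum, ← sum_sub_distrib]
    apply sum_le_sum
    intro i _
    rw [mul_sum, sum_mul, mul_sum, ← sum_sub_distrib]
    exact sum_le_sum (hterm i)
  have hmix := mix_le H.N2 hp H.P
  have h4 : 4 * β * (∑ i, ∑ j ∈ range (N - 1), 1 / (N:ℝ) * (‖dE N s i j‖ * ‖dD N s i j‖)) ≤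
      4 * β * (p * q) := mul_le_mul_of_nonneg_left hmix (by positivity)
  -- Young
  have y1 := young1 (a := 32 * m ^ 2 * p) (q := q) hc0 hg2
  have y2 := young2 (a := (4 * (32 * m ^ 2 * p) ^ 2 * p / c) +
    (12 * m ^ 2 * p ^ 2 + 8 * Λ * m ^ 3) * p) (q := q) hc0
  have e5 : 4 * β * (p * q) = 32 * m ^ 2 * p * g * q +
      (12 * m ^ 2 * p ^ 2 + 8 * Λ * m ^ 3) * p * q := by
    rw [hβ]; ring
  rw [C1, ← hq2]
  rw [← hq2] at hsum
  have hcq : 0 ≤ c * q ^ 2 := by positivity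
  linarith

/-- the constant for the lengths -/
noncomputable def C2 (m p : ℝ) : ℝ := 6 * m * (1 + p ^ 2) + 2 * m * p ^ 2 + 36 * m ^ 2 * p ^ 2

lemma Bd.Ld_small (H : Bd N s m Λ p) {e : ℂ} (he : ‖e‖ ≤ 2) {κ : ℝ} (hκ : 0 < κ) (hκ1 : κ ≤ 1)
    (i : Fin 3) : ‖e * Ld N s i‖ ≤ κ * QQ N s + C2 m p / κ := by
  have hm := H.m0
  have hp := H.p0
  set q := √(QQ N s) with hq
  have hq2 : q ^ 2 = QQ N s := Real.sq_sqrt QQ_nonneg
  have hq0 : 0 ≤ q := Real.sqrt_nonneg _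
  have hgb := H.gg_bound
  have hg2 := H.gg_sq
  have h1 := H.Ld_le hgb i
  set g := gg N s p with hg
  have hg0 : 0 ≤ g := H.g_nonneg hgb
  have h2 : g ≤ 1 + (p ^ 2 + 2 * (p * q)) := by
    rw [← hg2]; nlinarith [sq_nonneg (g - 1)]
  have h3 : ‖e * Ld N s i‖ ≤ 2 * (3 * (g * m) + m * p ^ 2) := by
    rw [norm_mul]
    exact mul_le_mul he h1 (norm_nonneg _) (by norm_num)
  have h4 : 12 * m * p * q ≤ κ * q ^ 2 + 36 * m ^ 2 * p ^ 2 / κ := by
    rw [← sub_nonneg]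
    have : κ * q ^ 2 + 36 * m ^ 2 * p ^ 2 / κ - 12 * m * p * q = (κ * q - 6 * m * p) ^ 2 / κ := by
      field_simp; ring
    rw [this]; positivity
  have h5 : 6 * m * (1 + p ^ 2) + 2 * m * p ^ 2 ≤ (6 * m * (1 + p ^ 2) + 2 * m * p ^ 2) / κ := by
    rw [le_div_iff₀ hκ]
    have : 0 ≤ 6 * m * (1 + p ^ 2) + 2 * m * p ^ 2 := by positivity
    nlinarith
  have h6 := mul_le_mul_of_nonneg_left h2 hm
  rw [← hq2]
  have h7 : C2 m p / κ = (6 * m * (1 + p ^ 2) + 2 * m * p ^ 2) / κ + 36 * m ^ 2 * p ^ 2 / κ := by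
    rw [C2]; ring
  rw [h7]
  nlinarith

end

end Run7.h661x
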