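import Pool.Agent.Run7.h661.X.Local

/-!
# Holomorphic extension of the semi-discrete solutions in time
-/

open Set Filter Topology Finset
open scoped NNReal InnerProductSpace

namespace Run7.h661x

/-- a holomorphic family of states -/
structure Hol (N : ℕ) (G : ℂ → DS ℂ) (B : Set ℂ) : Prop where
  U : ∀ i, ∀ j ≤ N, DifferentiableOn ℂ (fun z => (G z).U i j) B
  L : ∀ i, DifferentiableOn ℂ (fun z => (G z).L i) B
  R : ∀ i, ∀ j ≤ N, DifferentiableOn ℂ (fun z => (G z).R i j) B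

section
variable {N : ℕ} {G : ℂ → DS ℂ} {B : Set ℂ} (H : Hol N G B)
include H

lemma Hol.D (i : Fin 3) {j : ℕ} (hj : j < N) : DifferentiableOn ℂ (fun z => dD N (G z) i j) B := by
  have := ((H.U i (j + 1) hj).fun_sub (H.U i j hj.le)).const_mul (N : ℂ)
  exact this
lemma Hol.E (i : Fin 3) {j : ℕ} (hj : j + 1 < N) :
    DifferentiableOn ℂ (fun z => dE N (G z) i j) B := by
  have := ((H.D i (j := j + 1) hj).fun_sub (H.D i (j := j) (by omega))).const_mul (N : ℂ)
  exact this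
lemma Hol.lam0 (hN : 2 ≤ N) (i : Fin 3) : DifferentiableOn ℂ (fun z => lam0 N (G z) i) B := by
  have := (((H.D (i + 1) (j := 0) (by omega)).fun_mul (H.R (i + 1) 0 (Nat.zero_le _))).fun_sub
    ((H.D (i + 2) (j := 0) (by omega)).fun_mul (H.R (i + 2) 0 (Nat.zero_le _)))).const_mul
    ((1 / √3 : ℝ) : ℂ)
  exact this
lemma Hol.lamE (hN : 2 ≤ N) (i : Fin 3) : DifferentiableOn ℂ (fun z => lamE N (G z) i) B := by
  by_cases h : i = 0
  · have := ((H.D 0 (j := N - 1) (by omega)).fun_mul (H.R 0 N (le_refl _))).const_mul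
      ((-(1 / √3) : ℝ) : ℂ)
    simp only [Run7.h661x.lamE, h, if_true]
    exact this
  · simp only [Run7.h661x.lamE, h, if_false]
    exact differentiableOn_const 0
lemma Hol.SS (i : Fin 3) {j : ℕ} (hj : j ≤ N) : DifferentiableOn ℂ (fun z => SS N (G z) i j) B := by
  unfold Run7.h661x.SS
  apply DifferentiableOn.fun_sum
  intro l hl
  have hl' := Finset.mem_range.1 hl
  have h1 := H.D i (j := l) (by omega)
  have := ((h1.fun_mul h1).fun_mul (H.R i l (by omega))).const_mul (1 / (N : ℂ))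
  exact this
lemma Hol.Ld (hN : 2 ≤ N) (i : Fin 3) : DifferentiableOn ℂ (fun z => Ld N (G z) i) B :=
  ((H.lamE hN i).fun_sub (H.lam0 hN i)).fun_sub (H.SS i (le_refl _))
lemma Hol.lam (hN : 2 ≤ N) (i : Fin 3) {j : ℕ} (hj : j ≤ N) :
    DifferentiableOn ℂ (fun z => lam N (G z) i j) B := by
  have := (((H.lam0 hN i).fun_add (H.SS i hj)).fun_add ((H.Ld hN 0).const_mul
    (xn N j - xn N j ^ 2))).fun_add ((H.Ld hN i).const_mul (xn N j ^ 2))
  exact this
lemma Hol.bb (hN : 2 ≤ N) (i : Fin 3) {j : ℕ} (hj : j + 1 ≤ N) :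
    DifferentiableOn ℂ (fun z => bb N (G z) i j) B := by
  have hR := H.R i (j + 1) hj
  have := ((H.lam hN i hj).fun_mul hR).fun_sub ((((H.L i).fun_sub (H.L 0)).fun_mul
    ((hR.fun_mul hR).fun_mul hR)).const_mul (2 : ℂ))
  exact this
lemma Hol.VV (hN : 2 ≤ N) (i : Fin 3) {j : ℕ} (hj : j + 1 < N) :
    DifferentiableOn ℂ (fun z => VV N (G z) i j) B := by
  have hR := H.R i (j + 1) hj.le
  exact ((hR.fun_mul hR).fun_mul (H.E i hj)).fun_add ((H.bb hN i hj.le).fun_mul
    (H.D i (j := j) (by omega)))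
lemma Hol.fU (hN : 2 ≤ N) (i : Fin 3) {j : ℕ} (hj : j ≤ N) :
    DifferentiableOn ℂ (fun z => fU N (G z) i j) B := by
  unfold Run7.h661x.fU
  split_ifs with h1 h2 h3
  · have : DifferentiableOn ℂ (fun z => ∑ l, Run7.h661x.VV N (G z) l 0) B :=
      DifferentiableOn.fun_sum (fun l _ => H.VV hN l (j := 0) (by omega))
    exact this.const_mul (1 / 3 : ℂ)
  · exact H.VV hN 2 (j := N - 2) (by omega)
  · exact differentiableOn_const 0
  · exact H.VV hN i (j := j - 1) (by omega)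

end

lemma vf_smul {N : ℕ} (e : ℂ) (y : EE N ℂ) : vf N e y = e • vf N 1 y := by
  simp only [vf, one_mul]
  rfl

lemma DS.eta (s : DS ℂ) : s = ⟨s.U, s.L, s.R⟩ := rfl

section
variable {N : ℕ} {ℓ Λ p0 a b : ℝ}

/-- holomorphic extension -/
theorem holo_ext (hN : 2 ≤ N) (hℓ : 0 < ℓ) (hΛ : 0 < Λ) {z : ℝ → EE N ℂ}
    (hz : SolOn (vf N 1) z a b) (hI : Init N ℓ Λ p0 (toDS (z a))) (hb : b ≤ a + tau ℓ Λ p0)
    {t0 : ℝ} (ht0 : a < t0) (ht1 : t0 + (t0 - a) / 100 ≤ b) :
    ∃ G : ℂ → DS ℂ, Hol N G (Metric.ball (t0 : ℂ) ((t0 - a) / 100)) ∧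
      (∀ x : ℝ, |x - t0| < (t0 - a) / 100 → G x = toDS (z x)) ∧
      ∀ w ∈ Metric.ball (t0 : ℂ) ((t0 - a) / 100), Bd N (G w) (2 / ℓ) Λ (pb p0) ∧ Con N (G w) ∧
        (∀ i, ∀ j ≤ N, (G w).R i j * rho N (G w) i j = 1) ∧
        (∀ i, ‖(G w).L i - (toDS (z a)).L i‖ ≤ ℓ / 1000) ∧
        (G w).U 0 N = (toDS (z a)).U 0 N ∧ (G w).U 1 N = (toDS (z a)).U 1 N := by
  have hta : 0 < t0 - a := by linarith
  have htc : ((t0:ℂ) - a) ≠ 0 := by
    rw [← Complex.ofReal_sub]; exact_mod_cast hta.ne'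
  obtain ⟨y, hy0, hy⟩ := local_exists hN hℓ hΛ hI a
  have hy' : SolOn (vf N XX) y a t0 := hy.mono (le_refl _) (by linarith)
  set ε : ℂ → ℂ := fun w => (w - a) / (t0 - a) with hε
  have hεd : ∀ w, ‖ε w - 1‖ = ‖w - t0‖ / (t0 - a) := by
    intro w
    have : ε w - 1 = (w - t0) / ((t0 - a : ℝ) : ℂ) := by
      simp only [hε]; push_cast; field_simp; ring
    rw [this, norm_div, Complex.norm_real, Real.norm_of_nonneg hta.le]
  have hεball : ∀ w ∈ Metric.ball (t0 : ℂ) ((t0 - a) / 100), ε w ∈ Metric.ball (1:ℂ) (1 / 100) := by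
    intro w hw
    rw [Metric.mem_ball, dist_eq_norm] at hw ⊢
    rw [hεd, div_lt_iff₀ hta]
    linarith
  have hεK : ∀ w ∈ Metric.ball (t0 : ℂ) ((t0 - a) / 100), ε w ∈ KK := fun w hw =>
    Metric.ball_subset_closedBall (hεball w hw)
  have hεholo : DifferentiableOn ℂ ε (Metric.ball (t0 : ℂ) ((t0 - a) / 100)) := by
    simp only [hε]; fun_prop
  set G : ℂ → DS ℂ := fun w => ⟨fun i j => evz ((toDS (y t0)).U i j) (ε w),
    fun i => evz ((toDS (y t0)).L i) (ε w), fun i j => evz ((toDS (y t0)).R i j) (ε w)⟩ with hG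
  have hGeq : ∀ w (hw : ε w ∈ KK), G w = (toDS (y t0)).map (ev ⟨ε w, hw⟩) := by
    intro w hw
    simp only [hG, DS.map, evz_of_mem _ hw]
  refine ⟨G, ⟨?_, ?_, ?_⟩, ?_, ?_⟩
  · intro i j _
    exact (evz_holo _).comp hεholo hεball
  · intro i
    exact (evz_holo _).comp hεholo hεball
  · intro i j _
    exact (evz_holo _).comp hεholo hεball
  · intro x hx
    have hxb : (x : ℂ) ∈ Metric.ball (t0 : ℂ) ((t0 - a) / 100) := by
      rw [Metric.mem_ball, dist_eq_norm, ← Complex.ofReal_sub, Complex.norm_real]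
      exact hx
    have hK := hεK _ hxb
    set er : ℝ := (x - a) / (t0 - a) with her
    have her1 : |er - 1| ≤ 1 / 100 := by
      have : er - 1 = (x - t0) / (t0 - a) := by rw [her]; field_simp; ring
      rw [this, abs_div, abs_of_pos hta, div_le_iff₀ hta]
      linarith
    have her0 : 0 < er := by have := (abs_le.1 her1).1; linarith
    have hεr : ε x = (er : ℂ) := by simp only [hε, her]; push_cast; rfl
    rw [hGeq _ hK, ← toDS_mapE]
    -- the two solutions
    have S1 := hy'.mapE ⟨ε x, hK⟩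
    rw [ev_XX] at S1
    have S2 : SolOn (vf N (er : ℂ)) (fun t => z (a + er * (t - a))) a t0 := by
      intro t ht
      have hmap : MapsTo (fun t => a + er * (t - a)) (Icc a t0) (Icc a b) := by
        intro s hs
        have h1 : 0 ≤ er * (s - a) := mul_nonneg her0.le (by linarith [hs.1])
        have h2 : er * (s - a) ≤ er * (t0 - a) := mul_le_mul_of_nonneg_left (by linarith [hs.2])
          her0.le
        have h3 : er * (t0 - a) = x - a := by rw [her]; field_simp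
        have h4 := (abs_lt.1 hx).2
        exact ⟨by linarith, by linarith⟩
      have d1 : HasDerivWithinAt (fun t => a + er * (t - a)) er (Icc a t0) t := by
        have := (((hasDerivAt_id' t).sub_const a).const_mul er).const_add a
        exact (this.congr_deriv (by ring)).hasDerivWithinAt
      have d2 := HasDerivWithinAt.scomp t (hz _ (hmap ht)) d1 hmap
      refine d2.congr_deriv ?_
      rw [vf_smul (er : ℂ)]
      rfl
    have heq : Set.EqOn (fun t => mapE (ev ⟨ε x, hK⟩) (y t)) (fun t => z (a + er * (t - a)))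
        (Icc a t0) := by
      apply SolOn.unique (LB_vf (er : ℂ))
      · have : ((⟨ε x, hK⟩ : KK) : ℂ) = (er : ℂ) := hεr
        rw [← this]; exact S1
      · exact S2
      · simp only [sub_self, mul_zero, add_zero]
        rw [hy0, mapE_emb]
    have h5 := heq (⟨ht0.le, le_refl _⟩ : t0 ∈ Icc a t0)
    simp only at h5
    have h6 : a + er * (t0 - a) = x := by rw [her]; field_simp; ring
    rw [h6] at h5
    rw [h5]
  · intro w hw
    have hK := hεK w hw
    rw [hGeq w hK]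
    have S := sol_of_solOn hy' (ev ⟨ε w, hK⟩) (ev_cont _)
    have hSa : (toDS (y a)).map (ev ⟨ε w, hK⟩) = toDS (z a) := by
      rw [← toDS_mapE, hy0, mapE_emb]
    have hIa : Init N ℓ Λ p0 ((toDS (y a)).map (ev ⟨ε w, hK⟩)) := by rw [hSa]; exact hI
    have he : ‖ev ⟨ε w, hK⟩ XX - 1‖ ≤ 1 / 100 := by
      rw [ev_XX, ← dist_eq_norm]; exact hK
    have ht0I : t0 ∈ Icc a t0 := ⟨ht0.le, le_refl _⟩
    obtain ⟨k1, k2, k3, k4, k5⟩ := S.apriori hN hℓ hΛ hIa he (by linarith) t0 ht0I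
    have hc := S.con hN hIa.con t0 ht0I
    have hi := S.inv hN hIa.R t0 ht0I
    obtain ⟨f1, f2⟩ := S.far hN t0 ht0I
    refine ⟨k4, hc, hi, fun i => ?_, ?_, ?_⟩
    · have := k3 i
      simp only [hSa] at this
      exact this
    · rw [f1, hSa]
    · rw [f2, hSa]

end

/-! ## the equation in the complex domain -/

lemma frequently_real (t0 : ℝ) {r : ℝ} (hr : 0 < r) {P : ℂ → Prop}
    (h : ∀ x : ℝ, |x - t0| < r → P x) : ∃ᶠ z in 𝓝[≠] (t0 : ℂ), P z := by
  have h1 : Tendsto (fun x : ℝ => (x : ℂ)) (𝓝[≠] t0) (𝓝[≠] (t0 : ℂ)) := by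
    apply tendsto_nhdsWithin_of_tendsto_nhds_of_eventually_within
    · exact (Complex.continuous_ofReal.tendsto t0).mono_left nhdsWithin_le_nhds
    · filter_upwards [self_mem_nhdsWithin] with x hx
      intro h
      exact hx (Complex.ofReal_injective h)
  have h2 : ∀ᶠ x : ℝ in 𝓝[≠] t0, P (x : ℂ) := by
    have : ∀ᶠ x in 𝓝 t0, |x - t0| < r := by
      have := Metric.ball_mem_nhds t0 hr
      filter_upwards [this] with x hx
      rwa [Metric.mem_ball, Real.dist_eq] at hx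
    filter_upwards [this.filter_mono nhdsWithin_le_nhds] with x hx
    exact h x hx
  exact h1.frequently h2.frequently

theorem ode_complex {N : ℕ} (hN : 2 ≤ N) {z : ℝ → EE N ℂ} {a b : ℝ} (hz : SolOn (vf N 1) z a b)
    {t0 r : ℝ} (hr : 0 < r) (h1 : a < t0 - r) (h2 : t0 + r < b) {G : ℂ → DS ℂ}
    (hG : Hol N G (Metric.ball (t0 : ℂ) r)) (hag : ∀ x : ℝ, |x - t0| < r → G x = toDS (z x))
    (i : Fin 3) {j : ℕ} (hj : j ≤ N) :
    ∀ w ∈ Metric.ball (t0 : ℂ) r, HasDerivAt (fun w => (G w).U i j) (fU N (G w) i j) w := by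
  have hopen : IsOpen (Metric.ball (t0 : ℂ) r) := Metric.isOpen_ball
  have hd : ∀ w ∈ Metric.ball (t0 : ℂ) r,
      HasDerivAt (fun w => (G w).U i j) (deriv (fun w => (G w).U i j) w) w := fun w hw =>
    ((hG.U i j hj).differentiableAt (hopen.mem_nhds hw)).hasDerivAt
  have ha1 : AnalyticOnNhd ℂ (deriv (fun w => (G w).U i j)) (Metric.ball (t0 : ℂ) r) :=
    ((hG.U i j hj).analyticOnNhd hopen).deriv
  have ha2 : AnalyticOnNhd ℂ (fun w => fU N (G w) i j) (Metric.ball (t0 : ℂ) r) :=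
    (hG.fU hN i hj).analyticOnNhd hopen
  have S := sol_of_solOn' hz
  have hreal : ∀ x : ℝ, |x - t0| < r →
      deriv (fun w => (G w).U i j) x = fU N (G x) i j := by
    intro x hx
    have hxb : (x : ℂ) ∈ Metric.ball (t0 : ℂ) r := by
      rw [Metric.mem_ball, dist_eq_norm, ← Complex.ofReal_sub, Complex.norm_real]
      exact hx
    have hxI := abs_lt.1 hx
    have hxab : x ∈ Icc a b := ⟨by linarith [hxI.1], by linarith [hxI.2]⟩
    have e1 := (hd x hxb).comp_ofReal
    have e2 := (S.U x hxab i j hj).hasDerivAt (Icc_mem_nhds (by linarith [hxI.1])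
      (by linarith [hxI.2]))
    have e3 : (fun u : ℝ => (G (u : ℂ)).U i j) =ᶠ[𝓝 x] (fun u => (toDS (z u)).U i j) := by
      have : ∀ᶠ u in 𝓝 x, |u - t0| < r := by
        have hc : Continuous (fun u : ℝ => |u - t0|) := by fun_prop
        exact (hc.tendsto x).eventually (gt_mem_nhds hx)
      filter_upwards [this] with u hu
      rw [hag u hu]
    have e4 := (e1.congr_of_eventuallyEq e3.symm).unique e2
    rw [e4, one_mul, hag x hx]
  have heq := ha1.eqOn_of_preconnected_of_frequently_eq ha2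
    (convex_ball (t0 : ℂ) r).isPreconnected (Metric.mem_ball_self hr)
    (frequently_real t0 hr hreal)
  intro w hw
  have := hd w hw
  rwa [heq hw] at this

end Run7.h661x
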