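import Mathlib

/-!
# Functions of `(t,p)` with all time derivatives and finitely many space derivatives
-/

open Set Filter Topology
open scoped ContDiff

namespace Run7.h661x

/-- the space domain with a retraction -/
structure Dom (J : Set ℝ) (π : ℝ → ℝ) : Prop where
  cont : Continuous π
  mem : ∀ q, π q ∈ J
  id : ∀ q ∈ J, π q = q
  ord : OrdConnected J
  zero : (0:ℝ) ∈ J
  uniq : UniqueDiffOn ℝ J

/-- `m` time derivatives, all continuous -/
def CTm (T : ℝ) (J : Set ℝ) : ℕ → (ℝ → ℝ → ℝ) → Prop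
  | 0, F => ContinuousOn (fun q : ℝ × ℝ => F q.1 q.2) (Ioo 0 T ×ˢ J)
  | m + 1, F => ContinuousOn (fun q : ℝ × ℝ => F q.1 q.2) (Ioo 0 T ×ˢ J) ∧
      ∃ F', CTm T J m F' ∧ ∀ t ∈ Ioo 0 T, ∀ p ∈ J, HasDerivAt (fun s => F s p) (F' t p) t

/-- `n` space derivatives each of which has `m` time derivatives -/
def RG (T : ℝ) (J : Set ℝ) (m : ℕ) : ℕ → (ℝ → ℝ → ℝ) → Prop
  | 0, F => CTm T J m F
  | n + 1, F => CTm T J m F ∧
      ∃ F', RG T J m n F' ∧ ∀ t ∈ Ioo 0 T, ∀ p ∈ J, HasDerivWithinAt (F t) (F' t p) J p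

section
variable {T : ℝ} {J : Set ℝ} {π : ℝ → ℝ}

lemma CTm.cont {m : ℕ} {F : ℝ → ℝ → ℝ} (h : CTm T J m F) :
    ContinuousOn (fun q : ℝ × ℝ => F q.1 q.2) (Ioo 0 T ×ˢ J) := by
  cases m with
  | zero => exact h
  | succ m => exact h.1

lemma CTm.succ {m : ℕ} {F : ℝ → ℝ → ℝ} (h : CTm T J (m + 1) F) : CTm T J m F := by
  induction m generalizing F with
  | zero => exact h.1
  | succ m ih =>
    obtain ⟨h1, F', h2, h3⟩ := h
    exact ⟨h1, F', ih h2, h3⟩

lemma CTm.congr {m : ℕ} {F G : ℝ → ℝ → ℝ} (h : CTm T J m F)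
    (heq : ∀ t ∈ Ioo 0 T, ∀ p ∈ J, G t p = F t p) : CTm T J m G := by
  have hc : ContinuousOn (fun q : ℝ × ℝ => G q.1 q.2) (Ioo 0 T ×ˢ J) :=
    h.cont.congr (fun q hq => heq q.1 hq.1 q.2 hq.2)
  cases m with
  | zero => exact hc
  | succ m =>
    obtain ⟨h1, F', h2, h3⟩ := h
    refine ⟨hc, F', h2, fun t ht p hp => ?_⟩
    refine (h3 t ht p hp).congr_of_eventuallyEq ?_
    filter_upwards [Ioo_mem_nhds ht.1 ht.2] with s hs
    exact heq s hs p hp

lemma RG.ct {m n : ℕ} {F : ℝ → ℝ → ℝ} (h : RG T J m n F) : CTm T J m F := by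
  cases n with
  | zero => exact h
  | succ n => exact h.1

lemma RG.succ {m n : ℕ} {F : ℝ → ℝ → ℝ} (h : RG T J m (n + 1) F) : RG T J m n F := by
  induction n generalizing F with
  | zero => exact h.1
  | succ n ih =>
    obtain ⟨h1, F', h2, h3⟩ := h
    exact ⟨h1, F', ih h2, h3⟩

lemma RG.succm {m n : ℕ} {F : ℝ → ℝ → ℝ} (h : RG T J (m + 1) n F) : RG T J m n F := by
  induction n generalizing F with
  | zero => exact CTm.succ h
  | succ n ih =>
    obtain ⟨h1, F', h2, h3⟩ := h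
    exact ⟨h1.succ, F', ih h2, h3⟩

lemma RG.congr {m n : ℕ} {F G : ℝ → ℝ → ℝ} (h : RG T J m n F)
    (heq : ∀ t ∈ Ioo 0 T, ∀ p ∈ J, G t p = F t p) : RG T J m n G := by
  cases n with
  | zero => exact CTm.congr h heq
  | succ n =>
    obtain ⟨h1, F', h2, h3⟩ := h
    exact ⟨h1.congr heq, F', h2, fun t ht p hp =>
      (h3 t ht p hp).congr (fun q hq => heq t ht q hq) (heq t ht p hp)⟩

/-! ### closure of `CTm` -/

lemma CTm.const (c : ℝ) (m : ℕ) : CTm T J m (fun _ _ => c) := by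
  induction m generalizing c with
  | zero => exact continuousOn_const
  | succ m ih => exact ⟨continuousOn_const, fun _ _ => 0, ih 0, fun t _ p _ => hasDerivAt_const t c⟩

lemma CTm.add {m : ℕ} {F G : ℝ → ℝ → ℝ} (hF : CTm T J m F) (hG : CTm T J m G) :
    CTm T J m (fun t p => F t p + G t p) := by
  induction m generalizing F G with
  | zero => exact ContinuousOn.add hF hG
  | succ m ih =>
    obtain ⟨h1, F', h2, h3⟩ := hF
    obtain ⟨k1, G', k2, k3⟩ := hG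
    exact ⟨h1.add k1, _, ih h2 k2, fun t ht p hp => (h3 t ht p hp).add (k3 t ht p hp)⟩

lemma CTm.mul {m : ℕ} {F G : ℝ → ℝ → ℝ} (hF : CTm T J m F) (hG : CTm T J m G) :
    CTm T J m (fun t p => F t p * G t p) := by
  induction m generalizing F G with
  | zero => exact ContinuousOn.mul hF hG
  | succ m ih =>
    have hF0 := hF.succ
    have hG0 := hG.succ
    obtain ⟨h1, F', h2, h3⟩ := hF
    obtain ⟨k1, G', k2, k3⟩ := hG
    exact ⟨h1.mul k1, _, (ih h2 hG0).add (ih hF0 k2), fun t ht p hp =>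
      (h3 t ht p hp).mul (k3 t ht p hp)⟩

lemma CTm.inv {m : ℕ} {F : ℝ → ℝ → ℝ} (hF : CTm T J m F)
    (h0 : ∀ t ∈ Ioo 0 T, ∀ p ∈ J, F t p ≠ 0) : CTm T J m (fun t p => (F t p)⁻¹) := by
  induction m with
  | zero => exact ContinuousOn.inv₀ hF (fun q hq => h0 q.1 hq.1 q.2 hq.2)
  | succ m ih =>
    have hF0 := hF.succ
    have hi := ih hF0
    obtain ⟨h1, F', h2, h3⟩ := hF
    refine ⟨ContinuousOn.inv₀ h1 (fun q hq => h0 q.1 hq.1 q.2 hq.2), _,
      ((CTm.const (-1) m).mul (h2.mul (hi.mul hi))), fun t ht p hp => ?_⟩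
    refine ((h3 t ht p hp).inv (h0 t ht p hp)).congr_deriv ?_
    have := h0 t ht p hp
    field_simp

lemma CTm.cossin {m : ℕ} {F : ℝ → ℝ → ℝ} (hF : CTm T J m F) :
    CTm T J m (fun t p => Real.cos (F t p)) ∧ CTm T J m (fun t p => Real.sin (F t p)) := by
  induction m with
  | zero => exact ⟨Real.continuous_cos.comp_continuousOn hF, Real.continuous_sin.comp_continuousOn hF⟩
  | succ m ih =>
    obtain ⟨i1, i2⟩ := ih hF.succ
    obtain ⟨h1, F', h2, h3⟩ := hF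
    refine ⟨⟨Real.continuous_cos.comp_continuousOn h1, _,
      ((CTm.const (-1) m).mul i2).mul h2, fun t ht p hp => ?_⟩,
      ⟨Real.continuous_sin.comp_continuousOn h1, _, i1.mul h2, fun t ht p hp =>
        (h3 t ht p hp).sin⟩⟩
    refine ((h3 t ht p hp).cos).congr_deriv ?_
    ring

lemma CTm.of_p {m : ℕ} {f : ℝ → ℝ} (hf : ContinuousOn f J) : CTm T J m (fun _ p => f p) := by
  have hc : ContinuousOn (fun q : ℝ × ℝ => f q.2) (Ioo 0 T ×ˢ J) :=
    hf.comp continuousOn_snd (fun q hq => hq.2)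
  cases m with
  | zero => exact hc
  | succ m => exact ⟨hc, fun _ _ => 0, CTm.const 0 m, fun t _ p _ => hasDerivAt_const t (f p)⟩

/-- evaluation at a fixed space point -/
lemma CTm.eval {m : ℕ} {F : ℝ → ℝ → ℝ} (hF : CTm T J m F) {p0 : ℝ} (hp0 : p0 ∈ J) :
    CTm T J m (fun t _ => F t p0) := by
  induction m generalizing F with
  | zero =>
    exact ContinuousOn.comp (g := fun q : ℝ × ℝ => F q.1 q.2) (f := fun q : ℝ × ℝ => (q.1, p0))
      hF (by fun_prop) (fun q hq => ⟨hq.1, hp0⟩)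
  | succ m ih =>
    obtain ⟨h1, F', h2, h3⟩ := hF
    refine ⟨ContinuousOn.comp (g := fun q : ℝ × ℝ => F q.1 q.2) (f := fun q : ℝ × ℝ => (q.1, p0))
      h1 (by fun_prop) (fun q hq => ⟨hq.1, hp0⟩), _, ih h2, fun t ht p _ => h3 t ht p0 hp0⟩

/-- composition with the retraction -/
lemma CTm.comp_proj {m : ℕ} {F : ℝ → ℝ → ℝ} (hF : CTm T J m F) (D : Dom J π) :
    CTm T univ m (fun t p => F t (π p)) := by
  have D1 := D.cont
  induction m generalizing F with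
  | zero =>
    exact ContinuousOn.comp (g := fun q : ℝ × ℝ => F q.1 q.2) (f := fun q : ℝ × ℝ => (q.1, π q.2))
      hF (by fun_prop) (fun q hq => ⟨hq.1, D.mem _⟩)
  | succ m ih =>
    obtain ⟨h1, F', h2, h3⟩ := hF
    refine ⟨ContinuousOn.comp (g := fun q : ℝ × ℝ => F q.1 q.2) (f := fun q : ℝ × ℝ =>
      (q.1, π q.2)) h1 (by fun_prop) (fun q hq => ⟨hq.1, D.mem _⟩), _, ih h2,
      fun t ht p _ => h3 t ht (π p) (D.mem p)⟩

/-! ### closure of `RG` -/

lemma RG.const (c : ℝ) (m n : ℕ) : RG T J m n (fun _ _ => c) := by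
  induction n generalizing c with
  | zero => exact CTm.const c m
  | succ n ih => exact ⟨CTm.const c m, fun _ _ => 0, ih 0, fun t _ p _ =>
      (hasDerivAt_const p c).hasDerivWithinAt⟩

lemma RG.add {m n : ℕ} {F G : ℝ → ℝ → ℝ} (hF : RG T J m n F) (hG : RG T J m n G) :
    RG T J m n (fun t p => F t p + G t p) := by
  induction n generalizing F G with
  | zero => exact CTm.add hF hG
  | succ n ih =>
    obtain ⟨h1, F', h2, h3⟩ := hF
    obtain ⟨k1, G', k2, k3⟩ := hG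
    exact ⟨h1.add k1, _, ih h2 k2, fun t ht p hp => (h3 t ht p hp).add (k3 t ht p hp)⟩

lemma RG.mul {m n : ℕ} {F G : ℝ → ℝ → ℝ} (hF : RG T J m n F) (hG : RG T J m n G) :
    RG T J m n (fun t p => F t p * G t p) := by
  induction n generalizing F G with
  | zero => exact CTm.mul hF hG
  | succ n ih =>
    have hF0 := hF.succ
    have hG0 := hG.succ
    obtain ⟨h1, F', h2, h3⟩ := hF
    obtain ⟨k1, G', k2, k3⟩ := hG
    exact ⟨h1.mul k1, _, (ih h2 hG0).add (ih hF0 k2), fun t ht p hp =>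
      (h3 t ht p hp).mul (k3 t ht p hp)⟩

lemma RG.neg {m n : ℕ} {F : ℝ → ℝ → ℝ} (hF : RG T J m n F) : RG T J m n (fun t p => -F t p) :=
  ((RG.const (-1) m n).mul hF).congr (fun t _ p _ => by ring)

lemma RG.sub {m n : ℕ} {F G : ℝ → ℝ → ℝ} (hF : RG T J m n F) (hG : RG T J m n G) :
    RG T J m n (fun t p => F t p - G t p) :=
  (hF.add hG.neg).congr (fun t _ p _ => by ring)

lemma RG.inv {m n : ℕ} {F : ℝ → ℝ → ℝ} (hF : RG T J m n F)
    (h0 : ∀ t ∈ Ioo 0 T, ∀ p ∈ J, F t p ≠ 0) : RG T J m n (fun t p => (F t p)⁻¹) := by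
  induction n with
  | zero => exact CTm.inv hF h0
  | succ n ih =>
    have hF0 := hF.succ
    have hi := ih hF0
    obtain ⟨h1, F', h2, h3⟩ := hF
    refine ⟨h1.inv h0, _, ((RG.const (-1) m n).mul (h2.mul (hi.mul hi))), fun t ht p hp => ?_⟩
    refine ((h3 t ht p hp).inv (h0 t ht p hp)).congr_deriv ?_
    have := h0 t ht p hp
    field_simp

lemma RG.cossin {m n : ℕ} {F : ℝ → ℝ → ℝ} (hF : RG T J m n F) :
    RG T J m n (fun t p => Real.cos (F t p)) ∧ RG T J m n (fun t p => Real.sin (F t p)) := by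
  induction n with
  | zero => exact CTm.cossin hF
  | succ n ih =>
    obtain ⟨i1, i2⟩ := ih hF.succ
    obtain ⟨h1, F', h2, h3⟩ := hF
    obtain ⟨c1, c2⟩ := h1.cossin
    refine ⟨⟨c1, _, ((RG.const (-1) m n).mul i2).mul h2, fun t ht p hp => ?_⟩,
      ⟨c2, _, i1.mul h2, fun t ht p hp => (h3 t ht p hp).sin⟩⟩
    refine ((h3 t ht p hp).cos).congr_deriv ?_
    ring

lemma RG.of_t {m n : ℕ} {f : ℝ → ℝ} (hf : CTm T J m (fun t _ => f t)) :
    RG T J m n (fun t _ => f t) := by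
  cases n with
  | zero => exact hf
  | succ n => exact ⟨hf, fun _ _ => 0, RG.const 0 m n, fun t _ p _ =>
      (hasDerivAt_const p (f t)).hasDerivWithinAt⟩

lemma RG.id {m n : ℕ} : RG T J m n (fun _ p => p) := by
  cases n with
  | zero => exact CTm.of_p continuousOn_id
  | succ n => exact ⟨CTm.of_p continuousOn_id, fun _ _ => 1, RG.const 1 m n, fun t _ p _ =>
      (hasDerivAt_id' p).hasDerivWithinAt⟩

/-! ### primitives -/

/-- the primitive in the space variable -/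
noncomputable def PI (π : ℝ → ℝ) (F : ℝ → ℝ → ℝ) (t p : ℝ) : ℝ := ∫ q in (0:ℝ)..p, F t (π q)

lemma slice_cont {F : ℝ → ℝ → ℝ} (D : Dom J π)
    (hF : ContinuousOn (fun q : ℝ × ℝ => F q.1 q.2) (Ioo 0 T ×ˢ J)) {t : ℝ} (ht : t ∈ Ioo 0 T) :
    Continuous (fun q => F t (π q)) := by
  rw [← continuousOn_univ]
  exact ContinuousOn.comp (g := fun q : ℝ × ℝ => F q.1 q.2) (f := fun q => (t, π q)) hF
    (by have := D.cont; fun_prop) (fun q _ => ⟨ht, D.mem q⟩)

lemma PI_deriv {F : ℝ → ℝ → ℝ} (D : Dom J π)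
    (hF : ContinuousOn (fun q : ℝ × ℝ => F q.1 q.2) (Ioo 0 T ×ˢ J)) {t : ℝ} (ht : t ∈ Ioo 0 T)
    {p : ℝ} (hp : p ∈ J) : HasDerivWithinAt (PI π F t) (F t p) J p := by
  have hc := slice_cont D hF ht
  have := intervalIntegral.integral_hasDerivAt_right (hc.intervalIntegrable 0 p)
    (hc.stronglyMeasurableAtFilter _ _) hc.continuousAt
  rw [D.id p hp] at this
  exact this.hasDerivWithinAt

lemma PI_zero (F : ℝ → ℝ → ℝ) (t : ℝ) : PI π F t 0 = 0 := by
  rw [PI, intervalIntegral.integral_same]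

lemma PI_eq {F G : ℝ → ℝ → ℝ} (D : Dom J π) {t : ℝ} (ht : t ∈ Ioo 0 T)
    (hF : ∀ p ∈ J, HasDerivWithinAt (F t) (G t p) J p)
    (hG : ContinuousOn (fun q : ℝ × ℝ => G q.1 q.2) (Ioo 0 T ×ˢ J)) {p : ℝ} (hp : p ∈ J) :
    F t p = F t 0 + PI π G t p := by
  have hd : ∀ q ∈ J, HasDerivWithinAt (fun q => F t q - PI π G t q) (G t q - G t q) J q :=
    fun q hq => (hF q hq).sub (PI_deriv D hG ht hq)
  have := D.ord.convex.norm_image_sub_le_of_norm_hasDerivWithin_le (C := 0) hd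
    (fun q _ => by rw [sub_self, norm_zero]) D.zero hp
  rw [zero_mul] at this
  have h2 := norm_le_zero_iff.1 this
  rw [PI_zero, sub_zero] at h2
  linarith

lemma PI_cont {F : ℝ → ℝ → ℝ} (D : Dom J π)
    (hF : ContinuousOn (fun q : ℝ × ℝ => F q.1 q.2) (Ioo 0 T ×ˢ J)) :
    ContinuousOn (fun q : ℝ × ℝ => PI π F q.1 q.2) (Ioo 0 T ×ˢ (univ : Set ℝ)) := by
  have hc := D.cont
  have h1 : Continuous (fun x : (↥(Ioo 0 T) × ℝ) × ℝ => F x.1.1 (π x.2)) := by
    have h2 : Continuous (fun x : (↥(Ioo 0 T) × ℝ) × ℝ =>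
      (⟨(x.1.1.1, π x.2), x.1.1.2, D.mem _⟩ : ↥(Ioo 0 T ×ˢ J))) := by
      apply Continuous.subtype_mk
      fun_prop
    exact (continuousOn_iff_continuous_domRestrict.1 hF).comp h2
  have key : Continuous (fun x : ↥(Ioo 0 T) × ℝ => ∫ q in (0:ℝ)..x.2, F x.1 (π q)) :=
    intervalIntegral.continuous_parametric_intervalIntegral_of_continuous
      (f := fun (x : ↥(Ioo 0 T) × ℝ) q => F x.1 (π q)) h1 continuous_snd
  rw [continuousOn_iff_continuous_domRestrict]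
  have h3 : Continuous (fun y : ↥(Ioo 0 T ×ˢ (univ : Set ℝ)) =>
      ((⟨y.1.1, y.2.1⟩, y.1.2) : ↥(Ioo 0 T) × ℝ)) := by
    apply Continuous.prodMk
    · apply Continuous.subtype_mk
      fun_prop
    · fun_prop
  exact key.comp h3

lemma PI_dt {F F' : ℝ → ℝ → ℝ} (D : Dom J π)
    (hF : ContinuousOn (fun q : ℝ × ℝ => F q.1 q.2) (Ioo 0 T ×ˢ J))
    (hF' : ContinuousOn (fun q : ℝ × ℝ => F' q.1 q.2) (Ioo 0 T ×ˢ J))
    (hd : ∀ t ∈ Ioo 0 T, ∀ p ∈ J, HasDerivAt (fun s => F s p) (F' t p) t) {t : ℝ}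
    (ht : t ∈ Ioo 0 T) (p : ℝ) : HasDerivAt (fun s => PI π F s p) (PI π F' t p) t := by
  obtain ⟨r, hr, hsub⟩ : ∃ r > 0, Icc (t - r) (t + r) ⊆ Ioo 0 T := by
    refine ⟨min (t / 2) ((T - t) / 2), ?_, ?_⟩
    · have := ht.1; have := ht.2
      exact lt_min (by linarith) (by linarith)
    · intro s hs
      have h1 := min_le_left (t / 2) ((T - t) / 2)
      have h2 := min_le_right (t / 2) ((T - t) / 2)
      have := ht.1; have := ht.2
      constructor
      · have := hs.1; linarith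
      · have := hs.2; linarith
  have hc' : ContinuousOn (fun q : ℝ × ℝ => F' q.1 (π q.2)) (Ioo 0 T ×ˢ univ) :=
    ContinuousOn.comp (g := fun q : ℝ × ℝ => F' q.1 q.2) (f := fun q : ℝ × ℝ => (q.1, π q.2)) hF'
      (by have := D.cont; fun_prop) (fun q hq => ⟨hq.1, D.mem _⟩)
  have hcomp : IsCompact (Icc (t - r) (t + r) ×ˢ uIcc (0:ℝ) p) := isCompact_Icc.prod isCompact_uIcc
  obtain ⟨C, hC⟩ := hcomp.exists_bound_of_continuousOn
    (hc'.mono (prod_mono hsub (subset_univ _)))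
  have hnear : Ioo (t - r) (t + r) ∈ 𝓝 t := Ioo_mem_nhds (by linarith) (by linarith)
  refine (intervalIntegral.hasDerivAt_integral_of_dominated_loc_of_deriv_le
    (F := fun s q => F s (π q)) (F' := fun s q => F' s (π q))
    (bound := fun _ => C) hnear ?_ ?_ ?_ ?_ ?_ ?_).2
  · filter_upwards [hnear] with s hs
    exact (slice_cont D hF (hsub ⟨hs.1.le, hs.2.le⟩)).aestronglyMeasurable
  · exact (slice_cont D hF ht).intervalIntegrable _ _
  · exact (slice_cont D hF' ht).aestronglyMeasurable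
  · refine Eventually.of_forall (fun x hx s hs => ?_)
    exact hC (s, x) ⟨⟨hs.1.le, hs.2.le⟩, uIoc_subset_uIcc hx⟩
  · simp
  · refine Eventually.of_forall (fun x hx s hs => ?_)
    exact hd s (hsub ⟨hs.1.le, hs.2.le⟩) (π x) (D.mem x)

lemma CTm.PI {m : ℕ} {F : ℝ → ℝ → ℝ} (D : Dom J π) (hF : CTm T J m F) :
    CTm T univ m (PI π F) := by
  induction m generalizing F with
  | zero => exact PI_cont D hF
  | succ m ih =>
    obtain ⟨h1, F', h2, h3⟩ := hF
    exact ⟨PI_cont D h1, _, ih h2, fun t ht p _ => PI_dt D h1 h2.cont h3 ht p⟩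

lemma CTm.mono {m : ℕ} {F : ℝ → ℝ → ℝ} {J' : Set ℝ} (hF : CTm T J m F) (hJ : J' ⊆ J) :
    CTm T J' m F := by
  induction m generalizing F with
  | zero => exact ContinuousOn.mono hF (prod_mono (Subset.refl _) hJ)
  | succ m ih =>
    obtain ⟨h1, F', h2, h3⟩ := hF
    exact ⟨h1.mono (prod_mono (Subset.refl _) hJ), F', ih h2, fun t ht p hp => h3 t ht p (hJ hp)⟩

lemma RG.mono {m n : ℕ} {F : ℝ → ℝ → ℝ} {J' : Set ℝ} (hF : RG T J m n F) (hJ : J' ⊆ J) :
    RG T J' m n F := by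
  induction n generalizing F with
  | zero => exact CTm.mono hF hJ
  | succ n ih =>
    obtain ⟨h1, F', h2, h3⟩ := hF
    exact ⟨h1.mono hJ, F', ih h2, fun t ht p hp => (h3 t ht p (hJ hp)).mono hJ⟩

lemma RG.PI {m n : ℕ} {F : ℝ → ℝ → ℝ} (D : Dom J π) (hF : RG T J m n F) :
    RG T J m (n + 1) (PI π F) :=
  ⟨(hF.ct.PI D).mono (subset_univ _), F, hF, fun _ ht _ hp => PI_deriv D hF.ct.cont ht hp⟩

/-- the time derivative of a function in `CTm` -/
lemma CTm.dt {m : ℕ} {F H : ℝ → ℝ → ℝ} (hF : CTm T J (m + 1) F)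
    (hH : ∀ t ∈ Ioo 0 T, ∀ p ∈ J, HasDerivAt (fun s => F s p) (H t p) t) : CTm T J m H := by
  obtain ⟨h1, F', h2, h3⟩ := hF
  exact h2.congr (fun t ht p hp => (hH t ht p hp).unique (h3 t ht p hp))

/-- the time derivative is in the same class -/
lemma RG.dt {m n : ℕ} {F H : ℝ → ℝ → ℝ} (D : Dom J π) (hF : RG T J (m + 1) n F)
    (hH : ∀ t ∈ Ioo 0 T, ∀ p ∈ J, HasDerivAt (fun s => F s p) (H t p) t) : RG T J m n H := by
  induction n generalizing F H with
  | zero => exact CTm.dt hF hH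
  | succ n ih =>
    obtain ⟨h1, G, h2, h3⟩ := hF
    have hG := h2.ct
    obtain ⟨g1, G', g2, g3⟩ := hG
    refine ⟨h1.dt hH, G', ih h2 g3, fun t ht p hp => ?_⟩
    have e1 : ∀ q ∈ J, H t q = H t 0 + Run7.h661x.PI π G' t q := by
      intro q hq
      have k1 := hH t ht q hq
      have k2 := (hH t ht 0 D.zero).add (PI_dt D g1 g2.cont g3 ht q)
      refine k1.unique (k2.congr_of_eventuallyEq ?_)
      filter_upwards [Ioo_mem_nhds ht.1 ht.2] with s hs
      exact PI_eq D hs (fun p hp => h3 s hs p hp) g1 hq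
    have k3 := (PI_deriv D g2.cont ht hp).const_add (H t 0)
    exact k3.congr e1 (e1 p hp)

/-- the space derivative is unique -/
lemma RG.dp {m n : ℕ} {F H : ℝ → ℝ → ℝ} (D : Dom J π) (hF : RG T J m (n + 1) F)
    (hH : ∀ t ∈ Ioo 0 T, ∀ p ∈ J, HasDerivWithinAt (F t) (H t p) J p) : RG T J m n H := by
  obtain ⟨h1, G, h2, h3⟩ := hF
  refine h2.congr (fun t ht p hp => ?_)
  exact (D.uniq p hp).eq_deriv _ (hH t ht p hp) (h3 t ht p hp)

/-- all time derivatives -/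
def RGA (T : ℝ) (J : Set ℝ) (n : ℕ) (F : ℝ → ℝ → ℝ) : Prop := ∀ m, RG T J m n F

lemma RGA.ex_dp {n : ℕ} {F : ℝ → ℝ → ℝ} (D : Dom J π) (hF : RGA T J (n + 1) F) :
    ∃ F', RGA T J n F' ∧ ∀ t ∈ Ioo 0 T, ∀ p ∈ J, HasDerivWithinAt (F t) (F' t p) J p := by
  obtain ⟨h1, G, h2, h3⟩ := hF 0
  exact ⟨G, fun m => (hF m).dp D h3, h3⟩

lemma RGA.ex_dt {n : ℕ} {F : ℝ → ℝ → ℝ} (D : Dom J π) (hF : RGA T J n F) :
    ∃ F', RGA T J n F' ∧ ∀ t ∈ Ioo 0 T, ∀ p ∈ J, HasDerivAt (fun s => F s p) (F' t p) t := by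
  obtain ⟨h1, F', h2, h3⟩ := (hF 1).ct
  exact ⟨F', fun m => (hF (m + 1)).dt D h3, h3⟩

lemma RGA.succ {n : ℕ} {F : ℝ → ℝ → ℝ} (hF : RGA T J (n + 1) F) : RGA T J n F :=
  fun m => (hF m).succ

/-! ### joint smoothness -/

lemma hasFDerivWithinAt_of_partial {F Ft Fp : ℝ → ℝ → ℝ} (hJ : UniqueDiffOn ℝ J)
    (hFt : ContinuousOn (fun q : ℝ × ℝ => Ft q.1 q.2) (Ioo 0 T ×ˢ J))
    (h1 : ∀ t ∈ Ioo 0 T, ∀ p ∈ J, HasDerivAt (fun s => F s p) (Ft t p) t)
    (h2 : ∀ t ∈ Ioo 0 T, ∀ p ∈ J, HasDerivWithinAt (F t) (Fp t p) J p) {t p : ℝ}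
    (ht : t ∈ Ioo 0 T) (hp : p ∈ J) :
    HasFDerivWithinAt (fun q : ℝ × ℝ => F q.1 q.2)
      ((ContinuousLinearMap.fst ℝ ℝ ℝ).smulRight (Ft t p) +
        (ContinuousLinearMap.snd ℝ ℝ ℝ).smulRight (Fp t p)) (Ioo 0 T ×ˢ J) (t, p) := by
  rw [hasFDerivWithinAt_iff_isLittleO, Asymptotics.isLittleO_iff]
  intro c hc
  have hc2 : 0 < c / 2 := by positivity
  -- continuity of `Ft`
  have k1 := Metric.continuousWithinAt_iff.1 (hFt (t, p) ⟨ht, hp⟩) (c / 2) hc2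
  obtain ⟨δ1, hδ1, k1⟩ := k1
  have k2 := (hasDerivWithinAt_iff_isLittleO.1 (h2 t ht p hp))
  rw [Asymptotics.isLittleO_iff] at k2
  have k2 := k2 hc2
  rw [eventually_nhdsWithin_iff, Metric.eventually_nhds_iff] at k2
  obtain ⟨δ2, hδ2, k2⟩ := k2
  rw [eventually_nhdsWithin_iff, Metric.eventually_nhds_iff]
  obtain ⟨δ3, hδ3, hball⟩ := Metric.isOpen_iff.1 (isOpen_Ioo (a := (0:ℝ)) (b := T)) t ht
  refine ⟨min δ1 (min δ2 δ3), lt_min hδ1 (lt_min hδ2 hδ3), ?_⟩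
  rintro ⟨s, q⟩ hd ⟨hs, hq⟩
  have hd1 : dist (s, q) (t, p) < δ1 := hd.trans_le (min_le_left _ _)
  have hd2 : dist (s, q) (t, p) < δ2 := hd.trans_le ((min_le_right _ _).trans (min_le_left _ _))
  rw [Prod.dist_eq, max_lt_iff] at hd1 hd2
  simp only at hd1 hd2 hs hq
  have hns : |s - t| ≤ ‖((s, q) : ℝ × ℝ) - (t, p)‖ := by
    rw [Prod.mk_sub_mk, Prod.norm_def]; exact le_max_left _ _
  have hnq : |q - p| ≤ ‖((s, q) : ℝ × ℝ) - (t, p)‖ := by
    rw [Prod.mk_sub_mk, Prod.norm_def]; exact le_max_right _ _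
  -- increment in time
  have a1 : |F s q - F t q - (s - t) * Ft t p| ≤ c / 2 * |s - t| := by
    have hmem : ∀ x ∈ uIcc t s, x ∈ Ioo 0 T := fun x hx =>
      (ordConnected_Ioo.uIcc_subset ht hs) hx
    have hder : ∀ x ∈ uIcc t s, HasDerivWithinAt (fun x => F x q - x * Ft t p)
        (Ft x q - Ft t p) (uIcc t s) x := by
      intro x hx
      have e1 := (hasDerivAt_id' x).mul_const (Ft t p)
      rw [one_mul] at e1
      exact ((h1 x (hmem x hx) q hq).sub e1).hasDerivWithinAt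
    have hb : ∀ x ∈ uIcc t s, ‖Ft x q - Ft t p‖ ≤ c / 2 := by
      intro x hx
      have : dist (x, q) (t, p) < δ1 := by
        rw [Prod.dist_eq, max_lt_iff]
        refine ⟨?_, hd1.2⟩
        refine lt_of_le_of_lt ?_ hd1.1
        rw [Real.dist_eq, Real.dist_eq]
        exact abs_sub_left_of_mem_uIcc hx
      have := k1 (⟨hmem x hx, hq⟩ : (x, q) ∈ Ioo 0 T ×ˢ J) this
      rw [dist_eq_norm] at this
      exact this.le
    have := (convex_uIcc t s).norm_image_sub_le_of_norm_hasDerivWithin_le hder hb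
      left_mem_uIcc right_mem_uIcc
    have e2 : F s q - s * Ft t p - (F t q - t * Ft t p) = F s q - F t q - (s - t) * Ft t p := by
      ring
    rw [e2] at this
    exact this
  have a2 : |F t q - F t p - (q - p) * Fp t p| ≤ c / 2 * |q - p| := by
    have := k2 (y := q) hd2.2 hq
    rw [smul_eq_mul] at this
    exact this
  have e3 : F s q - F t p - ((ContinuousLinearMap.fst ℝ ℝ ℝ).smulRight (Ft t p) +
      (ContinuousLinearMap.snd ℝ ℝ ℝ).smulRight (Fp t p)) ((s, q) - (t, p)) =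
      (F s q - F t q - (s - t) * Ft t p) + (F t q - F t p - (q - p) * Fp t p) := by
    simp only [Prod.mk_sub_mk, add_apply, ContinuousLinearMap.smulRight_apply,
      ContinuousLinearMap.coe_fst', ContinuousLinearMap.coe_snd', smul_eq_mul]
    ring
  simp only
  rw [e3, Real.norm_eq_abs]
  refine (abs_add_le _ _).trans ?_
  have b1 := mul_le_mul_of_nonneg_left hns hc2.le
  have b2 := mul_le_mul_of_nonneg_left hnq hc2.le
  linarith

theorem RGA.contDiffOn {n : ℕ} {F : ℝ → ℝ → ℝ} (D : Dom J π) (hF : RGA T J n F) :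
    ContDiffOn ℝ n (fun q : ℝ × ℝ => F q.1 q.2) (Ioo 0 T ×ˢ J) := by
  induction n generalizing F with
  | zero =>
    rw [Nat.cast_zero, contDiffOn_zero]
    exact (hF 0).ct.cont
  | succ n ih =>
    obtain ⟨Fp, p1, p2⟩ := hF.ex_dp D
    obtain ⟨Ft, t1, t2⟩ := hF.succ.ex_dt D
    have hU : UniqueDiffOn ℝ (Ioo 0 T ×ˢ J) := isOpen_Ioo.uniqueDiffOn.prod D.uniq
    rw [Nat.cast_succ, contDiffOn_succ_iff_hasFDerivWithinAt_of_uniqueDiffOn hU]
    refine ⟨fun h => by simp at h, fun q => (ContinuousLinearMap.fst ℝ ℝ ℝ).smulRight (Ft q.1 q.2) +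
        (ContinuousLinearMap.snd ℝ ℝ ℝ).smulRight (Fp q.1 q.2), ?_, ?_⟩
    · exact (contDiffOn_const.smulRight (ih t1)).add (contDiffOn_const.smulRight (ih p1))
    · rintro ⟨t, p⟩ ⟨ht, hp⟩
      exact hasFDerivWithinAt_of_partial D.uniq (t1 0).ct.cont t2 p2 ht hp

theorem contDiffOn_infty_of_RGA {F : ℝ → ℝ → ℝ} (D : Dom J π) (hF : ∀ n, RGA T J n F) :
    ContDiffOn ℝ ∞ (fun q : ℝ × ℝ => F q.1 q.2) (Ioo 0 T ×ˢ J) := by
  rw [contDiffOn_infty]
  exact fun n => (hF n).contDiffOn D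

end

/-! ### the two domains -/

lemma dom_univ : Dom (univ : Set ℝ) id :=
  ⟨continuous_id, fun _ => mem_univ _, fun _ _ => rfl, ordConnected_univ, mem_univ _,
    uniqueDiffOn_univ⟩

/-- the retraction onto `[0,1]` -/
noncomputable def clamp (p : ℝ) : ℝ := max 0 (min p 1)

lemma clamp_mem (p : ℝ) : clamp p ∈ Icc (0:ℝ) 1 :=
  ⟨le_max_left _ _, max_le zero_le_one (min_le_right _ _)⟩
lemma clamp_eq {p : ℝ} (hp : p ∈ Icc (0:ℝ) 1) : clamp p = p := by
  rw [clamp, min_eq_left hp.2, max_eq_right hp.1]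

lemma dom_I : Dom (Icc (0:ℝ) 1) clamp :=
  ⟨by unfold clamp; fun_prop, clamp_mem, fun _ hq => clamp_eq hq, ordConnected_Icc,
    ⟨le_refl _, zero_le_one⟩, uniqueDiffOn_Icc zero_lt_one⟩

/-- extension to the whole line -/
theorem RGA.extend {T : ℝ} {n : ℕ} {F : ℝ → ℝ → ℝ} (hF : RGA T (Icc 0 1) n F) :
    ∃ E, RGA T univ n E ∧ ∀ t, ∀ p ∈ Icc (0:ℝ) 1, t ∈ Ioo 0 T → E t p = F t p := by
  induction n generalizing F with
  | zero =>
    refine ⟨fun t p => F t (clamp p), fun m => CTm.comp_proj (hF m) dom_I, fun t p hp _ => ?_⟩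
    simp only [clamp_eq hp]
  | succ n ih =>
    obtain ⟨G, g1, g2⟩ := hF.ex_dp dom_I
    obtain ⟨E, e1, e2⟩ := ih g1
    refine ⟨fun t p => F t 0 + PI id E t p, fun m => ?_, fun t p hp ht => ?_⟩
    · have h1 : CTm T (Icc 0 1) m (fun t _ => F t 0) := (hF m).ct.eval ⟨le_refl _, zero_le_one⟩
      have h2 : CTm T univ m (fun t _ => F t 0) := h1.comp_proj dom_I
      exact (RG.of_t h2).add ((e1 m).PI dom_univ)
    · have h3 := PI_eq dom_I ht (fun p hp => g2 t ht p hp) (g1 0).ct.cont hp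
      have h4 : PI id E t p = PI clamp G t p := by
        rw [PI, PI]
        apply intervalIntegral.integral_congr
        intro q hq
        have hq' : q ∈ Icc (0:ℝ) 1 :=
          ordConnected_Icc.uIcc_subset (⟨le_refl _, zero_le_one⟩ : (0:ℝ) ∈ Icc (0:ℝ) 1) hp hq
        simp only [id]
        rw [e2 t q hq' ht, clamp_eq hq']
      rw [h3, ← h4]

end Run7.h661x
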