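import Pool.Agent.Run7.h661.X.Ulim
import Pool.Agent.Run7.h661.X.Reg
import Pool.Agent.Run7.h661.X.Conj

/-!
# The limit along an ultrafilter: regularity in time
-/

open Set Filter Topology
open scoped Real

namespace Run7.h661x

/-- bounds of the semi-discrete solution on `[0,s]` -/
structure OkB (Z : ∀ N, ℝ → EE N ℂ) (N : ℕ) (s ℓ Λ p0 : ℝ) : Prop where
  N2 : 2 ≤ N
  sol : SolOn (vf N 1) (Z N) 0 s
  init : ∀ t ∈ Icc 0 s, Init N ℓ Λ p0 (toDS (Z N t))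
  rl : ∀ t ∈ Icc 0 s, (toDS (Z N t)).cj = toDS (Z N t)
  f0 : (toDS (Z N 0)).U 0 N = 0
  f1 : (toDS (Z N 0)).U 1 N = ((π / 3 : ℝ) : ℂ)

/-- uniform bounds on `[0,s]` -/
def Ok (Z : ∀ N, ℝ → EE N ℂ) (s : ℝ) : Prop :=
  ∃ ℓ Λ p0, 0 < ℓ ∧ 0 < Λ ∧ ∀ᶠ N in atTop, OkB Z N s ℓ Λ p0

/-- radius of the holomorphic extension -/
noncomputable def rad (ℓ Λ p0 s t0 : ℝ) : ℝ := min (t0 / 2) (min (tau ℓ Λ p0 / 2) (s - t0)) / 200

lemma rad_pos {ℓ Λ p0 s t0 : ℝ} (hℓ : 0 < ℓ) (hΛ : 0 < Λ) (ht0 : t0 ∈ Ioo 0 s) :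
    0 < rad ℓ Λ p0 s t0 := by
  have h1 := tau_pos (p0 := p0) hℓ hΛ
  have h2 := ht0.1
  have h3 := ht0.2
  have : 0 < min (t0 / 2) (min (tau ℓ Λ p0 / 2) (s - t0)) :=
    lt_min (by linarith) (lt_min (by linarith) (by linarith))
  unfold rad; linarith

lemma ext_family {Z : ∀ N, ℝ → EE N ℂ} {N : ℕ} {s ℓ Λ p0 : ℝ} (H : OkB Z N s ℓ Λ p0)
    (hℓ : 0 < ℓ) (hΛ : 0 < Λ) {t0 : ℝ} (ht0 : t0 ∈ Ioo 0 s) :
    ∃ G : ℂ → DS ℂ, BH ℓ Λ p0 (rad ℓ Λ p0 s t0) N t0 G ∧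
      ∀ x : ℝ, |x - t0| < rad ℓ Λ p0 s t0 → G x = toDS (Z N x) := by
  set δ := min (t0 / 2) (min (tau ℓ Λ p0 / 2) (s - t0)) with hδ
  have hr : rad ℓ Λ p0 s t0 = δ / 200 := rfl
  have hrp := rad_pos (p0 := p0) hℓ hΛ ht0
  have hδ0 : 0 < δ := by rw [hr] at hrp; linarith
  have d1 : δ ≤ t0 / 2 := min_le_left _ _
  have d2 : δ ≤ tau ℓ Λ p0 / 2 := (min_le_right _ _).trans (min_le_left _ _)
  have d3 : δ ≤ s - t0 := (min_le_right _ _).trans (min_le_right _ _)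
  have h0 := ht0.1
  set a := t0 - δ with ha
  set b := t0 + δ / 100 with hb
  have hta : t0 - a = δ := by rw [ha]; ring
  have haI : a ∈ Icc 0 s := ⟨by linarith, by linarith⟩
  have hI := H.init a haI
  have hz : SolOn (vf N 1) (Z N) a b := H.sol.mono haI.1 (by linarith)
  obtain ⟨G, g1, g2, g3⟩ := holo_ext H.N2 hℓ hΛ hz hI (by linarith) (t0 := t0) (by linarith)
    (by rw [hta])
  rw [hta] at g1 g2 g3
  have hsub : Metric.ball (t0 : ℂ) (rad ℓ Λ p0 s t0) ⊆ Metric.ball (t0 : ℂ) (δ / 100) :=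
    Metric.ball_subset_ball (by rw [hr]; linarith)
  have hol : Hol N G (Metric.ball (t0 : ℂ) (rad ℓ Λ p0 s t0)) :=
    ⟨fun i j hj => (g1.U i j hj).mono hsub, fun i => (g1.L i).mono hsub,
      fun i j hj => (g1.R i j hj).mono hsub⟩
  have g2' : ∀ x : ℝ, |x - t0| < rad ℓ Λ p0 s t0 → G x = toDS (Z N x) := fun x hx =>
    g2 x (hx.trans_le (by rw [hr]; linarith))
  refine ⟨G, ⟨H.N2, hol, ?_, fun w hw => (g3 w (hsub hw)).1, fun w hw => (g3 w (hsub hw)).2.1,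
    fun w hw => (g3 w (hsub hw)).2.2.1, ?_, ?_⟩, g2'⟩
  · intro i j hj
    exact ode_complex H.N2 hz hrp (by rw [hr]; linarith) (by rw [hr]; linarith) hol g2' i hj
  · intro w hw i
    obtain ⟨l, hl, l0, l0', li⟩ := hI.L
    have h1 := (g3 w (hsub hw)).2.2.2.1 i
    rw [hl i] at h1
    have h2 := norm_sub_norm_le ((G w).L i) (l i)
    rw [Complex.norm_real, Real.norm_eq_abs] at h2
    have h3 : |l i| ≤ Λ := by
      obtain ⟨k1, k2⟩ := li i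
      rw [abs_le]; constructor <;> linarith
    have h4 : ℓ ≤ Λ := l0.trans l0'
    linarith
  · intro w hw
    obtain ⟨-, -, -, -, h1, h2⟩ := g3 w (hsub hw)
    obtain ⟨k1, k2⟩ := (sol_of_solOn' H.sol).far H.N2 a haI
    rw [h1, h2]
    rw [k1, k2, H.f0, H.f1, norm_zero, Complex.norm_real, Real.norm_of_nonneg (by positivity)]
    have := Real.pi_le_four
    linarith

/-- a quantity depending on the state -/
structure Qt (k : ℕ) (Q : ℕ → DS ℂ → ℕ → ℂ) : Prop where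
  hol : ∀ N ≥ 2, ∀ G B, Hol N G B → ∀ j < N + 1 - k, DifferentiableOn ℂ (fun z => Q N (G z) j) B
  bl : ∀ ℓ Λ p0 r, 0 < ℓ → 0 < Λ → 0 < r → ∃ C, ∀ (N : ℕ) (t0 : ℂ) (G : ℂ → DS ℂ),
    BH ℓ Λ p0 r N t0 G → ∀ w ∈ Metric.ball t0 (r / 4), BL N (N + 1 - k) C (fun j => Q N (G w) j)

lemma Qt_U (i : Fin 3) : Qt 0 (fun _ s j => s.U i j) :=
  ⟨fun N _ G B H j hj => H.U i j (by omega), fun ℓ Λ p0 r h1 h2 h3 => by
    obtain ⟨C, hC⟩ := interior_bounds (p0 := p0) h1 h2 h3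
    exact ⟨C, fun N t0 G H w hw => (hC N t0 G H w hw i).1⟩⟩
lemma Qt_D (i : Fin 3) : Qt 1 (fun N s j => dD N s i j) :=
  ⟨fun N _ G B H j hj => H.D i (by omega), fun ℓ Λ p0 r h1 h2 h3 => by
    obtain ⟨C, hC⟩ := interior_bounds (p0 := p0) h1 h2 h3
    exact ⟨C, fun N t0 G H w hw => (hC N t0 G H w hw i).2.1⟩⟩
lemma Qt_E (i : Fin 3) : Qt 2 (fun N s j => dE N s i j) :=
  ⟨fun N _ G B H j hj => H.E i (by omega), fun ℓ Λ p0 r h1 h2 h3 => by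
    obtain ⟨C, hC⟩ := interior_bounds (p0 := p0) h1 h2 h3
    exact ⟨C, fun N t0 G H w hw => (hC N t0 G H w hw i).2.2.1⟩⟩
lemma Qt_lam (i : Fin 3) : Qt 0 (fun N s j => lam N s i j) :=
  ⟨fun N h2 G B H j hj => H.lam h2 i (by omega), fun ℓ Λ p0 r h1 h2 h3 => by
    obtain ⟨C, hC⟩ := interior_bounds (p0 := p0) h1 h2 h3
    exact ⟨C, fun N t0 G H w hw => (hC N t0 G H w hw i).2.2.2.1⟩⟩
lemma Qt_R (i : Fin 3) : Qt 0 (fun _ s j => s.R i j) :=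
  ⟨fun N _ G B H j hj => H.R i j (by omega), fun ℓ Λ p0 r h1 h2 h3 => by
    obtain ⟨C, hC⟩ := interior_bounds (p0 := p0) h1 h2 h3
    exact ⟨C, fun N t0 G H w hw => (hC N t0 G H w hw i).2.2.2.2.1⟩⟩
lemma Qt_SS (i : Fin 3) : Qt 0 (fun N s j => SS N s i j) :=
  ⟨fun N _ G B H j hj => H.SS i (by omega), fun ℓ Λ p0 r h1 h2 h3 => by
    obtain ⟨C, hC⟩ := interior_bounds (p0 := p0) h1 h2 h3
    exact ⟨C, fun N t0 G H w hw => (hC N t0 G H w hw i).2.2.2.2.2.1⟩⟩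
lemma Qt_L (i : Fin 3) : Qt 0 (fun _ s _ => s.L i) :=
  ⟨fun N _ G B H j hj => H.L i, fun ℓ Λ p0 r h1 h2 h3 => by
    obtain ⟨C, hC⟩ := interior_bounds (p0 := p0) h1 h2 h3
    exact ⟨C, fun N t0 G H w hw => BL.const _ (hC N t0 G H w hw i).2.2.2.2.2.2.1⟩⟩
lemma Qt_Ld (i : Fin 3) : Qt 0 (fun N s _ => Ld N s i) :=
  ⟨fun N h2 G B H j hj => H.Ld h2 i, fun ℓ Λ p0 r h1 h2 h3 => by
    obtain ⟨C, hC⟩ := interior_bounds (p0 := p0) h1 h2 h3
    exact ⟨C, fun N t0 G H w hw => BL.const _ (hC N t0 G H w hw i).2.2.2.2.2.2.2.1⟩⟩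
lemma Qt_fU (i : Fin 3) : Qt 0 (fun N s j => fU N s i j) :=
  ⟨fun N h2 G B H j hj => H.fU h2 i (by omega), fun ℓ Λ p0 r h1 h2 h3 => by
    obtain ⟨C, hC⟩ := interior_bounds (p0 := p0) h1 h2 h3
    exact ⟨C, fun N t0 G H w hw => (hC N t0 G H w hw i).2.2.2.2.2.2.2.2⟩⟩

/-! ## limit functions with holomorphic extensions -/

/-- locally the restriction of functions which are holomorphic in `t` and Lipschitz in `p` -/
def HL (s : ℝ) (F : ℝ → ℝ → ℂ) : Prop := ∀ t0 ∈ Ioo 0 s, ∃ r > 0, ∃ C, ∃ G : ℂ → ℝ → ℂ,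
  (∀ p ∈ Icc (0:ℝ) 1, DifferentiableOn ℂ (fun z => G z p) (Metric.ball (t0 : ℂ) r)) ∧
  (∀ z ∈ Metric.ball (t0 : ℂ) r, ∀ p ∈ Icc (0:ℝ) 1, ‖G z p‖ ≤ C) ∧
  (∀ z ∈ Metric.ball (t0 : ℂ) r, ∀ p ∈ Icc (0:ℝ) 1, ∀ q ∈ Icc (0:ℝ) 1,
    ‖G z p - G z q‖ ≤ C * |p - q|) ∧
  ∀ t : ℝ, |t - t0| < r → ∀ p ∈ Icc (0:ℝ) 1, F t p = G t p

lemma real_mem_ball {t t0 r : ℝ} (h : |t - t0| < r) : (t : ℂ) ∈ Metric.ball (t0 : ℂ) r := by
  rw [Metric.mem_ball, dist_eq_norm, ← Complex.ofReal_sub, Complex.norm_real]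
  exact h

lemma near (t0 : ℝ) {r : ℝ} (hr : 0 < r) : ∀ᶠ t in 𝓝 t0, |t - t0| < r := by
  have := Metric.ball_mem_nhds t0 hr
  filter_upwards [this] with x hx
  rwa [Metric.mem_ball, Real.dist_eq] at hx

lemma HL.deriv {s : ℝ} {F : ℝ → ℝ → ℂ} (h : HL s F) :
    HL s (fun t p => _root_.deriv (fun t => F t p) t) ∧
    ∀ t ∈ Ioo 0 s, ∀ p ∈ Icc (0:ℝ) 1,
      HasDerivAt (fun t => F t p) (_root_.deriv (fun t => F t p) t) t := by
  have key : ∀ t0 ∈ Ioo 0 s, ∃ r > 0, ∃ C, ∃ G : ℂ → ℝ → ℂ,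
      (∀ p ∈ Icc (0:ℝ) 1, DifferentiableOn ℂ (fun z => G z p) (Metric.ball (t0 : ℂ) r)) ∧
      (∀ z ∈ Metric.ball (t0 : ℂ) r, ∀ p ∈ Icc (0:ℝ) 1, ‖G z p‖ ≤ C) ∧
      (∀ z ∈ Metric.ball (t0 : ℂ) r, ∀ p ∈ Icc (0:ℝ) 1, ∀ q ∈ Icc (0:ℝ) 1,
        ‖G z p - G z q‖ ≤ C * |p - q|) ∧
      ∀ t : ℝ, |t - t0| < r → ∀ p ∈ Icc (0:ℝ) 1,
        HasDerivAt (fun t => F t p) (_root_.deriv (fun z => G z p) (t : ℂ)) t := by
    intro t0 ht0
    obtain ⟨r, hr, C, G, g1, g2, g3, g4⟩ := h t0 ht0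
    refine ⟨r, hr, C, G, g1, g2, g3, fun t ht p hp => ?_⟩
    have h1 := ((g1 p hp).differentiableAt (Metric.isOpen_ball.mem_nhds
      (real_mem_ball ht))).hasDerivAt.comp_ofReal
    refine h1.congr_of_eventuallyEq ?_
    have h2 : ∀ᶠ u in 𝓝 t, |u - t0| < r := by
      have hc : Continuous (fun u : ℝ => |u - t0|) := by fun_prop
      exact (hc.tendsto t).eventually (gt_mem_nhds ht)
    filter_upwards [h2] with u hu
    exact g4 u hu p hp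
  refine ⟨fun t0 ht0 => ?_, fun t ht p hp => ?_⟩
  · obtain ⟨r, hr, C, G, g1, g2, g3, g4⟩ := key t0 ht0
    have hsub : ∀ z ∈ Metric.ball (t0:ℂ) (r / 2), Metric.closedBall z (r / 4) ⊆
        Metric.ball (t0:ℂ) r := fun z hz =>
      (closedBall_sub hz).trans (Metric.ball_subset_ball (by linarith))
    have hsub2 : Metric.ball (t0:ℂ) (r / 2) ⊆ Metric.ball (t0:ℂ) r :=
      Metric.ball_subset_ball (by linarith)
    refine ⟨r / 2, by positivity, C / (r / 4), fun z p => _root_.deriv (fun z => G z p) z,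
      ?_, ?_, ?_, ?_⟩
    · intro p hp
      exact ((g1 p hp).mono hsub2).deriv Metric.isOpen_ball
    · intro z hz p hp
      exact cauchy_bound (by positivity) ((g1 p hp).mono (hsub z hz))
        (fun w hw => g2 w (hsub z hz hw) p hp)
    · intro z hz p hp q hq
      have hd : ∀ p ∈ Icc (0:ℝ) 1, DifferentiableAt ℂ (fun z => G z p) z := fun p hp =>
        (g1 p hp).differentiableAt (Metric.isOpen_ball.mem_nhds (hsub2 hz))
      have h1 := cauchy_bound (f := fun z => G z p - G z q) (w := z) (ρ := r / 4)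
        (C := C * |p - q|) (by positivity)
        (((g1 p hp).fun_sub (g1 q hq)).mono (hsub z hz))
        (fun w hw => g3 w (hsub z hz hw) p hp q hq)
      have h2 : _root_.deriv (fun z => G z p - G z q) z =
          _root_.deriv (fun z => G z p) z - _root_.deriv (fun z => G z q) z :=
        ((hd p hp).hasDerivAt.sub (hd q hq).hasDerivAt).deriv
      rw [h2] at h1
      refine h1.trans (le_of_eq ?_)
      ring
    · intro t ht p hp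
      exact (g4 t (ht.trans (by linarith)) p hp).deriv
  · obtain ⟨r, hr, C, G, g1, g2, g3, g4⟩ := key t ht
    have := g4 t (by simpa using hr) p hp
    rwa [this.deriv]

lemma HL.cont {s : ℝ} {F : ℝ → ℝ → ℂ} (h : HL s F) :
    ContinuousOn (fun q : ℝ × ℝ => F q.1 q.2) (Ioo 0 s ×ˢ Icc 0 1) := by
  rintro ⟨t0, p0⟩ ⟨ht0, hp0⟩
  simp only at ht0 hp0
  obtain ⟨r, hr, C, G, g1, g2, g3, g4⟩ := h t0 ht0
  have ht0b : (t0 : ℂ) ∈ Metric.ball (t0:ℂ) r := Metric.mem_ball_self hr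
  have hC : 0 ≤ C := (norm_nonneg _).trans (g2 t0 ht0b p0 hp0)
  have hsub2 : Metric.ball (t0:ℂ) (r / 2) ⊆ Metric.ball (t0:ℂ) r :=
    Metric.ball_subset_ball (by linarith)
  have hF0 : ∀ p ∈ Icc (0:ℝ) 1, F t0 p = G t0 p := g4 t0 (by simpa using hr)
  have hlip : ∀ t : ℝ, |t - t0| < r / 2 → ∀ p ∈ Icc (0:ℝ) 1,
      ‖F t p - F t0 p0‖ ≤ C / (r / 4) * |t - t0| + C * |p - p0| := by
    intro t ht p hp
    rw [g4 t (by linarith) p hp, hF0 p0 hp0]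
    have h1 : ‖G t p - G t0 p‖ ≤ C / (r / 4) * ‖(t:ℂ) - t0‖ := by
      refine (convex_ball (t0:ℂ) (r / 2)).norm_image_sub_le_of_norm_hasDerivWithin_le
        (f := fun z => G z p) (f' := fun z => _root_.deriv (fun z => G z p) z)
        (fun z hz => ?_) (fun z hz => ?_) (Metric.mem_ball_self (by positivity)) (real_mem_ball ht)
      · exact ((g1 p hp).differentiableAt (Metric.isOpen_ball.mem_nhds
          (hsub2 hz))).hasDerivAt.hasDerivWithinAt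
      · have hs : Metric.closedBall z (r / 4) ⊆ Metric.ball (t0:ℂ) r :=
          (closedBall_sub hz).trans (Metric.ball_subset_ball (by linarith))
        exact cauchy_bound (by positivity) ((g1 p hp).mono hs)
          (fun w hw => g2 w (hs hw) p hp)
    have h2 := g3 t0 ht0b p hp p0 hp0
    have h3 : ‖(t:ℂ) - t0‖ = |t - t0| := by
      rw [← Complex.ofReal_sub, Complex.norm_real, Real.norm_eq_abs]
    rw [h3] at h1
    have e : G t p - G t0 p0 = (G t p - G t0 p) + (G t0 p - G t0 p0) := by ring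
    rw [e]
    exact (norm_add_le _ _).trans (add_le_add h1 h2)
  have hlim : Tendsto (fun q : ℝ × ℝ => C / (r / 4) * |q.1 - t0| + C * |q.2 - p0|)
      (𝓝[Ioo 0 s ×ˢ Icc 0 1] (t0, p0)) (𝓝 0) := by
    have hc : Continuous (fun q : ℝ × ℝ => C / (r / 4) * |q.1 - t0| + C * |q.2 - p0|) := by
      fun_prop
    have := (hc.tendsto (t0, p0)).mono_left (nhdsWithin_le_nhds (s := Ioo 0 s ×ˢ Icc 0 1))
    simpa using this
  rw [ContinuousWithinAt, tendsto_iff_norm_sub_tendsto_zero]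
  refine squeeze_zero' (Eventually.of_forall (fun _ => norm_nonneg _)) ?_ hlim
  have hn : ∀ᶠ q : ℝ × ℝ in 𝓝[Ioo 0 s ×ˢ Icc 0 1] (t0, p0), |q.1 - t0| < r / 2 := by
    have h1 : Tendsto (fun q : ℝ × ℝ => q.1) (𝓝[Ioo 0 s ×ˢ Icc 0 1] (t0, p0)) (𝓝 t0) :=
      (continuous_fst.tendsto (t0, p0)).mono_left nhdsWithin_le_nhds
    exact h1.eventually (near t0 (by positivity))
  filter_upwards [hn, self_mem_nhdsWithin] with q hq1 hq2
  exact hlip q.1 hq1 q.2 hq2.2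

lemma HL.ct {s : ℝ} {F : ℝ → ℝ → ℂ} (h : HL s F) (m : ℕ) :
    CTm s (Icc 0 1) m (fun t p => (F t p).re) := by
  induction m generalizing F with
  | zero => exact Complex.continuous_re.comp_continuousOn h.cont
  | succ m ih =>
    refine ⟨Complex.continuous_re.comp_continuousOn h.cont, _, ih h.deriv.1, fun t ht p hp => ?_⟩
    exact Complex.reCLM.hasFDerivAt.comp_hasDerivAt t (h.deriv.2 t ht p hp)

/-! ## limits of quantities -/

section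
variable {Z : ∀ N, ℝ → EE N ℂ} {s : ℝ} {𝒰 : Ultrafilter ℕ}

/-- limit of a quantity -/
noncomputable def LQ (𝒰 : Ultrafilter ℕ) (Z : ∀ N, ℝ → EE N ℂ) (k : ℕ) (Q : ℕ → DS ℂ → ℕ → ℂ)
    (t p : ℝ) : ℂ := glim 𝒰 k (fun N j => Q N (toDS (Z N t)) j) p

/-- the holomorphic family at an interior time -/
lemma family (h𝒰 : (𝒰 : Filter ℕ) ≤ atTop) (H : Ok Z s) {t0 : ℝ} (ht0 : t0 ∈ Ioo 0 s) :
    ∃ r > 0, ∃ G : ℕ → ℂ → DS ℂ, (∀ᶠ N in (𝒰 : Filter ℕ), 2 ≤ N ∧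
      Hol N (G N) (Metric.ball (t0 : ℂ) r) ∧
      (∀ x : ℝ, |x - t0| < r → (G N) x = toDS (Z N x)) ∧
      (∀ x : ℝ, |x - t0| < r → x ∈ Ioo 0 s) ∧ ∃ ℓ Λ p0, OkB Z N s ℓ Λ p0) ∧
      ∀ k Q, Qt k Q → ∃ C, ∀ᶠ N in (𝒰 : Filter ℕ), ∀ w ∈ Metric.ball (t0 : ℂ) r,
        BL N (N + 1 - k) C (fun j => Q N ((G N) w) j) := by
  obtain ⟨ℓ, Λ, p0, hℓ, hΛ, hN⟩ := H
  have hN' := h𝒰 hN
  have hex : ∀ᶠ N in (𝒰 : Filter ℕ), ∃ G : ℂ → DS ℂ, OkB Z N s ℓ Λ p0 ∧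
      BH ℓ Λ p0 (rad ℓ Λ p0 s t0) N t0 G ∧
      ∀ x : ℝ, |x - t0| < rad ℓ Λ p0 s t0 → G x = toDS (Z N x) := by
    filter_upwards [hN'] with N h
    obtain ⟨G, g1, g2⟩ := ext_family h hℓ hΛ ht0
    exact ⟨G, h, g1, g2⟩
  obtain ⟨G, hG⟩ := hex.choice
  have hr := rad_pos (p0 := p0) hℓ hΛ ht0
  set R := rad ℓ Λ p0 s t0 with hR
  refine ⟨R / 4, by positivity, G, ?_, fun k Q hQ => ?_⟩
  · filter_upwards [hG] with N h
    obtain ⟨h0, h1, h2⟩ := h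
    have hsub : Metric.ball (t0:ℂ) (R / 4) ⊆ Metric.ball (t0:ℂ) R :=
      Metric.ball_subset_ball (by linarith)
    refine ⟨h0.N2, ⟨fun i j hj => (h1.hol.U i j hj).mono hsub, fun i => (h1.hol.L i).mono hsub,
      fun i j hj => (h1.hol.R i j hj).mono hsub⟩, fun x hx => h2 x (by linarith), fun x hx => ?_, ℓ, Λ, p0, h0⟩
    have e1 : R ≤ t0 / 2 := by
      have : min (t0 / 2) (min (tau ℓ Λ p0 / 2) (s - t0)) ≤ t0 / 2 := min_le_left _ _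
      have h3 := ht0.1
      rw [hR, rad]
      have h4 : min (t0 / 2) (min (tau ℓ Λ p0 / 2) (s - t0)) / 200 ≤ t0 / 2 / 200 :=
        div_le_div_of_nonneg_right this (by norm_num)
      linarith
    have e2 : R ≤ s - t0 := by
      have : min (t0 / 2) (min (tau ℓ Λ p0 / 2) (s - t0)) ≤ s - t0 :=
        (min_le_right _ _).trans (min_le_right _ _)
      have h3 := ht0.2
      rw [hR, rad]
      have h4 : min (t0 / 2) (min (tau ℓ Λ p0 / 2) (s - t0)) / 200 ≤ (s - t0) / 200 :=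
        div_le_div_of_nonneg_right this (by norm_num)
      linarith
    have h5 := abs_lt.1 hx
    have h6 := ht0.1
    constructor <;> linarith [h5.1, h5.2]
  · obtain ⟨C, hC⟩ := hQ.bl ℓ Λ p0 R hℓ hΛ hr
    refine ⟨C, ?_⟩
    filter_upwards [hG] with N h w hw
    exact hC N t0 (G N) h.2.1 w hw

/-- bounds at real times -/
lemma LQ_bl (h𝒰 : (𝒰 : Filter ℕ) ≤ atTop) (H : Ok Z s) {t : ℝ} (ht : t ∈ Ioo 0 s) {k : ℕ}
    {Q : ℕ → DS ℂ → ℕ → ℂ} (hQ : Qt k Q) :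
    ∃ C, ∀ᶠ N in (𝒰 : Filter ℕ), BL N (N + 1 - k) C (fun j => Q N (toDS (Z N t)) j) := by
  obtain ⟨r, hr, G, h1, h2⟩ := family h𝒰 H ht
  obtain ⟨C, hC⟩ := h2 k Q hQ
  refine ⟨C, ?_⟩
  filter_upwards [hC, h1] with N a1 a2
  have := a1 t (Metric.mem_ball_self hr)
  have e := a2.2.2.1 t (by simpa using hr)
  simp only [e] at this
  exact this

theorem LQ_HL (h𝒰 : (𝒰 : Filter ℕ) ≤ atTop) (H : Ok Z s) {k : ℕ} {Q : ℕ → DS ℂ → ℕ → ℂ}
    (hQ : Qt k Q) : HL s (LQ 𝒰 Z k Q) := by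
  intro t0 ht0
  obtain ⟨r, hr, G, h1, h2⟩ := family h𝒰 H ht0
  obtain ⟨C, hC⟩ := h2 k Q hQ
  refine ⟨r, hr, C, fun z p => glim 𝒰 k (fun N j => Q N ((G N) z) j) p, ?_, ?_, ?_, ?_⟩
  · intro p hp z hz
    have := ulim_holo (𝒰 := 𝒰) (g := fun N z => Q N ((G N) z) (idx N k p)) (t0 := (t0:ℂ)) (r := r)
      (C := C) (by
        filter_upwards [h1, hC, ev_ge h𝒰 (k + 2)] with N a1 a2 a3
        have hidx := idx_lt (N := N) (k := k) (by omega) p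
        exact ⟨hQ.hol N a1.1 (G N) _ a1.2.1 _ hidx, fun w hw => (a2 w hw).2.1 _ hidx⟩) z hz
    exact this.differentiableAt.differentiableWithinAt
  · intro z hz p hp
    exact glim_norm h𝒰 (hC.mono (fun N h => h z hz)) p
  · intro z hz p hp q hq
    exact glim_lip h𝒰 (hC.mono (fun N h => h z hz)) hp hq
  · intro t ht p hp
    have : (fun N => Q N (toDS (Z N t)) (idx N k p)) =ᶠ[(𝒰 : Filter ℕ)]
        fun N => Q N ((G N) t) (idx N k p) := by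
      filter_upwards [h1] with N a1
      rw [a1.2.2.1 t ht]
    simp only [LQ, glim]
    apply ulim_eq
    have hb : ∀ᶠ N in (𝒰 : Filter ℕ), ‖Q N ((G N) t) (idx N k p)‖ ≤ C := by
      filter_upwards [hC, ev_ge h𝒰 (k + 2)] with N a2 a3
      exact (a2 t (real_mem_ball ht)).2.1 _ (idx_lt (by omega) p)
    exact (ulim_tendsto hb).congr' this.symm

end

end Run7.h661x
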