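import Pool.Agent.Run7.h661.X.Lim

/-!
# The equations of the limit
-/

open Set Filter Topology
open scoped Real

namespace Run7.h661x

lemma ulim_congr {𝒰 : Ultrafilter ℕ} {u v : ℕ → ℂ} (h : u =ᶠ[(𝒰 : Filter ℕ)] v) :
    ulim 𝒰 u = ulim 𝒰 v := by
  unfold ulim limUnder
  rw [Filter.map_congr h]

section
variable {Z : ∀ N, ℝ → EE N ℂ} {s : ℝ} {𝒰 : Ultrafilter ℕ}

theorem LQ_dt (h𝒰 : (𝒰 : Filter ℕ) ≤ atTop) (H : Ok Z s) {k : ℕ} {Q Q' : ℕ → DS ℂ → ℕ → ℂ}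
    (hQ : Qt k Q) (hd : ∀ N ≥ 2, SolOn (vf N 1) (Z N) 0 s → ∀ t ∈ Ioo 0 s, ∀ j < N + 1 - k,
      HasDerivAt (fun t => Q N (toDS (Z N t)) j) (Q' N (toDS (Z N t)) j) t) {t : ℝ}
    (ht : t ∈ Ioo 0 s) {p : ℝ} (hp : p ∈ Icc (0:ℝ) 1) :
    HasDerivAt (fun t => LQ 𝒰 Z k Q t p) (LQ 𝒰 Z k Q' t p) t := by
  obtain ⟨r, hr, G, h1, h2⟩ := family h𝒰 H ht
  obtain ⟨C, hC⟩ := h2 k Q hQ
  have key := ulim_holo (𝒰 := 𝒰) (g := fun N z => Q N ((G N) z) (idx N k p)) (t0 := (t:ℂ)) (r := r)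
      (C := C) (by
        filter_upwards [h1, hC, ev_ge h𝒰 (k + 2)] with N a1 a2 a3
        have hidx := idx_lt (N := N) (k := k) (by omega) p
        exact ⟨hQ.hol N a1.1 (G N) _ a1.2.1 _ hidx, fun w hw => (a2 w hw).2.1 _ hidx⟩) t
        (Metric.mem_ball_self hr)
  have key2 := key.comp_ofReal
  have e1 : ulim 𝒰 (fun N => deriv (fun z => Q N ((G N) z) (idx N k p)) (t:ℂ)) =
      LQ 𝒰 Z k Q' t p := by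
    simp only [LQ, glim]
    apply ulim_congr
    filter_upwards [h1, ev_ge h𝒰 (k + 2)] with N a1 a3
    have hidx := idx_lt (N := N) (k := k) (by omega) p
    have d1 := ((hQ.hol N a1.1 (G N) _ a1.2.1 _ hidx).differentiableAt
      (Metric.isOpen_ball.mem_nhds (Metric.mem_ball_self hr))).hasDerivAt.comp_ofReal
    obtain ⟨ℓ, Λ, p0, hO⟩ := a1.2.2.2.2
    have d2 := hd N a1.1 hO.sol t ht _ hidx
    refine d1.unique (d2.congr_of_eventuallyEq ?_)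
    filter_upwards [near t hr] with u hu
    rw [a1.2.2.1 u hu]
  rw [e1] at key2
  refine key2.congr_of_eventuallyEq ?_
  filter_upwards [near t hr] with u hu
  simp only [LQ, glim]
  apply ulim_congr
  filter_upwards [h1] with N a1
  rw [a1.2.2.1 u hu]

lemma LQ_tendsto (h𝒰 : (𝒰 : Filter ℕ) ≤ atTop) (H : Ok Z s) {t : ℝ} (ht : t ∈ Ioo 0 s) {k : ℕ}
    {Q : ℕ → DS ℂ → ℕ → ℂ} (hQ : Qt k Q) {p : ℝ} (hp : p ∈ Icc (0:ℝ) 1) {j : ℕ → ℕ}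
    (hj : ∀ᶠ N in (𝒰 : Filter ℕ), j N < N + 1 - k)
    (hjp : Tendsto (fun N => (j N : ℝ) / N) 𝒰 (𝓝 p)) :
    Tendsto (fun N => Q N (toDS (Z N t)) (j N)) 𝒰 (𝓝 (LQ 𝒰 Z k Q t p)) := by
  obtain ⟨C, hC⟩ := LQ_bl h𝒰 H ht hQ
  exact glim_tendsto h𝒰 hC hp hj hjp

lemma LQ_real (h𝒰 : (𝒰 : Filter ℕ) ≤ atTop) (H : Ok Z s) {t : ℝ} (ht : t ∈ Ioo 0 s) {k : ℕ}
    {Q : ℕ → DS ℂ → ℕ → ℂ} (hQ : Qt k Q)
    (hc : ∀ N s j, Q N s.cj j = starRingEnd ℂ (Q N s j)) {p : ℝ} (hp : p ∈ Icc (0:ℝ) 1) :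
    (((LQ 𝒰 Z k Q t p).re : ℝ) : ℂ) = LQ 𝒰 Z k Q t p := by
  have h1 := LQ_tendsto h𝒰 H ht hQ hp (j := fun N => idx N k p)
    (by filter_upwards [ev_ge h𝒰 k] with N hN; exact idx_lt hN p) (idx_tendsto h𝒰 k hp)
  have h2 : Tendsto (fun N => Q N (toDS (Z N t)) (idx N k p)) 𝒰
      (𝓝 (starRingEnd ℂ (LQ 𝒰 Z k Q t p))) := by
    have h3 := (Complex.continuous_conj.tendsto _).comp h1
    refine h3.congr' ?_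
    obtain ⟨ℓ, Λ, p0, -, -, hN⟩ := H
    filter_upwards [h𝒰 hN] with N hN
    have := hN.rl t ⟨ht.1.le, ht.2.le⟩
    simp only [Function.comp_apply]
    rw [← hc, this]
  have h3 := tendsto_nhds_unique h1 h2
  exact (Complex.conj_eq_iff_re.1 h3.symm)

lemma one_div_tendsto (h𝒰 : (𝒰 : Filter ℕ) ≤ atTop) (c : ℕ) :
    Tendsto (fun N : ℕ => ((c : ℕ) : ℝ) / N) 𝒰 (𝓝 0) := tendsto_inv h𝒰 (c:ℝ)

lemma sub_div_tendsto (h𝒰 : (𝒰 : Filter ℕ) ≤ atTop) (c : ℕ) :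
    Tendsto (fun N : ℕ => ((N - c : ℕ) : ℝ) / N) 𝒰 (𝓝 1) := by
  have h1 : Tendsto (fun N : ℕ => 1 - (c:ℝ) / N) 𝒰 (𝓝 (1 - 0)) :=
    (tendsto_inv h𝒰 (c:ℝ)).const_sub 1
  rw [sub_zero] at h1
  refine h1.congr' ?_
  filter_upwards [ev_ge h𝒰 (c + 1)] with N hN
  have hN0 : (0:ℝ) < N := by
    have : 0 < N := by omega
    exact_mod_cast this
  rw [Nat.cast_sub (by omega)]
  field_simp

lemma succ_tendsto (h𝒰 : (𝒰 : Filter ℕ) ≤ atTop) {j : ℕ → ℕ} {p : ℝ}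
    (hjp : Tendsto (fun N => (j N : ℝ) / N) 𝒰 (𝓝 p)) :
    Tendsto (fun N => ((j N + 1 : ℕ) : ℝ) / N) 𝒰 (𝓝 p) := by
  have := hjp.add (tendsto_inv h𝒰 1)
  rw [add_zero] at this
  refine this.congr (fun N => ?_)
  push_cast; rw [add_div]

lemma xn_tendsto {j : ℕ → ℕ} {p : ℝ} (hjp : Tendsto (fun N => (j N : ℝ) / N) 𝒰 (𝓝 p)) :
    Tendsto (fun N => xn N (j N)) 𝒰 (𝓝 (p:ℂ)) := by
  have := (Complex.continuous_ofReal.tendsto p).comp hjp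
  refine this.congr (fun N => ?_)
  simp only [Function.comp_apply, xn]
  push_cast; rfl

/-! ### the limit functions -/

/-- data of a flow of angles -/
structure AFd where
  th : Fin 3 → ℝ → ℝ → ℝ
  D : Fin 3 → ℝ → ℝ → ℝ
  lm : Fin 3 → ℝ → ℝ → ℝ
  V : Fin 3 → ℝ → ℝ → ℝ
  L : Fin 3 → ℝ → ℝ
  Ld : Fin 3 → ℝ → ℝ

/-- speed -/
noncomputable def AFd.ro (a : AFd) (i : Fin 3) (t p : ℝ) : ℝ :=
  a.L 0 t + 2 * p * (a.L i t - a.L 0 t)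

/-- time derivative of the speed -/
noncomputable def AFd.rod (a : AFd) (i : Fin 3) (t p : ℝ) : ℝ :=
  a.Ld 0 t + 2 * p * (a.Ld i t - a.Ld 0 t)

/-- second derivative of the angle -/
noncomputable def AFd.E (a : AFd) (i : Fin 3) (t p : ℝ) : ℝ :=
  a.ro i t p ^ 2 * (a.V i t p - (a.lm i t p * (a.ro i t p)⁻¹ -
    2 * ((a.L i t - a.L 0 t) * (a.ro i t p)⁻¹ ^ 3)) * a.D i t p)

/-- a flow of angles -/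
structure AF (T : ℝ) (a : AFd) : Prop where
  pos : ∀ i, ∀ t ∈ Ioo 0 T, ∀ p ∈ Icc (0:ℝ) 1, 0 < a.ro i t p
  cth : ∀ i m, CTm T (Icc 0 1) m (a.th i)
  cD : ∀ i m, CTm T (Icc 0 1) m (a.D i)
  clm : ∀ i m, CTm T (Icc 0 1) m (a.lm i)
  cV : ∀ i m, CTm T (Icc 0 1) m (a.V i)
  cL : ∀ i m, CTm T (Icc 0 1) m (fun t _ => a.L i t)
  cLd : ∀ i m, CTm T (Icc 0 1) m (fun t _ => a.Ld i t)
  tth : ∀ i, ∀ t ∈ Ioo 0 T, ∀ p ∈ Icc (0:ℝ) 1, HasDerivAt (fun t => a.th i t p) (a.V i t p) t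
  tL : ∀ i, ∀ t ∈ Ioo 0 T, HasDerivAt (a.L i) (a.Ld i t) t
  pth : ∀ i, ∀ t ∈ Ioo 0 T, ∀ p ∈ Icc (0:ℝ) 1,
    HasDerivWithinAt (a.th i t) (a.D i t p) (Icc 0 1) p
  pD : ∀ i, ∀ t ∈ Ioo 0 T, ∀ p ∈ Icc (0:ℝ) 1, HasDerivWithinAt (a.D i t) (a.E i t p) (Icc 0 1) p
  plm : ∀ i, ∀ t ∈ Ioo 0 T, ∀ p ∈ Icc (0:ℝ) 1, HasDerivWithinAt (a.lm i t)
    (a.rod i t p + a.D i t p ^ 2 * (a.ro i t p)⁻¹) (Icc 0 1) p
  jth : ∀ t ∈ Ioo 0 T, ∀ i j, a.th i t 0 = a.th j t 0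
  jD : ∀ t ∈ Ioo 0 T, ∑ i, a.D i t 0 = 0
  jlm : ∀ t ∈ Ioo 0 T, ∀ i, a.lm i t 0 =
    1 / √3 * (a.D (i + 1) t 0 * (a.L 0 t)⁻¹ - a.D (i + 2) t 0 * (a.L 0 t)⁻¹)
  e0 : ∀ t ∈ Ioo 0 T, a.th 0 t 1 = 0 ∧ a.lm 0 t 1 = -(1 / √3) * (a.D 0 t 1 * (a.ro 0 t 1)⁻¹)
  e1 : ∀ t ∈ Ioo 0 T, a.th 1 t 1 = π / 3 ∧ a.lm 1 t 1 = 0
  e2 : ∀ t ∈ Ioo 0 T, a.D 2 t 1 = 0 ∧ a.lm 2 t 1 = 0

/-- the limit data -/
noncomputable def LA (𝒰 : Ultrafilter ℕ) (Z : ∀ N, ℝ → EE N ℂ) : AFd where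
  th := fun i t p => (LQ 𝒰 Z 0 (fun _ s j => s.U i j) t p).re
  D := fun i t p => (LQ 𝒰 Z 1 (fun N s j => dD N s i j) t p).re
  lm := fun i t p => (LQ 𝒰 Z 0 (fun N s j => lam N s i j) t p).re
  V := fun i t p => (LQ 𝒰 Z 0 (fun N s j => fU N s i j) t p).re
  L := fun i t => (LQ 𝒰 Z 0 (fun _ s _ => s.L i) t 0).re
  Ld := fun i t => (LQ 𝒰 Z 0 (fun N s _ => Ld N s i) t 0).re

section
variable (h𝒰 : (𝒰 : Filter ℕ) ≤ atTop) (H : Ok Z s) {t : ℝ} (ht : t ∈ Ioo 0 s)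
include h𝒰 H ht

lemma rU (i : Fin 3) {p : ℝ} (hp : p ∈ Icc (0:ℝ) 1) : LQ 𝒰 Z 0 (fun _ s j => s.U i j) t p =
    ((LA 𝒰 Z).th i t p : ℂ) := (LQ_real h𝒰 H ht (Qt_U i) (fun _ _ _ => rfl) hp).symm
lemma rD (i : Fin 3) {p : ℝ} (hp : p ∈ Icc (0:ℝ) 1) : LQ 𝒰 Z 1 (fun N s j => dD N s i j) t p =
    ((LA 𝒰 Z).D i t p : ℂ) := (LQ_real h𝒰 H ht (Qt_D i) (fun N s j => dD_cj N s i j) hp).symm
lemma rlm (i : Fin 3) {p : ℝ} (hp : p ∈ Icc (0:ℝ) 1) : LQ 𝒰 Z 0 (fun N s j => lam N s i j) t p =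
    ((LA 𝒰 Z).lm i t p : ℂ) := (LQ_real h𝒰 H ht (Qt_lam i) (fun N s j => lam_cj N s i j) hp).symm
lemma rV (i : Fin 3) {p : ℝ} (hp : p ∈ Icc (0:ℝ) 1) : LQ 𝒰 Z 0 (fun N s j => fU N s i j) t p =
    ((LA 𝒰 Z).V i t p : ℂ) := (LQ_real h𝒰 H ht (Qt_fU i) (fun N s j => fU_cj N s i j) hp).symm
lemma rL (i : Fin 3) (p : ℝ) : LQ 𝒰 Z 0 (fun _ s _ => s.L i) t p =
    ((LA 𝒰 Z).L i t : ℂ) :=
  (LQ_real h𝒰 H ht (Qt_L i) (fun _ _ _ => rfl) (p := 0) ⟨le_refl _, zero_le_one⟩).symm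
lemma rLd (i : Fin 3) (p : ℝ) : LQ 𝒰 Z 0 (fun N s _ => Ld N s i) t p =
    ((LA 𝒰 Z).Ld i t : ℂ) :=
  (LQ_real h𝒰 H ht (Qt_Ld i) (fun N s _ => Ld_cj N s i) (p := 0) ⟨le_refl _, zero_le_one⟩).symm

lemma tL (i : Fin 3) : Tendsto (fun N => (toDS (Z N t)).L i) 𝒰 (𝓝 ((LA 𝒰 Z).L i t : ℂ)) := by
  have := LQ_tendsto h𝒰 H ht (Qt_L i) (p := 0) ⟨le_refl _, zero_le_one⟩ (j := fun _ => 0)
    (by filter_upwards [ev_ge h𝒰 1] with N hN; omega) (by simpa using one_div_tendsto h𝒰 0)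
  rwa [rL h𝒰 H ht i] at this
lemma tLd (i : Fin 3) : Tendsto (fun N => Ld N (toDS (Z N t)) i) 𝒰
    (𝓝 ((LA 𝒰 Z).Ld i t : ℂ)) := by
  have := LQ_tendsto h𝒰 H ht (Qt_Ld i) (p := 0) ⟨le_refl _, zero_le_one⟩ (j := fun _ => 0)
    (by filter_upwards [ev_ge h𝒰 1] with N hN; omega) (by simpa using one_div_tendsto h𝒰 0)
  rwa [rLd h𝒰 H ht i] at this

lemma t_rho (i : Fin 3) {j : ℕ → ℕ} {p : ℝ}
    (hjp : Tendsto (fun N => (j N : ℝ) / N) 𝒰 (𝓝 p)) :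
    Tendsto (fun N => rho N (toDS (Z N t)) i (j N)) 𝒰 (𝓝 ((LA 𝒰 Z).ro i t p : ℂ)) := by
  have h1 := (tL h𝒰 H ht 0).add (((xn_tendsto hjp).const_mul 2).mul
    ((tL h𝒰 H ht i).sub (tL h𝒰 H ht 0)))
  have e : ((LA 𝒰 Z).ro i t p : ℂ) = ((LA 𝒰 Z).L 0 t : ℂ) + 2 * (p:ℂ) *
      (((LA 𝒰 Z).L i t : ℂ) - ((LA 𝒰 Z).L 0 t : ℂ)) := by
    rw [AFd.ro]; push_cast; ring
  rw [e]
  exact h1

lemma init_ev : ∃ ℓ Λ p0, 0 < ℓ ∧ 0 < Λ ∧ ∀ᶠ N in (𝒰 : Filter ℕ),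
    2 ≤ N ∧ Init N ℓ Λ p0 (toDS (Z N t)) := by
  obtain ⟨ℓ, Λ, p0, hℓ, hΛ, hN⟩ := H
  refine ⟨ℓ, Λ, p0, hℓ, hΛ, ?_⟩
  filter_upwards [h𝒰 hN] with N hN
  exact ⟨hN.N2, hN.init t ⟨ht.1.le, ht.2.le⟩⟩

lemma ro_pos (i : Fin 3) {p : ℝ} (hp : p ∈ Icc (0:ℝ) 1) : 0 < (LA 𝒰 Z).ro i t p := by
  obtain ⟨ℓ, Λ, p0, hℓ, hΛ, hN⟩ := init_ev h𝒰 H ht
  have h1 : ∀ᶠ N in (𝒰 : Filter ℕ), ℓ ≤ ((toDS (Z N t)).L 0).re ∧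
      ℓ ≤ 2 * ((toDS (Z N t)).L i).re - ((toDS (Z N t)).L 0).re := by
    filter_upwards [hN] with N hN
    obtain ⟨l, hl, l0, -, li⟩ := hN.2.L
    rw [hl, hl, Complex.ofReal_re, Complex.ofReal_re]
    exact ⟨l0, (li i).1⟩
  have t0 := (Complex.continuous_re.tendsto _).comp (tL h𝒰 H ht 0)
  have ti := (Complex.continuous_re.tendsto _).comp (tL h𝒰 H ht i)
  have k1 := ge_of_tendsto t0 (h1.mono (fun N h => h.1))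
  have k2 := ge_of_tendsto ((ti.const_mul 2).sub t0) (h1.mono (fun N h => h.2))
  rw [Complex.ofReal_re] at k1 k2
  rw [Complex.ofReal_re] at k2
  rw [AFd.ro]
  nlinarith [hp.1, hp.2]

lemma t_R (i : Fin 3) {j : ℕ → ℕ} {p : ℝ} (hp : p ∈ Icc (0:ℝ) 1)
    (hj : ∀ᶠ N in (𝒰 : Filter ℕ), j N < N + 1)
    (hjp : Tendsto (fun N => (j N : ℝ) / N) 𝒰 (𝓝 p)) :
    Tendsto (fun N => (toDS (Z N t)).R i (j N)) 𝒰 (𝓝 (((LA 𝒰 Z).ro i t p)⁻¹ : ℂ)) := by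
  have h1 := t_rho h𝒰 H ht i hjp
  have h0 := ro_pos h𝒰 H ht i hp
  have h2 := h1.inv₀ (by exact_mod_cast h0.ne')
  refine h2.congr' ?_
  obtain ⟨ℓ, Λ, p0, hℓ, hΛ, hN⟩ := init_ev h𝒰 H ht
  filter_upwards [hN, hj] with N hN hj
  have := hN.2.R i (j N) (by omega)
  have hne : rho N (toDS (Z N t)) i (j N) ≠ 0 := by
    intro h; rw [h, mul_zero] at this; exact zero_ne_one this
  rw [inv_eq_one_div, div_eq_iff hne]; exact this.symm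

end

end

end Run7.h661x
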