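import Pool.Agent.Run7.h661.X.Lim2

/-!
# The limit is a flow of angles
-/

open Set Filter Topology
open scoped Real

namespace Run7.h661x

lemma dE_eq' {N : ℕ} {s : DS ℂ} (i : Fin 3) {j : ℕ} (hj : j < N - 1)
    (hinv : s.R i (j + 1) * rho N s i (j + 1) = 1) :
    dE N s i j = rho N s i (j + 1) * rho N s i (j + 1) *
      (fU N s i (j + 1) - bb N s i j * dD N s i j) := by
  have h3 : j + 1 ≠ N := by omega
  have h1 : fU N s i (j + 1) = VV N s i j := by simp [fU, h3]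
  rw [h1, VV]
  have : rho N s i (j + 1) * rho N s i (j + 1) * (s.R i (j + 1) * s.R i (j + 1) *
      dE N s i j + bb N s i j * dD N s i j - bb N s i j * dD N s i j) =
      (s.R i (j + 1) * rho N s i (j + 1)) ^ 2 * dE N s i j := by ring
  rw [this, hinv, one_pow, one_mul]

section
variable {Z : ∀ N, ℝ → EE N ℂ} {s : ℝ} {𝒰 : Ultrafilter ℕ}

lemma zI : (0:ℝ) ∈ Icc (0:ℝ) 1 := ⟨le_refl _, zero_le_one⟩
lemma oI : (1:ℝ) ∈ Icc (0:ℝ) 1 := ⟨zero_le_one, le_refl _⟩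

section
variable (h𝒰 : (𝒰 : Filter ℕ) ≤ atTop) (H : Ok Z s)
include h𝒰 H

lemma lim_tth (i : Fin 3) : ∀ t ∈ Ioo 0 s, ∀ p ∈ Icc (0:ℝ) 1,
    HasDerivAt (fun t => (LA 𝒰 Z).th i t p) ((LA 𝒰 Z).V i t p) t := by
  intro t ht p hp
  have h1 := LQ_dt (Q := fun _ s j => s.U i j) (Q' := fun N s j => fU N s i j) h𝒰 H (Qt_U i)
    (fun N hN hS t ht j hj => by
      have := (sol_of_solOn' hS).U t ⟨ht.1.le, ht.2.le⟩ i j (by omega)
      rw [one_mul] at this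
      exact this.hasDerivAt (Icc_mem_nhds ht.1 ht.2)) ht hp
  exact Complex.reCLM.hasFDerivAt.comp_hasDerivAt t h1

lemma lim_tL (i : Fin 3) : ∀ t ∈ Ioo 0 s,
    HasDerivAt ((LA 𝒰 Z).L i) ((LA 𝒰 Z).Ld i t) t := by
  intro t ht
  have h1 := LQ_dt (Q := fun _ s _ => s.L i) (Q' := fun N s _ => Ld N s i) h𝒰 H (Qt_L i)
    (fun N hN hS t ht j hj => by
      have := (sol_of_solOn' hS).L t ⟨ht.1.le, ht.2.le⟩ i
      rw [one_mul] at this
      exact this.hasDerivAt (Icc_mem_nhds ht.1 ht.2)) ht (zI)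
  exact Complex.reCLM.hasFDerivAt.comp_hasDerivAt t h1

omit h𝒰 H in
lemma re_within {f : ℝ → ℂ} {f' : ℂ} {S : Set ℝ} {t : ℝ} (h : HasDerivWithinAt f f' S t) :
    HasDerivWithinAt (fun t => (f t).re) f'.re S t :=
  Complex.reCLM.hasFDerivAt.comp_hasDerivWithinAt t h

lemma lim_pth (i : Fin 3) : ∀ t ∈ Ioo 0 s, ∀ p ∈ Icc (0:ℝ) 1,
    HasDerivWithinAt ((LA 𝒰 Z).th i t) ((LA 𝒰 Z).D i t p) (Icc 0 1) p := by
  intro t ht p hp
  obtain ⟨C, hC⟩ := LQ_bl h𝒰 H ht (Qt_U i)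
  obtain ⟨C', hC'⟩ := LQ_bl h𝒰 H ht (Qt_D i)
  have h1 := glim_deriv h𝒰 (k := 0) (f := fun N j => (toDS (Z N t)).U i j)
    (d := fun N j => dD N (toDS (Z N t)) i j) hC hC' (Eventually.of_forall (fun N j _ => rfl)) hp
  exact Complex.reCLM.hasFDerivAt.comp_hasDerivWithinAt p h1

lemma lim_pD (i : Fin 3) : ∀ t ∈ Ioo 0 s, ∀ p ∈ Icc (0:ℝ) 1,
    HasDerivWithinAt ((LA 𝒰 Z).D i t) ((LA 𝒰 Z).E i t p) (Icc 0 1) p := by
  intro t ht p hp
  obtain ⟨C, hC⟩ := LQ_bl h𝒰 H ht (Qt_D i)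
  obtain ⟨C', hC'⟩ := LQ_bl h𝒰 H ht (Qt_E i)
  have h1 := glim_deriv h𝒰 (k := 1) (f := fun N j => dD N (toDS (Z N t)) i j)
    (d := fun N j => dE N (toDS (Z N t)) i j) hC hC' (Eventually.of_forall (fun N j _ => rfl)) hp
  have h2 : HasDerivWithinAt ((LA 𝒰 Z).D i t) (LQ 𝒰 Z 2 (fun N s j => dE N s i j) t p).re
    (Icc 0 1) p := Complex.reCLM.hasFDerivAt.comp_hasDerivWithinAt p h1
  -- value
  set j : ℕ → ℕ := fun N => idx N 2 p with hj
  have j0 : Tendsto (fun N => (j N : ℝ) / N) 𝒰 (𝓝 p) := idx_tendsto h𝒰 2 hp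
  have j1 := succ_tendsto h𝒰 j0
  have jlt : ∀ᶠ N in (𝒰 : Filter ℕ), j N < N + 1 - 2 := by
    filter_upwards [ev_ge h𝒰 2] with N hN
    exact idx_lt hN p
  have tE := LQ_tendsto h𝒰 H ht (Qt_E i) hp jlt j0
  have tD := LQ_tendsto h𝒰 H ht (Qt_D i) hp (j := j) (jlt.mono (fun N h => by omega)) j0
  have tV := LQ_tendsto h𝒰 H ht (Qt_fU i) hp (j := fun N => j N + 1)
    (jlt.mono (fun N h => by omega)) j1
  have tl := LQ_tendsto h𝒰 H ht (Qt_lam i) hp (j := fun N => j N + 1)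
    (jlt.mono (fun N h => by omega)) j1
  have tR := t_R h𝒰 H ht i hp (j := fun N => j N + 1)
    (jlt.mono (fun N h => by omega)) j1
  have tρ := t_rho h𝒰 H ht i j1
  have tb := (tl.mul tR).sub ((((tL h𝒰 H ht i).sub (tL h𝒰 H ht 0)).mul
    ((tR.mul tR).mul tR)).const_mul (2:ℂ))
  have tall := (tρ.mul tρ).mul (tV.sub (tb.mul tD))
  have hkey : (fun N => dE N (toDS (Z N t)) i (j N)) =ᶠ[(𝒰 : Filter ℕ)] fun N =>
      rho N (toDS (Z N t)) i (j N + 1) * rho N (toDS (Z N t)) i (j N + 1) *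
      (fU N (toDS (Z N t)) i (j N + 1) - bb N (toDS (Z N t)) i (j N) *
        dD N (toDS (Z N t)) i (j N)) := by
    obtain ⟨ℓ, Λ, p0, hℓ, hΛ, hN⟩ := init_ev h𝒰 H ht
    filter_upwards [hN, jlt] with N hN hjN
    exact dE_eq' (N := N) (s := toDS (Z N t)) i (j := j N) (by omega)
      (hN.2.R i (j N + 1) (by omega))
  have heq := tendsto_nhds_unique (tE.congr' hkey) tall
  rw [rD h𝒰 H ht i hp, rV h𝒰 H ht i hp, rlm h𝒰 H ht i hp] at heq
  have hE : LQ 𝒰 Z 2 (fun N s j => dE N s i j) t p = (((LA 𝒰 Z).E i t p : ℝ) : ℂ) := by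
    rw [heq, AFd.E]
    push_cast
    ring
  rw [hE, Complex.ofReal_re] at h2
  exact h2

omit h𝒰 H in
/-- partial sums -/
lemma BL_sum {N : ℕ} (hN : 0 < N) {d : ℕ → ℂ} {C : ℝ} (hd : BL N N C d) :
    BL N (N + 1) C (fun j => ∑ l ∈ Finset.range j, (1 / (N:ℂ)) * d l) := by
  have hN0 : (0:ℝ) < N := by exact_mod_cast hN
  have hC := hd.1
  refine ⟨hC, fun j hj => ?_, fun j l hj hl => ?_⟩
  · refine (norm_sum_le _ _).trans ?_
    calc ∑ l ∈ Finset.range j, ‖1 / (N:ℂ) * d l‖ ≤ ∑ l ∈ Finset.range j, 1 / (N:ℝ) * C := by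
          apply Finset.sum_le_sum
          intro l hl
          rw [norm_mul, norm_div, norm_one, Complex.norm_natCast]
          have := Finset.mem_range.1 hl
          exact mul_le_mul_of_nonneg_left (hd.2.1 l (by omega)) (by positivity)
      _ = (j:ℝ) / N * C := by rw [Finset.sum_const, Finset.card_range, nsmul_eq_mul]; ring
      _ ≤ 1 * C := by
          apply mul_le_mul_of_nonneg_right _ hC
          rw [div_le_one hN0]
          exact_mod_cast Nat.lt_succ_iff.1 hj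
      _ = C := one_mul C
  · refine lip_of_step (f := fun j => ∑ l ∈ Finset.range j, (1 / (N:ℂ)) * d l) (n := N + 1) hN hC
      (fun k hk => ?_) hj hl
    rw [Finset.sum_range_succ, add_sub_cancel_left, norm_mul, norm_div, norm_one,
      Complex.norm_natCast, one_div, inv_mul_eq_div]
    exact div_le_div_of_nonneg_right (hd.2.1 k (by omega)) hN0.le

lemma lim_plm (i : Fin 3) : ∀ t ∈ Ioo 0 s, ∀ p ∈ Icc (0:ℝ) 1,
    HasDerivWithinAt ((LA 𝒰 Z).lm i t) ((LA 𝒰 Z).rod i t p + (LA 𝒰 Z).D i t p ^ 2 *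
      ((LA 𝒰 Z).ro i t p)⁻¹) (Icc 0 1) p := by
  intro t ht
  obtain ⟨C, hC⟩ := LQ_bl h𝒰 H ht (Qt_SS i)
  obtain ⟨C1, hC1⟩ := LQ_bl h𝒰 H ht (Qt_D i)
  obtain ⟨C2, hC2⟩ := LQ_bl h𝒰 H ht (Qt_R i)
  have hS : ∀ p ∈ Icc (0:ℝ) 1, HasDerivWithinAt (LQ 𝒰 Z 0 (fun N s j => SS N s i j) t)
      (((LA 𝒰 Z).D i t p : ℂ) * ((LA 𝒰 Z).D i t p : ℂ) * (((LA 𝒰 Z).ro i t p)⁻¹ : ℂ))
      (Icc 0 1) p := by
    intro p hp
    have h1 := glim_deriv h𝒰 (k := 0) (f := fun N j => SS N (toDS (Z N t)) i j)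
      (d := fun N j => dD N (toDS (Z N t)) i j * dD N (toDS (Z N t)) i j *
        (toDS (Z N t)).R i j) (C := 2 * (2 * (C1 * C1) * C2)) hC
      (by
        filter_upwards [hC1, hC2] with N a1 a2
        exact (a1.mul a1).mul (a2.mono_n (by omega)))
      (by
        filter_upwards [ev_ge h𝒰 1] with N hN j _
        have hNc : (N:ℂ) ≠ 0 := by exact_mod_cast (by omega : N ≠ 0)
        simp only [SS]
        rw [Finset.sum_range_succ, add_sub_cancel_left, smul_eq_mul, smul_eq_mul]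
        field_simp) hp
    have jlt : ∀ᶠ N in (𝒰 : Filter ℕ), idx N 1 p < N + 1 - 1 := by
      filter_upwards [ev_ge h𝒰 1] with N hN
      exact idx_lt hN p
    have j0 : Tendsto (fun N => (idx N 1 p : ℝ) / N) 𝒰 (𝓝 p) := idx_tendsto h𝒰 1 hp
    have tD := LQ_tendsto h𝒰 H ht (Qt_D i) hp jlt j0
    have tR := t_R h𝒰 H ht i hp (j := fun N => idx N 1 p) (jlt.mono (fun N h => by omega)) j0
    have hv : glim 𝒰 1 (fun N j => dD N (toDS (Z N t)) i j * dD N (toDS (Z N t)) i j *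
        (toDS (Z N t)).R i j) p = ((LA 𝒰 Z).D i t p : ℂ) * ((LA 𝒰 Z).D i t p : ℂ) *
        (((LA 𝒰 Z).ro i t p)⁻¹ : ℂ) := by
      apply ulim_eq
      have := (tD.mul tD).mul tR
      rw [rD h𝒰 H ht i hp] at this
      exact this
    rw [zero_add, hv] at h1
    exact h1
  have hlam : ∀ p ∈ Icc (0:ℝ) 1, LQ 𝒰 Z 0 (fun N s j => lam N s i j) t p =
      LQ 𝒰 Z 0 (fun N s j => lam N s i j) t 0 + LQ 𝒰 Z 0 (fun N s j => SS N s i j) t p +
      ((p:ℂ) - (p:ℂ) ^ 2) * ((LA 𝒰 Z).Ld 0 t : ℂ) + (p:ℂ) ^ 2 * ((LA 𝒰 Z).Ld i t : ℂ) := by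
    intro p hp
    have jlt : ∀ᶠ N in (𝒰 : Filter ℕ), idx N 0 p < N + 1 - 0 := by
      filter_upwards [ev_ge h𝒰 1] with N hN
      exact idx_lt (by omega) p
    have j0 : Tendsto (fun N => (idx N 0 p : ℝ) / N) 𝒰 (𝓝 p) := idx_tendsto h𝒰 0 hp
    have a1 := LQ_tendsto h𝒰 H ht (Qt_lam i) hp jlt j0
    have a2 := LQ_tendsto h𝒰 H ht (Qt_lam i) zI (j := fun _ => 0)
      (by filter_upwards [ev_ge h𝒰 1] with N hN; omega) (by simp)
    have a3 := LQ_tendsto h𝒰 H ht (Qt_SS i) hp jlt j0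
    have a4 := tLd h𝒰 H ht 0
    have a5 := tLd h𝒰 H ht i
    have a6 := xn_tendsto j0
    refine tendsto_nhds_unique a1 (((a2.add a3).add ((a6.sub (a6.pow 2)).mul a4)).add
      ((a6.pow 2).mul a5) |>.congr (fun N => ?_))
    simp only [lam, SS, Finset.range_zero, Finset.sum_empty, xn, Nat.cast_zero, zero_div, sub_self,
      ne_eq, OfNat.ofNat_ne_zero, not_false_eq_true, zero_pow, smul_eq_mul, zero_mul, add_zero]
  intro p hp
  have d1 : HasDerivWithinAt (fun p : ℝ => ((p:ℂ) - (p:ℂ) ^ 2) * ((LA 𝒰 Z).Ld 0 t : ℂ))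
      ((1 - 2 * (p:ℂ)) * ((LA 𝒰 Z).Ld 0 t : ℂ)) (Icc 0 1) p := by
    have h0 : HasDerivAt (fun p : ℝ => (p:ℂ)) 1 p := Complex.ofRealCLM.hasDerivAt
    exact (((h0.sub (h0.pow 2)).mul_const _).congr_deriv (by simp)).hasDerivWithinAt
  have d2 : HasDerivWithinAt (fun p : ℝ => (p:ℂ) ^ 2 * ((LA 𝒰 Z).Ld i t : ℂ))
      (2 * (p:ℂ) * ((LA 𝒰 Z).Ld i t : ℂ)) (Icc 0 1) p := by
    have h0 : HasDerivAt (fun p : ℝ => (p:ℂ)) 1 p := Complex.ofRealCLM.hasDerivAt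
    exact (((h0.pow 2).mul_const _).congr_deriv (by simp)).hasDerivWithinAt
  have d3 := ((((hS p hp).const_add (LQ 𝒰 Z 0 (fun N s j => lam N s i j) t 0)).add d1).add
    d2).congr hlam (hlam p hp)
  have d4 := Complex.reCLM.hasFDerivAt.comp_hasDerivWithinAt p d3
  refine HasDerivWithinAt.congr_deriv d4 ?_
  have e : ((LA 𝒰 Z).D i t p : ℂ) * ((LA 𝒰 Z).D i t p : ℂ) * (((LA 𝒰 Z).ro i t p)⁻¹ : ℂ) +
      (1 - 2 * (p:ℂ)) * ((LA 𝒰 Z).Ld 0 t : ℂ) + 2 * (p:ℂ) * ((LA 𝒰 Z).Ld i t : ℂ) =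
      (((LA 𝒰 Z).rod i t p + (LA 𝒰 Z).D i t p ^ 2 * ((LA 𝒰 Z).ro i t p)⁻¹ : ℝ) : ℂ) := by
    rw [AFd.rod]; push_cast; ring
  rw [e]
  exact Complex.ofReal_re _

/-- The limit is a flow of angles. -/
theorem lim_AF : AF s (LA 𝒰 Z) := by
  have hc0 : ∀ᶠ N in (𝒰 : Filter ℕ), (0:ℕ) < N + 1 - 0 := by
    filter_upwards [ev_ge h𝒰 1] with N hN; omega
  have hc1 : ∀ᶠ N in (𝒰 : Filter ℕ), (0:ℕ) < N + 1 - 1 := by
    filter_upwards [ev_ge h𝒰 1] with N hN; omega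
  have z0 : Tendsto (fun N : ℕ => ((0:ℕ):ℝ) / N) 𝒰 (𝓝 0) := one_div_tendsto h𝒰 0
  have z1 : Tendsto (fun N : ℕ => ((1:ℕ):ℝ) / N) 𝒰 (𝓝 0) := one_div_tendsto h𝒰 1
  have n0 : Tendsto (fun N : ℕ => ((N:ℕ):ℝ) / N) 𝒰 (𝓝 1) := by
    have := sub_div_tendsto h𝒰 0
    simpa using this
  have n1 : Tendsto (fun N : ℕ => ((N - 1:ℕ):ℝ) / N) 𝒰 (𝓝 1) := sub_div_tendsto h𝒰 1
  -- the values at the junction
  have tU0 : ∀ t ∈ Ioo 0 s, ∀ i, Tendsto (fun N => (toDS (Z N t)).U i 0) 𝒰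
      (𝓝 ((LA 𝒰 Z).th i t 0 : ℂ)) := by
    intro t ht i
    have := LQ_tendsto h𝒰 H ht (Qt_U i) zI (j := fun _ => 0) hc0 z0
    rwa [rU h𝒰 H ht i zI] at this
  have tU1 : ∀ t ∈ Ioo 0 s, ∀ i, Tendsto (fun N => (toDS (Z N t)).U i 1) 𝒰
      (𝓝 ((LA 𝒰 Z).th i t 0 : ℂ)) := by
    intro t ht i
    have := LQ_tendsto h𝒰 H ht (Qt_U i) zI (j := fun _ => 1)
      (by filter_upwards [ev_ge h𝒰 1] with N hN; omega) z1
    rwa [rU h𝒰 H ht i zI] at this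
  have tD0 : ∀ t ∈ Ioo 0 s, ∀ i, Tendsto (fun N => dD N (toDS (Z N t)) i 0) 𝒰
      (𝓝 ((LA 𝒰 Z).D i t 0 : ℂ)) := by
    intro t ht i
    have := LQ_tendsto h𝒰 H ht (Qt_D i) zI (j := fun _ => 0) hc1 z0
    rwa [rD h𝒰 H ht i zI] at this
  have tD1 : ∀ t ∈ Ioo 0 s, ∀ i, Tendsto (fun N => dD N (toDS (Z N t)) i (N - 1)) 𝒰
      (𝓝 ((LA 𝒰 Z).D i t 1 : ℂ)) := by
    intro t ht i
    have := LQ_tendsto h𝒰 H ht (Qt_D i) oI (j := fun N => N - 1)
      (by filter_upwards [ev_ge h𝒰 1] with N hN; omega) n1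
    rwa [rD h𝒰 H ht i oI] at this
  have tl1 : ∀ t ∈ Ioo 0 s, ∀ i, Tendsto (fun N => lam N (toDS (Z N t)) i N) 𝒰
      (𝓝 ((LA 𝒰 Z).lm i t 1 : ℂ)) := by
    intro t ht i
    have := LQ_tendsto h𝒰 H ht (Qt_lam i) oI (j := fun N => N)
      (by filter_upwards [ev_ge h𝒰 1] with N hN; omega) n0
    rwa [rlm h𝒰 H ht i oI] at this
  have tl0 : ∀ t ∈ Ioo 0 s, ∀ i, Tendsto (fun N => lam N (toDS (Z N t)) i 0) 𝒰
      (𝓝 ((LA 𝒰 Z).lm i t 0 : ℂ)) := by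
    intro t ht i
    have := LQ_tendsto h𝒰 H ht (Qt_lam i) zI (j := fun N => 0) hc0 z0
    rwa [rlm h𝒰 H ht i zI] at this
  have hlamN : ∀ {N : ℕ} (hN : 2 ≤ N) (σ : DS ℂ) (i : Fin 3), lam N σ i N = lamE N σ i := by
    intro N hN σ i
    have hx : xn N N = 1 := by
      rw [xn, div_self]; exact_mod_cast (by omega : N ≠ 0)
    simp only [lam, hx, Ld, one_pow, sub_self, zero_smul, one_smul, add_zero]
    ring
  have hlam0 : ∀ {N : ℕ} (σ : DS ℂ) (i : Fin 3), lam N σ i 0 = lam0 N σ i := by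
    intro N σ i
    rw [lam]
    simp [SS, xn]
  refine ⟨fun i t ht p hp => ro_pos h𝒰 H ht i hp, fun i m => (LQ_HL h𝒰 H (Qt_U i)).ct m,
    fun i m => (LQ_HL h𝒰 H (Qt_D i)).ct m, fun i m => (LQ_HL h𝒰 H (Qt_lam i)).ct m,
    fun i m => (LQ_HL h𝒰 H (Qt_fU i)).ct m, fun i m => (LQ_HL h𝒰 H (Qt_L i)).ct m,
    fun i m => (LQ_HL h𝒰 H (Qt_Ld i)).ct m, fun i => lim_tth h𝒰 H i, fun i => lim_tL h𝒰 H i,
    fun i => lim_pth h𝒰 H i, fun i => lim_pD h𝒰 H i, fun i => lim_plm h𝒰 H i, ?_, ?_, ?_, ?_, ?_,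
    ?_⟩
  · intro t ht
    obtain ⟨ℓ, Λ, p0, hℓ, hΛ, hN⟩ := init_ev h𝒰 H ht
    have h1 : ∀ i, ((LA 𝒰 Z).th i t 0 : ℂ) = (1 / 3 : ℂ) * ∑ l, ((LA 𝒰 Z).th l t 0 : ℂ) := by
      intro i
      refine tendsto_nhds_unique (tU0 t ht i) (Tendsto.congr' ?_
        ((tendsto_finsetSum Finset.univ (fun l _ => tU1 t ht l)).const_mul (1 / 3 : ℂ)))
      filter_upwards [hN] with N hN
      exact (hN.2.con.c0 i).symm
    intro i j
    have := (h1 i).trans (h1 j).symm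
    exact_mod_cast this
  · intro t ht
    obtain ⟨ℓ, Λ, p0, hℓ, hΛ, hN⟩ := init_ev h𝒰 H ht
    have h1 : ∑ i, ((LA 𝒰 Z).D i t 0 : ℂ) = 0 := by
      refine tendsto_nhds_unique (tendsto_finsetSum Finset.univ (fun l _ => tD0 t ht l)) ?_
      refine Tendsto.congr' ?_ tendsto_const_nhds
      filter_upwards [hN] with N hN
      simp only [dD]
      rw [← Finset.smul_sum, Finset.sum_sub_distrib]
      have e : ∑ x, (toDS (Z N t)).U x 0 = ∑ x, (toDS (Z N t)).U x 1 := by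
        rw [Finset.sum_congr rfl (fun i _ => hN.2.con.c0 i)]
        rw [Finset.sum_const, Finset.card_univ, Fintype.card_fin]
        simp
      rw [zero_add, e, sub_self, smul_zero]
    exact_mod_cast h1
  · intro t ht i
    have a1 := tD0 t ht (i + 1)
    have a2 := tD0 t ht (i + 2)
    have b1 := t_R h𝒰 H ht (i + 1) zI (j := fun _ => 0)
      (by filter_upwards [ev_ge h𝒰 1] with N hN; omega) z0
    have b2 := t_R h𝒰 H ht (i + 2) zI (j := fun _ => 0)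
      (by filter_upwards [ev_ge h𝒰 1] with N hN; omega) z0
    have h0 : (fun N => lam N (toDS (Z N t)) i 0) =ᶠ[(𝒰 : Filter ℕ)] fun N =>
        ((1 / √3 : ℝ) : ℂ) * (dD N (toDS (Z N t)) (i + 1) 0 * (toDS (Z N t)).R (i + 1) 0 -
          dD N (toDS (Z N t)) (i + 2) 0 * (toDS (Z N t)).R (i + 2) 0) :=
      Eventually.of_forall (fun N => by simp only [hlam0]; rfl)
    have h1 := tendsto_nhds_unique ((tl0 t ht i).congr' h0)
        (((a1.mul b1).sub (a2.mul b2)).const_mul ((1 / √3 : ℝ) : ℂ))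
    have e : ∀ i, (LA 𝒰 Z).ro i t 0 = (LA 𝒰 Z).L 0 t := fun i => by simp [AFd.ro]
    rw [e, e] at h1
    exact_mod_cast h1
  · intro t ht
    constructor
    · have h1 : ((LA 𝒰 Z).th 0 t 1 : ℂ) = 0 := by
        have := LQ_tendsto h𝒰 H ht (Qt_U 0) oI (j := fun N => N)
          (by filter_upwards [ev_ge h𝒰 1] with N hN; omega) n0
        rw [rU h𝒰 H ht 0 oI] at this
        refine tendsto_nhds_unique this (Tendsto.congr' ?_ tendsto_const_nhds)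
        obtain ⟨ℓ, Λ, p0, -, -, hN⟩ := H
        filter_upwards [h𝒰 hN] with N hN
        have h2 := ((sol_of_solOn' hN.sol).far hN.N2 t ⟨ht.1.le, ht.2.le⟩).1
        exact (h2.trans hN.f0).symm
      exact_mod_cast h1
    · have b1 := t_R h𝒰 H ht 0 oI (j := fun N => N)
        (by filter_upwards [ev_ge h𝒰 1] with N hN; omega) n0
      have h0 : (fun N => lam N (toDS (Z N t)) 0 N) =ᶠ[(𝒰 : Filter ℕ)] fun N =>
          ((-(1 / √3) : ℝ) : ℂ) * (dD N (toDS (Z N t)) 0 (N - 1) * (toDS (Z N t)).R 0 N) := by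
        filter_upwards [ev_ge h𝒰 2] with N hN
        rw [hlamN hN, lamE, if_pos rfl]; rfl
      have h1 := tendsto_nhds_unique ((tl1 t ht 0).congr' h0)
          (((tD1 t ht 0).mul b1).const_mul ((-(1 / √3) : ℝ) : ℂ))
      exact_mod_cast h1
  · intro t ht
    constructor
    · have h1 : ((LA 𝒰 Z).th 1 t 1 : ℂ) = ((π / 3 : ℝ) : ℂ) := by
        have := LQ_tendsto h𝒰 H ht (Qt_U 1) oI (j := fun N => N)
          (by filter_upwards [ev_ge h𝒰 1] with N hN; omega) n0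
        rw [rU h𝒰 H ht 1 oI] at this
        refine tendsto_nhds_unique this (Tendsto.congr' ?_ tendsto_const_nhds)
        obtain ⟨ℓ, Λ, p0, -, -, hN⟩ := H
        filter_upwards [h𝒰 hN] with N hN
        have h2 := ((sol_of_solOn' hN.sol).far hN.N2 t ⟨ht.1.le, ht.2.le⟩).2
        exact (h2.trans hN.f1).symm
      exact_mod_cast h1
    · have h1 : ((LA 𝒰 Z).lm 1 t 1 : ℂ) = 0 := by
        refine tendsto_nhds_unique (tl1 t ht 1) (Tendsto.congr' ?_ tendsto_const_nhds)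
        filter_upwards [ev_ge h𝒰 2] with N hN
        rw [hlamN hN, lamE]; simp
      exact_mod_cast h1
  · intro t ht
    constructor
    · have h1 : ((LA 𝒰 Z).D 2 t 1 : ℂ) = 0 := by
        refine tendsto_nhds_unique (tD1 t ht 2) (Tendsto.congr' ?_ tendsto_const_nhds)
        obtain ⟨ℓ, Λ, p0, hℓ, hΛ, hN⟩ := init_ev h𝒰 H ht
        filter_upwards [hN] with N hN
        rw [dD]
        have e : N - 1 + 1 = N := by have := hN.1; omega
        rw [e, hN.2.con.c2, sub_self, smul_zero]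
      exact_mod_cast h1
    · have h1 : ((LA 𝒰 Z).lm 2 t 1 : ℂ) = 0 := by
        refine tendsto_nhds_unique (tl1 t ht 2) (Tendsto.congr' ?_ tendsto_const_nhds)
        filter_upwards [ev_ge h𝒰 2] with N hN
        rw [hlamN hN, lamE]; simp
      exact_mod_cast h1

end

end

end Run7.h661x
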