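import Pool.Agent.Run7.h661.X.Apriori

/-!
# Local existence for the semi-discrete system with a holomorphic parameter
-/

open Set Filter Topology Finset
open scoped NNReal InnerProductSpace

namespace Run7.h661x

/-! ## Hölder continuity in the space variable -/

lemma U_holder {N : ℕ} {s : DS ℂ} (hN : 2 ≤ N) {p : ℝ} (hp : 0 ≤ p) (hP : PP N s ≤ p ^ 2)
    (i : Fin 3) {j l : ℕ} (hjl : j ≤ l) (hl : l ≤ N) :
    ‖s.U i l - s.U i j‖ ≤ p * √(((l : ℝ) - j) / N) := by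
  have hN0 := N_pos hN
  have hjl' : (j:ℝ) ≤ l := by exact_mod_cast hjl
  have h1 : ‖s.U i l - s.U i j‖ ≤ ∑ k ∈ Finset.Ico j l, (1 / (N:ℝ)) * (‖dD N s i k‖ * 1) := by
    have h2 := dist_le_Ico_sum_dist (fun k => s.U i k) hjl
    rw [dist_eq_norm, norm_sub_rev] at h2
    refine h2.trans (le_of_eq ?_)
    apply sum_congr rfl
    intro k _
    rw [dist_eq_norm, norm_sub_rev, dD, norm_smul, Complex.norm_natCast]
    field_simp
  have h3 := wCS (Finset.Ico j l) (1 / (N:ℝ)) (by positivity) (fun k => ‖dD N s i k‖) (fun _ => 1)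
  have h4 : ∑ k ∈ Finset.Ico j l, 1 / (N:ℝ) * (1:ℝ) ^ 2 = ((l:ℝ) - j) / N := by
    rw [sum_const, Nat.card_Ico, nsmul_eq_mul, Nat.cast_sub hjl]
    ring
  have h5 : ∑ k ∈ Finset.Ico j l, 1 / (N:ℝ) * ‖dD N s i k‖ ^ 2 ≤ p ^ 2 := by
    refine le_trans ?_ ((sumP_le i).trans hP)
    apply sum_le_sum_of_subset_of_nonneg
    · intro k hk
      rw [Finset.mem_range]
      have := (Finset.mem_Ico.1 hk).2
      omega
    · intro k _ _
      positivity
  rw [h4] at h3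
  have h6 : 0 ≤ ((l:ℝ) - j) / N := div_nonneg (by linarith) hN0.le
  have h7 : (∑ k ∈ Finset.Ico j l, (1 / (N:ℝ)) * (‖dD N s i k‖ * 1)) ^ 2 ≤
      (p * √(((l : ℝ) - j) / N)) ^ 2 := by
    rw [mul_pow, Real.sq_sqrt h6]
    exact h3.trans (mul_le_mul_of_nonneg_right h5 h6)
  exact h1.trans (abs_le_of_sq_le_sq' h7 (by positivity)).2

lemma U_holder' {N : ℕ} {s : DS ℂ} (hN : 2 ≤ N) {p : ℝ} (hp : 0 ≤ p) (hP : PP N s ≤ p ^ 2)
    (i : Fin 3) {j l : ℕ} (hj : j ≤ N) (hl : l ≤ N) :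
    ‖s.U i l - s.U i j‖ ≤ p * √(|(l : ℝ) - j| / N) := by
  rcases le_total j l with h | h
  · have h' : (j:ℝ) ≤ l := by exact_mod_cast h
    rw [abs_of_nonneg (by linarith)]
    exact U_holder hN hp hP i h hl
  · have h' : (l:ℝ) ≤ j := by exact_mod_cast h
    rw [abs_sub_comm, abs_of_nonneg (by linarith), norm_sub_rev]
    exact U_holder hN hp hP i h hj

lemma U_bound {N : ℕ} {s : DS ℂ} (hN : 2 ≤ N) {p : ℝ} (hp : 0 ≤ p) (hP : PP N s ≤ p ^ 2)
    (hc : Con N s) (i : Fin 3) {j : ℕ} (hj : j ≤ N) :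
    ‖s.U i j‖ ≤ ‖s.U 0 N‖ + ‖s.U 1 N‖ + 2 * p := by
  have hN0 := N_pos hN
  have hone : ∀ (i : Fin 3) {j l : ℕ}, j ≤ N → l ≤ N → ‖s.U i l - s.U i j‖ ≤ p := by
    intro i j l hj hl
    refine (U_holder' hN hp hP i hj hl).trans ?_
    have : √(|(l : ℝ) - j| / N) ≤ 1 := by
      rw [← Real.sqrt_one]
      apply Real.sqrt_le_sqrt
      rw [div_le_one hN0]
      have h1 : (j:ℝ) ≤ N := by exact_mod_cast hj
      have h2 : (l:ℝ) ≤ N := by exact_mod_cast hl
      have h3 : (0:ℝ) ≤ j := by positivity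
      have h4 : (0:ℝ) ≤ l := by positivity
      rw [abs_le]; constructor <;> linarith
    nlinarith
  have hcommon : ∀ i, s.U i 0 = s.U 0 0 := fun i => by rw [hc.c0 i, hc.c0 0]
  have h0 : ∀ j ≤ N, ‖s.U 0 j‖ ≤ ‖s.U 0 N‖ + p := by
    intro j hj
    have h1 := hone 0 (j := N) (l := j) (le_refl _) hj
    have h2 := norm_le_norm_add_norm_sub (s.U 0 N) (s.U 0 j)
    rw [norm_sub_rev] at h2
    linarith
  have h5 := norm_nonneg (s.U 0 N)
  have h6 := norm_nonneg (s.U 1 N)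
  fin_cases i
  · have := h0 j hj
    simp only [Fin.zero_eta]
    linarith
  · have h1 := hone 1 (j := N) (l := j) (le_refl _) hj
    have h2 := norm_le_norm_add_norm_sub (s.U 1 N) (s.U 1 j)
    rw [norm_sub_rev] at h2
    simp only [Fin.mk_one]
    linarith
  · have h1 := hone 2 (j := 0) (l := j) (Nat.zero_le _) hj
    have h2 := norm_le_norm_add_norm_sub (s.U 2 0) (s.U 2 j)
    rw [norm_sub_rev] at h2
    have h3 := h0 0 (Nat.zero_le _)
    rw [hcommon 2] at h1 h2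
    simp only [Fin.reduceFinMk]
    linarith

/-! ## the disc algebra -/

/-- the parameter disc -/
abbrev KK : Set ℂ := Metric.closedBall (1:ℂ) (1 / 100)

instance : CompactSpace KK := isCompact_iff_compactSpace.1 (isCompact_closedBall _ _)

/-- the disc algebra -/
noncomputable abbrev DA := ((polynomialFunctions KK).topologicalClosure : Subalgebra ℂ C(KK, ℂ))

instance : CompleteSpace DA :=
  (polynomialFunctions KK).isClosed_topologicalClosure.completeSpace_coe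

/-- evaluation -/
noncomputable def ev (z : KK) : DA →ₐ[ℂ] ℂ :=
  (ContinuousMap.evalAlgHom ℂ ℂ z).comp (Subalgebra.val _)

lemma ev_apply (z : KK) (f : DA) : ev z f = (f : C(KK, ℂ)) z := rfl

lemma ev_cont (z : KK) : Continuous (ev z) := by
  have h1 : Continuous (fun f : DA => (f : C(KK, ℂ))) := continuous_subtype_val
  exact (continuous_eval_const z).comp h1

lemma norm_DA_le {f : DA} {M : ℝ} (hM : 0 ≤ M) (h : ∀ z, ‖ev z f‖ ≤ M) : ‖f‖ ≤ M := by
  have : ‖f‖ = ‖(f : C(KK, ℂ))‖ := rfl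
  rw [this, ContinuousMap.norm_le _ hM]
  exact h

/-- the coordinate function -/
noncomputable def XX : DA :=
  ⟨(Polynomial.X : Polynomial ℂ).toContinuousMapOn KK, by
    apply Subalgebra.le_topologicalClosure
    exact ⟨Polynomial.X, trivial, rfl⟩⟩

lemma ev_XX (z : KK) : ev z XX = z := by
  simp [ev_apply, XX]

open Classical in
/-- evaluation at a complex number -/
noncomputable def evz (f : DA) (z : ℂ) : ℂ := if h : z ∈ KK then ev ⟨z, h⟩ f else 0

lemma evz_of_mem (f : DA) {z : ℂ} (h : z ∈ KK) : evz f z = ev ⟨z, h⟩ f := dif_pos h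

lemma evz_holo (f : DA) : DifferentiableOn ℂ (evz f) (Metric.ball (1:ℂ) (1 / 100)) := by
  have hmem : (f : C(KK, ℂ)) ∈ closure ((polynomialFunctions KK : Subalgebra ℂ C(KK, ℂ)) :
      Set C(KK, ℂ)) := by
    have := f.2
    rwa [← SetLike.mem_coe, Subalgebra.topologicalClosure_coe] at this
  obtain ⟨u, hu, hlim⟩ := mem_closure_iff_seq_limit.1 hmem
  have hex : ∀ n, ∃ P : Polynomial ℂ, ∀ z : KK, u n z = P.eval (z:ℂ) := by
    intro n
    obtain ⟨P, -, hP⟩ := hu n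
    refine ⟨P, fun z => ?_⟩
    rw [← hP]
    rfl
  choose P hP using hex
  have huni : TendstoUniformlyOn (fun n z => (P n).eval z) (evz f) atTop
      (Metric.ball (1:ℂ) (1 / 100)) := by
    rw [Metric.tendstoUniformlyOn_iff]
    intro ε hε
    have h1 := (Metric.tendsto_atTop.1 hlim) ε hε
    obtain ⟨n0, hn0⟩ := h1
    filter_upwards [eventually_ge_atTop n0] with n hn z hz
    have hzK : z ∈ KK := Metric.ball_subset_closedBall hz
    rw [evz_of_mem f hzK, ev_apply, dist_comm, ← hP n ⟨z, hzK⟩]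
    exact (ContinuousMap.dist_apply_le_dist (f := u n) (g := (f : C(KK, ℂ))) ⟨z, hzK⟩).trans_lt
      (hn0 n hn)
  exact huni.tendstoLocallyUniformlyOn.differentiableOn
    (Eventually.of_forall (fun n => (P n).differentiable.differentiableOn)) Metric.isOpen_ball

/-! ## maps of state spaces -/

/-- apply a character to a state -/
def mapE {N : ℕ} {A B : Type*} [CommRing A] [Algebra ℂ A] [CommRing B] [Algebra ℂ B]
    (φ : A →ₐ[ℂ] B) (y : EE N A) : EE N B :=
  (fun i j => φ (y.1 i j), fun i => φ (y.2.1 i), fun i j => φ (y.2.2 i j))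

lemma toDS_mapE {N : ℕ} {A B : Type*} [CommRing A] [Algebra ℂ A] [CommRing B] [Algebra ℂ B]
    (φ : A →ₐ[ℂ] B) (y : EE N A) : toDS (mapE φ y) = (toDS y).map φ := by
  have h1 : (toDS (mapE φ y)).U = ((toDS y).map φ).U := by
    funext i j
    by_cases h : j < N + 1
    · have e1 : ((toDS y).map φ).U i j = φ ((toDS y).U i j) := rfl
      rw [toDS_U _ _ h, e1, toDS_U _ _ h]; rfl
    · have e1 : ((toDS y).map φ).U i j = φ ((toDS y).U i j) := rfl
      rw [toDS_U' _ _ h, e1, toDS_U' _ _ h, map_zero]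
  have h2 : (toDS (mapE φ y)).R = ((toDS y).map φ).R := by
    funext i j
    by_cases h : j < N + 1
    · have e1 : ((toDS y).map φ).R i j = φ ((toDS y).R i j) := rfl
      rw [toDS_R _ _ h, e1, toDS_R _ _ h]; rfl
    · have e1 : ((toDS y).map φ).R i j = φ ((toDS y).R i j) := rfl
      rw [toDS_R' _ _ h, e1, toDS_R' _ _ h, map_zero]
  have h3 : (toDS (mapE φ y)).L = ((toDS y).map φ).L := rfl
  calc toDS (mapE φ y) = ⟨(toDS (mapE φ y)).U, (toDS (mapE φ y)).L, (toDS (mapE φ y)).R⟩ := rfl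
    _ = _ := by rw [h1, h2, h3]

lemma vf_mapE {N : ℕ} {A B : Type*} [CommRing A] [Algebra ℂ A] [CommRing B] [Algebra ℂ B]
    (φ : A →ₐ[ℂ] B) (e : A) (y : EE N A) : vf N (φ e) (mapE φ y) = mapE φ (vf N e y) := by
  unfold vf
  rw [toDS_mapE]
  simp only [fU_map, Ld_map, fR_map, mapE, map_mul]

lemma SolOn.mapE {N : ℕ} {e : DA} {y : ℝ → EE N DA} {a b : ℝ} (h : SolOn (vf N e) y a b) (z : KK) :
    SolOn (vf N (ev z e)) (fun t => Run7.h661x.mapE (ev z) (y t)) a b := by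
  let Φ : DA →L[ℝ] ℂ := ⟨((ev z).toLinearMap).restrictScalars ℝ, ev_cont z⟩
  have hlin : ∀ (g : ℝ → DA) (g' : DA) (t : ℝ), HasDerivWithinAt g g' (Icc a b) t →
      HasDerivWithinAt (fun s => ev z (g s)) (ev z g') (Icc a b) t := by
    intro g g' t hg
    exact Φ.hasFDerivAt.comp_hasDerivWithinAt t hg
  intro t ht
  rw [vf_mapE]
  have h0 := h t ht
  refine HasDerivWithinAt.prodMk ?_ (HasDerivWithinAt.prodMk ?_ ?_)
  · rw [hasDerivWithinAt_pi]
    intro i
    rw [hasDerivWithinAt_pi]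
    intro j
    exact hlin _ _ t ((hasDerivWithinAt_pi.1 ((hasDerivWithinAt_pi.1 h0.fst) i)) j)
  · rw [hasDerivWithinAt_pi]
    intro i
    exact hlin _ _ t ((hasDerivWithinAt_pi.1 h0.snd.fst) i)
  · rw [hasDerivWithinAt_pi]
    intro i
    rw [hasDerivWithinAt_pi]
    intro j
    exact hlin _ _ t ((hasDerivWithinAt_pi.1 ((hasDerivWithinAt_pi.1 h0.snd.snd) i)) j)

lemma sol_of_solOn' {N : ℕ} {e : ℂ} {y : ℝ → EE N ℂ} {a b : ℝ} (h : SolOn (vf N e) y a b) :
    Sol N e (fun t => toDS (y t)) a b := by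
  have := sol_of_solOn h (AlgHom.id ℂ ℂ) continuous_id
  exact this

/-- constants in the disc algebra -/
noncomputable def emb {N : ℕ} (y : EE N ℂ) : EE N DA :=
  (fun i j => algebraMap ℂ DA (y.1 i j), fun i => algebraMap ℂ DA (y.2.1 i),
    fun i j => algebraMap ℂ DA (y.2.2 i j))

lemma mapE_emb {N : ℕ} (z : KK) (y : EE N ℂ) : mapE (ev z) (emb y) = y := by
  have : ∀ c : ℂ, ev z (algebraMap ℂ DA c) = c := fun c => (ev z).commutes c
  simp only [mapE, emb, this]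

section
variable {N : ℕ} {ℓ Λ p0 : ℝ}

/-- local existence -/
theorem local_exists (hN : 2 ≤ N) (hℓ : 0 < ℓ) (hΛ : 0 < Λ) {y0 : EE N ℂ}
    (hI : Init N ℓ Λ p0 (toDS y0)) (a : ℝ) :
    ∃ y : ℝ → EE N DA, y a = emb y0 ∧ SolOn (vf N XX) y a (a + tau ℓ Λ p0) := by
  have hτ := tau_pos (p0 := p0) hℓ hΛ
  have hpb := pb_nonneg p0
  set M : ℝ := (‖(toDS y0).U 0 N‖ + ‖(toDS y0).U 1 N‖ + 2 * pb p0) + (ℓ / 1000 + ∑ i, ‖(toDS y0).L i‖)
    + 2 / ℓ with hM
  have hM0 : 0 ≤ M := by positivity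
  refine exists_of_bound (LB_vf XX) (M := M) (by linarith) (emb y0) ?_
  intro s hs y hy0 hy
  -- bounds for the scalar solutions
  have hsc : ∀ z : KK, (∀ i, ∀ j ≤ N, ‖ev z ((toDS (y s)).U i j)‖ ≤ M) ∧
      (∀ i, ‖ev z ((y s).2.1 i)‖ ≤ M) ∧ (∀ i, ∀ j ≤ N, ‖ev z ((toDS (y s)).R i j)‖ ≤ M) := by
    intro z
    have S := sol_of_solOn hy (ev z) (ev_cont z)
    have hSa : (toDS (y a)).map (ev z) = toDS y0 := by
      rw [← toDS_mapE, hy0, mapE_emb]
    have hIa : Init N ℓ Λ p0 ((toDS (y a)).map (ev z)) := by rw [hSa]; exact hI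
    have he : ‖ev z XX - 1‖ ≤ 1 / 100 := by
      rw [ev_XX, ← dist_eq_norm]; exact z.2
    obtain ⟨k1, k2, k3, k4, k5⟩ := S.apriori hN hℓ hΛ hIa he hs.2 s ⟨hs.1, le_refl _⟩
    have hc := S.con hN hIa.con s ⟨hs.1, le_refl _⟩
    obtain ⟨f1, f2⟩ := S.far hN s ⟨hs.1, le_refl _⟩
    refine ⟨fun i j hj => ?_, fun i => ?_, fun i j hj => ?_⟩
    · have := U_bound hN hpb k4.P hc i hj
      rw [f1, f2, hSa] at this
      have h5 : 0 ≤ 2 / ℓ := by positivity
      have h6 : 0 ≤ ∑ i, ‖(toDS y0).L i‖ := sum_nonneg (fun _ _ => norm_nonneg _)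
      have h7 : ‖ev z ((toDS (y s)).U i j)‖ = ‖((toDS (y s)).map (ev z)).U i j‖ := rfl
      rw [h7]
      linarith
    · have h1 := k3 i
      simp only [hSa] at h1
      have h2 := norm_le_norm_add_norm_sub ((toDS y0).L i) (((toDS (y s)).map (ev z)).L i)
      rw [norm_sub_rev] at h2
      have h3 : ‖(toDS y0).L i‖ ≤ ∑ i, ‖(toDS y0).L i‖ :=
        single_le_sum (f := fun i => ‖(toDS y0).L i‖) (fun _ _ => norm_nonneg _) (Finset.mem_univ i)
      have h5 : 0 ≤ 2 / ℓ := by positivity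
      have h7 : ‖ev z ((y s).2.1 i)‖ = ‖((toDS (y s)).map (ev z)).L i‖ := rfl
      rw [h7]
      have := norm_nonneg ((toDS y0).U 0 N)
      have := norm_nonneg ((toDS y0).U 1 N)
      linarith
    · have h1 := k4.R i j hj
      have h6 : 0 ≤ ∑ i, ‖(toDS y0).L i‖ := sum_nonneg (fun _ _ => norm_nonneg _)
      have h7 : ‖ev z ((toDS (y s)).R i j)‖ = ‖((toDS (y s)).map (ev z)).R i j‖ := rfl
      rw [h7]
      have := norm_nonneg ((toDS y0).U 0 N)
      have := norm_nonneg ((toDS y0).U 1 N)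
      linarith
  have b1 : ‖(y s).1‖ ≤ M := by
    rw [pi_norm_le_iff_of_nonneg hM0]
    intro i
    rw [pi_norm_le_iff_of_nonneg hM0]
    intro j
    refine norm_DA_le hM0 (fun z => ?_)
    have := (hsc z).1 i j.1 (Nat.lt_succ_iff.1 j.2)
    rwa [toDS_U _ _ j.2] at this
  have b2 : ‖(y s).2.1‖ ≤ M := by
    rw [pi_norm_le_iff_of_nonneg hM0]
    intro i
    exact norm_DA_le hM0 (fun z => (hsc z).2.1 i)
  have b3 : ‖(y s).2.2‖ ≤ M := by
    rw [pi_norm_le_iff_of_nonneg hM0]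
    intro i
    rw [pi_norm_le_iff_of_nonneg hM0]
    intro j
    refine norm_DA_le hM0 (fun z => ?_)
    have := (hsc z).2.2 i j.1 (Nat.lt_succ_iff.1 j.2)
    rwa [toDS_R _ _ j.2] at this
  rw [Prod.norm_def, Prod.norm_def]
  exact max_le b1 (max_le b2 b3)

end

end Run7.h661x
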