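import Mathlib

/-!
# Scalar inequalities for the weighted curvature energy
-/

open Set
open scoped Real

namespace Run7.h661x

/-- the tangent at `3π/8` -/
noncomputable def tq : ℝ := Real.tan (3 * π / 8)

lemma cos38_pos : 0 < Real.cos (3 * π / 8) := by
  have := Real.pi_pos
  exact Real.cos_pos_of_mem_Ioo ⟨by linarith, by linarith⟩

lemma sin38_pos : 0 < Real.sin (3 * π / 8) := by
  have := Real.pi_pos
  exact Real.sin_pos_of_pos_of_lt_pi (by linarith) (by linarith)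

lemma tq_pos : 0 < tq := by
  rw [tq, Real.tan_eq_sin_div_cos]; exact div_pos sin38_pos cos38_pos

lemma tq_sq : tq ^ 2 = 2 * tq + 1 := by
  have hc := cos38_pos
  have h1 : Real.sin (3 * π / 4) = √2 / 2 := by
    rw [show 3 * π / 4 = π - π / 4 by ring, Real.sin_pi_sub, Real.sin_pi_div_four]
  have h2 : Real.cos (3 * π / 4) = -(√2 / 2) := by
    rw [show 3 * π / 4 = π - π / 4 by ring, Real.cos_pi_sub, Real.cos_pi_div_four]
  rw [show 3 * π / 4 = 2 * (3 * π / 8) by ring] at h1 h2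
  rw [Real.sin_two_mul] at h1
  rw [Real.cos_two_mul'] at h2
  rw [tq, Real.tan_eq_sin_div_cos]
  field_simp
  linarith

lemma tq_bounds : 2.41 ≤ tq ∧ tq ≤ 2.415 := by
  have h1 := tq_sq
  have h2 := tq_pos
  constructor <;> nlinarith

lemma key_z {X Y z : ℝ} (hX : 0 ≤ X) (hY : 0 ≤ Y) (h : X + Y = tq * (1 - X * Y)) (hz : 0 ≤ z)
    (hz2 : z ≤ 1 / 2) : 2.3095 * z ≤ X * (1 / 4 + 3 * z ^ 2) + Y := by
  obtain ⟨t1, t2⟩ := tq_bounds
  have ht0 := tq_pos
  set τ := tq with hτ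
  set α := 1 / 4 + 3 * z ^ 2 with hα
  have hα0 : 0 < α := by positivity
  set P := τ * X + 1 with hP
  set Q := τ * Y + 1 with hQ
  have hP0 : 0 < P := by positivity
  have hQ0 : 0 < Q := by positivity
  have hPQ : P * Q = τ ^ 2 + 1 := by
    rw [hP, hQ]; linear_combination τ * h
  have h1 : 4 * α * (τ ^ 2 + 1) ≤ (α * P + Q) ^ 2 := by
    rw [← hPQ]; nlinarith [sq_nonneg (α * P - Q)]
  have h2 : (1 + α + 2.3095 * τ * z) ^ 2 ≤ 4 * α * (τ ^ 2 + 1) := by
    have h3 : 1 + α + 2.3095 * τ * z ≤ 1.25 + 3 * z ^ 2 + 5.5775 * z := by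
      rw [hα]; nlinarith
    have h4 : 0 ≤ 1 + α + 2.3095 * τ * z := by positivity
    have h5 := pow_le_pow_left₀ h4 h3 2
    have h6 : 6.808 ≤ τ ^ 2 + 1 := by nlinarith
    have h7 : 4 * α * 6.808 ≤ 4 * α * (τ ^ 2 + 1) := mul_le_mul_of_nonneg_left h6 (by positivity)
    have h8 : (1.25 + 3 * z ^ 2 + 5.5775 * z) ^ 2 ≤ 4 * α * 6.808 := by
      rw [hα]
      have z3 : z ^ 3 ≤ z ^ 2 / 2 := by nlinarith [sq_nonneg z]
      have z4 : z ^ 4 ≤ z ^ 2 / 4 := by nlinarith [sq_nonneg z, mul_nonneg hz hz]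
      nlinarith [sq_nonneg (z - 0.29)]
    linarith
  have h3 : 1 + α + 2.3095 * τ * z ≤ α * P + Q :=
    le_of_sq_le_sq (h2.trans h1) (by positivity)
  have h4 : τ * (2.3095 * z) ≤ τ * (X * α + Y) := by
    rw [hP, hQ] at h3; linarith
  exact le_of_mul_le_mul_left h4 ht0

lemma junc2 {X Y a b : ℝ} (hX : 0 ≤ X) (hY : 0 ≤ Y) (h : X + Y = tq * (1 - X * Y)) (ha : 0 ≤ a)
    (hb : 0 ≤ b) : 1 / √3 * (|a - b| * ((a + 2 * b) * (2 * a + b))) ≤
      9 / 8 * (X * (a ^ 3 + b ^ 3) + Y * (a + b) ^ 3) := by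
  rcases eq_or_lt_of_le (add_nonneg ha hb) with h0 | h0
  · have ha0 : a = 0 := by linarith
    have hb0 : b = 0 := by linarith
    simp [ha0, hb0]
  set S := a + b with hS
  set z := |a - b| / (2 * S) with hz
  have hz0 : 0 ≤ z := by positivity
  have hz2 : z ≤ 1 / 2 := by
    rw [hz, div_le_div_iff₀ (by positivity) (by norm_num)]
    have : |a - b| ≤ S := by rw [abs_le]; constructor <;> linarith
    linarith
  have key := key_z hX hY h hz0 hz2
  have hab : |a - b| = 2 * z * S := by rw [hz]; field_simp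
  have hz2' : (2 * z * S) ^ 2 = (a - b) ^ 2 := by rw [← hab, sq_abs]
  have e1 : (a + 2 * b) * (2 * a + b) = 9 / 4 * S ^ 2 - (z * S) ^ 2 := by
    have : (z * S) ^ 2 = (a - b) ^ 2 / 4 := by rw [← hz2']; ring
    rw [this, hS]; ring
  have e2 : a ^ 3 + b ^ 3 = S ^ 3 * (1 / 4 + 3 * z ^ 2) := by
    have : S ^ 3 * (1 / 4 + 3 * z ^ 2) = S ^ 3 / 4 + 3 * S * ((2 * z * S) ^ 2 / 4) := by ring
    rw [this, hz2', hS]; ring
  have i3 : 1 / √3 ≤ 0.57737 := by
    rw [div_le_iff₀ (by positivity)]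
    have : (1.732 : ℝ) ≤ √3 := Real.le_sqrt_of_sq_le (by norm_num)
    nlinarith
  have i0 : 0 ≤ 1 / √3 := by positivity
  rw [hab, e1, e2]
  have h1 : 2 * z * S * (9 / 4 * S ^ 2 - (z * S) ^ 2) ≤ 9 / 2 * z * S ^ 3 := by
    have : 0 ≤ z * S * (z * S) ^ 2 := by positivity
    nlinarith
  have h2 : 0 ≤ 2 * z * S * (9 / 4 * S ^ 2 - (z * S) ^ 2) := by
    rw [← e1]; positivity
  calc 1 / √3 * (2 * z * S * (9 / 4 * S ^ 2 - (z * S) ^ 2))
      ≤ 0.57737 * (9 / 2 * z * S ^ 3) := mul_le_mul i3 h1 h2 (by norm_num)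
    _ ≤ 9 / 8 * (S ^ 3 * (2.3095 * z)) := by
        have : 0 ≤ z * S ^ 3 := by positivity
        nlinarith
    _ ≤ 9 / 8 * (S ^ 3 * (X * (1 / 4 + 3 * z ^ 2) + Y)) := by
        apply mul_le_mul_of_nonneg_left _ (by norm_num)
        exact mul_le_mul_of_nonneg_left key (by positivity)
    _ = 9 / 8 * (X * (S ^ 3 * (1 / 4 + 3 * z ^ 2)) + Y * S ^ 3) := by ring

/-- the junction inequality with a distinguished index -/
lemma junc1 {X Y k0 k1 : ℝ} (hX : 0 ≤ X) (hY : 0 ≤ Y) (h : X + Y = tq * (1 - X * Y))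
    (hk : 0 ≤ k0 * k1) :
    1 / √3 * |(k0 - k1) * (k1 + (k0 + k1)) * (-(k0 + k1) - k0)| ≤ 9 / 8 *
      (X * (max k0 0 ^ 3 + max k1 0 ^ 3 + max (-(k0 + k1)) 0 ^ 3) +
      Y * (max (-k0) 0 ^ 3 + max (-k1) 0 ^ 3 + max (k0 + k1) 0 ^ 3)) := by
  have h' : Y + X = tq * (1 - Y * X) := by rw [add_comm, h, mul_comm X Y]
  rcases le_total 0 k0 with a0 | a0
  · rcases le_total 0 k1 with a1 | a1
    · have := junc2 hX hY h a0 a1
      rw [max_eq_left a0, max_eq_left a1, max_eq_right (by linarith : -(k0 + k1) ≤ 0),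
        max_eq_right (by linarith : -k0 ≤ 0), max_eq_right (by linarith : -k1 ≤ 0),
        max_eq_left (by linarith : 0 ≤ k0 + k1)]
      have e : |(k0 - k1) * (k1 + (k0 + k1)) * (-(k0 + k1) - k0)| =
          |k0 - k1| * ((k0 + 2 * k1) * (2 * k0 + k1)) := by
        rw [abs_mul, abs_mul, abs_of_nonneg (by linarith : 0 ≤ k1 + (k0 + k1)),
          abs_of_nonpos (by linarith : -(k0 + k1) - k0 ≤ 0)]
        ring
      rw [e]
      simpa using this
    · have h2 : k0 = 0 ∨ k1 = 0 := by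
        by_contra hcon
        push Not at hcon
        have h3 : 0 < k0 := lt_of_le_of_ne a0 (Ne.symm hcon.1)
        have h4 : k1 < 0 := lt_of_le_of_ne a1 hcon.2
        nlinarith
      rcases h2 with h2 | h2
      · have := junc2 hY hX h' (le_refl (0:ℝ)) (by linarith : 0 ≤ -k1)
        rw [h2, max_eq_left (le_refl (0:ℝ)), max_eq_right a1,
          max_eq_left (by linarith : 0 ≤ -(0 + k1)), neg_zero, max_eq_left (le_refl (0:ℝ)),
          max_eq_left (by linarith : 0 ≤ -k1), max_eq_right (by linarith : 0 + k1 ≤ 0)]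
        have e : |(0 - k1) * (k1 + (0 + k1)) * (-(0 + k1) - 0)| =
            |0 - -k1| * ((0 + 2 * -k1) * (2 * 0 + -k1)) := by
          rw [abs_mul, abs_mul, abs_of_nonneg (by linarith : 0 ≤ 0 - k1),
            abs_of_nonpos (by linarith : k1 + (0 + k1) ≤ 0),
            abs_of_nonneg (by linarith : 0 ≤ -(0 + k1) - 0),
            abs_of_nonpos (by linarith : 0 - -k1 ≤ 0)]
          ring
        rw [e]
        refine this.trans (le_of_eq ?_)
        ring
      · have := junc2 hX hY h a0 (le_refl (0:ℝ))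
        rw [h2, max_eq_left a0, max_eq_right (by linarith : -(k0 + 0) ≤ 0),
          max_eq_right (by linarith : -k0 ≤ 0), neg_zero, max_eq_left (le_refl (0:ℝ)),
          max_eq_left (by linarith : 0 ≤ k0 + 0)]
        have e : |(k0 - 0) * (0 + (k0 + 0)) * (-(k0 + 0) - k0)| =
            |k0 - 0| * ((k0 + 2 * 0) * (2 * k0 + 0)) := by
          rw [abs_mul, abs_mul, abs_of_nonneg (by linarith : 0 ≤ k0 - 0),
            abs_of_nonneg (by linarith : 0 ≤ 0 + (k0 + 0)),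
            abs_of_nonpos (by linarith : -(k0 + 0) - k0 ≤ 0)]
          ring
        rw [e]
        refine this.trans (le_of_eq ?_)
        ring
  · rcases le_total 0 k1 with a1 | a1
    · have h2 : k0 = 0 ∨ k1 = 0 := by
        by_contra hcon
        push Not at hcon
        have h3 : k0 < 0 := lt_of_le_of_ne a0 hcon.1
        have h4 : 0 < k1 := lt_of_le_of_ne a1 (Ne.symm hcon.2)
        nlinarith
      rcases h2 with h2 | h2
      · have := junc2 hX hY h (le_refl (0:ℝ)) a1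
        rw [h2, max_eq_left (le_refl (0:ℝ)), max_eq_left a1,
          max_eq_right (by linarith : -(0 + k1) ≤ 0), neg_zero, max_eq_left (le_refl (0:ℝ)),
          max_eq_right (by linarith : -k1 ≤ 0), max_eq_left (by linarith : 0 ≤ 0 + k1)]
        have e : |(0 - k1) * (k1 + (0 + k1)) * (-(0 + k1) - 0)| =
            |0 - k1| * ((0 + 2 * k1) * (2 * 0 + k1)) := by
          rw [abs_mul, abs_mul, abs_of_nonpos (by linarith : 0 - k1 ≤ 0),
            abs_of_nonneg (by linarith : 0 ≤ k1 + (0 + k1)),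
            abs_of_nonpos (by linarith : -(0 + k1) - 0 ≤ 0)]
          ring
        rw [e]
        refine this.trans (le_of_eq ?_)
        ring
      · have := junc2 hY hX h' (by linarith : 0 ≤ -k0) (le_refl (0:ℝ))
        rw [h2, max_eq_right a0, max_eq_left (le_refl (0:ℝ)),
          max_eq_left (by linarith : 0 ≤ -(k0 + 0)), max_eq_left (by linarith : 0 ≤ -k0), neg_zero,
          max_eq_left (le_refl (0:ℝ)), max_eq_right (by linarith : k0 + 0 ≤ 0)]
        have e : |(k0 - 0) * (0 + (k0 + 0)) * (-(k0 + 0) - k0)| =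
            |-k0 - 0| * ((-k0 + 2 * 0) * (2 * -k0 + 0)) := by
          rw [abs_mul, abs_mul, abs_of_nonpos (by linarith : k0 - 0 ≤ 0),
            abs_of_nonpos (by linarith : 0 + (k0 + 0) ≤ 0),
            abs_of_nonneg (by linarith : 0 ≤ -(k0 + 0) - k0),
            abs_of_nonneg (by linarith : 0 ≤ -k0 - 0)]
          ring
        rw [e]
        refine this.trans (le_of_eq ?_)
        ring
    · have := junc2 hY hX h' (by linarith : 0 ≤ -k0) (by linarith : 0 ≤ -k1)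
      rw [max_eq_right a0, max_eq_right a1, max_eq_left (by linarith : 0 ≤ -(k0 + k1)),
        max_eq_left (by linarith : 0 ≤ -k0), max_eq_left (by linarith : 0 ≤ -k1),
        max_eq_right (by linarith : k0 + k1 ≤ 0)]
      have e : |(k0 - k1) * (k1 + (k0 + k1)) * (-(k0 + k1) - k0)| =
          |-k0 - -k1| * ((-k0 + 2 * -k1) * (2 * -k0 + -k1)) := by
        rw [abs_mul, abs_mul, abs_of_nonpos (by linarith : k1 + (k0 + k1) ≤ 0),
          abs_of_nonneg (by linarith : 0 ≤ -(k0 + k1) - k0),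
          show -k0 - -k1 = -(k0 - k1) by ring, abs_neg]
        ring
      rw [e]
      refine this.trans (le_of_eq ?_)
      ring

/-- the junction inequality -/
theorem junc {X Y k0 k1 k2 : ℝ} (hX : 0 ≤ X) (hY : 0 ≤ Y) (h : X + Y = tq * (1 - X * Y))
    (hk : k0 + k1 + k2 = 0) :
    1 / √3 * |(k0 - k1) * (k1 - k2) * (k2 - k0)| ≤ 9 / 8 *
      (X * (max k0 0 ^ 3 + max k1 0 ^ 3 + max k2 0 ^ 3) +
      Y * (max (-k0) 0 ^ 3 + max (-k1) 0 ^ 3 + max (-k2) 0 ^ 3)) := by
  have hcase : 0 ≤ k0 * k1 ∨ 0 ≤ k1 * k2 ∨ 0 ≤ k2 * k0 := by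
    by_contra hcon
    push Not at hcon
    obtain ⟨h1, h2, h3⟩ := hcon
    have h4 : 0 < (k0 * k1) * (k1 * k2) := mul_pos_of_neg_of_neg h1 h2
    have h5 : (k0 * k1) * (k1 * k2) * (k2 * k0) < 0 := mul_neg_of_pos_of_neg h4 h3
    have : (k0 * k1) * (k1 * k2) * (k2 * k0) = (k0 * k1 * k2) ^ 2 := by ring
    rw [this] at h5
    exact absurd h5 (not_lt.2 (sq_nonneg _))
  rcases hcase with hc | hc | hc
  · have e : k2 = -(k0 + k1) := by linarith
    have := junc1 hX hY h hc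
    rw [e]
    simp only [neg_neg, sub_neg_eq_add]
    exact this
  · have e : k0 = -(k1 + k2) := by linarith
    have := junc1 hX hY h hc
    rw [e]
    simp only [neg_neg, sub_neg_eq_add]
    have e1 : (-(k1 + k2) - k1) * (k1 - k2) * (k2 + (k1 + k2)) =
      (k1 - k2) * (k2 + (k1 + k2)) * (-(k1 + k2) - k1) := by ring
    rw [e1]
    refine this.trans (le_of_eq ?_)
    ring
  · have e : k1 = -(k2 + k0) := by linarith
    have := junc1 hX hY h hc
    rw [e]
    simp only [neg_neg, sub_neg_eq_add]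
    have e1 : (k0 + (k2 + k0)) * (-(k2 + k0) - k2) * (k2 - k0) =
      (k2 - k0) * (k0 + (k2 + k0)) * (-(k2 + k0) - k2) := by ring
    rw [e1]
    refine this.trans (le_of_eq ?_)
    ring

/-- the quadratic form inside the curves -/
lemma quad {u v x y : ℝ} (huv : (u + v) ^ 2 ≤ 8.5) :
    -2 * x ^ 2 - (7 * u - v) / 2 * (x * y) +
      (1 - (81 / 64 + 3 / 2 * u ^ 2 - 1 / 2 * (u * v))) * y ^ 2 ≤ 0 := by
  have h1 : ((7 * u - v) / 2) ^ 2 ≤ 8 * (17 / 64 + 3 / 2 * u ^ 2 - 1 / 2 * (u * v)) := by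
    nlinarith
  nlinarith [sq_nonneg (x + (7 * u - v) / 8 * y), sq_nonneg y,
    mul_le_mul_of_nonneg_right h1 (sq_nonneg y)]

end Run7.h661x
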