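import Mathlib

/-!
# Ordinary differential equations in Banach spaces with an a-priori bound
-/

open Set Filter Topology
open scoped NNReal

namespace Run7.h661x

/-- bounded and Lipschitz on bounded sets -/
def LB {E F : Type*} [NormedAddCommGroup E] [NormedAddCommGroup F] (f : E → F) : Prop :=
  ∀ M : ℝ, ∃ C : ℝ, 0 ≤ C ∧ (∀ x, ‖x‖ ≤ M → ‖f x‖ ≤ C) ∧
    ∀ x y, ‖x‖ ≤ M → ‖y‖ ≤ M → ‖f x - f y‖ ≤ C * ‖x - y‖

section LB
variable {E F : Type*} [NormedAddCommGroup E] [NormedAddCommGroup F]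

lemma LB.const (c : F) : LB (fun _ : E => c) := fun _ =>
  ⟨‖c‖, norm_nonneg _, fun _ _ => le_refl _, fun x y _ _ => by
    simp only [sub_self, norm_zero]; positivity⟩

lemma LB.add {f g : E → F} (hf : LB f) (hg : LB g) : LB (fun x => f x + g x) := by
  intro M
  obtain ⟨C, hC, h1, h2⟩ := hf M
  obtain ⟨D, hD, h3, h4⟩ := hg M
  refine ⟨C + D, by positivity, fun x hx => ?_, fun x y hx hy => ?_⟩
  · exact (norm_add_le _ _).trans (add_le_add (h1 x hx) (h3 x hx))
  · have e : f x + g x - (f y + g y) = (f x - f y) + (g x - g y) := by abel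
    rw [e, add_mul]
    exact (norm_add_le _ _).trans (add_le_add (h2 x y hx hy) (h4 x y hx hy))

lemma LB.neg {f : E → F} (hf : LB f) : LB (fun x => -f x) := by
  intro M
  obtain ⟨C, hC, h1, h2⟩ := hf M
  refine ⟨C, hC, fun x hx => by rw [norm_neg]; exact h1 x hx, fun x y hx hy => ?_⟩
  have e : -f x - -f y = -(f x - f y) := by abel
  rw [e, norm_neg]; exact h2 x y hx hy

lemma LB.sub {f g : E → F} (hf : LB f) (hg : LB g) : LB (fun x => f x - g x) := by
  have := hf.add hg.neg
  simpa only [sub_eq_add_neg] using this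

lemma LB.sum {ι : Type*} {s : Finset ι} {f : ι → E → F} (hf : ∀ i ∈ s, LB (f i)) :
    LB (fun x => ∑ i ∈ s, f i x) := by
  classical
  induction s using Finset.induction_on with
  | empty => simpa using LB.const (0 : F)
  | insert a s ha ih =>
    have := (hf a (Finset.mem_insert_self _ _)).add
      (ih (fun i hi => hf i (Finset.mem_insert_of_mem hi)))
    simpa only [Finset.sum_insert ha] using this

lemma LB.clm [NormedSpace ℝ E] [NormedSpace ℝ F] (T : E →L[ℝ] F) : LB (fun x => T x) := by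
  intro M
  refine ⟨‖T‖ * |M| + ‖T‖, by positivity, fun x hx => ?_, fun x y _ _ => ?_⟩
  · have h1 := T.le_opNorm x
    have h2 : ‖T‖ * ‖x‖ ≤ ‖T‖ * |M| :=
      mul_le_mul_of_nonneg_left (hx.trans (le_abs_self M)) (norm_nonneg _)
    have := norm_nonneg T
    linarith
  · rw [← map_sub]
    have h1 := T.le_opNorm (x - y)
    have h2 : 0 ≤ ‖T‖ * |M| * ‖x - y‖ := by positivity
    linarith

end LB

section LBmul
variable {E A : Type*} [NormedAddCommGroup E] [NormedRing A]

lemma LB.mul {f g : E → A} (hf : LB f) (hg : LB g) : LB (fun x => f x * g x) := by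
  intro M
  obtain ⟨C, hC, h1, h2⟩ := hf M
  obtain ⟨D, hD, h3, h4⟩ := hg M
  refine ⟨2 * (C * D), by positivity, fun x hx => ?_, fun x y hx hy => ?_⟩
  · have a1 := norm_mul_le (f x) (g x)
    have a2 : ‖f x‖ * ‖g x‖ ≤ C * D := mul_le_mul (h1 x hx) (h3 x hx) (norm_nonneg _) hC
    have a3 : 0 ≤ C * D := by positivity
    linarith
  · have e : f x * g x - f y * g y = f x * (g x - g y) + (f x - f y) * g y := by
      rw [mul_sub, sub_mul]; abel
    rw [e]
    have a1 := norm_add_le (f x * (g x - g y)) ((f x - f y) * g y)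
    have a2 := norm_mul_le (f x) (g x - g y)
    have a3 := norm_mul_le (f x - f y) (g y)
    have a4 : ‖f x‖ * ‖g x - g y‖ ≤ C * (D * ‖x - y‖) :=
      mul_le_mul (h1 x hx) (h4 x y hx hy) (norm_nonneg _) hC
    have a5 : ‖f x - f y‖ * ‖g y‖ ≤ (C * ‖x - y‖) * D :=
      mul_le_mul (h2 x y hx hy) (h3 y hy) (norm_nonneg _) (by positivity)
    linarith

lemma LB.pow {f : E → A} (hf : LB f) (n : ℕ) : LB (fun x => f x ^ n) := by
  induction n with
  | zero => simpa using LB.const (1 : A)
  | succ n ih =>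
    have := ih.mul hf
    simpa only [pow_succ] using this

end LBmul

lemma LB.smul {E F : Type*} [NormedAddCommGroup E] [NormedAddCommGroup F] {𝕜 : Type*}
    [NormedField 𝕜] [NormedSpace 𝕜 F] {f : E → F} (c : 𝕜) (hf : LB f) :
    LB (fun x => c • f x) := by
  intro M
  obtain ⟨C, hC, h1, h2⟩ := hf M
  refine ⟨‖c‖ * C, by positivity, fun x hx => ?_, fun x y hx hy => ?_⟩
  · rw [norm_smul]; exact mul_le_mul_of_nonneg_left (h1 x hx) (norm_nonneg _)
  · rw [← smul_sub, norm_smul, mul_assoc]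
    exact mul_le_mul_of_nonneg_left (h2 x y hx hy) (norm_nonneg _)

lemma LB.pi {E ι : Type*} [NormedAddCommGroup E] [Fintype ι] {F : ι → Type*}
    [∀ i, NormedAddCommGroup (F i)] {f : E → ∀ i, F i} (hf : ∀ i, LB (fun x => f x i)) :
    LB f := by
  intro M
  choose C hC h1 h2 using fun i => hf i M
  have hle : ∀ i, C i ≤ ∑ j, C j := fun i =>
    Finset.single_le_sum (f := C) (fun j _ => hC j) (Finset.mem_univ i)
  have h0 : 0 ≤ ∑ j, C j := Finset.sum_nonneg (fun j _ => hC j)
  refine ⟨∑ j, C j, h0, fun x hx => ?_, fun x y hx hy => ?_⟩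
  · rw [pi_norm_le_iff_of_nonneg h0]
    exact fun i => (h1 i x hx).trans (hle i)
  · rw [pi_norm_le_iff_of_nonneg (by positivity)]
    intro i
    exact (h2 i x y hx hy).trans (mul_le_mul_of_nonneg_right (hle i) (norm_nonneg _))

lemma LB.prodMk {E F G : Type*} [NormedAddCommGroup E] [NormedAddCommGroup F]
    [NormedAddCommGroup G] {f : E → F} {g : E → G} (hf : LB f) (hg : LB g) :
    LB (fun x => (f x, g x)) := by
  intro M
  obtain ⟨C, hC, h1, h2⟩ := hf M
  obtain ⟨D, hD, h3, h4⟩ := hg M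
  refine ⟨C + D, by positivity, fun x hx => ?_, fun x y hx hy => ?_⟩
  · rw [Prod.norm_def]
    have := h1 x hx; have := h3 x hx
    exact max_le (by linarith) (by linarith)
  · rw [Prod.norm_def]
    have k1 := h2 x y hx hy
    have k2 := h4 x y hx hy
    have k3 : 0 ≤ C * ‖x - y‖ := by positivity
    have k4 : 0 ≤ D * ‖x - y‖ := by positivity
    simp only [Prod.fst_sub, Prod.snd_sub]
    exact max_le (by linarith) (by linarith)

/-- solution on `[a,b]` -/
def SolOn {E : Type*} [NormedAddCommGroup E] [NormedSpace ℝ E] (f : E → E) (y : ℝ → E)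
    (a b : ℝ) : Prop := ∀ t ∈ Icc a b, HasDerivWithinAt y (f (y t)) (Icc a b) t

section ODE
variable {E : Type*} [NormedAddCommGroup E] [NormedSpace ℝ E] {f : E → E}

lemma SolOn.mono {y : ℝ → E} {a b c d : ℝ} (h : SolOn f y a b) (hc : a ≤ c) (hd : d ≤ b) :
    SolOn f y c d := fun t ht =>
  (h t ⟨hc.trans ht.1, ht.2.trans hd⟩).mono (Icc_subset_Icc hc hd)

lemma SolOn.continuousOn {y : ℝ → E} {a b : ℝ} (h : SolOn f y a b) :
    ContinuousOn y (Icc a b) := fun t ht => (h t ht).continuousWithinAt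

lemma SolOn.shift {y : ℝ → E} {a b : ℝ} (h : SolOn f y a b) (c : ℝ) :
    SolOn f (fun t => y (t + c)) (a - c) (b - c) := by
  intro t ht
  have h1 : t + c ∈ Icc a b := ⟨by linarith [ht.1], by linarith [ht.2]⟩
  have h2 : HasDerivWithinAt (fun t : ℝ => t + c) 1 (Icc (a - c) (b - c)) t :=
    ((hasDerivAt_id' t).add_const c).hasDerivWithinAt
  have hmap : MapsTo (fun t : ℝ => t + c) (Icc (a - c) (b - c)) (Icc a b) := fun s hs =>
    ⟨by linarith [hs.1], by linarith [hs.2]⟩
  have h3 := HasDerivWithinAt.scomp t (h (t + c) h1) h2 hmap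
  rw [one_smul] at h3
  exact h3

theorem SolOn.unique {y z : ℝ → E} {a b : ℝ} (hf : LB f) (hy : SolOn f y a b)
    (hz : SolOn f z a b) (h0 : y a = z a) : EqOn y z (Icc a b) := by
  obtain ⟨M1, hM1⟩ := isCompact_Icc.exists_bound_of_continuousOn hy.continuousOn
  obtain ⟨M2, hM2⟩ := isCompact_Icc.exists_bound_of_continuousOn hz.continuousOn
  obtain ⟨C, hC, -, h2⟩ := hf (max M1 M2)
  refine ODE_solution_unique_of_mem_Icc_right (v := fun _ => f)
    (s := fun _ => {x | ‖x‖ ≤ max M1 M2}) (K := ⟨C, hC⟩) ?_ hy.continuousOn ?_ ?_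
    hz.continuousOn ?_ ?_ h0
  · intro t _
    refine LipschitzOnWith.of_dist_le_mul (fun x hx w hw => ?_)
    rw [dist_eq_norm, dist_eq_norm]
    exact h2 x w hx hw
  · intro t ht
    have h1 := hy t ⟨ht.1, ht.2.le⟩
    exact (h1.mono_of_mem_nhdsWithin (Icc_mem_nhdsGE_of_mem ht))
  · intro t ht
    exact (hM1 t ⟨ht.1, ht.2.le⟩).trans (le_max_left _ _)
  · intro t ht
    have h1 := hz t ⟨ht.1, ht.2.le⟩
    exact (h1.mono_of_mem_nhdsWithin (Icc_mem_nhdsGE_of_mem ht))
  · intro t ht
    exact (hM2 t ⟨ht.1, ht.2.le⟩).trans (le_max_right _ _)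

/-- gluing two solutions -/
lemma SolOn.glue {y z : ℝ → E} {a b c : ℝ} (hab : a ≤ b) (hbc : b ≤ c) (hy : SolOn f y a b)
    (hz : SolOn f z b c) (h : y b = z b) :
    SolOn f (fun t => if t ≤ b then y t else z t) a c := by
  set w : ℝ → E := fun t => if t ≤ b then y t else z t with hw
  have w1 : ∀ t ∈ Icc a b, w t = y t := fun t ht => if_pos ht.2
  have w2 : ∀ t ∈ Icc b c, w t = z t := by
    intro t ht
    rcases eq_or_lt_of_le ht.1 with h1 | h1
    · rw [← h1, ← h]; exact if_pos (le_refl _)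
    · exact if_neg (not_le.2 h1)
  have hunion : Icc a c = Icc a b ∪ Icc b c := (Icc_union_Icc_eq_Icc hab hbc).symm
  intro t ht
  rw [hunion]
  have key1 : ∀ t ∈ Icc a b, HasDerivWithinAt w (f (w t)) (Icc a b) t := by
    intro t ht
    rw [w1 t ht]
    exact (hy t ht).congr w1 (w1 t ht)
  have key2 : ∀ t ∈ Icc b c, HasDerivWithinAt w (f (w t)) (Icc b c) t := by
    intro t ht
    rw [w2 t ht]
    exact (hz t ht).congr w2 (w2 t ht)
  rcases lt_trichotomy t b with h1 | h1 | h1
  · have := key1 t ⟨ht.1, h1.le⟩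
    rw [← hunion]
    refine this.mono_of_mem_nhdsWithin ?_
    rw [hunion]
    have h2 : Icc a b ∪ Icc b c ∩ Iio b ⊆ Icc a b := by
      intro x hx
      rcases hx with hx | hx
      · exact hx
      · exact absurd hx.1.1 (not_le.2 hx.2)
    refine mem_nhdsWithin.2 ⟨Iio b, isOpen_Iio, h1, ?_⟩
    rintro x ⟨hx1, hx2⟩
    rcases hx2 with hx | hx
    · exact hx
    · exact absurd hx.1 (not_le.2 hx1)
  · subst h1
    exact (key1 t ⟨hab, le_refl _⟩).union (key2 t ⟨le_refl _, hbc⟩)
  · have := key2 t ⟨h1.le, ht.2⟩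
    refine this.mono_of_mem_nhdsWithin ?_
    refine mem_nhdsWithin.2 ⟨Ioi b, isOpen_Ioi, h1, ?_⟩
    rintro x ⟨hx1, hx2⟩
    rcases hx2 with hx | hx
    · exact absurd hx.2 (not_le.2 hx1)
    · exact hx

/-- short time existence with a uniform time -/
lemma exists_step [CompleteSpace E] (hf : LB f) (M : ℝ) : ∃ σ > 0, ∀ x0 : E, ‖x0‖ ≤ M →
    ∀ t0 : ℝ, ∃ y : ℝ → E, y t0 = x0 ∧ SolOn f y t0 (t0 + σ) := by
  obtain ⟨C, hC, h1, h2⟩ := hf (M + 1)
  refine ⟨1 / (C + 1), by positivity, fun x0 hx0 t0 => ?_⟩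
  set σ := 1 / (C + 1) with hσ
  have hσ0 : 0 < σ := by positivity
  have hball : ∀ x ∈ Metric.closedBall x0 ((1 : ℝ≥0) : ℝ), ‖x‖ ≤ M + 1 := by
    intro x hx
    rw [mem_closedBall_iff_norm] at hx
    have := norm_sub_norm_le x x0
    have h3 : ((1 : ℝ≥0) : ℝ) = 1 := rfl
    rw [h3] at hx
    linarith
  have hPL : IsPicardLindelof (fun _ => f) (tmin := t0) (tmax := t0 + σ)
      ⟨t0, le_refl _, by linarith⟩ x0 1 0 C.toNNReal C.toNNReal := by
    apply IsPicardLindelof.of_time_independent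
    · intro x hx
      rw [Real.coe_toNNReal C hC]
      exact h1 x (hball x hx)
    · refine LipschitzOnWith.of_dist_le_mul (fun x hx w hw => ?_)
      rw [dist_eq_norm, dist_eq_norm, Real.coe_toNNReal C hC]
      exact h2 x w (hball x hx) (hball w hw)
    · simp only [add_sub_cancel_left, sub_self, NNReal.coe_one, NNReal.coe_zero,
        sub_zero]
      rw [max_eq_left hσ0.le]
      rw [Real.coe_toNNReal C hC, hσ, mul_one_div, div_le_one (by positivity)]
      linarith
  obtain ⟨α, h3, h4⟩ := hPL.exists_eq_forall_mem_Icc_hasDerivWithinAt₀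
  exact ⟨α, h3, h4⟩

/-- existence on `[a,b]` from an a-priori bound -/
theorem exists_of_bound [CompleteSpace E] (hf : LB f) {a b M : ℝ} (hab : a ≤ b) (x0 : E)
    (hM : ∀ s ∈ Icc a b, ∀ y : ℝ → E, y a = x0 → SolOn f y a s → ‖y s‖ ≤ M) :
    ∃ y : ℝ → E, y a = x0 ∧ SolOn f y a b := by
  obtain ⟨σ, hσ, hstep⟩ := exists_step hf M
  have key : ∀ n : ℕ, ∃ y : ℝ → E, y a = x0 ∧ SolOn f y a (min b (a + n * σ)) := by
    intro n
    induction n with
    | zero =>
      refine ⟨fun _ => x0, rfl, ?_⟩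
      have : min b (a + (0:ℕ) * σ) = a := by simp [hab]
      rw [this]
      intro t ht
      have ht' : t = a := le_antisymm ht.2 ht.1
      subst ht'
      rw [Icc_self]
      rw [hasDerivWithinAt_iff_hasFDerivWithinAt]
      exact HasFDerivWithinAt.of_subsingleton (subsingleton_singleton)
    | succ n ih =>
      obtain ⟨y, hy0, hy⟩ := ih
      set s := min b (a + n * σ) with hs
      have has : a ≤ s := le_min hab (by have : 0 ≤ (n:ℝ) * σ := by positivity
                                         linarith)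
      have hsb : s ≤ b := min_le_left _ _
      have hbd := hM s ⟨has, hsb⟩ y hy0 hy
      obtain ⟨z, hz0, hz⟩ := hstep (y s) hbd s
      set s' := min b (a + (n + 1 : ℕ) * σ) with hs'
      have hss : s ≤ s' := by
        apply min_le_min (le_refl _)
        push_cast
        nlinarith
      have hs's : s' ≤ s + σ := by
        rcases le_total b (a + n * σ) with h | h
        · rw [hs, min_eq_left h]
          have := min_le_left b (a + (n + 1 : ℕ) * σ)
          linarith
        · rw [hs, min_eq_right h]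
          have h6 : s' ≤ a + (n + 1 : ℕ) * σ := min_le_right _ _
          push_cast at h6
          linarith
      refine ⟨fun t => if t ≤ s then y t else z t, ?_, ?_⟩
      · simp only [has, if_true]; exact hy0
      · exact SolOn.glue has hss hy (hz.mono (le_refl _) hs's) hz0.symm
  obtain ⟨n, hn⟩ := exists_nat_ge ((b - a) / σ)
  obtain ⟨y, hy0, hy⟩ := key n
  refine ⟨y, hy0, ?_⟩
  have : min b (a + n * σ) = b := by
    apply min_eq_left
    rw [div_le_iff₀ hσ] at hn
    linarith
  rwa [this] at hy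

/-- a function with vanishing derivative is constant -/
lemma const_of_deriv_zero {F : Type*} [NormedAddCommGroup F] [NormedSpace ℝ F] {g : ℝ → F}
    {a b : ℝ} (h : ∀ t ∈ Icc a b, HasDerivWithinAt g 0 (Icc a b) t) :
    ∀ t ∈ Icc a b, g t = g a := by
  apply constant_of_has_deriv_right_zero (fun t ht => (h t ht).continuousWithinAt)
  intro t ht
  exact (h t ⟨ht.1, ht.2.le⟩).mono_of_mem_nhdsWithin (Icc_mem_nhdsGE_of_mem ht)

/-- a solution of a linear equation with zero initial value vanishes -/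
lemma zero_of_linear {g : ℝ → ℂ} {c : ℝ → ℂ} {a b : ℝ}
    (h : ∀ t ∈ Icc a b, HasDerivWithinAt g (c t * g t) (Icc a b) t)
    (hc : ContinuousOn c (Icc a b)) (h0 : g a = 0) : ∀ t ∈ Icc a b, g t = 0 := by
  obtain ⟨K, hK⟩ := isCompact_Icc.exists_bound_of_continuousOn hc
  intro t ht
  have := norm_le_gronwallBound_of_norm_deriv_right_le (f := g) (f' := fun t => c t * g t)
    (δ := 0) (K := K) (ε := 0) (a := a) (b := b) (fun t ht => (h t ht).continuousWithinAt)
    (fun t ht => (h t ⟨ht.1, ht.2.le⟩).mono_of_mem_nhdsWithin (Icc_mem_nhdsGE_of_mem ht))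
    (by rw [h0, norm_zero]) (fun t ht => by
      rw [norm_mul, add_zero]
      exact mul_le_mul_of_nonneg_right (hK t ⟨ht.1, ht.2.le⟩) (norm_nonneg _)) t ht
  rw [gronwallBound_ε0_δ0] at this
  exact norm_le_zero_iff.1 this

end ODE

end Run7.h661x
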