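import Pool.Agent.Run7.h661.X.Reg

/-!
# Uniform convergence as `t → 0+`
-/

open Set Filter Topology
open scoped Real

namespace Run7.h661x

/-- `F t → F0` uniformly on `[0,1]` as `t → 0+`, `F0` continuous -/
structure UC (F : ℝ → ℝ → ℝ) (F0 : ℝ → ℝ) : Prop where
  cont : ContinuousOn F0 (Icc 0 1)
  lim : ∀ ε > 0, ∀ᶠ t in 𝓝[>] (0:ℝ), ∀ p ∈ Icc (0:ℝ) 1, |F t p - F0 p| ≤ ε

namespace UC
variable {F G : ℝ → ℝ → ℝ} {F0 G0 : ℝ → ℝ}

lemma bdd (h : UC F F0) : ∃ C, 0 ≤ C ∧ ∀ p ∈ Icc (0:ℝ) 1, |F0 p| ≤ C := by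
  obtain ⟨C, hC⟩ := isCompact_Icc.exists_bound_of_continuousOn h.cont
  exact ⟨max C 0, le_max_right _ _, fun p hp => (hC p hp).trans (le_max_left _ _)⟩

lemma congr {G : ℝ → ℝ → ℝ} (h : UC F F0) (he : ∀ᶠ t in 𝓝[>] (0:ℝ), ∀ p ∈ Icc (0:ℝ) 1, G t p = F t p)
    (he0 : ∀ p ∈ Icc (0:ℝ) 1, G0 p = F0 p) : UC G G0 := by
  refine ⟨h.cont.congr he0, fun ε hε => ?_⟩
  filter_upwards [he, h.lim ε hε] with t h1 h2 p hp
  rw [h1 p hp, he0 p hp]; exact h2 p hp

lemma const (c : ℝ) : UC (fun _ _ => c) (fun _ => c) :=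
  ⟨continuousOn_const, fun ε hε => Eventually.of_forall (fun t p _ => by simpa using hε.le)⟩

lemma of_p {f : ℝ → ℝ} (hf : ContinuousOn f (Icc 0 1)) : UC (fun _ p => f p) f :=
  ⟨hf, fun ε hε => Eventually.of_forall (fun t p _ => by simpa using hε.le)⟩

lemma of_t {f : ℝ → ℝ} {l : ℝ} (hf : Tendsto f (𝓝[>] 0) (𝓝 l)) :
    UC (fun t _ => f t) (fun _ => l) := by
  refine ⟨continuousOn_const, fun ε hε => ?_⟩
  filter_upwards [hf (Metric.closedBall_mem_nhds l hε)] with t ht p _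
  simpa [Real.dist_eq] using ht

lemma at_p (h : UC F F0) {p : ℝ} (hp : p ∈ Icc (0:ℝ) 1) :
    Tendsto (fun t => F t p) (𝓝[>] 0) (𝓝 (F0 p)) := by
  rw [Metric.tendsto_nhds]
  intro ε hε
  filter_upwards [h.lim (ε / 2) (by positivity)] with t ht
  rw [Real.dist_eq]
  exact (ht p hp).trans_lt (by linarith)

lemma add (hF : UC F F0) (hG : UC G G0) : UC (fun t p => F t p + G t p) (fun p => F0 p + G0 p) := by
  refine ⟨hF.cont.add hG.cont, fun ε hε => ?_⟩
  filter_upwards [hF.lim (ε / 2) (by positivity), hG.lim (ε / 2) (by positivity)] with t h1 h2 p hp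
  have e : F t p + G t p - (F0 p + G0 p) = (F t p - F0 p) + (G t p - G0 p) := by ring
  rw [e]
  refine (abs_add_le _ _).trans ?_
  linarith [h1 p hp, h2 p hp]

lemma mul (hF : UC F F0) (hG : UC G G0) : UC (fun t p => F t p * G t p) (fun p => F0 p * G0 p) := by
  refine ⟨hF.cont.mul hG.cont, fun ε hε => ?_⟩
  obtain ⟨A, hA0, hA⟩ := hF.bdd
  obtain ⟨B, hB0, hB⟩ := hG.bdd
  set δ := min 1 (ε / (A + B + 1)) with hδ
  have hδ0 : 0 < δ := lt_min one_pos (by positivity)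
  have hδ1 : δ ≤ 1 := min_le_left _ _
  have hδ2 : δ * (A + B + 1) ≤ ε := by
    have : δ ≤ ε / (A + B + 1) := min_le_right _ _
    rwa [le_div_iff₀ (by positivity)] at this
  filter_upwards [hF.lim δ hδ0, hG.lim δ hδ0] with t h1 h2 p hp
  have e : F t p * G t p - F0 p * G0 p = (F t p - F0 p) * (G t p - G0 p) + (F t p - F0 p) * G0 p +
    F0 p * (G t p - G0 p) := by ring
  rw [e]
  have a1 := h1 p hp
  have a2 := h2 p hp
  have b1 := hA p hp
  have b2 := hB p hp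
  have c1 : |(F t p - F0 p) * (G t p - G0 p)| ≤ δ * 1 := by
    rw [abs_mul]; exact mul_le_mul a1 (a2.trans hδ1) (abs_nonneg _) hδ0.le
  have c2 : |(F t p - F0 p) * G0 p| ≤ δ * B := by
    rw [abs_mul]; exact mul_le_mul a1 b2 (abs_nonneg _) hδ0.le
  have c3 : |F0 p * (G t p - G0 p)| ≤ A * δ := by
    rw [abs_mul]; exact mul_le_mul b1 a2 (abs_nonneg _) hA0
  have := abs_add_le ((F t p - F0 p) * (G t p - G0 p) + (F t p - F0 p) * G0 p)
    (F0 p * (G t p - G0 p))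
  have := abs_add_le ((F t p - F0 p) * (G t p - G0 p)) ((F t p - F0 p) * G0 p)
  linarith

lemma neg (hF : UC F F0) : UC (fun t p => -F t p) (fun p => -F0 p) :=
  ((const (-1)).mul hF).congr (Eventually.of_forall (fun t p _ => by ring)) (fun p _ => by ring)

lemma sub (hF : UC F F0) (hG : UC G G0) : UC (fun t p => F t p - G t p) (fun p => F0 p - G0 p) :=
  (hF.add hG.neg).congr (Eventually.of_forall (fun t p _ => by ring)) (fun p _ => by ring)

lemma comp_lip (hF : UC F F0) {φ : ℝ → ℝ} (hφ : ∀ x y, |φ x - φ y| ≤ |x - y|) :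
    UC (fun t p => φ (F t p)) (fun p => φ (F0 p)) := by
  have hc : Continuous φ := by
    have : LipschitzWith 1 φ := LipschitzWith.of_dist_le_mul (fun x y => by
      simpa [Real.dist_eq] using hφ x y)
    exact this.continuous
  refine ⟨hc.comp_continuousOn hF.cont, fun ε hε => ?_⟩
  filter_upwards [hF.lim ε hε] with t h1 p hp
  exact (hφ _ _).trans (h1 p hp)

lemma cos (hF : UC F F0) : UC (fun t p => Real.cos (F t p)) (fun p => Real.cos (F0 p)) := by
  refine hF.comp_lip (fun x y => ?_)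
  have := Real.lipschitzWith_cos.dist_le_mul x y
  simpa [Real.dist_eq] using this

lemma sin (hF : UC F F0) : UC (fun t p => Real.sin (F t p)) (fun p => Real.sin (F0 p)) := by
  refine hF.comp_lip (fun x y => ?_)
  have := Real.lipschitzWith_sin.dist_le_mul x y
  simpa [Real.dist_eq] using this

/-- primitives -/
lemma prim (hF : UC F F0) {T : ℝ} (hT : 0 < T)
    (hc : ContinuousOn (fun q : ℝ × ℝ => F q.1 q.2) (Ioo 0 T ×ˢ Icc 0 1)) :
    UC (PI clamp F) (fun p => PI clamp (fun _ p => F0 p) 0 p) := by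
  have hc0 : Continuous (fun q => F0 (clamp q)) := by
    rw [← continuousOn_univ]
    exact hF.cont.comp (by have := dom_I.cont; fun_prop) (fun q _ => clamp_mem q)
  have hcp : Continuous (fun p => PI clamp (fun _ p => F0 p) 0 p) :=
    intervalIntegral.continuous_primitive (fun a b => hc0.intervalIntegrable a b) 0
  refine ⟨hcp.continuousOn, fun ε hε => ?_⟩
  filter_upwards [hF.lim ε hε, Ioo_mem_nhdsGT hT] with t h1 ht p hp
  have hct := slice_cont dom_I hc ht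
  rw [PI, PI, ← intervalIntegral.integral_sub (hct.intervalIntegrable _ _)
    (hc0.intervalIntegrable _ _)]
  have h2 := intervalIntegral.norm_integral_le_of_norm_le_const (a := 0) (b := p) (C := ε)
    (f := fun q => F t (clamp q) - F0 (clamp q)) (fun q _ => h1 _ (clamp_mem q))
  rw [Real.norm_eq_abs, sub_zero, abs_of_nonneg hp.1] at h2
  refine h2.trans ?_
  nlinarith [hp.2]

/-- eventual one-sided bounds -/
lemma ev_le (hF : UC F F0) {c ε : ℝ} (h0 : ∀ p ∈ Icc (0:ℝ) 1, F0 p ≤ c) (hε : 0 < ε) :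
    ∀ᶠ t in 𝓝[>] (0:ℝ), ∀ p ∈ Icc (0:ℝ) 1, F t p ≤ c + ε := by
  filter_upwards [hF.lim ε hε] with t h1 p hp
  have := (abs_le.1 (h1 p hp)).2
  linarith [h0 p hp]

lemma ev_ge (hF : UC F F0) {c ε : ℝ} (h0 : ∀ p ∈ Icc (0:ℝ) 1, c ≤ F0 p) (hε : 0 < ε) :
    ∀ᶠ t in 𝓝[>] (0:ℝ), ∀ p ∈ Icc (0:ℝ) 1, c - ε ≤ F t p := by
  filter_upwards [hF.lim ε hε] with t h1 p hp
  have := (abs_le.1 (h1 p hp)).1
  linarith [h0 p hp]

end UC

end Run7.h661x
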