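import Pool.Agent.Run7.h661.X.Reg
import Pool.Agent.Run7.h661.X.UC

/-!
# Tools for reparametrisations
-/

open Set Filter Topology
open scoped Real ContDiff

namespace Run7.h661x

variable {T : ℝ} {J : Set ℝ}

theorem CTm_of_smooth (hJ : UniqueDiffOn ℝ J) {F : ℝ → ℝ → ℝ}
    (hF : ContDiffOn ℝ ∞ (fun q : ℝ × ℝ => F q.1 q.2) (Ioo 0 T ×ˢ J)) (m : ℕ) : CTm T J m F := by
  induction m generalizing F with
  | zero => exact hF.continuousOn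
  | succ m ih =>
    have hU : UniqueDiffOn ℝ (Ioo 0 T ×ˢ J) := isOpen_Ioo.uniqueDiffOn.prod hJ
    have h1 : ContDiffOn ℝ ∞ (fderivWithin ℝ (fun q : ℝ × ℝ => F q.1 q.2) (Ioo 0 T ×ˢ J))
        (Ioo 0 T ×ˢ J) := hF.fderivWithin hU (by simp)
    have h2 := h1.clm_apply (contDiffOn_const (c := ((1, 0) : ℝ × ℝ)))
    refine ⟨hF.continuousOn, fun t p => fderivWithin ℝ (fun q : ℝ × ℝ => F q.1 q.2)
      (Ioo 0 T ×ˢ J) (t, p) (1, 0), ih h2, fun t ht p hp => ?_⟩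
    have h3 : HasFDerivWithinAt (fun q : ℝ × ℝ => F q.1 q.2)
      (fderivWithin ℝ (fun q : ℝ × ℝ => F q.1 q.2) (Ioo 0 T ×ˢ J) (t, p)) (Ioo 0 T ×ˢ J) (t, p) :=
      ((hF.differentiableOn (by simp)) (t, p) ⟨ht, hp⟩).hasFDerivWithinAt
    have h4 : HasDerivWithinAt (fun s : ℝ => (s, p)) ((1, 0) : ℝ × ℝ) (Ioo 0 T) t :=
      ((hasDerivAt_id t).prodMk (hasDerivAt_const t p)).hasDerivWithinAt
    have hm : MapsTo (fun s : ℝ => (s, p)) (Ioo 0 T) (Ioo 0 T ×ˢ J) := fun s hs => ⟨hs, hp⟩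
    have h5 := h3.comp_hasDerivWithinAt t h4 hm
    exact h5.hasDerivAt (Ioo_mem_nhds ht.1 ht.2)

/-- chain rule along a moving point -/
lemma comp2 (hJ : UniqueDiffOn ℝ J) {F Ft Fp : ℝ → ℝ → ℝ}
    (hFt : ContinuousOn (fun q : ℝ × ℝ => Ft q.1 q.2) (Ioo 0 T ×ˢ J))
    (h1 : ∀ t ∈ Ioo 0 T, ∀ p ∈ J, HasDerivAt (fun s => F s p) (Ft t p) t)
    (h2 : ∀ t ∈ Ioo 0 T, ∀ p ∈ J, HasDerivWithinAt (F t) (Fp t p) J p) {P : ℝ → ℝ} {Pt t : ℝ}
    (ht : t ∈ Ioo 0 T) (hP : HasDerivAt P Pt t) (hmem : ∀ s ∈ Ioo 0 T, P s ∈ J) :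
    HasDerivAt (fun s => F s (P s)) (Ft t (P t) + Fp t (P t) * Pt) t := by
  have h3 := hasFDerivWithinAt_of_partial hJ hFt h1 h2 ht (hmem t ht)
  have h4 : HasDerivWithinAt (fun s : ℝ => (s, P s)) ((1, Pt) : ℝ × ℝ) (Ioo 0 T) t :=
    ((hasDerivAt_id t).prodMk hP).hasDerivWithinAt
  have hm : MapsTo (fun s : ℝ => (s, P s)) (Ioo 0 T) (Ioo 0 T ×ˢ J) := fun s hs => ⟨hs, hmem s hs⟩
  have h5 := h3.comp_hasDerivWithinAt t h4 hm
  have h6 := h5.hasDerivAt (Ioo_mem_nhds ht.1 ht.2)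
  refine HasDerivAt.congr_deriv h6 ?_
  simp only [add_apply, ContinuousLinearMap.smulRight_apply,
    ContinuousLinearMap.coe_fst', ContinuousLinearMap.coe_snd', smul_eq_mul]
  ring

/-- composition with a continuous map of the space variable -/
lemma CTm.comp_p {m : ℕ} {F : ℝ → ℝ → ℝ} {J' : Set ℝ} {w : ℝ → ℝ} (hF : CTm T J m F)
    (hw : ContinuousOn w J') (hm : ∀ p ∈ J', w p ∈ J) : CTm T J' m (fun t p => F t (w p)) := by
  have hc : ContinuousOn (fun q : ℝ × ℝ => (q.1, w q.2)) (Ioo 0 T ×ˢ J') :=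
    continuousOn_fst.prodMk (hw.comp continuousOn_snd (fun q hq => hq.2))
  induction m generalizing F with
  | zero =>
    exact ContinuousOn.comp (g := fun q : ℝ × ℝ => F q.1 q.2) (f := fun q : ℝ × ℝ => (q.1, w q.2))
      hF hc (fun q hq => ⟨hq.1, hm _ hq.2⟩)
  | succ m ih =>
    obtain ⟨h1, F', h2, h3⟩ := hF
    refine ⟨ContinuousOn.comp (g := fun q : ℝ × ℝ => F q.1 q.2) (f := fun q : ℝ × ℝ =>
      (q.1, w q.2)) h1 hc (fun q hq => ⟨hq.1, hm _ hq.2⟩), _, ih h2,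
      fun t ht p hp => h3 t ht (w p) (hm p hp)⟩

/-! ### folding -/

noncomputable def m1 (p : ℝ) : ℝ := min (2 * p) 1
noncomputable def m2 (p : ℝ) : ℝ := min (2 - 2 * p) 1

lemma m1_cont : Continuous m1 := by unfold m1; fun_prop
lemma m2_cont : Continuous m2 := by unfold m2; fun_prop
lemma m1_mem {p : ℝ} (hp : p ∈ Icc (0:ℝ) 1) : m1 p ∈ Icc (0:ℝ) 1 :=
  ⟨le_min (by linarith [hp.1]) zero_le_one, min_le_right _ _⟩
lemma m2_mem {p : ℝ} (hp : p ∈ Icc (0:ℝ) 1) : m2 p ∈ Icc (0:ℝ) 1 :=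
  ⟨le_min (by linarith [hp.2]) zero_le_one, min_le_right _ _⟩
lemma m_left {p : ℝ} (hp : p ≤ 1 / 2) : m1 p = 2 * p ∧ m2 p = 1 :=
  ⟨min_eq_left (by linarith), min_eq_right (by linarith)⟩
lemma m_right {p : ℝ} (hp : 1 / 2 ≤ p) : m1 p = 1 ∧ m2 p = 2 - 2 * p :=
  ⟨min_eq_right (by linarith), min_eq_left (by linarith)⟩

section
variable {F F' : ℝ → ℝ} (hF : ∀ q ∈ Icc (0:ℝ) 1, HasDerivWithinAt F (F' q) (Icc 0 1) q)
include hF

lemma fold_left {p : ℝ} (hp : p ∈ Icc (0:ℝ) (1 / 2)) :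
    HasDerivWithinAt (fun p => F (m1 p)) (2 * F' (m1 p)) (Icc 0 (1 / 2)) p := by
  have h0 : HasDerivAt (fun p : ℝ => 2 * p) 2 p :=
    ((hasDerivAt_id' p).const_mul (2:ℝ)).congr_deriv (by ring)
  have h1 : HasDerivWithinAt (fun p : ℝ => 2 * p) 2 (Icc (0:ℝ) (1 / 2)) p := h0.hasDerivWithinAt
  have hm : MapsTo (fun p : ℝ => 2 * p) (Icc (0:ℝ) (1 / 2)) (Icc (0:ℝ) 1) := fun x hx =>
    ⟨by linarith [hx.1], by linarith [hx.2]⟩
  have h2 : HasDerivWithinAt (fun p => F (2 * p)) (F' (2 * p) * 2) (Icc (0:ℝ) (1 / 2)) p :=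
    HasDerivWithinAt.comp p (h₂ := F) (h := fun p : ℝ => 2 * p) (hF (2 * p) (hm hp)) h1 hm
  have h3 : HasDerivWithinAt (fun p => F (m1 p)) (F' (2 * p) * 2) (Icc (0:ℝ) (1 / 2)) p :=
    h2.congr (fun x hx => by rw [(m_left hx.2).1]) (by rw [(m_left hp.2).1])
  refine h3.congr_deriv ?_
  rw [(m_left hp.2).1]; ring

omit hF in
lemma fold_left' (F : ℝ → ℝ) {p : ℝ} (hp : p ∈ Icc (0:ℝ) (1 / 2)) :
    HasDerivWithinAt (fun p => F (m2 p)) 0 (Icc 0 (1 / 2)) p := by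
  have h1 := hasDerivWithinAt_const p (Icc (0:ℝ) (1 / 2)) (F 1)
  exact h1.congr (fun x hx => by rw [(m_left hx.2).2]) (by rw [(m_left hp.2).2])

lemma fold_right {p : ℝ} (hp : p ∈ Icc (1 / 2 : ℝ) 1) :
    HasDerivWithinAt (fun p => F (m2 p)) (-(2 * F' (m2 p))) (Icc (1 / 2) 1) p := by
  have h0 : HasDerivAt (fun p : ℝ => 2 - 2 * p) (-2) p :=
    (((hasDerivAt_id' p).const_mul (2:ℝ)).const_sub 2).congr_deriv (by ring)
  have h1 : HasDerivWithinAt (fun p : ℝ => 2 - 2 * p) (-2) (Icc (1 / 2 : ℝ) 1) p :=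
    h0.hasDerivWithinAt
  have hm : MapsTo (fun p : ℝ => 2 - 2 * p) (Icc (1 / 2 : ℝ) 1) (Icc (0:ℝ) 1) := fun x hx =>
    ⟨by linarith [hx.2], by linarith [hx.1]⟩
  have h2 : HasDerivWithinAt (fun p => F (2 - 2 * p)) (F' (2 - 2 * p) * (-2))
      (Icc (1 / 2 : ℝ) 1) p :=
    HasDerivWithinAt.comp p (h₂ := F) (h := fun p : ℝ => 2 - 2 * p) (hF (2 - 2 * p) (hm hp)) h1 hm
  have h3 : HasDerivWithinAt (fun p => F (m2 p)) (F' (2 - 2 * p) * (-2))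
      (Icc (1 / 2 : ℝ) 1) p :=
    h2.congr (fun x hx => by rw [(m_right hx.1).2]) (by rw [(m_right hp.1).2])
  refine h3.congr_deriv ?_
  rw [(m_right hp.1).2]; ring

omit hF in
lemma fold_right' (F : ℝ → ℝ) {p : ℝ} (hp : p ∈ Icc (1 / 2 : ℝ) 1) :
    HasDerivWithinAt (fun p => F (m1 p)) 0 (Icc (1 / 2) 1) p := by
  have h1 := hasDerivWithinAt_const p (Icc (1 / 2 : ℝ) 1) (F 1)
  exact h1.congr (fun x hx => by rw [(m_right hx.1).1]) (by rw [(m_right hp.1).1])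

omit hF in
lemma union_half : Icc (0:ℝ) 1 = Icc 0 (1 / 2) ∪ Icc (1 / 2) 1 :=
  (Icc_union_Icc_eq_Icc (by norm_num) (by norm_num)).symm

omit hF in
/-- derivative from the two halves -/
lemma glue_deriv {H : ℝ → ℝ} {H' : ℝ → ℝ}
    (h1 : ∀ p ∈ Icc (0:ℝ) (1 / 2), HasDerivWithinAt H (H' p) (Icc 0 (1 / 2)) p)
    (h2 : ∀ p ∈ Icc (1 / 2 : ℝ) 1, HasDerivWithinAt H (H' p) (Icc (1 / 2) 1) p) {p : ℝ}
    (hp : p ∈ Icc (0:ℝ) 1) : HasDerivWithinAt H (H' p) (Icc 0 1) p := by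
  rw [union_half]
  rcases lt_trichotomy p (1 / 2) with h | h | h
  · refine (h1 p ⟨hp.1, h.le⟩).union ?_
    exact HasFDerivWithinAt.of_notMem_closure (by
      rw [isClosed_Icc.closure_eq]; exact fun hx => absurd hx.1 (not_le.2 h))
  · exact (h1 p ⟨hp.1, h.le⟩).union (h2 p ⟨h.ge, hp.2⟩)
  · refine HasDerivWithinAt.union ?_ (h2 p ⟨h.le, hp.2⟩)
    exact HasFDerivWithinAt.of_notMem_closure (by
      rw [isClosed_Icc.closure_eq]; exact fun hx => absurd hx.2 (not_le.2 h))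

/-- even folding -/
lemma fold_even (h0 : F' 1 = 0) {p : ℝ} (hp : p ∈ Icc (0:ℝ) 1) :
    HasDerivWithinAt (fun p => F (m1 p) + F (m2 p) - F 1) (2 * F' (m1 p) - 2 * F' (m2 p))
      (Icc 0 1) p := by
  refine glue_deriv (H := fun p => F (m1 p) + F (m2 p) - F 1)
    (H' := fun p => 2 * F' (m1 p) - 2 * F' (m2 p)) (fun p hp => ?_) (fun p hp => ?_) hp
  · refine (((fold_left hF hp).add (fold_left' F hp)).sub_const (F 1)).congr_deriv ?_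
    rw [(m_left hp.2).2, h0]; ring
  · refine (((fold_right' F hp).add (fold_right hF hp)).sub_const (F 1)).congr_deriv ?_
    rw [(m_right hp.1).1, h0]; ring

/-- odd folding -/
lemma fold_odd {p : ℝ} (hp : p ∈ Icc (0:ℝ) 1) :
    HasDerivWithinAt (fun p => F (m1 p) - F (m2 p)) (2 * F' (m1 p) + 2 * F' (m2 p) - 2 * F' 1)
      (Icc 0 1) p := by
  refine glue_deriv (H := fun p => F (m1 p) - F (m2 p))
    (H' := fun p => 2 * F' (m1 p) + 2 * F' (m2 p) - 2 * F' 1) (fun p hp => ?_) (fun p hp => ?_) hp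
  · refine (((fold_left hF hp).sub (fold_left' F hp))).congr_deriv ?_
    rw [(m_left hp.2).2]; ring
  · refine (((fold_right' F hp).sub (fold_right hF hp))).congr_deriv ?_
    rw [(m_right hp.1).1]; ring

end

/-! ### uniform convergence under reparametrisation -/

lemma UC.comp {F P : ℝ → ℝ → ℝ} {F0 P0 : ℝ → ℝ} (hF : UC F F0) (hP : UC P P0)
    (h : ∀ᶠ t in 𝓝[>] (0:ℝ), ∀ p ∈ Icc (0:ℝ) 1, P t p ∈ Icc (0:ℝ) 1)
    (h0 : ∀ p ∈ Icc (0:ℝ) 1, P0 p ∈ Icc (0:ℝ) 1) :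
    UC (fun t p => F t (P t p)) (fun p => F0 (P0 p)) := by
  refine ⟨hF.cont.comp hP.cont h0, fun ε hε => ?_⟩
  have hu := isCompact_Icc.uniformContinuousOn_of_continuous hF.cont
  rw [Metric.uniformContinuousOn_iff] at hu
  obtain ⟨δ, hδ, hu⟩ := hu (ε / 2) (by positivity)
  filter_upwards [hF.lim (ε / 2) (by positivity), hP.lim (δ / 2) (by positivity), h]
    with t a1 a2 a3 p hp
  have b1 := a1 (P t p) (a3 p hp)
  have b2 := hu (P t p) (a3 p hp) (P0 p) (h0 p hp) (by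
    rw [Real.dist_eq]; exact (a2 p hp).trans_lt (by linarith))
  rw [Real.dist_eq] at b2
  have e : F t (P t p) - F0 (P0 p) = (F t (P t p) - F0 (P t p)) + (F0 (P t p) - F0 (P0 p)) := by
    ring
  rw [e]
  refine (abs_add_le _ _).trans ?_
  linarith

lemma UC.comp_p {F : ℝ → ℝ → ℝ} {F0 w : ℝ → ℝ} (hF : UC F F0) (hw : ContinuousOn w (Icc 0 1))
    (hm : ∀ p ∈ Icc (0:ℝ) 1, w p ∈ Icc (0:ℝ) 1) :
    UC (fun t p => F t (w p)) (fun p => F0 (w p)) :=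
  hF.comp (UC.of_p hw) (Eventually.of_forall (fun _ => hm)) hm

/-- continuity up to the initial time -/
lemma UC.contOn {F G : ℝ → ℝ → ℝ} {F0 : ℝ → ℝ} (hF : UC F F0)
    (hc : ContinuousOn (fun q : ℝ × ℝ => F q.1 q.2) (Ioo 0 T ×ˢ Icc 0 1))
    (hG : ∀ t ∈ Ioo 0 T, ∀ p ∈ Icc (0:ℝ) 1, G t p = F t p)
    (hG0 : ∀ p ∈ Icc (0:ℝ) 1, G 0 p = F0 p) :
    ContinuousOn (fun q : ℝ × ℝ => G q.1 q.2) (Ico 0 T ×ˢ Icc 0 1) := by
  rintro ⟨t, p⟩ ⟨ht, hp⟩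
  simp only at ht hp
  rcases eq_or_lt_of_le ht.1 with h | h
  · subst h
    rw [Metric.continuousWithinAt_iff]
    intro ε hε
    have h1 := hF.lim (ε / 3) (by positivity)
    rw [eventually_nhdsWithin_iff, Metric.eventually_nhds_iff] at h1
    obtain ⟨δ1, hδ1, h1⟩ := h1
    obtain ⟨δ2, hδ2, h2⟩ := Metric.continuousWithinAt_iff.1 (hF.cont p hp) (ε / 3) (by positivity)
    refine ⟨min δ1 δ2, lt_min hδ1 hδ2, ?_⟩
    rintro ⟨s, q⟩ ⟨hs, hq⟩ hd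
    simp only at hs hq ⊢
    rw [Prod.dist_eq, max_lt_iff] at hd
    have hd1 : dist s 0 < δ1 := hd.1.trans_le (min_le_left _ _)
    have hd2 : dist q p < δ2 := hd.2.trans_le (min_le_right _ _)
    have b2 := h2 hq hd2
    rw [Real.dist_eq] at b2 ⊢
    have b1 : |G s q - F0 q| ≤ ε / 3 := by
      rcases eq_or_lt_of_le hs.1 with h | h
      · rw [← h, hG0 q hq, sub_self, abs_zero]; positivity
      · rw [hG s ⟨h, hs.2⟩ q hq]; exact h1 hd1 h q hq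
    rw [hG0 p hp]
    have e : G s q - F0 p = (G s q - F0 q) + (F0 q - F0 p) := by ring
    rw [e]
    refine (abs_add_le _ _).trans_lt ?_
    linarith
  · have h1 := hc (t, p) ⟨⟨h, ht.2⟩, hp⟩
    have h2 : ContinuousWithinAt (fun q : ℝ × ℝ => G q.1 q.2) (Ioo 0 T ×ˢ Icc 0 1) (t, p) :=
      h1.congr (fun q hq => hG q.1 hq.1 q.2 hq.2) (hG t ⟨h, ht.2⟩ p hp)
    refine h2.mono_of_mem_nhdsWithin ?_
    rw [mem_nhdsWithin]
    refine ⟨Ioi 0 ×ˢ univ, isOpen_Ioi.prod isOpen_univ, ⟨h, mem_univ _⟩, ?_⟩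
    rintro ⟨s, q⟩ ⟨⟨hs, -⟩, ⟨hs2, hq⟩⟩
    exact ⟨⟨hs, hs2.2⟩, hq⟩

end Run7.h661x
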