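import Pool.Agent.Run7.h661.X.Bounds

/-!
# Limits along an ultrafilter
-/

open Set Filter Topology Finset

namespace Run7.h661x

/-- the limit along an ultrafilter -/
noncomputable def ulim (𝒰 : Ultrafilter ℕ) (u : ℕ → ℂ) : ℂ := limUnder (𝒰 : Filter ℕ) u

section
variable {𝒰 : Ultrafilter ℕ} {u : ℕ → ℂ}

lemma ulim_tendsto {C : ℝ} (h : ∀ᶠ N in (𝒰 : Filter ℕ), ‖u N‖ ≤ C) :
    Tendsto u 𝒰 (𝓝 (ulim 𝒰 u)) := by
  have hc : IsCompact (Metric.closedBall (0:ℂ) C) := isCompact_closedBall _ _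
  have h1 : ((𝒰.map u : Ultrafilter ℂ) : Filter ℂ) ≤ 𝓟 (Metric.closedBall (0:ℂ) C) := by
    rw [Ultrafilter.coe_map, le_principal_iff, Filter.mem_map]
    filter_upwards [h] with N hN
    simpa using hN
  obtain ⟨x, -, hx⟩ := hc.ultrafilter_le_nhds (𝒰.map u) h1
  have hx' : Tendsto u 𝒰 (𝓝 x) := by
    rw [Ultrafilter.coe_map] at hx; exact hx
  have : ulim 𝒰 u = x := hx'.limUnder_eq
  rw [this]; exact hx'

lemma ulim_eq {x : ℂ} (h : Tendsto u 𝒰 (𝓝 x)) : ulim 𝒰 u = x := h.limUnder_eq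

end

/-! ## quadratic estimates -/

lemma hasDerivAt_of_quad {𝕜 : Type*} [RCLike 𝕜] {F : Type*} [NormedAddCommGroup F]
    [NormedSpace 𝕜 F] {f : 𝕜 → F} {f' : F} {z : 𝕜} {δ K : ℝ} (hδ : 0 < δ)
    (h : ∀ w, ‖w - z‖ < δ → ‖f w - f z - (w - z) • f'‖ ≤ K * ‖w - z‖ ^ 2) :
    HasDerivAt f f' z := by
  rw [hasDerivAt_iff_isLittleO]
  have h1 : (fun w => f w - f z - (w - z) • f') =O[𝓝 z] fun w => ‖w - z‖ ^ 2 := by
    refine Asymptotics.IsBigO.of_bound K ?_
    filter_upwards [Metric.ball_mem_nhds z hδ] with w hw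
    rw [Metric.mem_ball, dist_eq_norm] at hw
    rw [norm_pow, norm_norm]
    exact h w hw
  refine h1.trans_isLittleO ?_
  rw [Asymptotics.isLittleO_iff]
  intro c hc
  filter_upwards [Metric.ball_mem_nhds z hc] with w hw
  rw [Metric.mem_ball, dist_eq_norm] at hw
  rw [norm_pow, norm_norm, sq]
  exact mul_le_mul_of_nonneg_right hw.le (norm_nonneg _)

lemma quad_of_holo {g : ℂ → ℂ} {z : ℂ} {ρ C : ℝ} (hρ : 0 < ρ)
    (h : DifferentiableOn ℂ g (Metric.ball z ρ)) (hC : ∀ w ∈ Metric.ball z ρ, ‖g w‖ ≤ C) :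
    ∀ w, ‖w - z‖ < ρ / 8 → ‖g w - g z - (w - z) • deriv g z‖ ≤ (64 * C / ρ ^ 2) * ‖w - z‖ ^ 2 := by
  have hC0 : 0 ≤ C := (norm_nonneg _).trans (hC z (Metric.mem_ball_self hρ))
  have hopen : IsOpen (Metric.ball z ρ) := Metric.isOpen_ball
  have hd : DifferentiableOn ℂ (deriv g) (Metric.ball z ρ) := h.deriv hopen
  have b1 : ∀ w ∈ Metric.ball z (ρ / 2), ‖deriv g w‖ ≤ C / (ρ / 4) := by
    intro w hw
    have hsub : Metric.closedBall w (ρ / 4) ⊆ Metric.ball z ρ :=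
      (closedBall_sub hw).trans (Metric.ball_subset_ball (by linarith))
    exact cauchy_bound (by positivity) (h.mono hsub) (fun x hx => hC x (hsub hx))
  have b2 : ∀ w ∈ Metric.ball z (ρ / 4), ‖deriv (deriv g) w‖ ≤ C / (ρ / 4) / (ρ / 4) := by
    intro w hw
    have hsub : Metric.closedBall w (ρ / 4) ⊆ Metric.ball z (ρ / 2) :=
      (closedBall_sub hw).trans (Metric.ball_subset_ball (by linarith))
    exact cauchy_bound (by positivity)
      (hd.mono (hsub.trans (Metric.ball_subset_ball (by linarith)))) (fun x hx => b1 x (hsub hx))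
  have hdA : ∀ w ∈ Metric.ball z ρ, HasDerivAt g (deriv g w) w := fun w hw =>
    (h.differentiableAt (hopen.mem_nhds hw)).hasDerivAt
  have hdA2 : ∀ w ∈ Metric.ball z ρ, HasDerivAt (deriv g) (deriv (deriv g) w) w := fun w hw =>
    (hd.differentiableAt (hopen.mem_nhds hw)).hasDerivAt
  have hK : C / (ρ / 4) / (ρ / 4) = 16 * C / ρ ^ 2 := by field_simp; ring
  rw [hK] at b2
  intro w hw
  set K := 16 * C / ρ ^ 2 with hKdef
  have hK0 : 0 ≤ K := by positivity
  have s1 : Metric.closedBall z ‖w - z‖ ⊆ Metric.ball z (ρ / 4) := by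
    intro x hx
    rw [Metric.mem_closedBall] at hx
    rw [Metric.mem_ball]; linarith
  have s2 : Metric.closedBall z ‖w - z‖ ⊆ Metric.ball z ρ :=
    s1.trans (Metric.ball_subset_ball (by linarith))
  have hconv : Convex ℝ (Metric.closedBall z ‖w - z‖) := convex_closedBall _ _
  have hz : z ∈ Metric.closedBall z ‖w - z‖ := Metric.mem_closedBall_self (norm_nonneg _)
  have hw' : w ∈ Metric.closedBall z ‖w - z‖ := by
    rw [Metric.mem_closedBall, dist_eq_norm]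
  have e1 : ∀ x ∈ Metric.closedBall z ‖w - z‖, ‖deriv g x - deriv g z‖ ≤ K * ‖w - z‖ := by
    intro x hx
    have := hconv.norm_image_sub_le_of_norm_hasDerivWithin_le
      (f := deriv g) (f' := deriv (deriv g)) (C := K)
      (fun y hy => (hdA2 y (s2 hy)).hasDerivWithinAt) (fun y hy => b2 y (s1 hy)) hz hx
    refine this.trans (mul_le_mul_of_nonneg_left ?_ hK0)
    rw [← dist_eq_norm]; exact hx
  have e2 := hconv.norm_image_sub_le_of_norm_hasDerivWithin_le
      (f := fun x => g x - (x - z) * deriv g z) (f' := fun x => deriv g x - deriv g z)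
      (C := K * ‖w - z‖)
      (fun y hy => by
        have h1 := ((hasDerivAt_id' y).sub_const z).mul_const (deriv g z)
        rw [one_mul] at h1
        exact ((hdA y (s2 hy)).sub h1).hasDerivWithinAt) e1 hz hw'
  have e3 : g w - g z - (w - z) • deriv g z =
      g w - (w - z) * deriv g z - (g z - (z - z) * deriv g z) := by
    rw [smul_eq_mul]; ring
  rw [e3]
  refine e2.trans ?_
  have : (64 * C / ρ ^ 2) = 4 * K := by rw [hKdef]; ring
  rw [this]
  nlinarith [mul_nonneg hK0 (sq_nonneg ‖w - z‖)]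

/-- the ultrafilter limit of bounded holomorphic functions is holomorphic -/
theorem ulim_holo {𝒰 : Ultrafilter ℕ} {g : ℕ → ℂ → ℂ} {t0 : ℂ} {r C : ℝ}
    (h : ∀ᶠ N in (𝒰 : Filter ℕ), DifferentiableOn ℂ (g N) (Metric.ball t0 r) ∧
      ∀ w ∈ Metric.ball t0 r, ‖g N w‖ ≤ C) :
    ∀ z ∈ Metric.ball t0 r, HasDerivAt (fun w => ulim 𝒰 (fun N => g N w))
      (ulim 𝒰 (fun N => deriv (g N) z)) z := by
  intro z hz
  set ρ := r - dist z t0 with hρ
  have hρ0 : 0 < ρ := by rw [Metric.mem_ball] at hz; linarith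
  have hsub : Metric.ball z ρ ⊆ Metric.ball t0 r := by
    intro w hw
    rw [Metric.mem_ball] at hw ⊢
    have := dist_triangle w z t0
    linarith
  have hb : ∀ᶠ N in (𝒰 : Filter ℕ), ‖deriv (g N) z‖ ≤ C / (ρ / 2) := by
    filter_upwards [h] with N hN
    have hs : Metric.closedBall z (ρ / 2) ⊆ Metric.ball t0 r := by
      refine subset_trans ?_ hsub
      intro w hw
      rw [Metric.mem_closedBall] at hw
      rw [Metric.mem_ball]; linarith
    exact cauchy_bound (by positivity) (hN.1.mono hs) (fun x hx => hN.2 x (hs hx))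
  have t1 := ulim_tendsto hb
  refine hasDerivAt_of_quad (δ := ρ / 8) (K := 64 * C / ρ ^ 2) (by positivity) (fun w hw => ?_)
  have hw' : w ∈ Metric.ball t0 r := by
    apply hsub
    rw [Metric.mem_ball, dist_eq_norm]; linarith
  have t2 : Tendsto (fun N => g N w) 𝒰 (𝓝 (ulim 𝒰 (fun N => g N w))) :=
    ulim_tendsto (h.mono (fun N hN => hN.2 w hw'))
  have t3 : Tendsto (fun N => g N z) 𝒰 (𝓝 (ulim 𝒰 (fun N => g N z))) :=
    ulim_tendsto (h.mono (fun N hN => hN.2 z hz))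
  have t4 := ((t2.sub t3).sub (t1.const_smul (w - z))).norm
  refine le_of_tendsto t4 ?_
  filter_upwards [h] with N hN
  exact quad_of_holo hρ0 (hN.1.mono hsub) (fun x hx => hN.2 x (hsub hx)) w hw

/-! ## grid functions -/

/-- index of the node close to `p` -/
noncomputable def idx (N k : ℕ) (p : ℝ) : ℕ := min ⌊p * N⌋₊ (N - k)

lemma idx_lt {N k : ℕ} (hk : k ≤ N) (p : ℝ) : idx N k p < N + 1 - k := by
  have : idx N k p ≤ N - k := min_le_right _ _
  omega

lemma idx_zero (N k : ℕ) : idx N k 0 = 0 := by simp [idx]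

lemma idx_err {N k : ℕ} (hk : k ≤ N) (hN : 0 < N) {p : ℝ} (hp : p ∈ Icc (0:ℝ) 1) :
    |(idx N k p : ℝ) / N - p| ≤ (k + 1) / N := by
  have hN0 : (0:ℝ) < N := by exact_mod_cast hN
  have h1 : (⌊p * N⌋₊ : ℝ) ≤ p * N := Nat.floor_le (mul_nonneg hp.1 hN0.le)
  have h2 : p * N < ⌊p * N⌋₊ + 1 := Nat.lt_floor_add_one _
  have h3 : (idx N k p : ℝ) ≤ ⌊p * N⌋₊ := by exact_mod_cast min_le_left _ _
  have h4 : p * N - (k + 1) ≤ idx N k p := by
    rcases le_total ⌊p * N⌋₊ (N - k) with h | h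
    · rw [idx, min_eq_left h]
      have : (0:ℝ) ≤ k := by positivity
      linarith
    · rw [idx, min_eq_right h, Nat.cast_sub hk]
      have : p * N ≤ N := by nlinarith [hp.2]
      linarith
  have e : (idx N k p : ℝ) / N - p = (idx N k p - p * N) / N := by field_simp
  rw [e, abs_div, abs_of_pos hN0]
  apply div_le_div_of_nonneg_right _ hN0.le
  rw [abs_le]
  have : (0:ℝ) ≤ k := by positivity
  constructor <;> linarith

section grid
variable {𝒰 : Ultrafilter ℕ} (h𝒰 : (𝒰 : Filter ℕ) ≤ atTop)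
include h𝒰

lemma ev_ge (n : ℕ) : ∀ᶠ N in (𝒰 : Filter ℕ), n ≤ N := h𝒰 (eventually_ge_atTop n)

lemma tendsto_inv (c : ℝ) : Tendsto (fun N : ℕ => c / (N:ℝ)) 𝒰 (𝓝 0) :=
  (tendsto_const_div_atTop_nhds_zero_nat c).mono_left h𝒰

lemma idx_tendsto (k : ℕ) {p : ℝ} (hp : p ∈ Icc (0:ℝ) 1) :
    Tendsto (fun N => (idx N k p : ℝ) / N) 𝒰 (𝓝 p) := by
  rw [tendsto_iff_norm_sub_tendsto_zero]
  refine squeeze_zero' (Eventually.of_forall (fun _ => norm_nonneg _)) ?_
    (tendsto_inv h𝒰 ((k:ℝ) + 1))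
  filter_upwards [ev_ge h𝒰 (k + 1)] with N hN
  rw [Real.norm_eq_abs]
  exact idx_err (by omega) (by omega) hp

/-- limit of a grid function -/
noncomputable def glim (𝒰 : Ultrafilter ℕ) (k : ℕ) (f : ℕ → ℕ → ℂ) (p : ℝ) : ℂ :=
  ulim 𝒰 (fun N => f N (idx N k p))

variable {k : ℕ} {f : ℕ → ℕ → ℂ} {C : ℝ}

lemma glim_bound_seq (hf : ∀ᶠ N in (𝒰 : Filter ℕ), BL N (N + 1 - k) C (f N)) (p : ℝ) :
    ∀ᶠ N in (𝒰 : Filter ℕ), ‖f N (idx N k p)‖ ≤ C := by
  filter_upwards [hf, ev_ge h𝒰 k] with N hN hk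
  exact hN.2.1 _ (idx_lt hk p)

/-- convergence along arbitrary indices -/
lemma glim_tendsto (hf : ∀ᶠ N in (𝒰 : Filter ℕ), BL N (N + 1 - k) C (f N)) {p : ℝ}
    (hp : p ∈ Icc (0:ℝ) 1) {j : ℕ → ℕ} (hj : ∀ᶠ N in (𝒰 : Filter ℕ), j N < N + 1 - k)
    (hjp : Tendsto (fun N => (j N : ℝ) / N) 𝒰 (𝓝 p)) :
    Tendsto (fun N => f N (j N)) 𝒰 (𝓝 (glim 𝒰 k f p)) := by
  have h1 : Tendsto (fun N => f N (idx N k p)) 𝒰 (𝓝 (glim 𝒰 k f p)) :=
    ulim_tendsto (glim_bound_seq h𝒰 hf p)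
  have h2 : Tendsto (fun N => f N (j N) - f N (idx N k p)) 𝒰 (𝓝 0) := by
    rw [tendsto_zero_iff_norm_tendsto_zero]
    have h3 : Tendsto (fun N => C * |(j N : ℝ) / N - (idx N k p : ℝ) / N|) 𝒰 (𝓝 0) := by
      have := ((hjp.sub (idx_tendsto h𝒰 k hp)).abs).const_mul C
      simpa using this
    refine squeeze_zero' (Eventually.of_forall (fun _ => norm_nonneg _)) ?_ h3
    filter_upwards [hf, hj, ev_ge h𝒰 (k + 1)] with N hN hjN hk
    have := hN.2.2 (j N) (idx N k p) hjN (idx_lt (by omega) p)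
    refine this.trans (le_of_eq ?_)
    have hN0 : (0:ℝ) < N := by
      have : 0 < N := by omega
      exact_mod_cast this
    rw [← sub_div, abs_div, abs_of_pos hN0]
  have h4 := h2.add h1
  simpa using h4

lemma glim_norm (hf : ∀ᶠ N in (𝒰 : Filter ℕ), BL N (N + 1 - k) C (f N)) (p : ℝ) :
    ‖glim 𝒰 k f p‖ ≤ C :=
  le_of_tendsto (ulim_tendsto (glim_bound_seq h𝒰 hf p)).norm (glim_bound_seq h𝒰 hf p)

lemma glim_lip (hf : ∀ᶠ N in (𝒰 : Filter ℕ), BL N (N + 1 - k) C (f N)) {p q : ℝ}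
    (hp : p ∈ Icc (0:ℝ) 1) (hq : q ∈ Icc (0:ℝ) 1) :
    ‖glim 𝒰 k f p - glim 𝒰 k f q‖ ≤ C * |p - q| := by
  have h1 : Tendsto (fun N => f N (idx N k p)) 𝒰 (𝓝 (glim 𝒰 k f p)) :=
    ulim_tendsto (glim_bound_seq h𝒰 hf p)
  have h2 : Tendsto (fun N => f N (idx N k q)) 𝒰 (𝓝 (glim 𝒰 k f q)) :=
    ulim_tendsto (glim_bound_seq h𝒰 hf q)
  have h3 : Tendsto (fun N => C * |(idx N k p : ℝ) / N - (idx N k q : ℝ) / N|) 𝒰
      (𝓝 (C * |p - q|)) :=
    (((idx_tendsto h𝒰 k hp).sub (idx_tendsto h𝒰 k hq)).abs).const_mul C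
  refine le_of_tendsto_of_tendsto (h1.sub h2).norm h3 ?_
  filter_upwards [hf, ev_ge h𝒰 (k + 1)] with N hN hk
  have := hN.2.2 (idx N k p) (idx N k q) (idx_lt (by omega) p) (idx_lt (by omega) q)
  refine this.trans (le_of_eq ?_)
  have hN0 : (0:ℝ) < N := by
    have : 0 < N := by omega
    exact_mod_cast this
  rw [← sub_div, abs_div, abs_of_pos hN0]

omit h𝒰 in
lemma grid_taylor {N n : ℕ} (hN : 0 < N) {f d : ℕ → ℂ} {C : ℝ}
    (hd : ∀ j < n, f (j + 1) - f j = (1 / (N:ℂ)) * d j)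
    (hL : BL N n C d) {j l : ℕ} (hj : j ≤ n) (hl : l ≤ n) {m : ℕ} (hm : m < n)
    (hmj : |(m:ℝ) - j| ≤ 1) :
    ‖f l - f j - (((l:ℝ) - j) / N : ℝ) * d m‖ ≤
      C * ((|(l:ℝ) - j| / N) * ((|(l:ℝ) - j| + 1) / N)) := by
  have hN0 : (0:ℝ) < N := by exact_mod_cast hN
  have hNc : (N:ℂ) ≠ 0 := by exact_mod_cast hN.ne'
  have hC := hL.1
  have key : ∀ a b : ℕ, a ≤ b → b ≤ n → (∀ k ∈ Finset.Ico a b, |(k:ℝ) - m| ≤ (b - a : ℝ) + 1) →
      ‖f b - f a - (((b:ℝ) - a) / N : ℝ) * d m‖ ≤ C * (((b:ℝ) - a) / N * ((((b:ℝ) - a) + 1) / N)) := by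
    intro a b hab hb hk
    have hab' : (a:ℝ) ≤ b := by exact_mod_cast hab
    have e1 : f b - f a = ∑ k ∈ Finset.Ico a b, (f (k + 1) - f k) := by
      rw [Finset.sum_Ico_sub f hab]
    have e2 : (((((b:ℝ) - a) / N : ℝ) : ℂ)) * d m = ∑ k ∈ Finset.Ico a b, (1 / (N:ℂ)) * d m := by
      rw [sum_const, Nat.card_Ico, nsmul_eq_mul, Nat.cast_sub hab]
      push_cast; field_simp
    rw [e1, e2, ← sum_sub_distrib]
    refine (norm_sum_le _ _).trans ?_
    calc ∑ k ∈ Finset.Ico a b, ‖f (k + 1) - f k - 1 / (N:ℂ) * d m‖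
        ≤ ∑ k ∈ Finset.Ico a b, (1 / (N:ℝ)) * (C * ((((b:ℝ) - a) + 1) / N)) := by
          apply sum_le_sum
          intro k hk'
          have hkn : k < n := by have := (Finset.mem_Ico.1 hk').2; omega
          rw [hd k hkn, ← mul_sub, norm_mul, norm_div, norm_one, Complex.norm_natCast]
          apply mul_le_mul_of_nonneg_left _ (by positivity)
          refine (hL.2.2 k m hkn hm).trans (mul_le_mul_of_nonneg_left ?_ hC)
          exact div_le_div_of_nonneg_right (hk k hk') hN0.le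
      _ = _ := by
        rw [sum_const, Nat.card_Ico, nsmul_eq_mul, Nat.cast_sub hab]; ring
  have hm' := abs_le.1 hmj
  rcases le_total j l with h | h
  · have h' : (j:ℝ) ≤ l := by exact_mod_cast h
    rw [abs_of_nonneg (by linarith)]
    apply key j l h hl
    intro k hk
    have k1 : (j:ℝ) ≤ k := by exact_mod_cast (Finset.mem_Ico.1 hk).1
    have k2 : (k:ℝ) + 1 ≤ l := by exact_mod_cast (Finset.mem_Ico.1 hk).2
    rw [abs_le]; constructor <;> linarith
  · have h' : (l:ℝ) ≤ j := by exact_mod_cast h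
    rw [abs_sub_comm, abs_of_nonneg (by linarith)]
    have e3 : f l - f j - ((((l:ℝ) - j) / N : ℝ) : ℂ) * d m =
        -(f j - f l - ((((j:ℝ) - l) / N : ℝ) : ℂ) * d m) := by
      push_cast; ring
    rw [e3, norm_neg]
    apply key l j h hj
    intro k hk
    have k1 : (l:ℝ) ≤ k := by exact_mod_cast (Finset.mem_Ico.1 hk).1
    have k2 : (k:ℝ) + 1 ≤ j := by exact_mod_cast (Finset.mem_Ico.1 hk).2
    rw [abs_le]; constructor <;> linarith

/-- the limit of the difference quotients is the derivative -/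
theorem glim_deriv {d : ℕ → ℕ → ℂ} {C' : ℝ} {k : ℕ}
    (hf : ∀ᶠ N in (𝒰 : Filter ℕ), BL N (N + 1 - k) C' (f N))
    (hd : ∀ᶠ N in (𝒰 : Filter ℕ), BL N (N + 1 - (k + 1)) C (d N))
    (hfd : ∀ᶠ N in (𝒰 : Filter ℕ), ∀ j < N + 1 - (k + 1), d N j = (N:ℂ) • (f N (j + 1) - f N j))
    {p : ℝ} (hp : p ∈ Icc (0:ℝ) 1) :
    HasDerivWithinAt (glim 𝒰 k f) (glim 𝒰 (k + 1) d p) (Icc 0 1) p := by
  have hC : 0 ≤ C := by
    obtain ⟨N, hN⟩ := hd.exists
    exact hN.1
  have key : ∀ q ∈ Icc (0:ℝ) 1, ‖glim 𝒰 k f q - glim 𝒰 k f p - ((q - p : ℝ) : ℂ) *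
      glim 𝒰 (k + 1) d p‖ ≤ C * (|q - p| * |q - p|) := by
    intro q hq
    have t1 : Tendsto (fun N => f N (idx N k q)) 𝒰 (𝓝 (glim 𝒰 k f q)) :=
      ulim_tendsto (glim_bound_seq h𝒰 hf q)
    have t2 : Tendsto (fun N => f N (idx N k p)) 𝒰 (𝓝 (glim 𝒰 k f p)) :=
      ulim_tendsto (glim_bound_seq h𝒰 hf p)
    have t3 : Tendsto (fun N => d N (idx N (k + 1) p)) 𝒰 (𝓝 (glim 𝒰 (k + 1) d p)) :=
      ulim_tendsto (glim_bound_seq h𝒰 hd p)
    have t4 : Tendsto (fun N => ((idx N k q : ℝ) - idx N k p) / N) 𝒰 (𝓝 (q - p)) := by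
      have := (idx_tendsto h𝒰 k hq).sub (idx_tendsto h𝒰 k hp)
      simpa only [← sub_div] using this
    have t5 : Tendsto (fun N => ((((idx N k q : ℝ) - idx N k p) / N : ℝ) : ℂ)) 𝒰
        (𝓝 ((q - p : ℝ) : ℂ)) := (Complex.continuous_ofReal.tendsto _).comp t4
    have t6 := ((t1.sub t2).sub (t5.mul t3)).norm
    have t7 : Tendsto (fun N => C * ((|((idx N k q : ℝ) - idx N k p) / N|) *
        (|((idx N k q : ℝ) - idx N k p) / N| + 1 / N))) 𝒰 (𝓝 (C * (|q - p| * (|q - p| + 0)))) :=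
      ((t4.abs).mul (t4.abs.add (tendsto_inv h𝒰 1))).const_mul C
    rw [add_zero] at t7
    refine le_of_tendsto_of_tendsto t6 t7 ?_
    filter_upwards [hd, hfd, ev_ge h𝒰 (k + 2)] with N hN hfdN hk
    have hN0' : 0 < N := by omega
    have hN0 : (0:ℝ) < N := by exact_mod_cast hN0'
    have hNc : (N:ℂ) ≠ 0 := by exact_mod_cast hN0'.ne'
    have h1 := grid_taylor (N := N) (n := N + 1 - (k + 1)) hN0' (f := f N) (d := d N) (C := C)
      (fun j hj => by
        rw [hfdN j hj, smul_eq_mul]; field_simp)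
      hN (j := idx N k p) (l := idx N k q)
      (by have := idx_lt (N := N) (k := k) (by omega) p; omega)
      (by have := idx_lt (N := N) (k := k) (by omega) q; omega)
      (m := idx N (k + 1) p)
      (by have := idx_lt (N := N) (k := k + 1) (by omega) p; omega)
      (by
        have a1 : idx N (k + 1) p ≤ idx N k p := by
          simp only [idx]; exact min_le_min (le_refl _) (by omega)
        have a2 : idx N k p ≤ idx N (k + 1) p + 1 := by
          simp only [idx]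
          rcases le_total ⌊p * N⌋₊ (N - (k + 1)) with h | h
          · rw [min_eq_left h]
            exact (min_le_left _ _).trans (by omega)
          · rw [min_eq_right h]
            exact (min_le_right _ _).trans (by omega)
        have a1' : (idx N (k + 1) p : ℝ) ≤ idx N k p := by exact_mod_cast a1
        have a2' : (idx N k p : ℝ) ≤ idx N (k + 1) p + 1 := by exact_mod_cast a2
        rw [abs_le]; constructor <;> linarith)
    refine h1.trans (le_of_eq ?_)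
    rw [abs_div, abs_of_pos hN0, add_div]
  have h2 : HasDerivWithinAt (glim 𝒰 k f) (glim 𝒰 (k + 1) d p) (Icc 0 1) p := by
    rw [hasDerivWithinAt_iff_isLittleO]
    have h1 : (fun w => glim 𝒰 k f w - glim 𝒰 k f p - (w - p) • glim 𝒰 (k + 1) d p)
        =O[𝓝[Icc 0 1] p] fun w => ‖w - p‖ ^ 2 := by
      refine Asymptotics.IsBigO.of_bound C ?_
      filter_upwards [self_mem_nhdsWithin] with w hw
      rw [norm_pow, norm_norm, Real.norm_eq_abs]
      have := key w hw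
      rw [Complex.real_smul, sq]
      exact this
    refine h1.trans_isLittleO ?_
    rw [Asymptotics.isLittleO_iff]
    intro c hc
    filter_upwards [mem_nhdsWithin_of_mem_nhds (Metric.ball_mem_nhds p hc)] with w hw
    rw [Metric.mem_ball, dist_eq_norm] at hw
    rw [norm_pow, norm_norm, sq]
    exact mul_le_mul_of_nonneg_right hw.le (norm_nonneg _)
  exact h2

end grid

end Run7.h661x
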